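import Pool.Agent.N446.E8.Stm

/-!
# Loops over fields of characteristic zero
-/

set_option autoImplicit false

namespace Pool.Agent.N446.E8

open MvPolynomial

/-- M0: closed walks of length eight over the power series. -/
def S_M0 : Prop := ∀ (F : Type) [Field F] [CharZero F] (S : Sys F),
  ∃ (p : Fin 4 → F) (x y : ℕ → PowerSeries F),
    (∀ n, IsAlgebraic (Polynomial F) (x n)) ∧ (∀ n, IsAlgebraic (Polynomial F) (y n)) ∧
    x 0 = PowerSeries.C (p 0) ∧ x 4 = x 0 ∧ y 4 = y 0 ∧
    S.walkP (fun i => PowerSeries.C (p i)) x y 4 = (fun i => PowerSeries.C (p i)) ∧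
    ∀ i j : ℕ, i < j → j < 4 →
      S.walkP (fun i => PowerSeries.C (p i)) x y i ≠ S.walkP (fun i => PowerSeries.C (p i)) x y j ∧
      S.walkL (fun i => PowerSeries.C (p i)) x y i ≠ S.walkL (fun i => PowerSeries.C (p i)) x y j

theorem alg_C {F : Type} [Field F] (c : F) : IsAlgebraic (Polynomial F) (PowerSeries.C c) := by
  have h : (PowerSeries.C c : PowerSeries F) = algebraMap (Polynomial F) (PowerSeries F) (Polynomial.C c) := by
    rw [PowerSeries.algebraMap_apply']
    simp
  rw [h]
  exact isAlgebraic_algebraMap _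

theorem alg_X {F : Type} [Field F] : IsAlgebraic (Polynomial F) (PowerSeries.X : PowerSeries F) := by
  have h : (PowerSeries.X : PowerSeries F) = algebraMap (Polynomial F) (PowerSeries F) Polynomial.X := by
    rw [PowerSeries.algebraMap_apply']
    simp
  rw [h]
  exact isAlgebraic_algebraMap _

theorem alg_coord {F : Type} [Field F] (c : F) {a : PowerSeries F}
    (ha : IsAlgebraic (Polynomial F) a) :
    IsAlgebraic (Polynomial F) (PowerSeries.C c + PowerSeries.X * a) :=
  (alg_C c).add (alg_X.mul ha)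

theorem cc_coord {F : Type} [Field F] (c : F) {a b : PowerSeries F}
    (h : PowerSeries.constantCoeff a ≠ PowerSeries.constantCoeff b) :
    PowerSeries.C c + PowerSeries.X * a ≠ PowerSeries.C c + PowerSeries.X * b := by
  intro h1
  have h2 := mul_left_cancel₀ PowerSeries.X_ne_zero (add_left_cancel h1)
  exact h (by rw [h2])

theorem cst_apply {F : Type} [Field F] (z : R F →ₐ[F] F) (g : R F) :
    cst z g = PowerSeries.C (z g) := by
  show algebraMap F (PowerSeries F) (z g) = _
  rw [PowerSeries.algebraMap_apply, Algebra.algebraMap_self_apply]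

theorem walkL_zero {K B : Type} [CommRing K] [CommRing B] [Algebra K B] (S : Sys K)
    (p : Fin 4 → B) (x y : ℕ → B) (n : ℕ) : S.walkL p x y n 0 = y n := rfl

theorem t_M0 (hFS : S_FS) (hRA : S_RA) (hGB : S_GB) (hGA : S_GA) (hND : S_ND) (hFL : S_FL)
    (hIT : S_IT) (hFW : S_FW) : S_M0 := by
  intro F _ _ S
  obtain ⟨hT, hΦ⟩ := hFS F S
  rcases hRA F S.A hT with ⟨z, hz⟩ | ⟨A', π, z, hT', hπ0, hπ1, hπV, hπW, hz⟩
  · obtain ⟨α, β, hL, hc⟩ := hGB F S.A S.phi hΦ z hz
    have hZ : vec (bZ S.A) z ≠ 0 := by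
      intro h0
      obtain ⟨a, b, n1, n2, n3, c10, c01, -, -, h1, -⟩ := hz
      rw [h0, dotProduct_zero] at h1
      exact zero_ne_one h1
    have hnd := hND F S z hZ α β hL hc
    obtain ⟨a0, a4, b0, b4, ha, hb, hst⟩ := hL
    refine ⟨![z (X 0), z (X 2), z (X 3), z (X 4)], fun n => PowerSeries.C (z (X 0)) + PowerSeries.X * α n,
      fun n => PowerSeries.C (z (X 1)) + PowerSeries.X * β n, fun n => alg_coord _ (ha n),
      fun n => alg_coord _ (hb n), ?_, ?_, ?_, ?_, hnd⟩
    · simp [a0]
    · simp [a0, a4]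
    · simp [b0, b4]
    · have h1 := hFW F S (PowerSeries F) (cst z) (fun n => PowerSeries.C (z (X 0)) + PowerSeries.X * α n)
        (fun n => PowerSeries.C (z (X 1)) + PowerSeries.X * β n) (by simp [a0, cst_apply])
        (by simp [b0, cst_apply]) 4
      have e : (fun i => PowerSeries.C ((![z (X 0), z (X 2), z (X 3), z (X 4)] : Fin 4 → F) i)) =
          ![cst z (X 0), cst z (X 2), cst z (X 3), cst z (X 4)] := by
        funext i
        fin_cases i <;> simp [cst_apply]
      rw [e, h1.1, hst]
  · obtain ⟨Φ', hΦ'⟩ := hFL F A' hT'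
    obtain ⟨α, β, hL, hc⟩ := hGA F A' Φ' hΦ' z hz
    obtain ⟨a0, a4, b0, b4, ha, hb, hst⟩ := hL
    set x : ℕ → PowerSeries F := fun n => PowerSeries.C (z (X 0)) + PowerSeries.X * α n with hx
    set y : ℕ → PowerSeries F := fun n => PowerSeries.C (z (X 1)) + PowerSeries.X * β n with hy
    have hit := hIT F S.A A' S.phi Φ' hΦ hΦ' π hπV hπW (PowerSeries F) (cst z) x y 4
    set z' : R F →ₐ[F] F := z.comp π with hz'
    have hcst : (cst z).comp π = cst z' := by
      apply AlgHom.ext
      intro g
      rw [AlgHom.comp_apply, cst_apply, cst_apply]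
      rfl
    rw [hst, hcst] at hit
    have e0 : z' (X 0) = z (X 0) := by rw [hz', AlgHom.comp_apply, hπ0]
    have e1 : z' (X 1) = z (X 1) := by rw [hz', AlgHom.comp_apply, hπ1]
    have h1 := hFW F S (PowerSeries F) (cst z') x y (by simp [hx, a0, cst_apply, e0])
        (by simp [hy, b0, cst_apply, e1]) 
    have e : (fun i => PowerSeries.C ((![z' (X 0), z' (X 2), z' (X 3), z' (X 4)] : Fin 4 → F) i)) =
          ![cst z' (X 0), cst z' (X 2), cst z' (X 3), cst z' (X 4)] := by
        funext i
        fin_cases i <;> simp [cst_apply]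
    refine ⟨![z' (X 0), z' (X 2), z' (X 3), z' (X 4)], x, y, fun n => alg_coord _ (ha n),
      fun n => alg_coord _ (hb n), ?_, ?_, ?_, ?_, ?_⟩
    · simp [hx, a0, e0]
    · simp [hx, a0, a4]
    · simp [hy, b0, b4]
    · rw [e, (h1 4).1, ← hit]
    · intro i j hij hj
      rw [e]
      constructor
      · intro h2
        have h3 := congrArg (fun v => v 0) h2
        simp only [(h1 i).1, (h1 j).1] at h3
        simp only [Matrix.cons_val_zero, (h1 i).2.1, (h1 j).2.1] at h3
        exact cc_coord _ (hc i j hij hj).1 h3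
      · intro h2
        have h3 := congrArg (fun v => v 0) h2
        simp only [walkL_zero] at h3
        exact cc_coord _ (hc i j hij hj).2 h3

end Pool.Agent.N446.E8
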