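import Pool.Agent.N446.E8.Asm0

/-!
# From power series to finite fields
-/

set_option autoImplicit false

namespace Pool.Agent.N446.E8

open MvPolynomial

namespace Sys

variable {K K' B B' : Type} [CommRing K] [CommRing K'] [CommRing B] [CommRing B']
  [Algebra K B] [Algebra K' B']

/-- change of the ring of coefficients -/
noncomputable def map (S : Sys K) (h : K →+* K') : Sys K' :=
  ⟨MvPolynomial.map h S.f₂, MvPolynomial.map h S.f₃, MvPolynomial.map h S.f₄⟩

theorem aeval_map' {σ : Type} (h₀ : K →+* K') (h : B →+* B')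
    (hc : ∀ c, h (algebraMap K B c) = algebraMap K' B' (h₀ c)) (v : σ → B) (w : σ → B')
    (hw : ∀ i, h (v i) = w i) (f : MvPolynomial σ K) :
    aeval w (MvPolynomial.map h₀ f) = h (aeval v f) := by
  rw [aeval_def, eval₂_map, aeval_def, hom_eval₂]
  have e1 : (algebraMap K' B').comp h₀ = h.comp (algebraMap K B) :=
    RingHom.ext fun c => (hc c).symm
  have e2 : w = fun i => h (v i) := funext fun i => (hw i).symm
  rw [e1, e2]

theorem lineOf_map (S : Sys K) (h₀ : K →+* K') (h : B →+* B')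
    (hc : ∀ c, h (algebraMap K B c) = algebraMap K' B' (h₀ c)) (p : Fin 4 → B) (y : B) :
    (S.map h₀).lineOf (fun i => h (p i)) (h y) = fun i => h (S.lineOf p y i) := by
  have h2 : aeval ![h (p 0), h y] (S.map h₀).f₂ - h (p 1) = h (aeval ![p 0, y] S.f₂ - p 1) := by
    refine Eq.trans ?_ (map_sub h _ _).symm
    refine congrArg₂ (· - ·) ?_ rfl
    exact aeval_map' h₀ h hc _ _ (by intro i; fin_cases i <;> rfl) _
  have h3 : aeval ![h (p 0), h y, h (p 1), h (aeval ![p 0, y] S.f₂ - p 1)] (S.map h₀).f₃ - h (p 2) =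
      h (aeval ![p 0, y, p 1, aeval ![p 0, y] S.f₂ - p 1] S.f₃ - p 2) := by
    refine Eq.trans ?_ (map_sub h _ _).symm
    refine congrArg₂ (· - ·) ?_ rfl
    exact aeval_map' h₀ h hc _ _ (by intro i; fin_cases i <;> rfl) _
  funext i
  unfold lineOf
  simp only [h2, h3]
  fin_cases i
  · rfl
  · rfl
  · rfl
  · show _ - _ = h (_ - _)
    refine Eq.trans ?_ (map_sub h _ _).symm
    refine congrArg₂ (· - ·) ?_ rfl
    exact aeval_map' h₀ h hc _ _ (by intro i; fin_cases i <;> rfl) _

theorem pointOf_map (S : Sys K) (h₀ : K →+* K') (h : B →+* B')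
    (hc : ∀ c, h (algebraMap K B c) = algebraMap K' B' (h₀ c)) (l : Fin 4 → B) (x : B) :
    (S.map h₀).pointOf (fun i => h (l i)) (h x) = fun i => h (S.pointOf l x i) := by
  have h2 : aeval ![h x, h (l 0)] (S.map h₀).f₂ - h (l 1) = h (aeval ![x, l 0] S.f₂ - l 1) := by
    refine Eq.trans ?_ (map_sub h _ _).symm
    refine congrArg₂ (· - ·) ?_ rfl
    exact aeval_map' h₀ h hc _ _ (by intro i; fin_cases i <;> rfl) _
  have h3 : aeval ![h x, h (l 0), h (aeval ![x, l 0] S.f₂ - l 1), h (l 1)] (S.map h₀).f₃ - h (l 2) =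
      h (aeval ![x, l 0, aeval ![x, l 0] S.f₂ - l 1, l 1] S.f₃ - l 2) := by
    refine Eq.trans ?_ (map_sub h _ _).symm
    refine congrArg₂ (· - ·) ?_ rfl
    exact aeval_map' h₀ h hc _ _ (by intro i; fin_cases i <;> rfl) _
  funext i
  unfold pointOf
  simp only [h2, h3]
  fin_cases i
  · rfl
  · rfl
  · rfl
  · show _ - _ = h (_ - _)
    refine Eq.trans ?_ (map_sub h _ _).symm
    refine congrArg₂ (· - ·) ?_ rfl
    exact aeval_map' h₀ h hc _ _ (by intro i; fin_cases i <;> rfl) _

theorem walkP_map (S : Sys K) (h₀ : K →+* K') (h : B →+* B')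
    (hc : ∀ c, h (algebraMap K B c) = algebraMap K' B' (h₀ c)) (p : Fin 4 → B) (x y : ℕ → B)
    (n : ℕ) : (S.map h₀).walkP (fun i => h (p i)) (fun n => h (x n)) (fun n => h (y n)) n =
      fun i => h (S.walkP p x y n i) := by
  induction n with
  | zero => rfl
  | succ n ih =>
    show (S.map h₀).pointOf ((S.map h₀).lineOf _ _) _ = _
    rw [ih, lineOf_map S h₀ h hc, pointOf_map S h₀ h hc]
    rfl

theorem walkL_map (S : Sys K) (h₀ : K →+* K') (h : B →+* B')
    (hc : ∀ c, h (algebraMap K B c) = algebraMap K' B' (h₀ c)) (p : Fin 4 → B) (x y : ℕ → B)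
    (n : ℕ) : (S.map h₀).walkL (fun i => h (p i)) (fun n => h (x n)) (fun n => h (y n)) n =
      fun i => h (S.walkL p x y n i) := by
  unfold walkL
  rw [walkP_map S h₀ h hc, lineOf_map S h₀ h hc]

theorem walkP_congr (S : Sys K) (p : Fin 4 → B) (x y x' y' : ℕ → B) (n : ℕ)
    (hx : ∀ j ≤ n, x j = x' j) (hy : ∀ j ≤ n, y j = y' j) :
    S.walkP p x y n = S.walkP p x' y' n := by
  induction n with
  | zero => rfl
  | succ n ih =>
    show S.pointOf (S.lineOf _ _) _ = S.pointOf (S.lineOf _ _) _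
    rw [ih (fun j hj => hx j (by omega)) (fun j hj => hy j (by omega)), hx (n + 1) le_rfl,
      hy n (by omega)]

theorem walkL_congr (S : Sys K) (p : Fin 4 → B) (x y x' y' : ℕ → B) (n : ℕ)
    (hx : ∀ j ≤ n, x j = x' j) (hy : ∀ j ≤ n, y j = y' j) :
    S.walkL p x y n = S.walkL p x' y' n := by
  unfold walkL
  rw [walkP_congr S p x y x' y' n hx hy, hy n le_rfl]

end Sys

/-! ### Polynomials of bounded degree -/

/-- indices of the coefficients -/
abbrev Idx (D : ℕ) : Type := (Fin 2 → Fin (D + 1)) ⊕ (Fin 4 → Fin (D + 1)) ⊕ (Fin 6 → Fin (D + 1))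

/-- the monomials -/
noncomputable def mon {k D : ℕ} (m : Fin k → Fin (D + 1)) : Fin k →₀ ℕ :=
  Finsupp.equivFunOnFinite.symm (fun i => (m i : ℕ))

/-- the system with given coefficients -/
noncomputable def ofCoeff {Q : Type} [CommRing Q] (D : ℕ) (v : Idx D → Q) : Sys Q :=
  ⟨∑ m : Fin 2 → Fin (D + 1), monomial (mon m) (v (Sum.inl m)),
   ∑ m : Fin 4 → Fin (D + 1), monomial (mon m) (v (Sum.inr (Sum.inl m))),
   ∑ m : Fin 6 → Fin (D + 1), monomial (mon m) (v (Sum.inr (Sum.inr m)))⟩

theorem ofCoeff_map {Q Q' : Type} [CommRing Q] [CommRing Q'] (D : ℕ) (v : Idx D → Q)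
    (h : Q →+* Q') : (ofCoeff D v).map h = ofCoeff D (fun i => h (v i)) := by
  unfold ofCoeff Sys.map
  simp only [map_sum, map_monomial]

theorem poly_eq {Q : Type} [CommRing Q] {k D : ℕ} (f : MvPolynomial (Fin k) Q)
    (hf : f.totalDegree ≤ D) :
    f = ∑ m : Fin k → Fin (D + 1), monomial (mon m) (coeff (mon m) f) := by
  classical
  apply MvPolynomial.ext
  intro n
  rw [coeff_sum]
  simp only [coeff_monomial]
  by_cases hn : ∀ i, n i < D + 1
  · rw [Finset.sum_eq_single (fun i => (⟨n i, hn i⟩ : Fin (D + 1)))]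
    · have e : mon (fun i => (⟨n i, hn i⟩ : Fin (D + 1))) = n := by
        ext i
        rfl
      rw [if_pos e, e]
    · intro m _ hm
      rw [if_neg]
      intro h
      apply hm
      funext i
      apply Fin.ext
      show (m i : ℕ) = n i
      rw [← h]
      rfl
    · intro h
      exact absurd (Finset.mem_univ _) h
  · rw [Finset.sum_eq_zero]
    · push Not at hn
      obtain ⟨i, hi⟩ := hn
      by_contra h
      have h1 : n ∈ f.support := by
        rw [mem_support_iff]
        exact h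
      have h2 := le_totalDegree h1
      have h3 : n i ≤ n.sum fun _ e => e := by
        by_cases h0 : n i = 0
        · rw [h0]
          exact Nat.zero_le _
        · exact Finset.single_le_sum (f := fun j => n j) (fun _ _ => Nat.zero_le _)
            (Finsupp.mem_support_iff.2 h0)
      omega
    · intro m _
      rw [if_neg]
      intro h
      apply hn
      intro i
      rw [← h]
      exact (m i).2

theorem exists_ofCoeff {Q : Type} [CommRing Q] {D : ℕ} (S : Sys Q)
    (h2 : S.f₂.totalDegree ≤ D) (h3 : S.f₃.totalDegree ≤ D) (h4 : S.f₄.totalDegree ≤ D) :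
    ∃ v : Idx D → Q, S = ofCoeff D v := by
  refine ⟨Sum.elim (fun m => coeff (mon m) S.f₂) (Sum.elim (fun m => coeff (mon m) S.f₃)
    (fun m => coeff (mon m) S.f₄)), ?_⟩
  obtain ⟨f₂, f₃, f₄⟩ := S
  unfold ofCoeff
  simp only [Sum.elim_inl, Sum.elim_inr]
  congr 1
  · exact poly_eq f₂ h2
  · exact poly_eq f₃ h3
  · exact poly_eq f₄ h4

/-- a witness for finitely many inequalities -/
theorem exists_wit {Q : Type} [CommRing Q] [IsDomain Q] {ι : Type} (s : Finset ι)
    (u v : ι → Fin 4 → Q) (h : ∀ i ∈ s, u i ≠ v i) :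
    ∃ b : Q, b ≠ 0 ∧ ∀ (k : Type) [Field k] (θ : Q →+* k), θ b ≠ 0 →
      ∀ i ∈ s, (fun j => θ (u i j)) ≠ fun j => θ (v i j) := by
  classical
  induction s using Finset.induction_on with
  | empty => exact ⟨1, one_ne_zero, fun k _ θ _ i hi => absurd hi (Finset.notMem_empty i)⟩
  | insert a s ha ih =>
    obtain ⟨b, hb, hb'⟩ := ih fun i hi => h i (Finset.mem_insert_of_mem hi)
    obtain ⟨c, hc⟩ := Function.ne_iff.1 (h a (Finset.mem_insert_self a s))
    refine ⟨b * (u a c - v a c), mul_ne_zero hb (sub_ne_zero.2 hc), ?_⟩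
    intro k _ θ hθ i hi
    rw [map_mul] at hθ
    rcases Finset.mem_insert.1 hi with rfl | hi
    · intro h1
      apply right_ne_zero_of_mul hθ
      rw [map_sub, sub_eq_zero]
      exact congrFun h1 c
    · exact hb' k θ (left_ne_zero_of_mul hθ) i hi

end Pool.Agent.N446.E8
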