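import Pool.Agent.N446.E8.Asm1

/-!
# The main theorem
-/

set_option autoImplicit false

namespace Pool.Agent.N446.E8

open MvPolynomial

/-- the main theorem, for coefficient functions -/
theorem main_F (hM0 : S_M0) (hT1 : S_T1) (hC8 : S_C8) (D : ℕ)
    (Fs : ℕ → Type) [∀ n, Field (Fs n)] [∀ n, Finite (Fs n)] (hchar : ∀ n, n ≤ ringChar (Fs n))
    (v : ∀ n, Idx D → Fs n)
    (hfree : ∀ n, (SimpleGraph.cycleGraph 8).Free (ofCoeff D (v n)).graph)
    (F : Type) [Field F] [CharZero F] (um : (∀ n, Fs n) →+* F) (hum : Function.Surjective um)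
    (hT2 : ∀ (Sg : Finset F) (a : Subring.closure (Sg : Set F)), a ≠ 0 →
      ∀ C : Finset (∀ n, Fs n), ∀ hC : ∀ c ∈ C, um c ∈ Subring.closure (Sg : Set F),
      ∀ᶠ n in (Filter.hyperfilter ℕ : Filter ℕ), ∃ φ : Subring.closure (Sg : Set F) →+* Fs n,
        (∀ c (hc : c ∈ C), φ ⟨um c, hC c hc⟩ = c n) ∧ φ a ≠ 0) : False := by
  classical
  let vt : Idx D → ∀ n, Fs n := fun i n => v n i
  set S : Sys F := ofCoeff D (fun i => um (vt i)) with hS
  obtain ⟨p, x, y, hx, hy, hx0, hx4, hy4, hcl, hdist⟩ := hM0 F S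
  let T : Finset (PowerSeries F) := (Finset.range 5).image x ∪ (Finset.range 5).image y
  let C : Finset F := Finset.univ.image (fun i => um (vt i)) ∪ Finset.univ.image p
  have hT : ∀ z ∈ T, IsAlgebraic (Polynomial F) z := by
    intro z hz
    rcases Finset.mem_union.1 hz with h | h
    · obtain ⟨n, -, rfl⟩ := Finset.mem_image.1 h
      exact hx n
    · obtain ⟨n, -, rfl⟩ := Finset.mem_image.1 h
      exact hy n
  have hxT : ∀ n, n < 5 → x n ∈ rgn C T := fun n hn => Subring.subset_closure (Or.inl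
    (Finset.mem_coe.2 (Finset.mem_union_left _ (Finset.mem_image_of_mem _ (Finset.mem_range.2 hn)))))
  have hyT : ∀ n, n < 5 → y n ∈ rgn C T := fun n hn => Subring.subset_closure (Or.inl
    (Finset.mem_coe.2 (Finset.mem_union_right _ (Finset.mem_image_of_mem _ (Finset.mem_range.2 hn)))))
  have hCC : ∀ c ∈ C, PowerSeries.C c ∈ rgn C T := fun c hc =>
    Subring.subset_closure (Or.inr ⟨c, Finset.mem_coe.2 hc, rfl⟩)
  have hvC : ∀ i, um (vt i) ∈ C := fun i =>
    Finset.mem_union_left _ (Finset.mem_image_of_mem (fun i => um (vt i)) (Finset.mem_univ i))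
  have hpC : ∀ i, p i ∈ C := fun i =>
    Finset.mem_union_right _ (Finset.mem_image_of_mem _ (Finset.mem_univ i))
  let xr : ℕ → rgn C T := fun n => if h : n < 5 then ⟨x n, hxT n h⟩ else 0
  let yr : ℕ → rgn C T := fun n => if h : n < 5 then ⟨y n, hyT n h⟩ else 0
  let pr : Fin 4 → rgn C T := fun i => ⟨PowerSeries.C (p i), hCC _ (hpC i)⟩
  let vr : Idx D → rgn C T := fun i => ⟨PowerSeries.C (um (vt i)), hCC _ (hvC i)⟩
  let Sr : Sys (rgn C T) := ofCoeff D vr
  let ι : rgn C T →+* PowerSeries F := (rgn C T).subtype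
  have hι : Function.Injective ι := Subtype.val_injective
  have hxr : ∀ n, n < 5 → ι (xr n) = x n := by
    intro n hn
    show ι (dite _ _ _) = _
    rw [dif_pos hn]
    rfl
  have hyr : ∀ n, n < 5 → ι (yr n) = y n := by
    intro n hn
    show ι (dite _ _ _) = _
    rw [dif_pos hn]
    rfl
  -- the walk over the ring and over the power series
  have hSι : Sr.map ι = S.map PowerSeries.C := by
    show (ofCoeff D vr).map ι = (ofCoeff D _).map PowerSeries.C
    rw [ofCoeff_map, ofCoeff_map]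
    rfl
  have hwP : ∀ n, n < 5 → (fun j => ι (Sr.walkP pr xr yr n j)) =
      S.walkP (fun i => PowerSeries.C (p i)) x y n := by
    intro n hn
    have h1 := Sys.walkP_map Sr ι ι (fun c => rfl) pr xr yr n
    have h2 := Sys.walkP_map (B := PowerSeries F) (B' := PowerSeries F) S PowerSeries.C
      (RingHom.id (PowerSeries F)) (fun c => by
        rw [RingHom.id_apply, PowerSeries.algebraMap_apply, Algebra.algebraMap_self_apply]
        rfl) (fun i => PowerSeries.C (p i)) x y n
    rw [← h1, hSι]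
    refine Eq.trans ?_ h2
    exact Sys.walkP_congr _ _ _ _ _ _ n (fun j hj => hxr j (by omega)) (fun j hj => hyr j (by omega))
  have hwL : ∀ n, n < 5 → (fun j => ι (Sr.walkL pr xr yr n j)) =
      S.walkL (fun i => PowerSeries.C (p i)) x y n := by
    intro n hn
    have h1 := Sys.walkL_map Sr ι ι (fun c => rfl) pr xr yr n
    have h2 := Sys.walkL_map (B := PowerSeries F) (B' := PowerSeries F) S PowerSeries.C
      (RingHom.id (PowerSeries F)) (fun c => by
        rw [RingHom.id_apply, PowerSeries.algebraMap_apply, Algebra.algebraMap_self_apply]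
        rfl) (fun i => PowerSeries.C (p i)) x y n
    rw [← h1, hSι]
    refine Eq.trans ?_ h2
    exact Sys.walkL_congr _ _ _ _ _ _ n (fun j hj => hxr j (by omega)) (fun j hj => hyr j (by omega))
  -- the witness
  let prs : Finset (ℕ × ℕ) := ((Finset.range 4) ×ˢ (Finset.range 4)).filter (fun e => e.1 < e.2)
  have hprs : ∀ i j : ℕ, i < j → j < 4 → (i, j) ∈ prs := fun i j h1 h2 =>
    Finset.mem_filter.2 ⟨Finset.mem_product.2 ⟨Finset.mem_range.2 (by omega),
      Finset.mem_range.2 h2⟩, h1⟩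
  have hprs' : ∀ e ∈ prs, e.1 < e.2 ∧ e.2 < 4 := fun e he =>
    ⟨(Finset.mem_filter.1 he).2, Finset.mem_range.1 (Finset.mem_product.1 (Finset.mem_filter.1 he).1).2⟩
  obtain ⟨b1, hb1, hb1'⟩ := exists_wit prs (fun e => Sr.walkP pr xr yr e.1)
    (fun e => Sr.walkP pr xr yr e.2) (by
      intro e he h
      obtain ⟨h1, h2⟩ := hprs' e he
      apply (hdist e.1 e.2 h1 h2).1
      rw [← hwP e.1 (by omega), ← hwP e.2 (by omega)]
      funext j
      exact congrArg ι (congrFun h j))
  obtain ⟨b2, hb2, hb2'⟩ := exists_wit prs (fun e => Sr.walkL pr xr yr e.1)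
    (fun e => Sr.walkL pr xr yr e.2) (by
      intro e he h
      obtain ⟨h1, h2⟩ := hprs' e he
      apply (hdist e.1 e.2 h1 h2).2
      rw [← hwL e.1 (by omega), ← hwL e.2 (by omega)]
      funext j
      exact congrArg ι (congrFun h j))
  -- specialization
  obtain ⟨Sg, hSg, a, N, ha, hk⟩ := hT1 F C T hT (b1 * b2) (mul_ne_zero hb1 hb2)
  choose pt hpt using fun i : Fin 4 => hum (p i)
  let C' : Finset (∀ n, Fs n) := Finset.univ.image vt ∪ Finset.univ.image pt
  have hC' : ∀ c ∈ C', um c ∈ C := by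
    intro c hc
    rcases Finset.mem_union.1 hc with h | h
    · obtain ⟨i, -, rfl⟩ := Finset.mem_image.1 h
      exact hvC i
    · obtain ⟨i, -, rfl⟩ := Finset.mem_image.1 h
      have e : um (pt i) = p i := hpt i
      rw [e]
      exact hpC i
  have hC'' : ∀ c ∈ C', um c ∈ Subring.closure (Sg : Set F) := fun c hc =>
    Subring.subset_closure (Finset.mem_coe.2 (hSg (hC' c hc)))
  have hev := hT2 Sg a ha C' hC''
  have hbig : ∀ᶠ n in (Filter.hyperfilter ℕ : Filter ℕ), N ≤ n := by
    apply Filter.hyperfilter_le_cofinite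
    rw [Filter.mem_cofinite]
    apply (Set.finite_lt_nat N).subset
    intro n hn
    simp only [Set.mem_compl_iff, Set.mem_setOf_eq, not_le] at hn
    exact hn
  obtain ⟨n, ⟨φ, hφ, hφa⟩, hn⟩ := (hev.and hbig).exists
  have hcard : N ≤ Nat.card (Fs n) := by
    refine hn.trans ((hchar n).trans ?_)
    haveI := Fintype.ofFinite (Fs n)
    rw [Nat.card_eq_fintype_card]
    have h1 : ((Fintype.card (Fs n) : ℕ) : Fs n) = 0 := Nat.cast_card_eq_zero (Fs n)
    exact Nat.le_of_dvd Fintype.card_pos ((ringChar.spec (Fs n) _).1 h1)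
  obtain ⟨θ, hθb, hθc⟩ := hk (Fs n) hcard φ hφa
  rw [map_mul] at hθb
  have hb1θ := hb1' (Fs n) θ (left_ne_zero_of_mul hθb)
  have hb2θ := hb2' (Fs n) θ (right_ne_zero_of_mul hθb)
  have hSn : Sr.map θ = ofCoeff D (v n) := by
    show (ofCoeff D vr).map θ = _
    rw [ofCoeff_map]
    congr 1
    funext i
    have h1 := hθc (um (vt i)) (hvC i)
    have h2 := hφ (vt i) (Finset.mem_union_left _ (Finset.mem_image_of_mem vt (Finset.mem_univ i)))
    exact h1.trans h2
  have hw1 := Sys.walkP_map Sr θ θ (fun c => rfl) pr xr yr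
  have hw2 := Sys.walkL_map Sr θ θ (fun c => rfl) pr xr yr
  rw [hSn] at hw1 hw2
  refine hC8 (Fs n) (ofCoeff D (v n)) (fun i => θ (pr i)) (fun n => θ (xr n)) (fun n => θ (yr n))
    ?_ ?_ ?_ ?_ ?_ (hfree n)
  · show θ (xr 0) = θ (pr 0)
    congr 1
    apply hι
    rw [hxr 0 (by norm_num), hx0]
    rfl
  · show θ (xr 4) = θ (xr 0)
    congr 1
    apply hι
    rw [hxr 0 (by norm_num), hxr 4 (by norm_num), hx4]
  · show θ (yr 4) = θ (yr 0)
    congr 1
    apply hι
    rw [hyr 0 (by norm_num), hyr 4 (by norm_num), hy4]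
  · rw [hw1 4]
    funext j
    congr 1
    apply hι
    have h1 := congrFun (hwP 4 (by norm_num)) j
    rw [hcl] at h1
    exact h1
  · intro i j hij hj
    constructor
    · rw [hw1 i, hw1 j]
      exact hb1θ (i, j) (hprs i j hij hj)
    · rw [hw2 i, hw2 j]
      exact hb2θ (i, j) (hprs i j hij hj)

theorem main_coeff (hM0 : S_M0) (hUM : S_UM) (hT1 : S_T1) (hT2 : S_T2) (hC8 : S_C8) (D : ℕ)
    (Fs : ℕ → Type) [∀ n, Field (Fs n)] [∀ n, Finite (Fs n)] (hchar : ∀ n, n ≤ ringChar (Fs n))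
    (v : ∀ n, Idx D → Fs n)
    (hfree : ∀ n, (SimpleGraph.cycleGraph 8).Free (ofCoeff D (v n)).graph) : False := by
  classical
  have hpos : ∀ n, 0 < ringChar (Fs n) := by
    intro n
    have h1 : ringChar (Fs n) ≠ 0 := by
      intro h0
      have : CharZero (Fs n) := by
        have h2 : CharP (Fs n) 0 := h0 ▸ ringChar.charP (Fs n)
        exact CharP.charP_to_charZero (Fs n)
      exact (Infinite.of_injective (Nat.cast : ℕ → Fs n) Nat.cast_injective).not_finite inferInstance
    omega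
  have hmax : (UI Fs).IsMaximal := (hUM Fs).1
  have hch : CharZero (UF Fs) := (hUM Fs).2 hchar hpos
  exact @main_F hM0 hT1 hC8 D Fs _ _ hchar v hfree (UF Fs) (Ideal.Quotient.field (UI Fs)) hch
    (Ideal.Quotient.mk (UI Fs)) Ideal.Quotient.mk_surjective
    (fun Sg a ha C hC => hT2 Fs Sg a ha C hC)

/-- **The main theorem.** -/
theorem main (hM0 : S_M0) (hUM : S_UM) (hT1 : S_T1) (hT2 : S_T2) (hC8 : S_C8) (D : ℕ) :
    ∃ N : ℕ, ∀ (K : Type) [Field K] [Finite K], N ≤ ringChar K → ∀ S : Sys K,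
      S.f₂.totalDegree ≤ D → S.f₃.totalDegree ≤ D → S.f₄.totalDegree ≤ D →
      ¬ (SimpleGraph.cycleGraph 8).Free S.graph := by
  classical
  by_contra hcon
  push Not at hcon
  choose Fs hfield hfin hchar S h2 h3 h4 hfree using hcon
  choose v hv using fun n => exists_ofCoeff (S n) (h2 n) (h3 n) (h4 n)
  exact main_coeff hM0 hUM hT1 hT2 hC8 D Fs hchar v (fun n => by
    rw [← hv n]
    exact not_nonempty_iff.2 (hfree n))

end Pool.Agent.N446.E8
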