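import Pool.Agent.N446.E8.Asm2

/-!
# The numbers of vertices and edges
-/

set_option autoImplicit false

namespace Pool.Agent.N446.E8

open MvPolynomial

namespace Sys

variable {K : Type} [Field K] (S : Sys K)

theorem inc_iff (p l : Fin 4 → K) : S.Inc p l ↔ l = S.lineOf p (l 0) := by
  unfold Inc lineOf
  simp only [MvPolynomial.aeval_eq_eval]
  constructor
  · rintro ⟨h1, h2, h3⟩
    have e1 : l 1 = eval ![p 0, l 0] S.f₂ - p 1 := by rw [← h1]; ring
    have e2 : l 2 = eval ![p 0, l 0, p 1, eval ![p 0, l 0] S.f₂ - p 1] S.f₃ - p 2 := by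
      rw [← e1, ← h2]; ring
    have e3 : l 3 = eval ![p 0, l 0, p 1, eval ![p 0, l 0] S.f₂ - p 1, p 2,
        eval ![p 0, l 0, p 1, eval ![p 0, l 0] S.f₂ - p 1] S.f₃ - p 2] S.f₄ - p 3 := by
      rw [← e2, ← e1, ← h3]; ring
    funext i
    fin_cases i
    · rfl
    · exact e1
    · exact e2
    · exact e3
  · intro h
    have e1 : l 1 = eval ![p 0, l 0] S.f₂ - p 1 := congrFun h 1
    have e2 : l 2 = eval ![p 0, l 0, p 1, eval ![p 0, l 0] S.f₂ - p 1] S.f₃ - p 2 := congrFun h 2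
    have e3 : l 3 = eval ![p 0, l 0, p 1, eval ![p 0, l 0] S.f₂ - p 1, p 2,
        eval ![p 0, l 0, p 1, eval ![p 0, l 0] S.f₂ - p 1] S.f₃ - p 2] S.f₄ - p 3 := congrFun h 3
    rw [← e1] at e2 e3
    rw [← e2] at e3
    refine ⟨by rw [e1]; ring, by rw [e2]; ring, by rw [e3]; ring⟩

theorem card_edges [Finite K] : S.graph.edgeSet.ncard = Nat.card K ^ 5 := by
  classical
  let φ : (Fin 4 → K) × K → Sym2 ((Fin 4 → K) ⊕ (Fin 4 → K)) := fun e =>
    s(Sum.inl e.1, Sum.inr (S.lineOf e.1 e.2))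
  have hφ : Function.Injective φ := by
    rintro ⟨p, y⟩ ⟨p', y'⟩ h
    rcases Sym2.eq_iff.1 h with ⟨h1, h2⟩ | ⟨h1, h2⟩
    · have h3 : p = p' := Sum.inl.inj h1
      have h4 := congrFun (Sum.inr.inj h2) 0
      have h5 : y = y' := h4
      rw [h3, h5]
    · exact absurd h1 (by simp)
  have hrange : S.graph.edgeSet = Set.range φ := by
    ext e
    constructor
    · refine Sym2.ind (fun a b => ?_) e
      intro h
      rw [SimpleGraph.mem_edgeSet] at h
      rcases a with p | l <;> rcases b with p' | l'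
      · exact absurd h (fun h => h)
      · have h1 : S.Inc p l' := h
        rw [inc_iff] at h1
        exact ⟨(p, l' 0), by show s(Sum.inl p, Sum.inr (S.lineOf p (l' 0))) = _; rw [← h1]⟩
      · have h1 : S.Inc p' l := h
        rw [inc_iff] at h1
        exact ⟨(p', l 0), by
          show s(Sum.inl p', Sum.inr (S.lineOf p' (l 0))) = _
          rw [← h1, Sym2.eq_swap]⟩
      · exact absurd h (fun h => h)
    · rintro ⟨⟨p, y⟩, rfl⟩
      show s(Sum.inl p, Sum.inr (S.lineOf p y)) ∈ S.graph.edgeSet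
      rw [SimpleGraph.mem_edgeSet]
      show S.Inc p (S.lineOf p y)
      rw [inc_iff]
      rfl
  rw [hrange, ← Set.image_univ, Set.ncard_image_of_injective _ hφ, Set.ncard_univ, Nat.card_prod,
    Nat.card_fun, Nat.card_eq_fintype_card (α := Fin 4), Fintype.card_fin]
  ring

theorem card_vertices [Finite K] : Nat.card ((Fin 4 → K) ⊕ (Fin 4 → K)) = 2 * Nat.card K ^ 4 := by
  rw [Nat.card_sum, Nat.card_fun, Nat.card_eq_fintype_card (α := Fin 4), Fintype.card_fin]
  ring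

end Sys

theorem real_count (q : ℕ) : ((q ^ 5 : ℕ) : ℝ) = ((2 : ℝ) ^ (5 / 4 : ℝ))⁻¹ * ((2 * q ^ 4 : ℕ) : ℝ) ^ (1 + 1 / 4 : ℝ) := by
  have h1 : (1 + 1 / 4 : ℝ) = 5 / 4 := by norm_num
  have h2 : (((q : ℝ) ^ 4) ^ (5 / 4 : ℝ)) = (q : ℝ) ^ 5 := by
    rw [← Real.rpow_natCast, ← Real.rpow_mul (Nat.cast_nonneg q), ← Real.rpow_natCast]
    norm_num
  push_cast
  rw [h1, Real.mul_rpow (by norm_num) (by positivity), h2, ← mul_assoc,
    inv_mul_cancel₀ (by positivity), one_mul]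

end Pool.Agent.N446.E8
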