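import Mathlib

/-!
# Algebraically defined graphs and cycles of length eight: definitions
-/

set_option autoImplicit false

namespace Pool.Agent.N446.E8

open MvPolynomial

/-! ### The graphs -/

/-- the three polynomials of an algebraically defined graph in dimension four -/
structure Sys (K : Type) [CommRing K] where
  f₂ : MvPolynomial (Fin 2) K
  f₃ : MvPolynomial (Fin 4) K
  f₄ : MvPolynomial (Fin 6) K

namespace Sys

variable {K : Type} [CommRing K] (S : Sys K) {B : Type} [CommRing B] [Algebra K B]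

/-- the line through the point `p` with first coordinate `y` -/
noncomputable def lineOf (p : Fin 4 → B) (y : B) : Fin 4 → B :=
  let l1 := aeval ![p 0, y] S.f₂ - p 1
  let l2 := aeval ![p 0, y, p 1, l1] S.f₃ - p 2
  let l3 := aeval ![p 0, y, p 1, l1, p 2, l2] S.f₄ - p 3
  ![y, l1, l2, l3]

/-- the point on the line `l` with first coordinate `x` -/
noncomputable def pointOf (l : Fin 4 → B) (x : B) : Fin 4 → B :=
  let p1 := aeval ![x, l 0] S.f₂ - l 1
  let p2 := aeval ![x, l 0, p1, l 1] S.f₃ - l 2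
  let p3 := aeval ![x, l 0, p1, l 1, p2, l 2] S.f₄ - l 3
  ![x, p1, p2, p3]

/-- the points `P_0, P_1, …` of the walk `P_0 L_0 P_1 L_1 …` from `P_0 = p` with the first
coordinates `x n` and `y n` -/
noncomputable def walkP (p : Fin 4 → B) (x y : ℕ → B) : ℕ → Fin 4 → B
  | 0 => p
  | n + 1 => S.pointOf (S.lineOf (walkP p x y n) (y n)) (x (n + 1))

/-- the lines of the walk -/
noncomputable def walkL (p : Fin 4 → B) (x y : ℕ → B) (n : ℕ) : Fin 4 → B :=
  S.lineOf (S.walkP p x y n) (y n)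

/-- incidence of points and lines -/
def Inc (p l : Fin 4 → K) : Prop :=
  p 1 + l 1 = eval ![p 0, l 0] S.f₂ ∧
  p 2 + l 2 = eval ![p 0, l 0, p 1, l 1] S.f₃ ∧
  p 3 + l 3 = eval ![p 0, l 0, p 1, l 1, p 2, l 2] S.f₄

/-- the graph -/
def graph : SimpleGraph ((Fin 4 → K) ⊕ (Fin 4 → K)) where
  Adj a b := match a, b with
    | Sum.inl p, Sum.inr l => S.Inc p l
    | Sum.inr l, Sum.inl p => S.Inc p l
    | _, _ => False
  symm := ⟨by
    rintro (p | p) (l | l) h
    · exact h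
    · exact h
    · exact h
    · exact h⟩
  loopless := ⟨by
    rintro (p | p) h
    · exact h
    · exact h⟩

end Sys

/-! ### Flags, the two derivations and their flows -/

/-- the functions of the flags: `X 0 = x`, `X 1 = y`, `X 2, X 3, X 4` = the last coordinates of the
point -/
abbrev R (F : Type) [Field F] := MvPolynomial (Fin 5) F

section flows
variable {F : Type} [Field F]

/-- moving the point along the line: `∂_x + A 0 ∂_2 + A 1 ∂_3 + A 2 ∂_4` -/
noncomputable def Vd (A : Fin 3 → R F) : Derivation F (R F) (R F) :=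
  mkDerivation F ![1, 0, A 0, A 1, A 2]

/-- turning the line about the point: `∂_y` -/
noncomputable def Wd (F : Type) [Field F] : Derivation F (R F) (R F) :=
  mkDerivation F ![0, 1, 0, 0, 0]

/-- triangular systems -/
def Tri (A : Fin 3 → R F) : Prop :=
  A 0 ∈ supported F ({0, 1} : Set (Fin 5)) ∧ A 1 ∈ supported F ({0, 1, 2} : Set (Fin 5)) ∧
    A 2 ∈ supported F ({0, 1, 2, 3} : Set (Fin 5))

/-- `Φ = exp (s D)` -/
def Flow (D : Derivation F (R F) (R F)) (Φ : R F →ₐ[F] Polynomial (R F)) : Prop :=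
  (∀ g, (Φ g).coeff 0 = g) ∧ ∀ g, Polynomial.derivative (Φ g) = Φ (D g)

/-- the flow of `∂_y` -/
noncomputable def Psi (F : Type) [Field F] : R F →ₐ[F] Polynomial (R F) :=
  aeval ![Polynomial.C (X 0), Polynomial.C (X 1) + Polynomial.X, Polynomial.C (X 2),
    Polynomial.C (X 3), Polynomial.C (X 4)]

variable {B : Type} [CommRing B] [Algebra F B]

/-- the flag `z` (with coordinates in `B`) moved by the time `s` -/
noncomputable def mv (Φ : R F →ₐ[F] Polynomial (R F)) (z : R F →ₐ[F] B) (s : B) : R F →ₐ[F] B :=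
  (Polynomial.eval₂AlgHom z s (fun _ => Commute.all _ _)).comp Φ

/-- the flags of the walk with the first coordinates `x n`, `y n` -/
noncomputable def st (Φ : R F →ₐ[F] Polynomial (R F)) (z : R F →ₐ[F] B) (x y : ℕ → B) :
    ℕ → (R F →ₐ[F] B)
  | 0 => z
  | n + 1 => mv (Psi F) (mv Φ (st Φ z x y n) (x (n + 1) - x n)) (y (n + 1) - y n)

/-- the power sums of a closed walk -/
def SS {B : Type} [CommRing B] (α β : ℕ → B) (m n : ℕ) : B :=
  ∑ j ∈ Finset.range 4, (α j ^ m - α (j + 1) ^ m) * β j ^ n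

/-- the iterated brackets -/
noncomputable def bZ (A : Fin 3 → R F) : Derivation F (R F) (R F) := ⁅Wd F, Vd A⁆
noncomputable def bX10 (A : Fin 3 → R F) : Derivation F (R F) (R F) := ⁅Vd A, bZ A⁆
noncomputable def bX01 (A : Fin 3 → R F) : Derivation F (R F) (R F) := ⁅Wd F, bZ A⁆
noncomputable def bX20 (A : Fin 3 → R F) : Derivation F (R F) (R F) := ⁅Vd A, bX10 A⁆
noncomputable def bX11 (A : Fin 3 → R F) : Derivation F (R F) (R F) := ⁅Wd F, bX10 A⁆
noncomputable def bX02 (A : Fin 3 → R F) : Derivation F (R F) (R F) := ⁅Wd F, bX01 A⁆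

/-- the last three coordinates of a derivation -/
noncomputable def cmp (D : Derivation F (R F) (R F)) : Fin 3 → R F := ![D (X 2), D (X 3), D (X 4)]

/-- the value at a flag -/
noncomputable def vec (D : Derivation F (R F) (R F)) (z : R F →ₐ[F] F) : Fin 3 → F := fun i => z (cmp D i)

/-- the flag is of the first type: growth `(2,3,5)` -/
def TypeA (A : Fin 3 → R F) (z : R F →ₐ[F] F) : Prop :=
  (Matrix.of ![vec (bZ A) z, vec (bX10 A) z, vec (bX01 A) z]).det ≠ 0

/-- the flag is of the second type: growth `(2,3,4,5)` -/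
def TypeB (A : Fin 3 → R F) (z : R F →ₐ[F] F) : Prop :=
  ∃ (a b : F) (n₁ n₂ n₃ : Fin 3 → F) (c₁₀ c₀₁ : F), (a ≠ 0 ∨ b ≠ 0) ∧
    (Matrix.of ![n₁, n₂, n₃]).det ≠ 0 ∧
    n₁ ⬝ᵥ vec (bZ A) z = 1 ∧ n₁ ⬝ᵥ vec (bX10 A) z = c₁₀ ∧ n₁ ⬝ᵥ vec (bX01 A) z = c₀₁ ∧
    n₂ ⬝ᵥ vec (bZ A) z = 0 ∧ n₂ ⬝ᵥ vec (bX10 A) z = b ∧ n₂ ⬝ᵥ vec (bX01 A) z = -a ∧
    n₃ ⬝ᵥ vec (bZ A) z = 0 ∧ n₃ ⬝ᵥ vec (bX10 A) z = 0 ∧ n₃ ⬝ᵥ vec (bX01 A) z = 0 ∧
    n₃ ⬝ᵥ vec (bX20 A) z = b ^ 2 ∧ n₃ ⬝ᵥ vec (bX11 A) z = -(a * b) ∧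
    n₃ ⬝ᵥ vec (bX02 A) z = a ^ 2

/-- the constants in the power series -/
noncomputable def cst (z : R F →ₐ[F] F) : R F →ₐ[F] PowerSeries F :=
  (Algebra.ofId F (PowerSeries F)).comp z

/-- a closed walk in the formal neighbourhood of the flag `z` -/
def IsLoop (Φ : R F →ₐ[F] Polynomial (R F)) (z : R F →ₐ[F] F) (α β : ℕ → PowerSeries F) : Prop :=
  α 0 = 0 ∧ α 4 = 0 ∧ β 0 = 0 ∧ β 4 = 0 ∧ (∀ n, IsAlgebraic (Polynomial F) (α n)) ∧
    (∀ n, IsAlgebraic (Polynomial F) (β n)) ∧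
    st Φ (cst z) (fun n => PowerSeries.C (z (X 0)) + PowerSeries.X * α n)
      (fun n => PowerSeries.C (z (X 1)) + PowerSeries.X * β n) 4 = cst z

/-- moving the point along the line, for a system of polynomials -/
noncomputable def Sys.phi (S : Sys F) : R F →ₐ[F] Polynomial (R F) :=
  let q : Fin 4 → Polynomial (R F) := S.pointOf (S.lineOf ![Polynomial.C (X 0),
    Polynomial.C (X 2), Polynomial.C (X 3), Polynomial.C (X 4)] (Polynomial.C (X 1)))
    (Polynomial.C (X 0) + Polynomial.X)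
  aeval ![q 0, Polynomial.C (X 1), q 1, q 2, q 3]

/-- the vector field of a system of polynomials -/
noncomputable def Sys.A (S : Sys F) : Fin 3 → R F :=
  ![(S.phi (X 2)).coeff 1, (S.phi (X 3)).coeff 1, (S.phi (X 4)).coeff 1]

end flows

/-! ### Ultraproducts -/

section ultra

/-- the ideal of an ultraproduct of fields -/
def UI (Fs : ℕ → Type) [∀ n, Field (Fs n)] : Ideal (∀ n, Fs n) where
  carrier := {c | ∀ᶠ n in (Filter.hyperfilter ℕ : Filter ℕ), c n = 0}
  add_mem' := by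
    intro a b ha hb
    filter_upwards [ha, hb] with n h1 h2
    rw [Pi.add_apply, h1, h2, add_zero]
  zero_mem' := Filter.Eventually.of_forall fun n => rfl
  smul_mem' := by
    intro c a ha
    filter_upwards [ha] with n h1
    rw [smul_eq_mul, Pi.mul_apply, h1, mul_zero]

/-- the ultraproduct -/
abbrev UF (Fs : ℕ → Type) [∀ n, Field (Fs n)] : Type := (∀ n, Fs n) ⧸ UI Fs

/-- the class of a sequence -/
abbrev um (Fs : ℕ → Type) [∀ n, Field (Fs n)] (c : ∀ n, Fs n) : UF Fs := Ideal.Quotient.mk (UI Fs) c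

end ultra

end Pool.Agent.N446.E8
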