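import Pool.Agent.N446.E8.Loop

/-!
# Project E8 of helper446: loops at flags with the growth (2,3,5) (helper325)
-/

set_option autoImplicit false
set_option linter.unusedSimpArgs false
set_option linter.unusedVariables false
set_option linter.unusedSectionVars false

namespace Pool.Agent.N446.E8

open MvPolynomial Matrix

namespace Loop

variable {F : Type} [Field F] [CharZero F]

/-- the `x`-coordinates -/
noncomputable def aA (F : Type) [Field F] : ℕ → BB F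
  | 1 => 2 + X 0
  | 2 => -2 + X 1
  | 3 => -4
  | _ => 0

/-- the `y`-coordinates -/
noncomputable def bA (F : Type) [Field F] : ℕ → BB F
  | 1 => 1 + X 2
  | 2 => 4
  | 3 => 3
  | _ => 0

/-- the expansion of the components -/
lemma dif_EX (hEX : S_EX) {A : Fin 3 → R F} {Φ : R F →ₐ[F] Polynomial (R F)}
    (hΦ : Flow (Vd A) Φ) (z : R F →ₐ[F] F) (α β : ℕ → BB F) (hα0 : α 0 = 0) (hα4 : α 4 = 0)
    (hβ0 : β 0 = 0) (hβ4 : β 4 = 0) (i : Fin 3) : ∃ r : BB F, dif Φ z α β i =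
      -(tt F ^ 2 * (SS α β 1 1 * algebraMap F (BB F) (vec (bZ A) z i))) -
    tt F ^ 3 * (algebraMap F (BB F) (1 / 2) * (SS α β 2 1 * algebraMap F (BB F) (vec (bX10 A) z i) +
      SS α β 1 2 * algebraMap F (BB F) (vec (bX01 A) z i))) -
    tt F ^ 4 * (algebraMap F (BB F) (1 / 6) *
        (SS α β 3 1 * algebraMap F (BB F) (vec (bX20 A) z i)) +
      algebraMap F (BB F) (1 / 4) * (SS α β 2 2 * algebraMap F (BB F) (vec (bX11 A) z i)) +
      algebraMap F (BB F) (1 / 6) * (SS α β 1 3 * algebraMap F (BB F) (vec (bX02 A) z i)) -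
      algebraMap F (BB F) (1 / 2) * (SS α β 1 1 ^ 2 *
        algebraMap F (BB F) (z (bZ A (bZ A (X (i.castSucc.castSucc + 2))))))) + tt F ^ 5 * r := by
  have hv : ∀ D : Derivation F (R F) (R F), vec D z i = z (D (X (i.castSucc.castSucc + 2))) := by
    intro D
    unfold vec cmp
    fin_cases i <;> rfl
  obtain ⟨r, hr⟩ := hEX F A Φ hΦ (BB F) (zc z) (tt F) α β hα0 hα4 hβ0 hβ4
    (X (i.castSucc.castSucc + 2))
  refine ⟨r, ?_⟩
  unfold dif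
  rw [hr]
  simp only [hv]
  have hz : ∀ g, zc z g = algebraMap F (BB F) (z g) := fun g => rfl
  simp only [hz]
  ring

/-- the values of a functional on a closed walk -/
lemma sum_EX (hEX : S_EX) {A : Fin 3 → R F} {Φ : R F →ₐ[F] Polynomial (R F)}
    (hΦ : Flow (Vd A) Φ) (z : R F →ₐ[F] F) (α β : ℕ → BB F) (hα0 : α 0 = 0) (hα4 : α 4 = 0)
    (hβ0 : β 0 = 0) (hβ4 : β 4 = 0) (n : Fin 3 → F) : ∃ r : BB F,
      ∑ i, algebraMap F (BB F) (n i) * dif Φ z α β i =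
      -(tt F ^ 2 * (SS α β 1 1 * algebraMap F (BB F) (n ⬝ᵥ vec (bZ A) z))) -
    tt F ^ 3 * (algebraMap F (BB F) (1 / 2) *
      (SS α β 2 1 * algebraMap F (BB F) (n ⬝ᵥ vec (bX10 A) z) +
      SS α β 1 2 * algebraMap F (BB F) (n ⬝ᵥ vec (bX01 A) z))) -
    tt F ^ 4 * (algebraMap F (BB F) (1 / 6) *
        (SS α β 3 1 * algebraMap F (BB F) (n ⬝ᵥ vec (bX20 A) z)) +
      algebraMap F (BB F) (1 / 4) * (SS α β 2 2 * algebraMap F (BB F) (n ⬝ᵥ vec (bX11 A) z)) +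
      algebraMap F (BB F) (1 / 6) * (SS α β 1 3 * algebraMap F (BB F) (n ⬝ᵥ vec (bX02 A) z)) -
      algebraMap F (BB F) (1 / 2) * (SS α β 1 1 ^ 2 *
        algebraMap F (BB F) (∑ i : Fin 3, n i *
          z (bZ A (bZ A (X (i.castSucc.castSucc + 2))))))) + tt F ^ 5 * r := by
  choose r hr using dif_EX hEX hΦ z α β hα0 hα4 hβ0 hβ4
  refine ⟨∑ i, algebraMap F (BB F) (n i) * r i, ?_⟩
  simp only [hr, dotProduct, Fin.sum_univ_three, map_add, map_mul]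
  ring

end Loop

open Loop in
theorem t_GA (hEX : S_EX) (hHE : S_HE) (hFN : S_FN) : S_GA := by
  intro F _ _ A Φ hΦ z hz
  unfold TypeA at hz
  set M : Matrix (Fin 3) (Fin 3) F := Matrix.of ![vec (bZ A) z, vec (bX10 A) z, vec (bX01 A) z]
    with hM
  have hMu : IsUnit M.det := isUnit_iff_ne_zero.mpr hz
  have hMN : M * M⁻¹ = 1 := Matrix.mul_nonsing_inv M hMu
  have hNd : (M⁻¹ᵀ).det ≠ 0 := by
    rw [Matrix.det_transpose, Matrix.det_nonsing_inv, Ring.inverse_eq_inv']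
    exact inv_ne_zero hz
  -- the dot products
  have hdot : ∀ a b : Fin 3, (M⁻¹ᵀ a) ⬝ᵥ (M b) = (1 : Matrix (Fin 3) (Fin 3) F) b a := by
    intro a b
    rw [← hMN, Matrix.mul_apply, dotProduct]
    apply Finset.sum_congr rfl
    intro i _
    rw [Matrix.transpose_apply, mul_comm]
  have m0 : M 0 = vec (bZ A) z := rfl
  have m1 : M 1 = vec (bX10 A) z := rfl
  have m2 : M 2 = vec (bX01 A) z := rfl
  have d00 : (M⁻¹ᵀ 0) ⬝ᵥ vec (bZ A) z = 1 := by rw [← m0, hdot]; rfl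
  have d01 : (M⁻¹ᵀ 0) ⬝ᵥ vec (bX10 A) z = 0 := by rw [← m1, hdot]; rfl
  have d02 : (M⁻¹ᵀ 0) ⬝ᵥ vec (bX01 A) z = 0 := by rw [← m2, hdot]; rfl
  have d10 : (M⁻¹ᵀ 1) ⬝ᵥ vec (bZ A) z = 0 := by rw [← m0, hdot]; rfl
  have d11 : (M⁻¹ᵀ 1) ⬝ᵥ vec (bX10 A) z = 1 := by rw [← m1, hdot]; rfl
  have d12 : (M⁻¹ᵀ 1) ⬝ᵥ vec (bX01 A) z = 0 := by rw [← m2, hdot]; rfl
  have d20 : (M⁻¹ᵀ 2) ⬝ᵥ vec (bZ A) z = 0 := by rw [← m0, hdot]; rfl
  have d21 : (M⁻¹ᵀ 2) ⬝ᵥ vec (bX10 A) z = 0 := by rw [← m1, hdot]; rfl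
  have d22 : (M⁻¹ᵀ 2) ⬝ᵥ vec (bX01 A) z = 1 := by rw [← m2, hdot]; rfl
  have ha0 : aA F 0 = 0 := rfl
  have ha1 : aA F 1 = 2 + X 0 := rfl
  have ha2 : aA F 2 = -2 + X 1 := rfl
  have ha3 : aA F 3 = -4 := rfl
  have ha4 : aA F 4 = 0 := rfl
  have hb0 : bA F 0 = 0 := rfl
  have hb1 : bA F 1 = 1 + X 2 := rfl
  have hb2 : bA F 2 = 4 := rfl
  have hb3 : bA F 3 = 3 := rfl
  have hb4 : bA F 4 = 0 := rfl
  obtain ⟨r0, h0⟩ := sum_EX hEX hΦ z (aA F) (bA F) ha0 ha4 hb0 hb4 (M⁻¹ᵀ 0)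
  obtain ⟨r1, h1⟩ := sum_EX hEX hΦ z (aA F) (bA F) ha0 ha4 hb0 hb4 (M⁻¹ᵀ 1)
  obtain ⟨r2, h2⟩ := sum_EX hEX hΦ z (aA F) (bA F) ha0 ha4 hb0 hb4 (M⁻¹ᵀ 2)
  rw [d00, d01, d02] at h0
  rw [d10, d11, d12] at h1
  rw [d20, d21, d22] at h2
  simp only [map_one, map_zero, mul_zero, mul_one, zero_add, add_zero, sub_zero, neg_zero,
    zero_sub] at h0 h1 h2
  obtain ⟨g0, h0'⟩ : ∃ g, ∑ i, algebraMap F (BB F) (M⁻¹ᵀ 0 i) * dif Φ z (aA F) (bA F) i =
      tt F ^ 2 * (-SS (aA F) (bA F) 1 1 + tt F * g) := by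
    refine ⟨tt F * (-(algebraMap F (BB F) (1 / 6) *
        (SS (aA F) (bA F) 3 1 * algebraMap F (BB F) ((M⁻¹ᵀ 0) ⬝ᵥ vec (bX20 A) z)) +
      algebraMap F (BB F) (1 / 4) * (SS (aA F) (bA F) 2 2 *
        algebraMap F (BB F) ((M⁻¹ᵀ 0) ⬝ᵥ vec (bX11 A) z)) +
      algebraMap F (BB F) (1 / 6) * (SS (aA F) (bA F) 1 3 *
        algebraMap F (BB F) ((M⁻¹ᵀ 0) ⬝ᵥ vec (bX02 A) z)) -
      algebraMap F (BB F) (1 / 2) * (SS (aA F) (bA F) 1 1 ^ 2 *
        algebraMap F (BB F) (∑ i : Fin 3, (M⁻¹ᵀ 0) i *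
          z (bZ A (bZ A (X (i.castSucc.castSucc + 2)))))))) + tt F ^ 2 * r0, ?_⟩
    rw [h0]
    ring
  obtain ⟨g1, h1'⟩ : ∃ g, ∑ i, algebraMap F (BB F) (M⁻¹ᵀ 1 i) * dif Φ z (aA F) (bA F) i =
      tt F ^ 3 * (-(algebraMap F (BB F) (1 / 2) * SS (aA F) (bA F) 2 1) + tt F * g) := by
    refine ⟨(-(algebraMap F (BB F) (1 / 6) *
        (SS (aA F) (bA F) 3 1 * algebraMap F (BB F) ((M⁻¹ᵀ 1) ⬝ᵥ vec (bX20 A) z)) +
      algebraMap F (BB F) (1 / 4) * (SS (aA F) (bA F) 2 2 *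
        algebraMap F (BB F) ((M⁻¹ᵀ 1) ⬝ᵥ vec (bX11 A) z)) +
      algebraMap F (BB F) (1 / 6) * (SS (aA F) (bA F) 1 3 *
        algebraMap F (BB F) ((M⁻¹ᵀ 1) ⬝ᵥ vec (bX02 A) z)) -
      algebraMap F (BB F) (1 / 2) * (SS (aA F) (bA F) 1 1 ^ 2 *
        algebraMap F (BB F) (∑ i : Fin 3, (M⁻¹ᵀ 1) i *
          z (bZ A (bZ A (X (i.castSucc.castSucc + 2)))))))) + tt F * r1, ?_⟩
    rw [h1]
    ring
  obtain ⟨g2, h2'⟩ : ∃ g, ∑ i, algebraMap F (BB F) (M⁻¹ᵀ 2 i) * dif Φ z (aA F) (bA F) i =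
      tt F ^ 3 * (-(algebraMap F (BB F) (1 / 2) * SS (aA F) (bA F) 1 2) + tt F * g) := by
    refine ⟨(-(algebraMap F (BB F) (1 / 6) *
        (SS (aA F) (bA F) 3 1 * algebraMap F (BB F) ((M⁻¹ᵀ 2) ⬝ᵥ vec (bX20 A) z)) +
      algebraMap F (BB F) (1 / 4) * (SS (aA F) (bA F) 2 2 *
        algebraMap F (BB F) ((M⁻¹ᵀ 2) ⬝ᵥ vec (bX11 A) z)) +
      algebraMap F (BB F) (1 / 6) * (SS (aA F) (bA F) 1 3 *
        algebraMap F (BB F) ((M⁻¹ᵀ 2) ⬝ᵥ vec (bX02 A) z)) -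
      algebraMap F (BB F) (1 / 2) * (SS (aA F) (bA F) 1 1 ^ 2 *
        algebraMap F (BB F) (∑ i : Fin 3, (M⁻¹ᵀ 2) i *
          z (bZ A (bZ A (X (i.castSucc.castSucc + 2)))))))) + tt F * r2, ?_⟩
    rw [h2]
    ring
  have hS11 : SS (aA F) (bA F) 1 1 = (2 + X 0 - (-2 + X 1)) * (1 + X 2) +
      (-2 + X 1 - (-4)) * 4 + (-4) * 3 := by
    simp only [SS, Finset.sum_range_succ, Finset.sum_range_zero, zero_add, Nat.reduceAdd, ha0, ha1,
      ha2, ha3, ha4, hb0, hb1, hb2, hb3, hb4]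
    ring
  have hS21 : SS (aA F) (bA F) 2 1 = ((2 + X 0) ^ 2 - (-2 + X 1) ^ 2) * (1 + X 2) +
      ((-2 + X 1) ^ 2 - 16) * 4 + 16 * 3 := by
    simp only [SS, Finset.sum_range_succ, Finset.sum_range_zero, zero_add, Nat.reduceAdd, ha0, ha1,
      ha2, ha3, ha4, hb0, hb1, hb2, hb3, hb4]
    ring
  have hS12 : SS (aA F) (bA F) 1 2 = (2 + X 0 - (-2 + X 1)) * (1 + X 2) ^ 2 +
      (-2 + X 1 - (-4)) * 16 + (-4) * 9 := by
    simp only [SS, Finset.sum_range_succ, Finset.sum_range_zero, zero_add, Nat.reduceAdd, ha0, ha1,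
      ha2, ha3, ha4, hb0, hb1, hb2, hb3, hb4]
    ring
  rw [hS11] at h0'
  rw [hS21] at h1'
  rw [hS12] at h2'
  have hrX : ∀ i : Fin 3, rho F (X i) = 0 := rho_X
  have hrt : rho F (tt F) = 0 := rho_tt
  have hpt : ∀ j : Fin 3, pderiv j (tt F) = 0 := fun j => pderiv_C
  have hpa : ∀ (j : Fin 3) (c : F), pderiv j (algebraMap F (BB F) c) = 0 := fun j c => by
    have : algebraMap F (BB F) c = MvPolynomial.C (Polynomial.C c) := rfl
    rw [this]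
    exact pderiv_C
  have hpn : ∀ (j : Fin 3) (m : ℕ), pderiv j ((m : BB F)) = 0 := fun j m =>
    Derivation.map_natCast _ m
  have hp2 : ∀ j : Fin 3, pderiv j (2 : BB F) = 0 := fun j => by
    have := hpn j 2; simpa using this
  have hp3 : ∀ j : Fin 3, pderiv j (3 : BB F) = 0 := fun j => by
    have := hpn j 3; simpa using this
  have hp4 : ∀ j : Fin 3, pderiv j (4 : BB F) = 0 := fun j => by
    have := hpn j 4; simpa using this
  have hp9 : ∀ j : Fin 3, pderiv j (9 : BB F) = 0 := fun j => by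
    have := hpn j 9; simpa using this
  have hp16 : ∀ j : Fin 3, pderiv j (16 : BB F) = 0 := fun j => by
    have := hpn j 16; simpa using this
  have hr2 : rho F 2 = 2 := map_ofNat (rho F) 2
  have hr3 : rho F 3 = 3 := map_ofNat (rho F) 3
  have hr4 : rho F 4 = 4 := map_ofNat (rho F) 4
  have hr9 : rho F 9 = 9 := map_ofNat (rho F) 9
  have hr16 : rho F 16 = 16 := map_ofNat (rho F) 16
  have hrh : rho F (C (Polynomial.C (1 / 2))) = 1 / 2 := rho_algebraMap (1 / 2)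
  obtain ⟨w, hw0, hw⟩ := mk_loop hHE hFN hΦ z (M⁻¹ᵀ) hNd (aA F) (bA F) ha0 ha4 hb0 hb4 ![2, 3, 3]
    ![-((2 + X 0 - (-2 + X 1)) * (1 + X 2) + (-2 + X 1 - (-4)) * 4 + (-4) * 3) + tt F * g0,
      -(algebraMap F (BB F) (1 / 2) * (((2 + X 0) ^ 2 - (-2 + X 1) ^ 2) * (1 + X 2) +
        ((-2 + X 1) ^ 2 - 16) * 4 + 16 * 3)) + tt F * g1,
      -(algebraMap F (BB F) (1 / 2) * ((2 + X 0 - (-2 + X 1)) * (1 + X 2) ^ 2 +
        (-2 + X 1 - (-4)) * 16 + (-4) * 9)) + tt F * g2]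
    (by
      intro a
      fin_cases a
      · exact h0'
      · exact h1'
      · exact h2')
    (by
      intro a
      fin_cases a
      · simp [hrX, hrt, hr2, hr3, hr4, hr9, hr16]
        norm_num
      · simp [hrX, hrt, hr2, hr3, hr4, hr9, hr16]
        norm_num
      · simp [hrX, hrt, hr2, hr3, hr4, hr9, hr16]
        norm_num)
    (by
      have hJ : (Matrix.of fun i j => rho F (pderiv j
          ((![-((2 + X 0 - (-2 + X 1)) * (1 + X 2) + (-2 + X 1 - (-4)) * 4 + (-4) * 3) + tt F * g0,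
      -(algebraMap F (BB F) (1 / 2) * (((2 + X 0) ^ 2 - (-2 + X 1) ^ 2) * (1 + X 2) +
        ((-2 + X 1) ^ 2 - 16) * 4 + 16 * 3)) + tt F * g1,
      -(algebraMap F (BB F) (1 / 2) * ((2 + X 0 - (-2 + X 1)) * (1 + X 2) ^ 2 +
        (-2 + X 1 - (-4)) * 16 + (-4) * 9)) + tt F * g2] : Fin 3 → BB F) i))) =
          !![-1, -3, -4; -2, 6, 0; -(1 / 2), -(15 / 2), -4] := by
        ext i j
        fin_cases i <;> fin_cases j <;>
          simp [hrX, hrt, hr2, hr3, hr4, hr9, hr16, hpt, hpa, hp2, hp3, hp4, hp9, hp16, Derivation.leibniz,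
            Derivation.leibniz_pow, rho_algebraMap, pderiv_X, Pi.single_apply] <;>
          (try simp only [one_div] at hrh) <;> (try rw [hrh]) <;> norm_num
      rw [hJ, Matrix.det_fin_three]
      simp
      norm_num)
  refine ⟨_, _, hw, ?_⟩
  intro i j hij hj
  have k2 : PowerSeries.constantCoeff (2 : PowerSeries F) = 2 := map_ofNat _ 2
  have k3 : PowerSeries.constantCoeff (3 : PowerSeries F) = 3 := map_ofNat _ 3
  have k4 : PowerSeries.constantCoeff (4 : PowerSeries F) = 4 := map_ofNat _ 4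
  have c1 : PowerSeries.constantCoeff (aeval w (aA F 1)) = 2 := by
    rw [ha1]; simp [hw0, k2, k3, k4]
  have c2 : PowerSeries.constantCoeff (aeval w (aA F 2)) = -2 := by
    rw [ha2]; simp [hw0, k2, k3, k4]
  have c3 : PowerSeries.constantCoeff (aeval w (aA F 3)) = -4 := by
    rw [ha3]; simp [hw0, k2, k3, k4]
  have c0 : PowerSeries.constantCoeff (aeval w (aA F 0)) = 0 := by
    rw [ha0]; simp [hw0, k2, k3, k4]
  have e1 : PowerSeries.constantCoeff (aeval w (bA F 1)) = 1 := by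
    rw [hb1]; simp [hw0, k2, k3, k4]
  have e2 : PowerSeries.constantCoeff (aeval w (bA F 2)) = 4 := by
    rw [hb2]; simp [hw0, k2, k3, k4]
  have e3 : PowerSeries.constantCoeff (aeval w (bA F 3)) = 3 := by
    rw [hb3]; simp [hw0, k2, k3, k4]
  have e0 : PowerSeries.constantCoeff (aeval w (bA F 0)) = 0 := by
    rw [hb0]; simp [hw0, k2, k3, k4]
  interval_cases j <;> interval_cases i <;> simp only [c0, c1, c2, c3, e0, e1, e2, e3] <;>
    constructor <;> norm_num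

end Pool.Agent.N446.E8
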