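import Pool.Agent.N446.E8.Stm

/-!
# Algebraically defined graphs and cycles of length eight: flags of the second type
-/

set_option autoImplicit false
set_option linter.unusedSectionVars false

namespace Pool.Agent.N446.E8.TB

open MvPolynomial

section lin

variable {B : Type} [CommRing B]

/-- the scalar product -/
def dt (n Y : Fin 3 → B) : B := n 0 * Y 0 + n 1 * Y 1 + n 2 * Y 2

/-- the vector product -/
def cr (u v : Fin 3 → B) : Fin 3 → B :=
  ![u 1 * v 2 - u 2 * v 1, u 2 * v 0 - u 0 * v 2, u 0 * v 1 - u 1 * v 0]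

theorem cr0 (u v : Fin 3 → B) : cr u v 0 = u 1 * v 2 - u 2 * v 1 := rfl
theorem cr1 (u v : Fin 3 → B) : cr u v 1 = u 2 * v 0 - u 0 * v 2 := rfl
theorem cr2 (u v : Fin 3 → B) : cr u v 2 = u 0 * v 1 - u 1 * v 0 := rfl

theorem dt_dotProduct (n Y : Fin 3 → B) : n ⬝ᵥ Y = dt n Y := by
  unfold dt
  rw [dotProduct, Fin.sum_univ_three]

end lin

theorem d3_eq {F : Type} [Field F] (u v w : Fin 3 → R F) : d3 u v w = dt (cr u v) w := by
  unfold d3 dt cr
  rw [Matrix.det_fin_three]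
  simp
  ring

/-- the final choice of the three functionals -/
theorem fin_step {F : Type} [Field F] (A : Fin 3 → R F) (z : R F →ₐ[F] F) (n : Fin 3 → F)
    (a b c : F) (hc : c ≠ 0) (hab : a ≠ 0 ∨ b ≠ 0) (hn : n 2 ≠ 0)
    (ha : a = vec (bZ A) z 0 * vec (bX01 A) z 1 - vec (bZ A) z 1 * vec (bX01 A) z 0)
    (hb : b = -(vec (bZ A) z 0 * vec (bX10 A) z 1 - vec (bZ A) z 1 * vec (bX10 A) z 0))
    (hZ : dt n (vec (bZ A) z) = 0) (hP : dt n (vec (bX10 A) z) = 0)
    (hQ : dt n (vec (bX01 A) z) = 0) (h20 : dt n (vec (bX20 A) z) = c * b ^ 2)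
    (h11 : dt n (vec (bX11 A) z) = -(c * (a * b))) (h02 : dt n (vec (bX02 A) z) = c * a ^ 2) :
    TypeB A z := by
  set Z := vec (bZ A) z with hZdef
  set P := vec (bX10 A) z
  set Q := vec (bX01 A) z
  have hsc : ∀ Y : Fin 3 → F, (fun i => c⁻¹ * n i) ⬝ᵥ Y = c⁻¹ * dt n Y := by
    intro Y
    rw [dt_dotProduct]
    unfold dt
    ring
  have h2 : ∀ Y : Fin 3 → F, ![Z 1, -Z 0, 0] ⬝ᵥ Y = Z 1 * Y 0 - Z 0 * Y 1 := by
    intro Y
    rw [dt_dotProduct]
    unfold dt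
    simp
    ring
  have hw : c⁻¹ * n 2 ≠ 0 := mul_ne_zero (inv_ne_zero hc) hn
  -- the first functional
  obtain ⟨n₁, hn1, hdet⟩ : ∃ n₁ : Fin 3 → F, n₁ ⬝ᵥ Z = 1 ∧
      (Matrix.of ![n₁, ![Z 1, -Z 0, 0], fun i => c⁻¹ * n i]).det ≠ 0 := by
    by_cases h0 : Z 0 = 0
    · have h1 : Z 1 ≠ 0 := by
        intro h1
        rw [h0, h1] at ha hb
        simp at ha hb
        rcases hab with h | h
        · exact h ha
        · exact h hb
      refine ⟨![0, (Z 1)⁻¹, 0], ?_, ?_⟩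
      · rw [dt_dotProduct]
        unfold dt
        simp [h1]
      · rw [Matrix.det_fin_three]
        simp [h0, h1]
        exact ⟨hc, hn⟩
    · refine ⟨![(Z 0)⁻¹, 0, 0], ?_, ?_⟩
      · rw [dt_dotProduct]
        unfold dt
        simp [h0]
      · rw [Matrix.det_fin_three]
        simp [h0]
        exact ⟨hc, hn⟩
  refine ⟨a, b, n₁, ![Z 1, -Z 0, 0], fun i => c⁻¹ * n i, n₁ ⬝ᵥ P, n₁ ⬝ᵥ Q, hab, hdet, hn1, rfl, rfl,
    ?_, ?_, ?_, ?_, ?_, ?_, ?_, ?_, ?_⟩
  · rw [h2]; ring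
  · rw [h2, hb]; ring
  · rw [h2, ha]; ring
  · rw [hsc, hZ, mul_zero]
  · rw [hsc, hP, mul_zero]
  · rw [hsc, hQ, mul_zero]
  · rw [hsc, h20, ← mul_assoc, inv_mul_cancel₀ hc, one_mul]
  · rw [hsc, h11]
    field_simp
  · rw [hsc, h02, ← mul_assoc, inv_mul_cancel₀ hc, one_mul]

section main

variable {F : Type} [Field F] [CharZero F] (A : Fin 3 → R F)

theorem V0 : Vd A (X 0) = 1 := by simp [Vd, mkDerivation_X]
theorem V1 : Vd A (X 1) = 0 := by simp [Vd, mkDerivation_X]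
theorem W0 : Wd F (X 0) = 0 := by simp [Wd, mkDerivation_X]
theorem W1 : Wd F (X 1) = 1 := by simp [Wd, mkDerivation_X]

theorem Z0 : bZ A (X 0) = 0 := by
  rw [bZ, Derivation.commutator_apply, V0, W0, map_zero, Derivation.map_one_eq_zero, sub_zero]
theorem Z1 : bZ A (X 1) = 0 := by
  rw [bZ, Derivation.commutator_apply, V1, W1, map_zero, Derivation.map_one_eq_zero, sub_zero]
theorem P0 : bX10 A (X 0) = 0 := by
  rw [bX10, Derivation.commutator_apply, V0, Z0, map_zero, Derivation.map_one_eq_zero, sub_zero]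
theorem P1 : bX10 A (X 1) = 0 := by
  rw [bX10, Derivation.commutator_apply, V1, Z1, map_zero, map_zero, sub_zero]
theorem Q0 : bX01 A (X 0) = 0 := by
  rw [bX01, Derivation.commutator_apply, W0, Z0, map_zero, map_zero, sub_zero]
theorem Q1 : bX01 A (X 1) = 0 := by
  rw [bX01, Derivation.commutator_apply, W1, Z1, map_zero, Derivation.map_one_eq_zero, sub_zero]

theorem V01 : ⁅Vd A, bX01 A⁆ = bX11 A := by
  have hz : ∀ h, bZ A h = Wd F (Vd A h) - Vd A (Wd F h) := fun h => by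
    conv_lhs => rw [bZ]
    rw [Derivation.commutator_apply]
  have h10 : ∀ h, bX10 A h = Vd A (bZ A h) - bZ A (Vd A h) := fun h => by
    conv_lhs => rw [bX10]
    rw [Derivation.commutator_apply]
  have h01 : ∀ h, bX01 A h = Wd F (bZ A h) - bZ A (Wd F h) := fun h => by
    conv_lhs => rw [bX01]
    rw [Derivation.commutator_apply]
  apply Derivation.ext
  intro g
  have e1 := hz (bZ A g)
  have e2 : bZ A (bZ A g) = bZ A (Wd F (Vd A g)) - bZ A (Vd A (Wd F g)) := by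
    rw [← map_sub, ← hz g]
  rw [bX11, Derivation.commutator_apply, Derivation.commutator_apply, h01 g, h01 (Vd A g), h10 g,
    h10 (Wd F g), map_sub, map_sub]
  linear_combination e1 - e2

/-- the linear relation between the brackets, as derivations -/
theorem rel0 (hd : d3 (cmp (bZ A)) (cmp (bX10 A)) (cmp (bX01 A)) = 0) (g : R F) :
    d2 (cmp (bZ A)) (cmp (bX01 A)) * bX10 A g +
      -d2 (cmp (bZ A)) (cmp (bX10 A)) * bX01 A g =
        d2 (cmp (bX10 A)) (cmp (bX01 A)) * bZ A g := by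
  have h : (d2 (cmp (bZ A)) (cmp (bX01 A))) • bX10 A +
      (-d2 (cmp (bZ A)) (cmp (bX10 A))) • bX01 A =
        (d2 (cmp (bX10 A)) (cmp (bX01 A))) • bZ A := by
    apply MvPolynomial.derivation_ext
    intro i
    simp only [Derivation.add_apply, Derivation.smul_apply, smul_eq_mul]
    fin_cases i
    · change _ * bX10 A (X 0) + _ * bX01 A (X 0) = _ * bZ A (X 0)
      rw [P0, Q0, Z0]; ring
    · change _ * bX10 A (X 1) + _ * bX01 A (X 1) = _ * bZ A (X 1)
      rw [P1, Q1, Z1]; ring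
    · change _ * bX10 A (X 2) + _ * bX01 A (X 2) = _ * bZ A (X 2)
      simp only [d2, cmp, Matrix.cons_val_zero, Matrix.cons_val_one]
      ring
    · change _ * bX10 A (X 3) + _ * bX01 A (X 3) = _ * bZ A (X 3)
      simp only [d2, cmp, Matrix.cons_val_zero, Matrix.cons_val_one]
      ring
    · change _ * bX10 A (X 4) + _ * bX01 A (X 4) = _ * bZ A (X 4)
      rw [d3_eq] at hd
      simp only [dt, cr0, cr1, cr2] at hd
      simp only [d2]
      have e1 : cmp (bZ A) 2 = bZ A (X 4) := rfl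
      have e2 : cmp (bX10 A) 2 = bX10 A (X 4) := rfl
      have e3 : cmp (bX01 A) 2 = bX01 A (X 4) := rfl
      rw [e1, e2, e3] at hd
      linear_combination -hd
  have := congrArg (fun D : Derivation F (R F) (R F) => D g) h
  simpa only [Derivation.add_apply, Derivation.smul_apply, smul_eq_mul] using this

theorem rel1 (hd : d3 (cmp (bZ A)) (cmp (bX10 A)) (cmp (bX01 A)) = 0) (g : R F) :
    Vd A (d2 (cmp (bZ A)) (cmp (bX01 A))) * bX10 A g +
      d2 (cmp (bZ A)) (cmp (bX01 A)) * bX20 A g +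
      Vd A (-d2 (cmp (bZ A)) (cmp (bX10 A))) * bX01 A g +
      -d2 (cmp (bZ A)) (cmp (bX10 A)) * bX11 A g =
        Vd A (d2 (cmp (bX10 A)) (cmp (bX01 A))) * bZ A g +
        d2 (cmp (bX10 A)) (cmp (bX01 A)) * bX10 A g := by
  have h1 := congrArg (Vd A) (rel0 A hd g)
  have h2 := rel0 A hd (Vd A g)
  rw [map_add, Derivation.leibniz, Derivation.leibniz, Derivation.leibniz] at h1
  simp only [smul_eq_mul] at h1
  have e1 : bX20 A g = Vd A (bX10 A g) - bX10 A (Vd A g) := by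
    rw [bX20, Derivation.commutator_apply]
  have e2 : bX11 A g = Vd A (bX01 A g) - bX01 A (Vd A g) := by
    rw [← V01, Derivation.commutator_apply]
  have e3 : bX10 A g = Vd A (bZ A g) - bZ A (Vd A g) := by
    conv_lhs => rw [bX10]
    rw [Derivation.commutator_apply]
  rw [e1, e2]
  have e4 : d2 (cmp (bX10 A)) (cmp (bX01 A)) * bX10 A g =
      d2 (cmp (bX10 A)) (cmp (bX01 A)) * (Vd A (bZ A g) - bZ A (Vd A g)) := by
    rw [← e3]
  rw [e4]
  linear_combination h1 - h2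

theorem rel2 (hd : d3 (cmp (bZ A)) (cmp (bX10 A)) (cmp (bX01 A)) = 0) (g : R F) :
    Wd F (d2 (cmp (bZ A)) (cmp (bX01 A))) * bX10 A g +
      d2 (cmp (bZ A)) (cmp (bX01 A)) * bX11 A g +
      Wd F (-d2 (cmp (bZ A)) (cmp (bX10 A))) * bX01 A g +
      -d2 (cmp (bZ A)) (cmp (bX10 A)) * bX02 A g =
        Wd F (d2 (cmp (bX10 A)) (cmp (bX01 A))) * bZ A g +
        d2 (cmp (bX10 A)) (cmp (bX01 A)) * bX01 A g := by
  have h1 := congrArg (Wd F) (rel0 A hd g)
  have h2 := rel0 A hd (Wd F g)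
  rw [map_add, Derivation.leibniz, Derivation.leibniz, Derivation.leibniz] at h1
  simp only [smul_eq_mul] at h1
  have e1 : bX11 A g = Wd F (bX10 A g) - bX10 A (Wd F g) := by
    rw [bX11, Derivation.commutator_apply]
  have e2 : bX02 A g = Wd F (bX01 A g) - bX01 A (Wd F g) := by
    rw [bX02, Derivation.commutator_apply]
  have e3 : bX01 A g = Wd F (bZ A g) - bZ A (Wd F g) := by
    conv_lhs => rw [bX01]
    rw [Derivation.commutator_apply]
  rw [e1, e2]
  have e4 : d2 (cmp (bX10 A)) (cmp (bX01 A)) * bX01 A g =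
      d2 (cmp (bX10 A)) (cmp (bX01 A)) * (Wd F (bZ A g) - bZ A (Wd F g)) := by
    rw [← e3]
  rw [e4]
  linear_combination h1 - h2

end main

/-- a functional which kills the three first brackets -/
theorem nu_rel {F : Type} [Field F] [CharZero F] (A : Fin 3 → R F)
    (hd : d3 (cmp (bZ A)) (cmp (bX10 A)) (cmp (bX01 A)) = 0) (N : Fin 3 → R F)
    (hZ : dt N (cmp (bZ A)) = 0) (hP : dt N (cmp (bX10 A)) = 0) (hQ : dt N (cmp (bX01 A)) = 0) :
    d2 (cmp (bZ A)) (cmp (bX01 A)) * dt N (cmp (bX20 A)) +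
      -d2 (cmp (bZ A)) (cmp (bX10 A)) * dt N (cmp (bX11 A)) = 0 ∧
    d2 (cmp (bZ A)) (cmp (bX01 A)) * dt N (cmp (bX11 A)) +
      -d2 (cmp (bZ A)) (cmp (bX10 A)) * dt N (cmp (bX02 A)) = 0 := by
  have c : ∀ D : Derivation F (R F) (R F), cmp D 0 = D (X 2) ∧ cmp D 1 = D (X 3) ∧
    cmp D 2 = D (X 4) := fun D => ⟨rfl, rfl, rfl⟩
  have a0 := rel1 A hd (X 2)
  have a1 := rel1 A hd (X 3)
  have a2 := rel1 A hd (X 4)
  have b0 := rel2 A hd (X 2)
  have b1 := rel2 A hd (X 3)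
  have b2 := rel2 A hd (X 4)
  set α := d2 (cmp (bZ A)) (cmp (bX01 A))
  set β := -d2 (cmp (bZ A)) (cmp (bX10 A))
  set γ := d2 (cmp (bX10 A)) (cmp (bX01 A))
  simp only [dt, (c _).1, (c _).2.1, (c _).2.2] at hZ hP hQ ⊢
  constructor
  · linear_combination N 0 * a0 + N 1 * a1 + N 2 * a2 - (Vd A α) * hP - (Vd A β) * hQ +
      (Vd A γ) * hZ + γ * hP
  · linear_combination N 0 * b0 + N 1 * b1 + N 2 * b2 - (Wd F α) * hP - (Wd F β) * hQ +
      (Wd F γ) * hZ + γ * hQ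

theorem exists_point {F : Type} [Field F] [CharZero F] (p : R F) (hp : p ≠ 0) :
    ∃ z : R F →ₐ[F] F, z p ≠ 0 := by
  by_contra hcon
  push Not at hcon
  apply hp
  apply MvPolynomial.funext
  intro x
  have := hcon (aeval x)
  rw [map_zero]
  rw [← MvPolynomial.coe_aeval_eq_eval]
  exact this

theorem dt_map {F : Type} [Field F] (z : R F →ₐ[F] F) (N : Fin 3 → R F)
    (D : Derivation F (R F) (R F)) : dt (fun i => z (N i)) (vec D z) = z (dt N (cmp D)) := by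
  unfold dt vec
  simp only [map_add, map_mul]

end TB

open TB MvPolynomial



/-- the case `β = 0` -/
theorem case0 {F : Type} [Field F] [CharZero F] (A : Fin 3 → R F) (α β : R F)
    (hα : α = d2 (cmp (bZ A)) (cmp (bX01 A))) (hβ : β = -d2 (cmp (bZ A)) (cmp (bX10 A)))
    (hd : d3 (cmp (bZ A)) (cmp (bX10 A)) (cmp (bX01 A)) = 0) (hβ0 : β = 0) (hα0 : α ≠ 0)
    (Y : Fin 3 → R F) : d3 (cmp (bZ A)) (cmp (bX10 A)) Y = 0 := by
  have e0 := rel0 A hd (X 2)
  have e1 := rel0 A hd (X 3)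
  have e2 := rel0 A hd (X 4)
  rw [← hα, ← hβ, hβ0, zero_mul, add_zero] at e0 e1 e2
  have c : ∀ D : Derivation F (R F) (R F), cmp D 0 = D (X 2) ∧ cmp D 1 = D (X 3) ∧
    cmp D 2 = D (X 4) := fun D => ⟨rfl, rfl, rfl⟩
  have : α * d3 (cmp (bZ A)) (cmp (bX10 A)) Y = 0 := by
    rw [d3_eq]
    simp only [dt, cr0, cr1, cr2, (c _).1, (c _).2.1, (c _).2.2]
    linear_combination (bZ A (X 4) * Y 1 - bZ A (X 3) * Y 2) * e0 +
      (bZ A (X 2) * Y 2 - bZ A (X 4) * Y 0) * e1 +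
      (bZ A (X 3) * Y 0 - bZ A (X 2) * Y 1) * e2
  exact (mul_eq_zero.1 this).resolve_left hα0

/-- the case `β ≠ 0` -/
theorem case1 {F : Type} [Field F] [CharZero F] (A : Fin 3 → R F) (α β : R F)
    (hα : α = d2 (cmp (bZ A)) (cmp (bX01 A))) (hβ : β = -d2 (cmp (bZ A)) (cmp (bX10 A)))
    (hd : d3 (cmp (bZ A)) (cmp (bX10 A)) (cmp (bX01 A)) = 0) (hβ0 : β ≠ 0)
    (Y : Fin 3 → R F) (hY0 : d3 (cmp (bZ A)) (cmp (bX10 A)) Y = 0) :
    d3 (cmp (bZ A)) (cmp (bX01 A)) Y = 0 := by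
  have e0 := rel0 A hd (X 2)
  have e1 := rel0 A hd (X 3)
  have e2 := rel0 A hd (X 4)
  rw [← hα, ← hβ] at e0 e1 e2
  have c : ∀ D : Derivation F (R F) (R F), cmp D 0 = D (X 2) ∧ cmp D 1 = D (X 3) ∧
    cmp D 2 = D (X 4) := fun D => ⟨rfl, rfl, rfl⟩
  rw [d3_eq] at hY0
  simp only [dt, cr0, cr1, cr2, (c _).1, (c _).2.1, (c _).2.2] at hY0
  have : β * d3 (cmp (bZ A)) (cmp (bX01 A)) Y = 0 := by
    rw [d3_eq]
    simp only [dt, cr0, cr1, cr2, (c _).1, (c _).2.1, (c _).2.2]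
    linear_combination (bZ A (X 4) * Y 1 - bZ A (X 3) * Y 2) * e0 +
      (bZ A (X 2) * Y 2 - bZ A (X 4) * Y 0) * e1 +
      (bZ A (X 3) * Y 0 - bZ A (X 2) * Y 1) * e2 - α * hY0
  exact (mul_eq_zero.1 this).resolve_left hβ0

theorem dt_cr_left {B : Type} [CommRing B] (u v : Fin 3 → B) : dt (cr u v) u = 0 := by
  simp only [dt, cr0, cr1, cr2]; ring

theorem dt_cr_right {B : Type} [CommRing B] (u v : Fin 3 → B) : dt (cr u v) v = 0 := by
  simp only [dt, cr0, cr1, cr2]; ring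

theorem dt_cr_swap {B : Type} [CommRing B] (u v w : Fin 3 → B) :
    dt (cr u v) w = -dt (cr u w) v := by
  simp only [dt, cr0, cr1, cr2]; ring

theorem zα {F : Type} [Field F] (A : Fin 3 → R F) (z : R F →ₐ[F] F) :
    z (d2 (cmp (bZ A)) (cmp (bX01 A))) =
      vec (bZ A) z 0 * vec (bX01 A) z 1 - vec (bZ A) z 1 * vec (bX01 A) z 0 := by
  unfold d2 vec
  simp only [map_sub, map_mul]

theorem zβ {F : Type} [Field F] (A : Fin 3 → R F) (z : R F →ₐ[F] F) :
    z (-d2 (cmp (bZ A)) (cmp (bX10 A))) =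
      -(vec (bZ A) z 0 * vec (bX10 A) z 1 - vec (bZ A) z 1 * vec (bX10 A) z 0) := by
  unfold d2 vec
  simp only [map_sub, map_mul, map_neg]

theorem t_TB : S_TB := by
  intro F _ _ A _ h2 hd hY
  obtain ⟨α, hα⟩ : ∃ α, α = d2 (cmp (bZ A)) (cmp (bX01 A)) := ⟨_, rfl⟩
  obtain ⟨β, hβ⟩ : ∃ β, β = -d2 (cmp (bZ A)) (cmp (bX10 A)) := ⟨_, rfl⟩
  have hzα := zα A
  have hzβ := zβ A
  rw [← hα] at hzα h2
  rw [← hβ] at hzβ
  by_cases hβ0 : β = 0
  · -- β = 0
    have hα0 : α ≠ 0 := by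
      rcases h2 with h | h
      · rw [hβ] at hβ0
        exact absurd (neg_eq_zero.1 hβ0) h
      · exact h
    obtain ⟨N, hN⟩ : ∃ N, N = cr (cmp (bZ A)) (cmp (bX01 A)) := ⟨_, rfl⟩
    have hNZ : dt N (cmp (bZ A)) = 0 := by rw [hN]; exact dt_cr_left _ _
    have hNQ : dt N (cmp (bX01 A)) = 0 := by rw [hN]; exact dt_cr_right _ _
    have hNP : dt N (cmp (bX10 A)) = 0 := by
      rw [hN, dt_cr_swap, ← d3_eq, hd, neg_zero]
    obtain ⟨r1, r2⟩ := nu_rel A hd N hNZ hNP hNQ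
    rw [← hα, ← hβ, hβ0, zero_mul, add_zero] at r1 r2
    have k20 : dt N (cmp (bX20 A)) = 0 := (mul_eq_zero.1 r1).resolve_left hα0
    have k11 : dt N (cmp (bX11 A)) = 0 := (mul_eq_zero.1 r2).resolve_left hα0
    have k02 : dt N (cmp (bX02 A)) ≠ 0 := by
      obtain ⟨Y, hY1, hY2⟩ := hY
      have hY3 : dt N Y ≠ 0 := by
        rcases hY2 with h | h
        · exact absurd (case0 A α β hα hβ hd hβ0 hα0 Y) h
        · rwa [d3_eq, ← hN] at h
      rcases hY1 with h | h | h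
      · rw [h] at hY3; exact absurd k20 hY3
      · rw [h] at hY3; exact absurd k11 hY3
      · rwa [h] at hY3
    obtain ⟨z, hz⟩ := exists_point (α * dt N (cmp (bX02 A))) (mul_ne_zero hα0 k02)
    rw [map_mul] at hz
    have hza : z α ≠ 0 := left_ne_zero_of_mul hz
    have hzn : z (dt N (cmp (bX02 A))) ≠ 0 := right_ne_zero_of_mul hz
    have hzb : z β = 0 := by rw [hβ0, map_zero]
    have hN2 : N 2 = α := by rw [hN, cr2, hα, d2]
    refine ⟨z, fin_step A z (fun i => z (N i)) (z α) (z β)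
      (z (dt N (cmp (bX02 A))) / (z α) ^ 2) (div_ne_zero hzn (pow_ne_zero _ hza)) (Or.inl hza)
      ?_ (hzα z) (hzβ z) ?_ ?_ ?_ ?_ ?_ ?_⟩
    · rw [hN2]
      exact hza
    · rw [dt_map, hNZ, map_zero]
    · rw [dt_map, hNP, map_zero]
    · rw [dt_map, hNQ, map_zero]
    · rw [dt_map, k20, map_zero, hzb]; ring
    · rw [dt_map, k11, map_zero, hzb]; ring
    · rw [dt_map]; field_simp
  · -- β ≠ 0
    obtain ⟨N, hN⟩ : ∃ N, N = cr (cmp (bZ A)) (cmp (bX10 A)) := ⟨_, rfl⟩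
    have hNZ : dt N (cmp (bZ A)) = 0 := by rw [hN]; exact dt_cr_left _ _
    have hNP : dt N (cmp (bX10 A)) = 0 := by rw [hN]; exact dt_cr_right _ _
    have hNQ : dt N (cmp (bX01 A)) = 0 := by rw [hN, ← d3_eq, hd]
    obtain ⟨r1, r2⟩ := nu_rel A hd N hNZ hNP hNQ
    rw [← hα, ← hβ] at r1 r2
    have k20 : dt N (cmp (bX20 A)) ≠ 0 := by
      intro k20
      rw [k20, mul_zero, zero_add] at r1
      have k11 : dt N (cmp (bX11 A)) = 0 := (mul_eq_zero.1 r1).resolve_left hβ0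
      rw [k11, mul_zero, zero_add] at r2
      have k02 : dt N (cmp (bX02 A)) = 0 := (mul_eq_zero.1 r2).resolve_left hβ0
      obtain ⟨Y, hY1, hY2⟩ := hY
      have hY3 : d3 (cmp (bZ A)) (cmp (bX10 A)) Y = 0 := by
        rw [d3_eq, ← hN]
        rcases hY1 with h | h | h
        · rw [h]; exact k20
        · rw [h]; exact k11
        · rw [h]; exact k02
      rcases hY2 with h | h
      · exact h hY3
      · exact h (case1 A α β hα hβ hd hβ0 Y hY3)
    obtain ⟨z, hz⟩ := exists_point (β * dt N (cmp (bX20 A))) (mul_ne_zero hβ0 k20)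
    rw [map_mul] at hz
    have hzb : z β ≠ 0 := left_ne_zero_of_mul hz
    have hzn : z (dt N (cmp (bX20 A))) ≠ 0 := right_ne_zero_of_mul hz
    have s1 := congrArg z r1
    have s2 := congrArg z r2
    simp only [map_add, map_mul, map_zero] at s1 s2
    have hN2 : N 2 = -β := by rw [hN, cr2, hβ, neg_neg, d2]
    refine ⟨z, fin_step A z (fun i => z (N i)) (z α) (z β)
      (z (dt N (cmp (bX20 A))) / (z β) ^ 2) (div_ne_zero hzn (pow_ne_zero _ hzb)) (Or.inr hzb)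
      ?_ (hzα z) (hzβ z) ?_ ?_ ?_ ?_ ?_ ?_⟩
    · rw [hN2, map_neg]
      exact neg_ne_zero.2 hzb
    · rw [dt_map, hNZ, map_zero]
    · rw [dt_map, hNP, map_zero]
    · rw [dt_map, hNQ, map_zero]
    · rw [dt_map]; field_simp
    · rw [dt_map]
      field_simp
      linear_combination s1
    · rw [dt_map]
      field_simp
      linear_combination (z β) * s2 - (z α) * s1

end Pool.Agent.N446.E8
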