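import Pool.Agent.N446.E8.FinA
import Pool.Agent.N446.E8.T_GA
import Pool.Agent.N446.E8.T_TB

/-!
# Algebraically defined graphs of dimension four contain cycles of length eight
-/

set_option autoImplicit false

namespace Pool.Agent.N446.E8

theorem fin (D : ℕ) :
    ∃ N : ℕ, ∀ (K : Type) [Field K] [Finite K], N ≤ ringChar K → ∀ S : Sys K,
      S.f₂.totalDegree ≤ D → S.f₃.totalDegree ≤ D → S.f₄.totalDegree ≤ D →
      ¬ (SimpleGraph.cycleGraph 8).Free S.graph :=
  main_GT (t_GA (t_EX t_TA t_PS) t_HE t_FN) t_TB D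

end Pool.Agent.N446.E8
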