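import Pool.Agent.N446.E8.Stm

/-!
# From a closed walk to a cycle of length eight; the ultraproduct
-/

set_option autoImplicit false

namespace Pool.Agent.N446.E8

open MvPolynomial

namespace Sys

variable {K : Type} [Field K] (S : Sys K)

theorem inc_lineOf (p : Fin 4 → K) (y : K) : S.Inc p (S.lineOf p y) := by
  refine ⟨?_, ?_, ?_⟩
  · simp [lineOf, MvPolynomial.aeval_eq_eval]
  · simp [lineOf, MvPolynomial.aeval_eq_eval]
  · simp [lineOf, MvPolynomial.aeval_eq_eval]

theorem inc_pointOf (l : Fin 4 → K) (x : K) : S.Inc (S.pointOf l x) l := by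
  refine ⟨?_, ?_, ?_⟩
  · simp [pointOf, MvPolynomial.aeval_eq_eval]
  · simp [pointOf, MvPolynomial.aeval_eq_eval]
  · simp [pointOf, MvPolynomial.aeval_eq_eval]

end Sys

theorem t_C8 : S_C8 := by
  intro K _ S p x y _ _ _ h4 hne hfree
  apply hfree
  have hP : ∀ i j : ℕ, i < 4 → j < 4 → S.walkP p x y i = S.walkP p x y j → i = j := by
    intro i j hi hj h
    rcases lt_trichotomy i j with hij | hij | hij
    · exact absurd h (hne i j hij hj).1
    · exact hij
    · exact absurd h.symm (hne j i hij hi).1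
  have hL : ∀ i j : ℕ, i < 4 → j < 4 → S.walkL p x y i = S.walkL p x y j → i = j := by
    intro i j hi hj h
    rcases lt_trichotomy i j with hij | hij | hij
    · exact absurd h (hne i j hij hj).2
    · exact hij
    · exact absurd h.symm (hne j i hij hi).2
  have h1 : ∀ n, S.Inc (S.walkP p x y n) (S.walkL p x y n) := fun n => S.inc_lineOf _ _
  have h2 : ∀ n, S.Inc (S.walkP p x y (n + 1)) (S.walkL p x y n) := fun n => S.inc_pointOf _ _
  have h3 : S.Inc (S.walkP p x y 0) (S.walkL p x y 3) := by
    have := h2 3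
    rw [h4] at this
    exact this
  let f : Fin 8 → (Fin 4 → K) ⊕ (Fin 4 → K) := fun i =>
    if i.val % 2 = 0 then Sum.inl (S.walkP p x y (i.val / 2)) else
      Sum.inr (S.walkL p x y (i.val / 2))
  have hadj : ∀ i : Fin 8, S.graph.Adj (f i) (f (i + 1)) := by
    intro i
    fin_cases i
    · exact h1 0
    · exact h2 0
    · exact h1 1
    · exact h2 1
    · exact h1 2
    · exact h2 2
    · exact h1 3
    · exact h3
  have hinj : Function.Injective f := by
    intro i j hij
    simp only [f] at hij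
    have hi := i.isLt
    have hj := j.isLt
    split_ifs at hij with ha hb hb
    · have := hP _ _ (by omega) (by omega) (Sum.inl.inj hij)
      apply Fin.ext
      omega
    · have := hL _ _ (by omega) (by omega) (Sum.inr.inj hij)
      apply Fin.ext
      omega
  refine ⟨⟨⟨f, ?_⟩, hinj⟩⟩
  intro a b hab
  rw [SimpleGraph.cycleGraph_adj] at hab
  rcases hab with hab | hab
  · have : a = b + 1 := by rw [← hab]; exact (add_sub_cancel b a).symm
    rw [this]
    exact (hadj b).symm
  · have : b = a + 1 := by rw [← hab]; exact (add_sub_cancel a b).symm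
    rw [this]
    exact hadj a

theorem t_UM : S_UM := by
  intro Fs _
  refine ⟨?_, ?_⟩
  · rw [Ideal.isMaximal_iff]
    refine ⟨?_, ?_⟩
    · intro h
      have h' : ∀ᶠ n in (Filter.hyperfilter ℕ : Filter ℕ), (1 : ∀ n, Fs n) n = 0 := h
      obtain ⟨n, hn⟩ := h'.exists
      exact one_ne_zero hn
    · intro J c hJ hc hcJ
      have hc' : ∀ᶠ n in (Filter.hyperfilter ℕ : Filter ℕ), ¬ c n = 0 := by
        rw [Ultrafilter.eventually_not]
        exact hc
      have hd : (1 : ∀ n, Fs n) - (fun n => (c n)⁻¹) * c ∈ UI Fs := by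
        show ∀ᶠ n in (Filter.hyperfilter ℕ : Filter ℕ), _ = _
        filter_upwards [hc'] with n hn
        show (1 : Fs n) - (c n)⁻¹ * c n = 0
        rw [inv_mul_cancel₀ hn, sub_self]
      have := J.add_mem (hJ hd) (J.mul_mem_left (fun n => (c n)⁻¹) hcJ)
      rwa [sub_add_cancel] at this
  · intro h1 _
    refine charZero_of_inj_zero fun m hm => ?_
    by_contra hm0
    have h2 : ((m : ∀ n, Fs n)) ∈ UI Fs := by
      rw [← Ideal.Quotient.eq_zero_iff_mem]
      rw [map_natCast]
      exact hm
    have h3 : ∀ᶠ n in (Filter.hyperfilter ℕ : Filter ℕ), ((m : ∀ n, Fs n)) n = 0 := h2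
    have h4 : ∀ᶠ n in (Filter.hyperfilter ℕ : Filter ℕ), m < n :=
      Nat.hyperfilter_le_atTop (Filter.eventually_gt_atTop m)
    obtain ⟨n, hn1, hn2⟩ := (h3.and h4).exists
    have h5 : ((m : ℕ) : Fs n) = 0 := by
      have : ((m : ∀ n, Fs n)) n = ((m : ℕ) : Fs n) := by simp
      rw [← this]; exact hn1
    rw [ringChar.spec] at h5
    have := Nat.le_of_dvd (Nat.pos_of_ne_zero hm0) h5
    have := h1 n
    omega

end Pool.Agent.N446.E8
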