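import Pool.Agent.N446.E8.Stm

/-!
# Project E8 of helper446: the expansion of a closed walk of length eight (helper325)
-/

set_option autoImplicit false
set_option linter.unusedSimpArgs false
set_option linter.unusedVariables false

namespace Pool.Agent.N446.E8

open MvPolynomial

namespace EX

section coeffs

variable {B : Type} [CommRing B]

/-- `6 ^ n / n!` -/
def ec (B : Type) [CommRing B] : ℕ → B
  | 0 => 1
  | 1 => 6
  | 2 => 18
  | 3 => 36
  | 4 => 54
  | _ => 0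

/-- the coefficients after one more exponential -/
def N (b : Bool) (s : B) (c : List Bool → B) : ℕ → List Bool → B
  | j, [] => ec B j * s ^ j * c []
  | j, a :: w => ec B j * s ^ j * c (a :: w) + if a = b then N b s c (j + 1) w else 0

/-- the coefficients of the identity -/
def c0 (B : Type) [CommRing B] : List Bool → B
  | [] => 1
  | _ :: _ => 0

/-- the coefficients of the product of eight exponentials -/
def cF (a1 a2 a3 b1 b2 b3 : B) : List Bool → B :=
  N false (-b3) (N true (-a3) (N false (b3 - b2) (N true (a3 - a2) (N false (b2 - b1)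
    (N true (a2 - a1) (N false b1 (N true a1 (c0 B) 0) 0) 0) 0) 0) 0) 0) 0

def q11 (a1 a2 a3 b1 b2 b3 : B) : B :=
  (a1 ^ 1 - a2 ^ 1) * b1 ^ 1 + (a2 ^ 1 - a3 ^ 1) * b2 ^ 1 + a3 ^ 1 * b3 ^ 1

def q21 (a1 a2 a3 b1 b2 b3 : B) : B :=
  (a1 ^ 2 - a2 ^ 2) * b1 ^ 1 + (a2 ^ 2 - a3 ^ 2) * b2 ^ 1 + a3 ^ 2 * b3 ^ 1

def q12 (a1 a2 a3 b1 b2 b3 : B) : B :=
  (a1 ^ 1 - a2 ^ 1) * b1 ^ 2 + (a2 ^ 1 - a3 ^ 1) * b2 ^ 2 + a3 ^ 1 * b3 ^ 2

def q31 (a1 a2 a3 b1 b2 b3 : B) : B :=
  (a1 ^ 3 - a2 ^ 3) * b1 ^ 1 + (a2 ^ 3 - a3 ^ 3) * b2 ^ 1 + a3 ^ 3 * b3 ^ 1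

def q22 (a1 a2 a3 b1 b2 b3 : B) : B :=
  (a1 ^ 2 - a2 ^ 2) * b1 ^ 2 + (a2 ^ 2 - a3 ^ 2) * b2 ^ 2 + a3 ^ 2 * b3 ^ 2

def q13 (a1 a2 a3 b1 b2 b3 : B) : B :=
  (a1 ^ 1 - a2 ^ 1) * b1 ^ 3 + (a2 ^ 1 - a3 ^ 1) * b2 ^ 3 + a3 ^ 1 * b3 ^ 3

lemma cF_e (a1 a2 a3 b1 b2 b3 : B) : cF a1 a2 a3 b1 b2 b3 [] =
    1 := by
  simp only [cF, N, c0, ec, q11, q21, q12, q31, q22, q13, if_true, if_false, reduceIte, Bool.true_eq_false,
    Bool.false_eq_true, reduceCtorEq, List.isEmpty]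
  ring

lemma cF_V (a1 a2 a3 b1 b2 b3 : B) : cF a1 a2 a3 b1 b2 b3 [true] =
    0 := by
  simp only [cF, N, c0, ec, q11, q21, q12, q31, q22, q13, if_true, if_false, reduceIte, Bool.true_eq_false,
    Bool.false_eq_true, reduceCtorEq, List.isEmpty]
  ring

lemma cF_W (a1 a2 a3 b1 b2 b3 : B) : cF a1 a2 a3 b1 b2 b3 [false] =
    0 := by
  simp only [cF, N, c0, ec, q11, q21, q12, q31, q22, q13, if_true, if_false, reduceIte, Bool.true_eq_false,
    Bool.false_eq_true, reduceCtorEq, List.isEmpty]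
  ring

lemma cF_VV (a1 a2 a3 b1 b2 b3 : B) : cF a1 a2 a3 b1 b2 b3 [true, true] =
    0 := by
  simp only [cF, N, c0, ec, q11, q21, q12, q31, q22, q13, if_true, if_false, reduceIte, Bool.true_eq_false,
    Bool.false_eq_true, reduceCtorEq, List.isEmpty]
  ring

lemma cF_VW (a1 a2 a3 b1 b2 b3 : B) : cF a1 a2 a3 b1 b2 b3 [true, false] =
    (-36) * (q11 a1 a2 a3 b1 b2 b3) := by
  simp only [cF, N, c0, ec, q11, q21, q12, q31, q22, q13, if_true, if_false, reduceIte, Bool.true_eq_false,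
    Bool.false_eq_true, reduceCtorEq, List.isEmpty]
  ring

lemma cF_WV (a1 a2 a3 b1 b2 b3 : B) : cF a1 a2 a3 b1 b2 b3 [false, true] =
    (36) * (q11 a1 a2 a3 b1 b2 b3) := by
  simp only [cF, N, c0, ec, q11, q21, q12, q31, q22, q13, if_true, if_false, reduceIte, Bool.true_eq_false,
    Bool.false_eq_true, reduceCtorEq, List.isEmpty]
  ring

lemma cF_WW (a1 a2 a3 b1 b2 b3 : B) : cF a1 a2 a3 b1 b2 b3 [false, false] =
    0 := by
  simp only [cF, N, c0, ec, q11, q21, q12, q31, q22, q13, if_true, if_false, reduceIte, Bool.true_eq_false,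
    Bool.false_eq_true, reduceCtorEq, List.isEmpty]
  ring

lemma cF_VVV (a1 a2 a3 b1 b2 b3 : B) : cF a1 a2 a3 b1 b2 b3 [true, true, true] =
    0 := by
  simp only [cF, N, c0, ec, q11, q21, q12, q31, q22, q13, if_true, if_false, reduceIte, Bool.true_eq_false,
    Bool.false_eq_true, reduceCtorEq, List.isEmpty]
  ring

lemma cF_VVW (a1 a2 a3 b1 b2 b3 : B) : cF a1 a2 a3 b1 b2 b3 [true, true, false] =
    (108) * (q21 a1 a2 a3 b1 b2 b3) := by
  simp only [cF, N, c0, ec, q11, q21, q12, q31, q22, q13, if_true, if_false, reduceIte, Bool.true_eq_false,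
    Bool.false_eq_true, reduceCtorEq, List.isEmpty]
  ring

lemma cF_VWV (a1 a2 a3 b1 b2 b3 : B) : cF a1 a2 a3 b1 b2 b3 [true, false, true] =
    (-216) * (q21 a1 a2 a3 b1 b2 b3) := by
  simp only [cF, N, c0, ec, q11, q21, q12, q31, q22, q13, if_true, if_false, reduceIte, Bool.true_eq_false,
    Bool.false_eq_true, reduceCtorEq, List.isEmpty]
  ring

lemma cF_VWW (a1 a2 a3 b1 b2 b3 : B) : cF a1 a2 a3 b1 b2 b3 [true, false, false] =
    (-108) * (q12 a1 a2 a3 b1 b2 b3) := by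
  simp only [cF, N, c0, ec, q11, q21, q12, q31, q22, q13, if_true, if_false, reduceIte, Bool.true_eq_false,
    Bool.false_eq_true, reduceCtorEq, List.isEmpty]
  ring

lemma cF_WVV (a1 a2 a3 b1 b2 b3 : B) : cF a1 a2 a3 b1 b2 b3 [false, true, true] =
    (108) * (q21 a1 a2 a3 b1 b2 b3) := by
  simp only [cF, N, c0, ec, q11, q21, q12, q31, q22, q13, if_true, if_false, reduceIte, Bool.true_eq_false,
    Bool.false_eq_true, reduceCtorEq, List.isEmpty]
  ring

lemma cF_WVW (a1 a2 a3 b1 b2 b3 : B) : cF a1 a2 a3 b1 b2 b3 [false, true, false] =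
    (216) * (q12 a1 a2 a3 b1 b2 b3) := by
  simp only [cF, N, c0, ec, q11, q21, q12, q31, q22, q13, if_true, if_false, reduceIte, Bool.true_eq_false,
    Bool.false_eq_true, reduceCtorEq, List.isEmpty]
  ring

lemma cF_WWV (a1 a2 a3 b1 b2 b3 : B) : cF a1 a2 a3 b1 b2 b3 [false, false, true] =
    (-108) * (q12 a1 a2 a3 b1 b2 b3) := by
  simp only [cF, N, c0, ec, q11, q21, q12, q31, q22, q13, if_true, if_false, reduceIte, Bool.true_eq_false,
    Bool.false_eq_true, reduceCtorEq, List.isEmpty]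
  ring

lemma cF_WWW (a1 a2 a3 b1 b2 b3 : B) : cF a1 a2 a3 b1 b2 b3 [false, false, false] =
    0 := by
  simp only [cF, N, c0, ec, q11, q21, q12, q31, q22, q13, if_true, if_false, reduceIte, Bool.true_eq_false,
    Bool.false_eq_true, reduceCtorEq, List.isEmpty]
  ring

lemma cF_VVVV (a1 a2 a3 b1 b2 b3 : B) : cF a1 a2 a3 b1 b2 b3 [true, true, true, true] =
    0 := by
  simp only [cF, N, c0, ec, q11, q21, q12, q31, q22, q13, if_true, if_false, reduceIte, Bool.true_eq_false,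
    Bool.false_eq_true, reduceCtorEq, List.isEmpty]
  ring

lemma cF_VVVW (a1 a2 a3 b1 b2 b3 : B) : cF a1 a2 a3 b1 b2 b3 [true, true, true, false] =
    (-216) * (q31 a1 a2 a3 b1 b2 b3) := by
  simp only [cF, N, c0, ec, q11, q21, q12, q31, q22, q13, if_true, if_false, reduceIte, Bool.true_eq_false,
    Bool.false_eq_true, reduceCtorEq, List.isEmpty]
  ring

lemma cF_VVWV (a1 a2 a3 b1 b2 b3 : B) : cF a1 a2 a3 b1 b2 b3 [true, true, false, true] =
    (648) * (q31 a1 a2 a3 b1 b2 b3) := by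
  simp only [cF, N, c0, ec, q11, q21, q12, q31, q22, q13, if_true, if_false, reduceIte, Bool.true_eq_false,
    Bool.false_eq_true, reduceCtorEq, List.isEmpty]
  ring

lemma cF_VVWW (a1 a2 a3 b1 b2 b3 : B) : cF a1 a2 a3 b1 b2 b3 [true, true, false, false] =
    (324) * (q22 a1 a2 a3 b1 b2 b3) := by
  simp only [cF, N, c0, ec, q11, q21, q12, q31, q22, q13, if_true, if_false, reduceIte, Bool.true_eq_false,
    Bool.false_eq_true, reduceCtorEq, List.isEmpty]
  ring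

lemma cF_VWVV (a1 a2 a3 b1 b2 b3 : B) : cF a1 a2 a3 b1 b2 b3 [true, false, true, true] =
    (-648) * (q31 a1 a2 a3 b1 b2 b3) := by
  simp only [cF, N, c0, ec, q11, q21, q12, q31, q22, q13, if_true, if_false, reduceIte, Bool.true_eq_false,
    Bool.false_eq_true, reduceCtorEq, List.isEmpty]
  ring

lemma cF_VWVW (a1 a2 a3 b1 b2 b3 : B) : cF a1 a2 a3 b1 b2 b3 [true, false, true, false] =
    (-648) * (q22 a1 a2 a3 b1 b2 b3) + (648) * (q11 a1 a2 a3 b1 b2 b3) ^ 2 := by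
  simp only [cF, N, c0, ec, q11, q21, q12, q31, q22, q13, if_true, if_false, reduceIte, Bool.true_eq_false,
    Bool.false_eq_true, reduceCtorEq, List.isEmpty]
  ring

lemma cF_VWWV (a1 a2 a3 b1 b2 b3 : B) : cF a1 a2 a3 b1 b2 b3 [true, false, false, true] =
    (-648) * (q11 a1 a2 a3 b1 b2 b3) ^ 2 := by
  simp only [cF, N, c0, ec, q11, q21, q12, q31, q22, q13, if_true, if_false, reduceIte, Bool.true_eq_false,
    Bool.false_eq_true, reduceCtorEq, List.isEmpty]
  ring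

lemma cF_VWWW (a1 a2 a3 b1 b2 b3 : B) : cF a1 a2 a3 b1 b2 b3 [true, false, false, false] =
    (-216) * (q13 a1 a2 a3 b1 b2 b3) := by
  simp only [cF, N, c0, ec, q11, q21, q12, q31, q22, q13, if_true, if_false, reduceIte, Bool.true_eq_false,
    Bool.false_eq_true, reduceCtorEq, List.isEmpty]
  ring

lemma cF_WVVV (a1 a2 a3 b1 b2 b3 : B) : cF a1 a2 a3 b1 b2 b3 [false, true, true, true] =
    (216) * (q31 a1 a2 a3 b1 b2 b3) := by
  simp only [cF, N, c0, ec, q11, q21, q12, q31, q22, q13, if_true, if_false, reduceIte, Bool.true_eq_false,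
    Bool.false_eq_true, reduceCtorEq, List.isEmpty]
  ring

lemma cF_WVVW (a1 a2 a3 b1 b2 b3 : B) : cF a1 a2 a3 b1 b2 b3 [false, true, true, false] =
    (-648) * (q11 a1 a2 a3 b1 b2 b3) ^ 2 := by
  simp only [cF, N, c0, ec, q11, q21, q12, q31, q22, q13, if_true, if_false, reduceIte, Bool.true_eq_false,
    Bool.false_eq_true, reduceCtorEq, List.isEmpty]
  ring

lemma cF_WVWV (a1 a2 a3 b1 b2 b3 : B) : cF a1 a2 a3 b1 b2 b3 [false, true, false, true] =
    (648) * (q22 a1 a2 a3 b1 b2 b3) + (648) * (q11 a1 a2 a3 b1 b2 b3) ^ 2 := by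
  simp only [cF, N, c0, ec, q11, q21, q12, q31, q22, q13, if_true, if_false, reduceIte, Bool.true_eq_false,
    Bool.false_eq_true, reduceCtorEq, List.isEmpty]
  ring

lemma cF_WVWW (a1 a2 a3 b1 b2 b3 : B) : cF a1 a2 a3 b1 b2 b3 [false, true, false, false] =
    (648) * (q13 a1 a2 a3 b1 b2 b3) := by
  simp only [cF, N, c0, ec, q11, q21, q12, q31, q22, q13, if_true, if_false, reduceIte, Bool.true_eq_false,
    Bool.false_eq_true, reduceCtorEq, List.isEmpty]
  ring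

lemma cF_WWVV (a1 a2 a3 b1 b2 b3 : B) : cF a1 a2 a3 b1 b2 b3 [false, false, true, true] =
    (-324) * (q22 a1 a2 a3 b1 b2 b3) := by
  simp only [cF, N, c0, ec, q11, q21, q12, q31, q22, q13, if_true, if_false, reduceIte, Bool.true_eq_false,
    Bool.false_eq_true, reduceCtorEq, List.isEmpty]
  ring

lemma cF_WWVW (a1 a2 a3 b1 b2 b3 : B) : cF a1 a2 a3 b1 b2 b3 [false, false, true, false] =
    (-648) * (q13 a1 a2 a3 b1 b2 b3) := by
  simp only [cF, N, c0, ec, q11, q21, q12, q31, q22, q13, if_true, if_false, reduceIte, Bool.true_eq_false,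
    Bool.false_eq_true, reduceCtorEq, List.isEmpty]
  ring

lemma cF_WWWV (a1 a2 a3 b1 b2 b3 : B) : cF a1 a2 a3 b1 b2 b3 [false, false, false, true] =
    (216) * (q13 a1 a2 a3 b1 b2 b3) := by
  simp only [cF, N, c0, ec, q11, q21, q12, q31, q22, q13, if_true, if_false, reduceIte, Bool.true_eq_false,
    Bool.false_eq_true, reduceCtorEq, List.isEmpty]
  ring

lemma cF_WWWW (a1 a2 a3 b1 b2 b3 : B) : cF a1 a2 a3 b1 b2 b3 [false, false, false, false] =
    0 := by
  simp only [cF, N, c0, ec, q11, q21, q12, q31, q22, q13, if_true, if_false, reduceIte, Bool.true_eq_false,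
    Bool.false_eq_true, reduceCtorEq, List.isEmpty]
  ring


/-- the sum over the words of length at most `m` -/
def sm {R : Type} (D : Bool → R → R) (z : R → B) (t : B) : ℕ → (List Bool → B) → R → B
  | 0, c, g => c [] * z g
  | m + 1, c, g => c [] * z g + t * (sm D z t m (fun w => c (true :: w)) (D true g) +
      sm D z t m (fun w => c (false :: w)) (D false g))

variable {R : Type} (D : Bool → R → R) (z : R → B) (t : B)

lemma sm_add (m : ℕ) : ∀ (c c' : List Bool → B) (g : R),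
    sm D z t m (fun w => c w + c' w) g = sm D z t m c g + sm D z t m c' g := by
  induction m with
  | zero => intro c c' g; simp only [sm]; ring
  | succ m ih => intro c c' g; simp only [sm]; rw [ih, ih]; ring

lemma sm_mul (m : ℕ) : ∀ (r : B) (c : List Bool → B) (g : R),
    sm D z t m (fun w => r * c w) g = r * sm D z t m c g := by
  induction m with
  | zero => intro r c g; simp only [sm]; ring
  | succ m ih => intro r c g; simp only [sm]; rw [ih, ih]; ring

lemma sm_N0 (b : Bool) (s : B) (c : List Bool → B) (j : ℕ) (g : R) :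
    sm D z t 0 (N b s c j) g = ec B j * s ^ j * sm D z t 0 c g := by
  simp only [sm, N]
  ring

lemma sm_N (m : ℕ) (b : Bool) (s : B) (c : List Bool → B) (j : ℕ) (g : R) :
    sm D z t (m + 1) (N b s c j) g = ec B j * s ^ j * sm D z t (m + 1) c g +
      t * sm D z t m (N b s c (j + 1)) (D b g) := by
  have h1 : ∀ a : Bool, (fun w => N b s c j (a :: w)) = fun w => ec B j * s ^ j * c (a :: w) +
      (if a = b then 1 else 0) * N b s c (j + 1) w := by
    intro a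
    funext w
    simp only [N]
    split_ifs <;> ring
  simp only [sm]
  rw [h1, h1, sm_add, sm_add, sm_mul D z t m (ec B j * s ^ j), sm_mul D z t m (ec B j * s ^ j),
    sm_mul, sm_mul]
  cases b
  · simp only [N, if_true, if_false, Bool.true_eq_false, reduceIte]
    ring
  · simp only [N, if_true, if_false, Bool.false_eq_true, reduceIte]
    ring

lemma sm_succ (m : ℕ) : ∀ (c : List Bool → B) (g : R),
    ∃ r, sm D z t (m + 1) c g = sm D z t m c g + t ^ (m + 1) * r := by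
  induction m with
  | zero =>
    intro c g
    refine ⟨sm D z t 0 (fun w => c (true :: w)) (D true g) +
      sm D z t 0 (fun w => c (false :: w)) (D false g), ?_⟩
    simp only [sm]
    ring
  | succ m ih =>
    intro c g
    obtain ⟨r1, h1⟩ := ih (fun w => c (true :: w)) (D true g)
    obtain ⟨r2, h2⟩ := ih (fun w => c (false :: w)) (D false g)
    refine ⟨r1 + r2, ?_⟩
    rw [sm, h1, h2]
    simp only [sm]
    ring

/-- adding an exponential -/
lemma sm_exp (b : Bool) (s : B) (c : List Bool → B) (g : R) : ∃ r,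
    sm D z t 4 c g + (t * (6 * s)) * sm D z t 4 c (D b g) +
      t ^ 2 * (18 * s ^ 2) * sm D z t 4 c (D b (D b g)) +
      t ^ 3 * (36 * s ^ 3) * sm D z t 4 c (D b (D b (D b g))) +
      t ^ 4 * (54 * s ^ 4) * sm D z t 4 c (D b (D b (D b (D b g)))) =
    sm D z t 4 (N b s c 0) g + t ^ 5 * r := by
  have e0 := sm_N D z t 3 b s c 0 g
  have e1 := sm_N D z t 2 b s c 1 (D b g)
  have e2 := sm_N D z t 1 b s c 2 (D b (D b g))
  have e3 := sm_N D z t 0 b s c 3 (D b (D b (D b g)))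
  have e4 := sm_N0 D z t b s c 4 (D b (D b (D b (D b g))))
  obtain ⟨r1, h1⟩ := sm_succ D z t 3 c (D b g)
  obtain ⟨r2, h2⟩ := sm_succ D z t 3 c (D b (D b g))
  obtain ⟨r3, h3⟩ := sm_succ D z t 2 c (D b (D b g))
  obtain ⟨r4, h4⟩ := sm_succ D z t 3 c (D b (D b (D b g)))
  obtain ⟨r5, h5⟩ := sm_succ D z t 2 c (D b (D b (D b g)))
  obtain ⟨r6, h6⟩ := sm_succ D z t 1 c (D b (D b (D b g)))
  obtain ⟨r7, h7⟩ := sm_succ D z t 3 c (D b (D b (D b (D b g))))
  obtain ⟨r8, h8⟩ := sm_succ D z t 2 c (D b (D b (D b (D b g))))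
  obtain ⟨r9, h9⟩ := sm_succ D z t 1 c (D b (D b (D b (D b g))))
  obtain ⟨r10, h10⟩ := sm_succ D z t 0 c (D b (D b (D b (D b g))))
  norm_num at h1 h2 h3 h4 h5 h6 h7 h8 h9 h10 e0 e1 e2 e3
  rw [e0, e1, e2, e3, e4, h1, h2, h3, h4, h5, h6, h7, h8, h9, h10]
  simp only [ec]
  refine ⟨6 * s * r1 + 18 * s ^ 2 * (t * r2 + r3) + 36 * s ^ 3 * (t ^ 2 * r4 + t * r5 + r6) +
    54 * s ^ 4 * (t ^ 3 * r7 + t ^ 2 * r8 + t * r9 + r10), ?_⟩
  ring

end coeffs


section flow

variable {F : Type} [Field F] [CharZero F] {B : Type} [CommRing B] [Algebra F B]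

lemma poly_five {A : Type} [CommRing A] (p : Polynomial A) : ∃ q : Polynomial A,
    p = Polynomial.C (p.coeff 0) + Polynomial.X * (Polynomial.C (p.coeff 1) + Polynomial.X *
      (Polynomial.C (p.coeff 2) + Polynomial.X * (Polynomial.C (p.coeff 3) + Polynomial.X *
        (Polynomial.C (p.coeff 4) + Polynomial.X * q)))) := by
  refine ⟨p.divX.divX.divX.divX.divX, ?_⟩
  have h : ∀ r : Polynomial A, r = Polynomial.C (r.coeff 0) + Polynomial.X * r.divX := by
    intro r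
    conv_lhs => rw [← Polynomial.divX_mul_X_add r]
    ring
  have h1 := h p
  have h2 := h p.divX
  have h3 := h p.divX.divX
  have h4 := h p.divX.divX.divX
  have h5 := h p.divX.divX.divX.divX
  rw [Polynomial.coeff_divX] at h2
  rw [Polynomial.coeff_divX, Polynomial.coeff_divX] at h3
  rw [Polynomial.coeff_divX, Polynomial.coeff_divX, Polynomial.coeff_divX] at h4
  rw [Polynomial.coeff_divX, Polynomial.coeff_divX, Polynomial.coeff_divX,
    Polynomial.coeff_divX] at h5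
  rw [← h5, ← h4, ← h3, ← h2, ← h1]

/-- one exponential -/
lemma mv_exp (hTA : S_TA) {D : Derivation F (R F) (R F)} {P : R F →ₐ[F] Polynomial (R F)}
    (hP : Flow D P) (l : R F →ₐ[F] B) (t s : B) (g : R F) : ∃ r,
    mv P l (t * (6 * s)) g = l g + (t * (6 * s)) * l (D g) + t ^ 2 * (18 * s ^ 2) * l (D (D g)) +
      t ^ 3 * (36 * s ^ 3) * l (D (D (D g))) + t ^ 4 * (54 * s ^ 4) * l (D (D (D (D g)))) +
      t ^ 5 * r := by
  obtain ⟨q, hq⟩ := poly_five (P g)
  have hc : ∀ k, l ((P g).coeff k) = algebraMap F B ((k.factorial : F)⁻¹) * l (D^[k] g) := by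
    intro k
    rw [hTA F D P hP g k, map_smul, Algebra.smul_def]
  have hmv : mv P l (t * (6 * s)) g = Polynomial.eval₂ (l : R F →+* B) (t * (6 * s)) (P g) := rfl
  rw [hmv, hq]
  simp only [Polynomial.eval₂_add, Polynomial.eval₂_mul, Polynomial.eval₂_C, Polynomial.eval₂_X,
    RingHom.coe_coe]
  rw [hc 0, hc 1, hc 2, hc 3, hc 4]
  have k0 : algebraMap F B (((0 : ℕ).factorial : F)⁻¹) = 1 := by simp
  have k1 : algebraMap F B (((1 : ℕ).factorial : F)⁻¹) = 1 := by simp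
  have k2 : algebraMap F B (((2 : ℕ).factorial : F)⁻¹) * 2 = 1 := by
    rw [← map_ofNat (algebraMap F B) 2, ← map_mul, ← map_one (algebraMap F B)]
    congr 1
    norm_num [Nat.factorial]
  have k3 : algebraMap F B (((3 : ℕ).factorial : F)⁻¹) * 6 = 1 := by
    rw [← map_ofNat (algebraMap F B) 6, ← map_mul, ← map_one (algebraMap F B)]
    congr 1
    norm_num [Nat.factorial]
  have k4 : algebraMap F B (((4 : ℕ).factorial : F)⁻¹) * 24 = 1 := by
    rw [← map_ofNat (algebraMap F B) 24, ← map_mul, ← map_one (algebraMap F B)]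
    congr 1
    norm_num [Nat.factorial]
  have i0 : D^[0] g = g := rfl
  have i1 : D^[1] g = D g := rfl
  have i2 : D^[2] g = D (D g) := rfl
  have i3 : D^[3] g = D (D (D g)) := rfl
  have i4 : D^[4] g = D (D (D (D g))) := rfl
  rw [k0, k1, i0, i1, i2, i3, i4]
  generalize algebraMap F B (((2 : ℕ).factorial : F)⁻¹) = y2 at k2 ⊢
  generalize algebraMap F B (((3 : ℕ).factorial : F)⁻¹) = y3 at k3 ⊢
  generalize algebraMap F B (((4 : ℕ).factorial : F)⁻¹) = y4 at k4 ⊢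
  refine ⟨6 ^ 5 * s ^ 5 * Polynomial.eval₂ (l : R F →+* B) (t * (6 * s)) q, ?_⟩
  linear_combination (18 * t ^ 2 * s ^ 2 * l (D (D g))) * k2 +
    (36 * t ^ 3 * s ^ 3 * l (D (D (D g)))) * k3 +
    (54 * t ^ 4 * s ^ 4 * l (D (D (D (D g))))) * k4

/-- one more exponential -/
lemma mv_step (hTA : S_TA) {D : Bool → R F → R F} {E : Derivation F (R F) (R F)}
    {P : R F →ₐ[F] Polynomial (R F)} (hP : Flow E P) (b : Bool) (hb : ∀ g, D b g = E g)
    (z l : R F →ₐ[F] B) (t s : B) (c : List Bool → B)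
    (hl : ∀ g, ∃ r, l g = sm D z t 4 c g + t ^ 5 * r) :
    ∀ g, ∃ r, mv P l (t * (6 * s)) g = sm D z t 4 (N b s c 0) g + t ^ 5 * r := by
  intro g
  obtain ⟨r, hr⟩ := mv_exp hTA hP l t s g
  obtain ⟨r0, h0⟩ := hl g
  obtain ⟨r1, h1⟩ := hl (D b g)
  obtain ⟨r2, h2⟩ := hl (D b (D b g))
  obtain ⟨r3, h3⟩ := hl (D b (D b (D b g)))
  obtain ⟨r4, h4⟩ := hl (D b (D b (D b (D b g))))
  obtain ⟨r5, h5⟩ := sm_exp D z t b s c g
  rw [hr]
  simp only [← hb]
  rw [h0, h1, h2, h3, h4]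
  refine ⟨r5 + r0 + t * (6 * s) * r1 + t ^ 2 * (18 * s ^ 2) * r2 + t ^ 3 * (36 * s ^ 3) * r3 +
    t ^ 4 * (54 * s ^ 4) * r4 + r, ?_⟩
  linear_combination h5

lemma sm_c0 (D : Bool → R F → R F) (z : R F → B) (t : B) (g : R F) :
    sm D z t 4 (c0 B) g = z g := by
  have h : ∀ (m : ℕ) (g : R F), sm D z t m (fun _ => (0 : B)) g = 0 := by
    intro m
    induction m with
    | zero => intro g; simp [sm]
    | succ m ih => intro g; simp only [sm]; rw [ih, ih]; ring
  show sm D z t (3 + 1) (c0 B) g = z g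
  rw [sm]
  have h1 : ∀ a : Bool, (fun w => c0 B (a :: w)) = fun _ => (0 : B) := fun a => rfl
  rw [h1, h1, h, h]
  simp [c0]

end flow

end EX

open EX in
theorem t_EX (hTA : S_TA) (hPS : S_PS) : S_EX := by
  intro F _ _ A Φ hΦ B _ _ z t α β hα0 hα4 hβ0 hβ4 g
  have h6 : algebraMap F B (1 / 6) * 6 = 1 := by
    rw [← map_ofNat (algebraMap F B) 6, ← map_mul, ← map_one (algebraMap F B)]
    congr 1
    norm_num
  have h2 : algebraMap F B (1 / 2) * 2 = 1 := by
    rw [← map_ofNat (algebraMap F B) 2, ← map_mul, ← map_one (algebraMap F B)]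
    congr 1
    norm_num
  have h4 : algebraMap F B (1 / 4) * 4 = 1 := by
    rw [← map_ofNat (algebraMap F B) 4, ← map_mul, ← map_one (algebraMap F B)]
    congr 1
    norm_num
  have ha : ∀ j, α j = 6 * (algebraMap F B (1 / 6) * α j) := fun j => by
    linear_combination (-α j) * h6
  have hb : ∀ j, β j = 6 * (algebraMap F B (1 / 6) * β j) := fun j => by
    linear_combination (-β j) * h6
  set a1 := algebraMap F B (1 / 6) * α 1 with ha1
  set a2 := algebraMap F B (1 / 6) * α 2 with ha2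
  set a3 := algebraMap F B (1 / 6) * α 3 with ha3
  set b1 := algebraMap F B (1 / 6) * β 1 with hb1
  set b2 := algebraMap F B (1 / 6) * β 2 with hb2
  set b3 := algebraMap F B (1 / 6) * β 3 with hb3
  have ea1 : α 1 = 6 * a1 := ha 1
  have ea2 : α 2 = 6 * a2 := ha 2
  have ea3 : α 3 = 6 * a3 := ha 3
  have eb1 : β 1 = 6 * b1 := hb 1
  have eb2 : β 2 = 6 * b2 := hb 2
  have eb3 : β 3 = 6 * b3 := hb 3
  let D : Bool → R F → R F := fun b => if b then (Vd A : R F → R F) else (Wd F : R F → R F)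
  have hDt : ∀ g, D true g = Vd A g := fun g => rfl
  have hDf : ∀ g, D false g = Wd F g := fun g => rfl
  have hl0 : ∀ g, ∃ r, z g = sm D z t 4 (c0 B) g + t ^ 5 * r := fun g =>
    ⟨0, by rw [sm_c0]; ring⟩
  have s1 := mv_step hTA hΦ true hDt z z t a1 _ hl0
  have s2 := mv_step hTA (hPS F) false hDf z _ t b1 _ s1
  have s3 := mv_step hTA hΦ true hDt z _ t (a2 - a1) _ s2
  have s4 := mv_step hTA (hPS F) false hDf z _ t (b2 - b1) _ s3
  have s5 := mv_step hTA hΦ true hDt z _ t (a3 - a2) _ s4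
  have s6 := mv_step hTA (hPS F) false hDf z _ t (b3 - b2) _ s5
  have s7 := mv_step hTA hΦ true hDt z _ t (-a3) _ s6
  have s8 := mv_step hTA (hPS F) false hDf z _ t (-b3) _ s7
  obtain ⟨r, hr⟩ := s8 g
  have hst : st Φ z (fun n => z (X 0) + t * α n) (fun n => z (X 1) + t * β n) 4 =
      mv (Psi F) (mv Φ (mv (Psi F) (mv Φ (mv (Psi F) (mv Φ (mv (Psi F) (mv Φ z (t * (6 * a1)))
        (t * (6 * b1))) (t * (6 * (a2 - a1)))) (t * (6 * (b2 - b1)))) (t * (6 * (a3 - a2))))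
        (t * (6 * (b3 - b2)))) (t * (6 * (-a3)))) (t * (6 * (-b3))) := by
    simp only [st, zero_add, Nat.reduceAdd]
    rw [hα0, hα4, hβ0, hβ4, ea1, ea2, ea3, eb1, eb2, eb3]
    have e1 : z (X 0) + t * (6 * a1) - (z (X 0) + t * 0) = t * (6 * a1) := by ring
    have e2 : z (X 0) + t * (6 * a2) - (z (X 0) + t * (6 * a1)) = t * (6 * (a2 - a1)) := by ring
    have e3 : z (X 0) + t * (6 * a3) - (z (X 0) + t * (6 * a2)) = t * (6 * (a3 - a2)) := by ring
    have e4 : z (X 0) + t * 0 - (z (X 0) + t * (6 * a3)) = t * (6 * (-a3)) := by ring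
    have e5 : z (X 1) + t * (6 * b1) - (z (X 1) + t * 0) = t * (6 * b1) := by ring
    have e6 : z (X 1) + t * (6 * b2) - (z (X 1) + t * (6 * b1)) = t * (6 * (b2 - b1)) := by ring
    have e7 : z (X 1) + t * (6 * b3) - (z (X 1) + t * (6 * b2)) = t * (6 * (b3 - b2)) := by ring
    have e8 : z (X 1) + t * 0 - (z (X 1) + t * (6 * b3)) = t * (6 * (-b3)) := by ring
    rw [e1, e2, e3, e4, e5, e6, e7, e8]
  rw [hst, hr]
  refine ⟨r, ?_⟩
  have hcF : N false (-b3) (N true (-a3) (N false (b3 - b2) (N true (a3 - a2) (N false (b2 - b1)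
    (N true (a2 - a1) (N false b1 (N true a1 (c0 B) 0) 0) 0) 0) 0) 0) 0) 0 =
      cF a1 a2 a3 b1 b2 b3 := rfl
  rw [hcF]
  simp only [sm, hDt, hDf]
  simp only [cF_e, cF_V, cF_W, cF_VV, cF_VW, cF_WV, cF_WW, cF_VVV, cF_VVW, cF_VWV, cF_VWW, cF_WVV, cF_WVW, cF_WWV, cF_WWW, cF_VVVV, cF_VVVW, cF_VVWV, cF_VVWW, cF_VWVV, cF_VWVW, cF_VWWV, cF_VWWW, cF_WVVV, cF_WVVW, cF_WVWV, cF_WVWW, cF_WWVV, cF_WWVW, cF_WWWV, cF_WWWW]
  have hSS : ∀ m n : ℕ, 0 < m → 0 < n → SS α β m n = 6 ^ m * 6 ^ n * ((a1 ^ m - a2 ^ m) * b1 ^ n +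
      (a2 ^ m - a3 ^ m) * b2 ^ n + a3 ^ m * b3 ^ n) := by
    intro m n hm hn
    unfold SS
    simp only [Finset.sum_range_succ, Finset.sum_range_zero, zero_add, Nat.reduceAdd]
    rw [hα0, hα4, hβ0, ea1, ea2, ea3, eb1, eb2, eb3, zero_pow hm.ne', zero_pow hn.ne']
    simp only [mul_pow]
    ring
  have q1 : SS α β 1 1 = 36 * q11 a1 a2 a3 b1 b2 b3 := by
    rw [hSS 1 1 (by norm_num) (by norm_num)]; unfold q11; ring
  have q2 : SS α β 2 1 = 216 * q21 a1 a2 a3 b1 b2 b3 := by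
    rw [hSS 2 1 (by norm_num) (by norm_num)]; unfold q21; ring
  have q3 : SS α β 1 2 = 216 * q12 a1 a2 a3 b1 b2 b3 := by
    rw [hSS 1 2 (by norm_num) (by norm_num)]; unfold q12; ring
  have q4 : SS α β 3 1 = 1296 * q31 a1 a2 a3 b1 b2 b3 := by
    rw [hSS 3 1 (by norm_num) (by norm_num)]; unfold q31; ring
  have q5 : SS α β 2 2 = 1296 * q22 a1 a2 a3 b1 b2 b3 := by
    rw [hSS 2 2 (by norm_num) (by norm_num)]; unfold q22; ring
  have q6 : SS α β 1 3 = 1296 * q13 a1 a2 a3 b1 b2 b3 := by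
    rw [hSS 1 3 (by norm_num) (by norm_num)]; unfold q13; ring
  rw [q1, q2, q3, q4, q5, q6]
  have eZ : z (bZ A g) = z (Wd F (Vd A g)) - z (Vd A (Wd F g)) := by
    simp only [bZ, Derivation.commutator_apply, map_sub]
  have e10 : z (bX10 A g) = 2 * z (Vd A (Wd F (Vd A g))) - z (Vd A (Vd A (Wd F g))) -
      z (Wd F (Vd A (Vd A g))) := by
    simp only [bX10, bZ, Derivation.commutator_apply, map_sub]
    ring
  have e01 : z (bX01 A g) = z (Wd F (Wd F (Vd A g))) - 2 * z (Wd F (Vd A (Wd F g))) +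
      z (Vd A (Wd F (Wd F g))) := by
    simp only [bX01, bZ, Derivation.commutator_apply, map_sub]
    ring
  have e20 : z (bX20 A g) = 3 * z (Vd A (Vd A (Wd F (Vd A g)))) -
      z (Vd A (Vd A (Vd A (Wd F g)))) - 3 * z (Vd A (Wd F (Vd A (Vd A g)))) +
      z (Wd F (Vd A (Vd A (Vd A g)))) := by
    simp only [bX20, bX10, bZ, Derivation.commutator_apply, map_sub]
    ring
  have e11 : z (bX11 A g) = 2 * z (Wd F (Vd A (Wd F (Vd A g)))) -
      z (Wd F (Wd F (Vd A (Vd A g)))) - 2 * z (Vd A (Wd F (Vd A (Wd F g)))) +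
      z (Vd A (Vd A (Wd F (Wd F g)))) := by
    simp only [bX11, bX10, bZ, Derivation.commutator_apply, map_sub]
    ring
  have e02 : z (bX02 A g) = z (Wd F (Wd F (Wd F (Vd A g)))) -
      3 * z (Wd F (Wd F (Vd A (Wd F g)))) + 3 * z (Wd F (Vd A (Wd F (Wd F g)))) -
      z (Vd A (Wd F (Wd F (Wd F g)))) := by
    simp only [bX02, bX01, bZ, Derivation.commutator_apply, map_sub]
    ring
  have eZZ : z (bZ A (bZ A g)) = z (Wd F (Vd A (Wd F (Vd A g)))) -
      z (Wd F (Vd A (Vd A (Wd F g)))) - z (Vd A (Wd F (Wd F (Vd A g)))) +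
      z (Vd A (Wd F (Vd A (Wd F g)))) := by
    simp only [bZ, Derivation.commutator_apply, map_sub]
    ring
  generalize algebraMap F B (1 / 2) = y2 at h2 ⊢
  generalize algebraMap F B (1 / 4) = y4 at h4 ⊢
  generalize q11 a1 a2 a3 b1 b2 b3 = Q11
  generalize q21 a1 a2 a3 b1 b2 b3 = Q21
  generalize q12 a1 a2 a3 b1 b2 b3 = Q12
  generalize q31 a1 a2 a3 b1 b2 b3 = Q31
  generalize q22 a1 a2 a3 b1 b2 b3 = Q22
  generalize q13 a1 a2 a3 b1 b2 b3 = Q13
  linear_combination (36 * t ^ 2 * Q11) * eZ + (108 * t ^ 3 * Q21) * e10 +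
    (108 * t ^ 3 * Q12) * e01 +
    (108 * t ^ 3 * (Q21 * z (bX10 A g) + Q12 * z (bX01 A g))) * h2 +
    (216 * t ^ 4 * Q31) * e20 + (216 * t ^ 4 * Q31 * z (bX20 A g)) * h6 +
    (324 * t ^ 4 * Q22) * e11 + (324 * t ^ 4 * Q22 * z (bX11 A g)) * h4 +
    (216 * t ^ 4 * Q13) * e02 + (216 * t ^ 4 * Q13 * z (bX02 A g)) * h6 -
    (648 * t ^ 4 * Q11 ^ 2) * eZZ - (648 * t ^ 4 * Q11 ^ 2 * z (bZ A (bZ A g))) * h2

end Pool.Agent.N446.E8
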