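import Pool.Agent.N446.E8.Stm

/-!
# E8/FL+PS+TA+LN: flows of triangular derivations, Taylor formula, eigenvalues
-/

set_option autoImplicit false

namespace Pool.Agent.N446.E8

open MvPolynomial

section
variable {F : Type} [Field F]

/-- A flow is determined by its values on the variables. -/
lemma flow_of (D : Derivation F (R F) (R F)) (Φ : R F →ₐ[F] Polynomial (R F))
    (h0 : ∀ i, (Φ (X i)).coeff 0 = X i) (h1 : ∀ i, Polynomial.derivative (Φ (X i)) = Φ (D (X i))) :
    Flow D Φ := by
  constructor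
  · intro g
    let c0 : Polynomial (R F) →ₐ[F] R F :=
      ((Polynomial.aeval (0 : R F)) : Polynomial (R F) →ₐ[R F] R F).restrictScalars F
    have hc0 : ∀ p, c0 p = p.coeff 0 := by
      intro p
      show Polynomial.aeval (0 : R F) p = p.coeff 0
      rw [Polynomial.coeff_zero_eq_aeval_zero]
    have h2 : c0.comp Φ = AlgHom.id F (R F) := by
      apply MvPolynomial.algHom_ext
      intro i
      rw [AlgHom.comp_apply, hc0, h0]
      rfl
    have h3 := AlgHom.congr_fun h2 g
    rw [AlgHom.comp_apply, hc0] at h3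
    exact h3
  · intro g
    induction g using MvPolynomial.induction_on with
    | C a =>
      have e1 : (C a : R F) = algebraMap F (R F) a := rfl
      rw [e1, D.map_algebraMap, map_zero, AlgHom.commutes]
      have e2 : algebraMap F (Polynomial (R F)) a = Polynomial.C (C a) := rfl
      rw [e2, Polynomial.derivative_C]
    | add p q hp hq => rw [map_add, Polynomial.derivative_add, hp, hq, map_add, map_add]
    | mul_X p i hp =>
      rw [map_mul, Polynomial.derivative_mul, hp, h1, Derivation.leibniz, map_add, smul_eq_mul,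
        smul_eq_mul, map_mul, map_mul]
      ring

lemma agree {B : Type} [CommRing B] [Algebra F B] {s : Set (Fin 5)} (f g : R F →ₐ[F] B)
    (h : ∀ i ∈ s, f (X i) = g (X i)) {p : R F} (hp : p ∈ supported F s) : f p = g p := by
  have h1 := AlgHom.adjoin_le_equalizer f g (s := (X '' s : Set (R F))) (by
    rintro _ ⟨i, hi, rfl⟩
    exact h i hi)
  exact h1 hp

lemma ex_int [CharZero F] (h : Polynomial (R F)) : ∃ J : Polynomial (R F), J.coeff 0 = 0 ∧
    Polynomial.derivative J = h := by
  induction h using Polynomial.induction_on' with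
  | add p q hp hq =>
    obtain ⟨J, h1, h2⟩ := hp
    obtain ⟨K, h3, h4⟩ := hq
    exact ⟨J + K, by rw [Polynomial.coeff_add, h1, h3, add_zero],
      by rw [Polynomial.derivative_add, h2, h4]⟩
  | monomial n a =>
    refine ⟨Polynomial.monomial (n + 1) ((((n + 1 : ℕ) : F)⁻¹) • a), ?_, ?_⟩
    · rw [Polynomial.coeff_monomial, if_neg (Nat.succ_ne_zero n)]
    · rw [Polynomial.derivative_monomial]
      have hn : ((n + 1 : ℕ) : F) ≠ 0 := by exact_mod_cast Nat.succ_ne_zero n
      have e : ((((n + 1 : ℕ) : F)⁻¹) • a : R F) * ((n + 1 : ℕ) : R F) = a := by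
        rw [smul_mul_assoc, mul_comm a, ← nsmul_eq_mul, ← Nat.cast_smul_eq_nsmul F (n + 1) a,
          smul_smul, inv_mul_cancel₀ hn, one_smul]
      simp only [Nat.add_sub_cancel]
      rw [e]

end

theorem t_PS : S_PS := by
  intro F _ _
  apply flow_of
  · intro i
    fin_cases i <;> simp [Psi]
  · intro i
    fin_cases i <;> simp [Psi, Wd, mkDerivation_X]

theorem t_TA : S_TA := by
  intro F _ _ D Φ h g n
  induction n generalizing g with
  | zero => simp [h.1]
  | succ n ih =>
    have h1 := ih (D g)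
    rw [← h.2 g, Polynomial.coeff_derivative, ← Function.iterate_succ_apply] at h1
    have hn : ((n + 1 : ℕ) : F) ≠ 0 := by exact_mod_cast Nat.succ_ne_zero n
    have h2 : (Φ g).coeff (n + 1) = (((n + 1 : ℕ) : F)⁻¹) • ((Φ g).coeff (n + 1) * ((n : R F) + 1)) := by
      have e : (Φ g).coeff (n + 1) * ((n : R F) + 1) = ((n + 1 : ℕ) : F) • (Φ g).coeff (n + 1) := by
        rw [Nat.cast_smul_eq_nsmul, nsmul_eq_mul]
        push_cast
        ring
      rw [e, smul_smul, inv_mul_cancel₀ hn, one_smul]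
    rw [h2, h1, smul_smul]
    congr 1
    rw [Nat.factorial_succ]
    push_cast
    rw [mul_inv]

theorem t_LN : S_LN := by
  intro F _ _ D Φ h g lam hg hD
  by_contra hlam
  have hΦ : ∀ p : R F, p ≠ 0 → Φ p ≠ 0 := by
    intro p hp h0
    apply hp
    rw [← h.1 p, h0, Polynomial.coeff_zero]
  have h1 := h.2 g
  rw [hD, map_mul] at h1
  have h2 : Φ lam * Φ g ≠ 0 := mul_ne_zero (hΦ _ hlam) (hΦ _ hg)
  rcases Nat.eq_zero_or_pos (Φ g).natDegree with h0 | h0
  · rw [Polynomial.eq_C_of_natDegree_eq_zero h0, Polynomial.derivative_C] at h1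
    rw [← Polynomial.eq_C_of_natDegree_eq_zero h0] at h1
    exact h2 h1.symm
  · have h3 := Polynomial.natDegree_derivative_lt (p := Φ g) (by omega)
    rw [h1, Polynomial.natDegree_mul (hΦ _ hlam) (hΦ _ hg)] at h3
    omega

theorem t_FL : S_FL := by
  intro F _ _ A ⟨hA0, hA1, hA2⟩
  let x : Polynomial (R F) := Polynomial.C (X 0) + Polynomial.X
  obtain ⟨J1, hJ1, hJ1'⟩ := ex_int ((aeval ![x, Polynomial.C (X 1), 0, 0, 0] :
    R F →ₐ[F] Polynomial (R F)) (A 0))
  let w1 : Polynomial (R F) := Polynomial.C (X 2) + J1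
  obtain ⟨J2, hJ2, hJ2'⟩ := ex_int ((aeval ![x, Polynomial.C (X 1), w1, 0, 0] :
    R F →ₐ[F] Polynomial (R F)) (A 1))
  let w2 : Polynomial (R F) := Polynomial.C (X 3) + J2
  obtain ⟨J3, hJ3, hJ3'⟩ := ex_int ((aeval ![x, Polynomial.C (X 1), w1, w2, 0] :
    R F →ₐ[F] Polynomial (R F)) (A 2))
  let w3 : Polynomial (R F) := Polynomial.C (X 4) + J3
  let Φ : R F →ₐ[F] Polynomial (R F) := aeval ![x, Polynomial.C (X 1), w1, w2, w3]
  refine ⟨Φ, flow_of _ _ ?_ ?_⟩
  · intro i
    fin_cases i <;> simp [Φ, x, w1, w2, w3, hJ1, hJ2, hJ3]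
  · have e0 : Φ (A 0) = (aeval ![x, Polynomial.C (X 1), 0, 0, 0] :
        R F →ₐ[F] Polynomial (R F)) (A 0) := by
      apply agree _ _ _ hA0
      intro i hi
      rcases hi with rfl | hi
      · simp [Φ]
      · rw [Set.mem_singleton_iff] at hi
        subst hi
        simp [Φ]
    have e1 : Φ (A 1) = (aeval ![x, Polynomial.C (X 1), w1, 0, 0] :
        R F →ₐ[F] Polynomial (R F)) (A 1) := by
      apply agree _ _ _ hA1
      intro i hi
      rcases hi with rfl | rfl | hi
      · simp [Φ]
      · simp [Φ]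
      · rw [Set.mem_singleton_iff] at hi
        subst hi
        simp [Φ]
    have e2 : Φ (A 2) = (aeval ![x, Polynomial.C (X 1), w1, w2, 0] :
        R F →ₐ[F] Polynomial (R F)) (A 2) := by
      apply agree _ _ _ hA2
      intro i hi
      rcases hi with rfl | rfl | rfl | hi
      · simp [Φ]
      · simp [Φ]
      · simp [Φ]
      · rw [Set.mem_singleton_iff] at hi
        subst hi
        simp [Φ]
    intro i
    rw [Vd, mkDerivation_X]
    fin_cases i
    · simp [Φ, x]
    · simp [Φ]
    · show Polynomial.derivative (Φ (X 2)) = Φ (A 0)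
      rw [e0, ← hJ1']
      simp [Φ, w1]
    · show Polynomial.derivative (Φ (X 3)) = Φ (A 1)
      rw [e1, ← hJ2']
      simp [Φ, w2]
    · show Polynomial.derivative (Φ (X 4)) = Φ (A 2)
      rw [e2, ← hJ3']
      simp [Φ, w3]

end Pool.Agent.N446.E8
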