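import Pool.Agent.N446.E8.Stm

/-!
Project E8, parts FN, IT, FW: functoriality of walks.
-/

set_option autoImplicit false

namespace Pool.Agent.N446.E8

open MvPolynomial

namespace Fn

section
variable {F : Type} [Field F] {B B' : Type} [CommRing B] [Algebra F B] [CommRing B'] [Algebra F B']

theorem mv_apply (Φ : R F →ₐ[F] Polynomial (R F)) (z : R F →ₐ[F] B) (s : B) (g : R F) :
    mv Φ z s g = Polynomial.eval₂ (z : R F →+* B) s (Φ g) := rfl

theorem comp_mv (Φ : R F →ₐ[F] Polynomial (R F)) (φ : B →ₐ[F] B') (z : R F →ₐ[F] B) (s : B) :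
    φ.comp (mv Φ z s) = mv Φ (φ.comp z) (φ s) := by
  refine AlgHom.ext fun g => ?_
  rw [AlgHom.comp_apply, mv_apply, mv_apply]
  exact Polynomial.hom_eval₂ (Φ g) (z : R F →+* B) (φ : B →+* B') s

end

end Fn

open Fn

theorem t_FN : S_FN := by
  intro F _ Φ B B' _ _ _ _ φ z x y n
  induction n with
  | zero => rfl
  | succ n ih =>
    have h : ∀ (z : R F →ₐ[F] B) (x y : ℕ → B), st Φ z x y (n + 1) =
      mv (Psi F) (mv Φ (st Φ z x y n) (x (n + 1) - x n)) (y (n + 1) - y n) := fun _ _ _ => rfl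
    have h' : ∀ (z : R F →ₐ[F] B') (x y : ℕ → B'), st Φ z x y (n + 1) =
      mv (Psi F) (mv Φ (st Φ z x y n) (x (n + 1) - x n)) (y (n + 1) - y n) := fun _ _ _ => rfl
    rw [h, h', comp_mv, comp_mv, ih, map_sub, map_sub]
    rfl

namespace Fn

theorem flow_map (hTA : S_TA) {F : Type} [Field F] [CharZero F]
    {D D' : Derivation F (R F) (R F)} {Φ Φ' : R F →ₐ[F] Polynomial (R F)} (h : Flow D Φ)
    (h' : Flow D' Φ') (π : R F →ₐ[F] R F) (hπ : ∀ g, π (D g) = D' (π g)) (g : R F) :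
    Φ' (π g) = (Φ g).map (π : R F →+* R F) := by
  ext1 n
  rw [Polynomial.coeff_map, hTA F D' Φ' h', hTA F D Φ h]
  have h1 : ∀ (n : ℕ) (g : R F), π (D^[n] g) = D'^[n] (π g) := by
    intro n
    induction n with
    | zero => intro g; rfl
    | succ n ih =>
      intro g
      rw [Function.iterate_succ_apply, Function.iterate_succ_apply, ih, hπ]
  rw [← h1]
  exact (map_smul π _ _).symm

theorem mv_comp (hTA : S_TA) {F : Type} [Field F] [CharZero F] {B : Type} [CommRing B]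
    [Algebra F B] {D D' : Derivation F (R F) (R F)} {Φ Φ' : R F →ₐ[F] Polynomial (R F)}
    (h : Flow D Φ) (h' : Flow D' Φ') (π : R F →ₐ[F] R F) (hπ : ∀ g, π (D g) = D' (π g))
    (z : R F →ₐ[F] B) (s : B) : (mv Φ' z s).comp π = mv Φ (z.comp π) s := by
  refine AlgHom.ext fun g => ?_
  rw [AlgHom.comp_apply, mv_apply, mv_apply, flow_map hTA h h' π hπ, Polynomial.eval₂_map]
  rfl

end Fn

theorem t_IT (hTA : S_TA) (hPS : S_PS) : S_IT := by
  intro F _ _ A A' Φ Φ' hΦ hΦ' π hV hW B _ _ z x y n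
  induction n with
  | zero => rfl
  | succ n ih =>
    have h : ∀ (Φ : R F →ₐ[F] Polynomial (R F)) (z : R F →ₐ[F] B) (x y : ℕ → B),
      st Φ z x y (n + 1) =
      mv (Psi F) (mv Φ (st Φ z x y n) (x (n + 1) - x n)) (y (n + 1) - y n) := fun _ _ _ _ => rfl
    rw [h, h, mv_comp hTA (hPS F) (hPS F) π hW, mv_comp hTA hΦ hΦ' π hV, ih]

namespace Fn

section
variable {K : Type} [CommRing K] (S : Sys K) {B B' : Type} [CommRing B] [Algebra K B] [CommRing B']
  [Algebra K B']

theorem map_lineOf (h : B →ₐ[K] B') (p : Fin 4 → B) (y : B) :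
    (fun i => h (S.lineOf p y i)) = S.lineOf (fun i => h (p i)) (h y) := by
  have e2 : ∀ a b : B, (fun i => h (![a, b] i)) = ![h a, h b] := fun a b => by
    ext i; fin_cases i <;> rfl
  have e4 : ∀ a b c d : B, (fun i => h (![a, b, c, d] i)) = ![h a, h b, h c, h d] :=
    fun a b c d => by ext i; fin_cases i <;> rfl
  have e6 : ∀ a b c d e f : B, (fun i => h (![a, b, c, d, e, f] i)) =
      ![h a, h b, h c, h d, h e, h f] := fun a b c d e f => by ext i; fin_cases i <;> rfl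
  unfold Sys.lineOf
  simp only
  rw [e4]
  simp only [map_sub, comp_aeval_apply, e2, e4, e6]

theorem map_pointOf (h : B →ₐ[K] B') (l : Fin 4 → B) (x : B) :
    (fun i => h (S.pointOf l x i)) = S.pointOf (fun i => h (l i)) (h x) := by
  have e2 : ∀ a b : B, (fun i => h (![a, b] i)) = ![h a, h b] := fun a b => by
    ext i; fin_cases i <;> rfl
  have e4 : ∀ a b c d : B, (fun i => h (![a, b, c, d] i)) = ![h a, h b, h c, h d] :=
    fun a b c d => by ext i; fin_cases i <;> rfl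
  have e6 : ∀ a b c d e f : B, (fun i => h (![a, b, c, d, e, f] i)) =
      ![h a, h b, h c, h d, h e, h f] := fun a b c d e f => by ext i; fin_cases i <;> rfl
  unfold Sys.pointOf
  simp only
  rw [e4]
  simp only [map_sub, comp_aeval_apply, e2, e4, e6]

end

section
variable {F : Type} [Field F] {B : Type} [CommRing B] [Algebra F B]

theorem psi_mv (z : R F →ₐ[F] B) (s : B) : mv (Psi F) z s (X 0) = z (X 0) ∧
    mv (Psi F) z s (X 1) = z (X 1) + s ∧ mv (Psi F) z s (X 2) = z (X 2) ∧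
    mv (Psi F) z s (X 3) = z (X 3) ∧ mv (Psi F) z s (X 4) = z (X 4) := by
  refine ⟨?_, ?_, ?_, ?_, ?_⟩ <;> rw [mv_apply, Psi, aeval_X] <;> simp

theorem phi_mv (S : Sys F) (z : R F →ₐ[F] B) (s : B) (Q : Fin 4 → B)
    (hQ : Q = S.pointOf (S.lineOf ![z (X 0), z (X 2), z (X 3), z (X 4)] (z (X 1))) (z (X 0) + s)) :
    mv S.phi z s (X 0) = Q 0 ∧ mv S.phi z s (X 1) = z (X 1) ∧ mv S.phi z s (X 2) = Q 1 ∧
    mv S.phi z s (X 3) = Q 2 ∧ mv S.phi z s (X 4) = Q 3 := by
  set h : Polynomial (R F) →ₐ[F] B := Polynomial.eval₂AlgHom z s (fun _ => Commute.all _ _) with hh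
  have hC : ∀ a : R F, h (Polynomial.C a) = z a := fun a => Polynomial.eval₂_C _ _
  have hX : h Polynomial.X = s := Polynomial.eval₂_X _ _
  set q : Fin 4 → Polynomial (R F) := S.pointOf (S.lineOf ![Polynomial.C (X 0),
    Polynomial.C (X 2), Polynomial.C (X 3), Polynomial.C (X 4)] (Polynomial.C (X 1)))
    (Polynomial.C (X 0) + Polynomial.X) with hq
  have hphi : S.phi = aeval ![q 0, Polynomial.C (X 1), q 1, q 2, q 3] := rfl
  have hqQ : ∀ i, h (q i) = Q i := by
    intro i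
    have h1 := congrFun (map_pointOf S h (S.lineOf ![Polynomial.C (X 0),
      Polynomial.C (X 2), Polynomial.C (X 3), Polynomial.C (X 4)] (Polynomial.C (X 1)))
      (Polynomial.C (X 0) + Polynomial.X)) i
    rw [map_lineOf] at h1
    simp only [map_add, hC, hX] at h1
    rw [hq, h1, hQ]
    congr 2
    ext i
    fin_cases i <;> exact hC _
  have hm : ∀ g, mv S.phi z s g = h (S.phi g) := fun g => rfl
  refine ⟨?_, ?_, ?_, ?_, ?_⟩ <;> rw [hm, hphi, aeval_X]
  · exact hqQ 0
  · exact hC _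
  · exact hqQ 1
  · exact hqQ 2
  · exact hqQ 3

end

end Fn

theorem t_FW : S_FW := by
  intro F _ S B _ _ z x y hx hy n
  induction n with
  | zero => exact ⟨rfl, hx.symm, hy.symm⟩
  | succ n ih =>
    obtain ⟨h1, h2, h3⟩ := ih
    set w := st S.phi z x y n with hw
    set w1 := mv S.phi w (x (n + 1) - x n) with hw1
    have hst : st S.phi z x y (n + 1) = mv (Psi F) w1 (y (n + 1) - y n) := rfl
    have hwalk : S.walkP ![z (X 0), z (X 2), z (X 3), z (X 4)] x y (n + 1) =
        S.pointOf (S.lineOf ![w (X 0), w (X 2), w (X 3), w (X 4)] (w (X 1)))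
          (w (X 0) + (x (n + 1) - x n)) := by
      rw [← h1, h2, h3]
      have : x n + (x (n + 1) - x n) = x (n + 1) := by ring
      rw [this]
      rfl
    obtain ⟨p0, p1, p2, p3, p4⟩ := psi_mv w1 (y (n + 1) - y n)
    obtain ⟨q0, q1, q2, q3, q4⟩ := phi_mv S w (x (n + 1) - x n) _ rfl
    rw [← hw1] at q0 q1 q2 q3 q4
    rw [hst, p0, p1, p2, p3, p4, hwalk]
    refine ⟨?_, ?_, ?_⟩
    · rw [q0, q2, q3, q4]
      ext i
      fin_cases i <;> rfl
    · rw [q0]
      have : x (n + 1) = w (X 0) + (x (n + 1) - x n) := by rw [h2]; ring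
      conv_rhs => rw [this]
      rfl
    · rw [q1, h3]
      ring

end Pool.Agent.N446.E8
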