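import Pool.Agent.N446.E8.Stm

/-!
# Task FS: the flow of a system of polynomials
-/

set_option autoImplicit false

namespace Pool.Agent.N446.E8

open MvPolynomial

namespace FS

variable {F : Type} [Field F]

/-- the constant coefficient -/
noncomputable def ep (F : Type) [Field F] : Polynomial (R F) →ₐ[F] R F :=
  (Polynomial.aeval (0 : R F)).restrictScalars F

theorem ep_apply (G : Polynomial (R F)) : ep F G = G.coeff 0 := by
  show Polynomial.aeval (0 : R F) G = G.coeff 0
  rw [Polynomial.aeval_def, Polynomial.eval₂_at_zero]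
  rfl

@[simp] theorem ep_C (g : R F) : ep F (Polynomial.C g) = g := by
  rw [ep_apply, Polynomial.coeff_C_zero]

@[simp] theorem ep_X : ep F Polynomial.X = 0 := by
  rw [ep_apply, Polynomial.coeff_X_zero]

theorem ep_derivative (G : Polynomial (R F)) : ep F (Polynomial.derivative G) = G.coeff 1 := by
  rw [ep_apply, Polynomial.coeff_derivative]
  simp

theorem mem_aeval {ι : Type} {A : Type} [CommRing A] [Algebra F A] (T : Subalgebra F A)
    (v : ι → A) (hv : ∀ i, v i ∈ T) (f : MvPolynomial ι F) : aeval v f ∈ T := by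
  have h : aeval v f ∈ (aeval v : MvPolynomial ι F →ₐ[F] A).range := ⟨f, rfl⟩
  rw [← Algebra.adjoin_range_eq_range_aeval] at h
  refine Algebra.adjoin_le ?_ h
  rintro _ ⟨i, rfl⟩
  exact hv i

theorem ep_aeval {ι : Type} (v : ι → Polynomial (R F)) (f : MvPolynomial ι F) :
    ep F (aeval v f) = aeval (fun i => ep F (v i)) f := by
  have : (ep F).comp (aeval v) = aeval (fun i => ep F (v i)) := by
    ext i
    simp
  exact DFunLike.congr_fun this f

/-- chain rule -/
theorem derivative_aeval {ι : Type} [Fintype ι] (v : ι → Polynomial (R F))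
    (f : MvPolynomial ι F) :
    Polynomial.derivative (aeval v f) =
      ∑ i, aeval v (pderiv i f) * Polynomial.derivative (v i) := by
  classical
  induction f using MvPolynomial.induction_on with
  | C a =>
    have : (aeval v (C a) : Polynomial (R F)) = Polynomial.C (algebraMap F (R F) a) := by
      rw [aeval_C]; rfl
    rw [this, Polynomial.derivative_C]
    simp
  | add p q hp hq =>
    rw [map_add, map_add, hp, hq, ← Finset.sum_add_distrib]
    refine Finset.sum_congr rfl fun i _ => ?_
    rw [map_add, map_add, add_mul]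
  | mul_X p j hp =>
    rw [map_mul, Polynomial.derivative_mul, hp, aeval_X]
    have : ∀ i, aeval v (pderiv i (p * X j)) * Polynomial.derivative (v i) =
        aeval v (pderiv i p) * Polynomial.derivative (v i) * v j +
          aeval v p * (aeval v (pderiv i (X j : MvPolynomial ι F)) * Polynomial.derivative (v i)) := by
      intro i
      rw [Derivation.leibniz, smul_eq_mul, smul_eq_mul, map_add, map_mul, map_mul, aeval_X]
      ring
    rw [Finset.sum_congr rfl fun i _ => this i, Finset.sum_add_distrib, ← Finset.sum_mul,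
      ← Finset.mul_sum]
    congr 2
    rw [Finset.sum_eq_single j]
    · simp
    · intro i _ hij
      rw [pderiv_X_of_ne hij.symm]
      simp
    · intro h; exact absurd (Finset.mem_univ j) h

variable (S : Sys F)

/-- the coordinates of the line through the flag -/
noncomputable def l1 : R F := aeval ![X 0, X 1] S.f₂ - X 2
noncomputable def l2 : R F := aeval ![X 0, X 1, X 2, l1 S] S.f₃ - X 3
noncomputable def l3 : R F := aeval ![X 0, X 1, X 2, l1 S, X 3, l2 S] S.f₄ - X 4

/-- the coordinates of the moved point -/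
noncomputable def q0 (F : Type) [Field F] : Polynomial (R F) := Polynomial.C (X 0) + Polynomial.X
noncomputable def v2 (F : Type) [Field F] : Fin 2 → Polynomial (R F) := ![q0 F, Polynomial.C (X 1)]
noncomputable def q1 : Polynomial (R F) := aeval (v2 F) S.f₂ - Polynomial.C (l1 S)
noncomputable def v3 : Fin 4 → Polynomial (R F) :=
  ![q0 F, Polynomial.C (X 1), q1 S, Polynomial.C (l1 S)]
noncomputable def q2 : Polynomial (R F) := aeval (v3 S) S.f₃ - Polynomial.C (l2 S)
noncomputable def v4 : Fin 6 → Polynomial (R F) :=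
  ![q0 F, Polynomial.C (X 1), q1 S, Polynomial.C (l1 S), q2 S, Polynomial.C (l2 S)]
noncomputable def q3 : Polynomial (R F) := aeval (v4 S) S.f₄ - Polynomial.C (l3 S)

/-- constants -/
theorem aeval_C_comp {ι : Type} (v : ι → R F) (f : MvPolynomial ι F) :
    aeval (fun i => Polynomial.C (v i)) f = Polynomial.C (aeval v f) := by
  have : (aeval (fun i => Polynomial.C (v i)) : MvPolynomial ι F →ₐ[F] Polynomial (R F)) =
      ((Algebra.ofId (R F) (Polynomial (R F))).restrictScalars F).comp (aeval v) := by
    ext i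
    simp [Algebra.ofId_apply]
  rw [this]
  rfl

theorem phi_eq : S.phi = aeval ![q0 F, Polynomial.C (X 1), q1 S, q2 S, q3 S] := by
  have e1 : (![Polynomial.C (X 0), Polynomial.C (X 1)] : Fin 2 → Polynomial (R F)) =
      fun i => Polynomial.C ((![X 0, X 1] : Fin 2 → R F) i) := by
    funext i; fin_cases i <;> rfl
  have h1 : (aeval ![Polynomial.C (X 0), Polynomial.C (X 1)] S.f₂ : Polynomial (R F)) -
      Polynomial.C (X 2) = Polynomial.C (l1 S) := by
    rw [e1, aeval_C_comp, l1, Polynomial.C_sub]
  have e2 : (![Polynomial.C (X 0), Polynomial.C (X 1), Polynomial.C (X 2),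
      Polynomial.C (l1 S)] : Fin 4 → Polynomial (R F)) =
      fun i => Polynomial.C ((![X 0, X 1, X 2, l1 S] : Fin 4 → R F) i) := by
    funext i; fin_cases i <;> rfl
  have h2 : (aeval ![Polynomial.C (X 0), Polynomial.C (X 1), Polynomial.C (X 2),
      Polynomial.C (l1 S)] S.f₃ : Polynomial (R F)) - Polynomial.C (X 3) =
      Polynomial.C (l2 S) := by
    rw [e2, aeval_C_comp, l2, Polynomial.C_sub]
  have e3 : (![Polynomial.C (X 0), Polynomial.C (X 1), Polynomial.C (X 2),
      Polynomial.C (l1 S), Polynomial.C (X 3), Polynomial.C (l2 S)] :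
      Fin 6 → Polynomial (R F)) =
      fun i => Polynomial.C ((![X 0, X 1, X 2, l1 S, X 3, l2 S] : Fin 6 → R F) i) := by
    funext i; fin_cases i <;> rfl
  have h3 : (aeval ![Polynomial.C (X 0), Polynomial.C (X 1), Polynomial.C (X 2),
      Polynomial.C (l1 S), Polynomial.C (X 3), Polynomial.C (l2 S)] S.f₄ :
      Polynomial (R F)) - Polynomial.C (X 4) = Polynomial.C (l3 S) := by
    rw [e3, aeval_C_comp, l3, Polynomial.C_sub]
  have hl : S.lineOf ![Polynomial.C (X 0), Polynomial.C (X 2), Polynomial.C (X 3),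
      Polynomial.C (X 4)] (Polynomial.C (X 1) : Polynomial (R F)) =
      ![Polynomial.C (X 1), Polynomial.C (l1 S), Polynomial.C (l2 S), Polynomial.C (l3 S)] := by
    rw [← h3, ← h2, ← h1]
    rfl
  unfold Sys.phi
  rw [hl]
  rfl

/-- the functions `G` of the flag and the time with `φ (G at time 0) = G` -/
def Good (G : Polynomial (R F)) : Prop := S.phi (ep F G) = G

variable {S}

theorem Good.aeval {ι : Type} {v : ι → Polynomial (R F)} (hv : ∀ i, Good S (v i))
    (f : MvPolynomial ι F) : Good S (MvPolynomial.aeval v f) := by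
  unfold Good
  rw [ep_aeval]
  have : S.phi.comp (MvPolynomial.aeval fun i => ep F (v i)) = MvPolynomial.aeval v := by
    ext i
    simp only [AlgHom.coe_comp, Function.comp_apply, aeval_X]
    rw [hv i]
  exact DFunLike.congr_fun this f

theorem Good.add {G H : Polynomial (R F)} (hG : Good S G) (hH : Good S H) : Good S (G + H) := by
  unfold Good at *
  rw [map_add, map_add, hG, hH]

theorem Good.sub {G H : Polynomial (R F)} (hG : Good S G) (hH : Good S H) : Good S (G - H) := by
  unfold Good at *
  rw [map_sub, map_sub, hG, hH]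

theorem Good.mul {G H : Polynomial (R F)} (hG : Good S G) (hH : Good S H) : Good S (G * H) := by
  unfold Good at *
  rw [map_mul, map_mul, hG, hH]

variable (S)

theorem phi_X0 : S.phi (X 0) = q0 F := by rw [phi_eq, aeval_X]; rfl
theorem phi_X1 : S.phi (X 1) = Polynomial.C (X 1) := by rw [phi_eq, aeval_X]; rfl
theorem phi_X2 : S.phi (X 2) = q1 S := by rw [phi_eq, aeval_X]; rfl
theorem phi_X3 : S.phi (X 3) = q2 S := by rw [phi_eq, aeval_X]; rfl
theorem phi_X4 : S.phi (X 4) = q3 S := by rw [phi_eq, aeval_X]; rfl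

theorem ep_q0 : ep F (q0 F) = X 0 := by simp [q0]

theorem ep_v2 : (fun i => ep F (v2 F i)) = ![X 0, X 1] := by
  funext i
  fin_cases i
  · exact ep_q0
  · exact ep_C _

theorem ep_q1 : ep F (q1 S) = X 2 := by
  rw [q1, map_sub, ep_aeval, ep_v2, ep_C, l1]
  ring

theorem ep_v3 : (fun i => ep F (v3 S i)) = ![X 0, X 1, X 2, l1 S] := by
  funext i
  fin_cases i
  · exact ep_q0
  · exact ep_C _
  · exact ep_q1 S
  · exact ep_C _

theorem ep_q2 : ep F (q2 S) = X 3 := by
  rw [q2, map_sub, ep_aeval, ep_v3, ep_C, l2]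
  ring

theorem ep_v4 : (fun i => ep F (v4 S i)) = ![X 0, X 1, X 2, l1 S, X 3, l2 S] := by
  funext i
  fin_cases i
  · exact ep_q0
  · exact ep_C _
  · exact ep_q1 S
  · exact ep_C _
  · exact ep_q2 S
  · exact ep_C _

theorem ep_q3 : ep F (q3 S) = X 4 := by
  rw [q3, map_sub, ep_aeval, ep_v4, ep_C, l3]
  ring

theorem ep_phi (g : R F) : ep F (S.phi g) = g := by
  have : (ep F).comp S.phi = AlgHom.id F _ := by
    refine MvPolynomial.algHom_ext fun i => ?_
    fin_cases i
    · show ep F (S.phi (X 0)) = X 0
      rw [phi_X0, ep_q0]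
    · show ep F (S.phi (X 1)) = X 1
      rw [phi_X1, ep_C]
    · show ep F (S.phi (X 2)) = X 2
      rw [phi_X2, ep_q1]
    · show ep F (S.phi (X 3)) = X 3
      rw [phi_X3, ep_q2]
    · show ep F (S.phi (X 4)) = X 4
      rw [phi_X4, ep_q3]
  exact DFunLike.congr_fun this g

theorem good_q0 : Good S (q0 F) := by
  unfold Good; rw [ep_q0, phi_X0]

theorem good_X1 : Good S (Polynomial.C (X 1)) := by
  unfold Good; rw [ep_C, phi_X1]

theorem good_q1 : Good S (q1 S) := by
  unfold Good; rw [ep_q1, phi_X2]

theorem good_v2 (i : Fin 2) : Good S (v2 F i) := by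
  fin_cases i
  · exact good_q0 S
  · exact good_X1 S

theorem good_l1 : Good S (Polynomial.C (l1 S)) := by
  have h : Polynomial.C (l1 S) = aeval (v2 F) S.f₂ - q1 S := by rw [q1]; ring
  rw [h]
  exact (Good.aeval (good_v2 S) _).sub (good_q1 S)

theorem good_v3 (i : Fin 4) : Good S (v3 S i) := by
  fin_cases i
  · exact good_q0 S
  · exact good_X1 S
  · exact good_q1 S
  · exact good_l1 S

theorem good_q2 : Good S (q2 S) := by
  unfold Good; rw [ep_q2, phi_X3]

theorem good_l2 : Good S (Polynomial.C (l2 S)) := by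
  have h : Polynomial.C (l2 S) = aeval (v3 S) S.f₃ - q2 S := by rw [q2]; ring
  rw [h]
  exact (Good.aeval (good_v3 S) _).sub (good_q2 S)

theorem good_v4 (i : Fin 6) : Good S (v4 S i) := by
  fin_cases i
  · exact good_q0 S
  · exact good_X1 S
  · exact good_q1 S
  · exact good_l1 S
  · exact good_q2 S
  · exact good_l2 S

theorem der_q0 : Polynomial.derivative (q0 F) = 1 := by simp [q0]

theorem der_q1 : Polynomial.derivative (q1 S) = aeval (v2 F) (pderiv 0 S.f₂) := by
  rw [q1, map_sub, Polynomial.derivative_C, sub_zero, derivative_aeval, Fin.sum_univ_two]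
  have h0 : Polynomial.derivative (v2 F 0) = 1 := der_q0
  have h1 : Polynomial.derivative (v2 F 1) = 0 := Polynomial.derivative_C
  rw [h0, h1]
  ring

theorem der_q2 : Polynomial.derivative (q2 S) = aeval (v3 S) (pderiv 0 S.f₃) +
    aeval (v3 S) (pderiv 2 S.f₃) * Polynomial.derivative (q1 S) := by
  rw [q2, map_sub, Polynomial.derivative_C, sub_zero, derivative_aeval, Fin.sum_univ_four]
  have h0 : Polynomial.derivative (v3 S 0) = 1 := der_q0
  have h1 : Polynomial.derivative (v3 S 1) = 0 := Polynomial.derivative_C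
  have h2 : Polynomial.derivative (v3 S 2) = Polynomial.derivative (q1 S) := rfl
  have h3 : Polynomial.derivative (v3 S 3) = 0 := Polynomial.derivative_C
  rw [h0, h1, h2, h3]
  ring

theorem der_q3 : Polynomial.derivative (q3 S) = aeval (v4 S) (pderiv 0 S.f₄) +
    aeval (v4 S) (pderiv 2 S.f₄) * Polynomial.derivative (q1 S) +
    aeval (v4 S) (pderiv 4 S.f₄) * Polynomial.derivative (q2 S) := by
  rw [q3, map_sub, Polynomial.derivative_C, sub_zero, derivative_aeval, Fin.sum_univ_six]
  have h0 : Polynomial.derivative (v4 S 0) = 1 := der_q0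
  have h1 : Polynomial.derivative (v4 S 1) = 0 := Polynomial.derivative_C
  have h2 : Polynomial.derivative (v4 S 2) = Polynomial.derivative (q1 S) := rfl
  have h3 : Polynomial.derivative (v4 S 3) = 0 := Polynomial.derivative_C
  have h4 : Polynomial.derivative (v4 S 4) = Polynomial.derivative (q2 S) := rfl
  have h5 : Polynomial.derivative (v4 S 5) = 0 := Polynomial.derivative_C
  rw [h0, h1, h2, h3, h4, h5]
  ring

theorem good_der_q1 : Good S (Polynomial.derivative (q1 S)) := by
  rw [der_q1]
  exact Good.aeval (good_v2 S) _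

theorem good_der_q2 : Good S (Polynomial.derivative (q2 S)) := by
  rw [der_q2]
  exact (Good.aeval (good_v3 S) _).add ((Good.aeval (good_v3 S) _).mul (good_der_q1 S))

theorem good_der_q3 : Good S (Polynomial.derivative (q3 S)) := by
  rw [der_q3]
  exact ((Good.aeval (good_v4 S) _).add ((Good.aeval (good_v4 S) _).mul (good_der_q1 S))).add
    ((Good.aeval (good_v4 S) _).mul (good_der_q2 S))

theorem A_zero : S.A 0 = ep F (Polynomial.derivative (q1 S)) := by
  rw [ep_derivative, ← phi_X2]; rfl

theorem A_one : S.A 1 = ep F (Polynomial.derivative (q2 S)) := by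
  rw [ep_derivative, ← phi_X3]; rfl

theorem A_two : S.A 2 = ep F (Polynomial.derivative (q3 S)) := by
  rw [ep_derivative, ← phi_X4]; rfl

theorem X_mem {s : Set (Fin 5)} {i : Fin 5} (h : i ∈ s) : (X i : R F) ∈ supported F s :=
  X_mem_supported.2 h

theorem l1_mem : l1 S ∈ supported F ({0, 1, 2} : Set (Fin 5)) := by
  refine Subalgebra.sub_mem _ (mem_aeval _ _ (fun i => ?_) _) (X_mem (by simp))
  fin_cases i
  · exact X_mem (by simp)
  · exact X_mem (by simp)

theorem l2_mem : l2 S ∈ supported F ({0, 1, 2, 3} : Set (Fin 5)) := by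
  refine Subalgebra.sub_mem _ (mem_aeval _ _ (fun i => ?_) _) (X_mem (by simp))
  fin_cases i
  · exact X_mem (by simp)
  · exact X_mem (by simp)
  · exact X_mem (by simp)
  · refine supported_mono ?_ (l1_mem S)
    intro j hj
    simp only [Set.mem_insert_iff, Set.mem_singleton_iff] at hj ⊢
    tauto

theorem A0_mem : S.A 0 ∈ supported F ({0, 1} : Set (Fin 5)) := by
  rw [A_zero, der_q1, ep_aeval, ep_v2]
  refine mem_aeval _ _ (fun i => ?_) _
  fin_cases i
  · exact X_mem (by simp)
  · exact X_mem (by simp)

theorem A1_mem : S.A 1 ∈ supported F ({0, 1, 2} : Set (Fin 5)) := by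
  have hv : ∀ i, (![X 0, X 1, X 2, l1 S] : Fin 4 → R F) i ∈
      supported F ({0, 1, 2} : Set (Fin 5)) := by
    intro i
    fin_cases i
    · exact X_mem (by simp)
    · exact X_mem (by simp)
    · exact X_mem (by simp)
    · exact l1_mem S
  rw [A_one, der_q2, map_add, map_mul, ep_aeval, ep_aeval, ep_v3, ← A_zero]
  refine Subalgebra.add_mem _ (mem_aeval _ _ hv _)
    (Subalgebra.mul_mem _ (mem_aeval _ _ hv _) (supported_mono ?_ (A0_mem S)))
  intro j hj
  simp only [Set.mem_insert_iff, Set.mem_singleton_iff] at hj ⊢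
  tauto

theorem A2_mem : S.A 2 ∈ supported F ({0, 1, 2, 3} : Set (Fin 5)) := by
  have hv : ∀ i, (![X 0, X 1, X 2, l1 S, X 3, l2 S] : Fin 6 → R F) i ∈
      supported F ({0, 1, 2, 3} : Set (Fin 5)) := by
    intro i
    fin_cases i
    · exact X_mem (by simp)
    · exact X_mem (by simp)
    · exact X_mem (by simp)
    · refine supported_mono ?_ (l1_mem S)
      intro j hj
      simp only [Set.mem_insert_iff, Set.mem_singleton_iff] at hj ⊢
      tauto
    · exact X_mem (by simp)
    · exact l2_mem S
  rw [A_two, der_q3, map_add, map_add, map_mul, map_mul, ep_aeval, ep_aeval, ep_aeval, ep_v4,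
    ← A_zero, ← A_one]
  refine Subalgebra.add_mem _ (Subalgebra.add_mem _ (mem_aeval _ _ hv _)
    (Subalgebra.mul_mem _ (mem_aeval _ _ hv _) (supported_mono ?_ (A0_mem S))))
    (Subalgebra.mul_mem _ (mem_aeval _ _ hv _) (supported_mono ?_ (A1_mem S)))
  · intro j hj
    simp only [Set.mem_insert_iff, Set.mem_singleton_iff] at hj ⊢
    tauto
  · intro j hj
    simp only [Set.mem_insert_iff, Set.mem_singleton_iff] at hj ⊢
    tauto

theorem flow_eq (g : R F) : Polynomial.derivative (S.phi g) = S.phi (Vd S.A g) := by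
  induction g using MvPolynomial.induction_on with
  | C a =>
    have h1 : S.phi (C a) = Polynomial.C (algebraMap F (R F) a) := by
      have : (C a : R F) = algebraMap F (R F) a := rfl
      rw [this, AlgHom.commutes]; rfl
    have h2 : Vd S.A (C a) = 0 := by
      have : (C a : R F) = algebraMap F (R F) a := rfl
      rw [this, Derivation.map_algebraMap]
    rw [h1, h2, Polynomial.derivative_C, map_zero]
  | add p q hp hq => rw [map_add, map_add, hp, hq, map_add, map_add]
  | mul_X p j hp =>
    have hX : Polynomial.derivative (S.phi (X j)) = S.phi (Vd S.A (X j)) := by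
      have hV : Vd S.A (X j) = (![1, 0, S.A 0, S.A 1, S.A 2] : Fin 5 → R F) j :=
        mkDerivation_X _ _ _
      rw [hV]
      fin_cases j
      · show Polynomial.derivative (S.phi (X 0)) = S.phi 1
        rw [phi_X0, der_q0, map_one]
      · show Polynomial.derivative (S.phi (X 1)) = S.phi 0
        rw [phi_X1, Polynomial.derivative_C, map_zero]
      · show Polynomial.derivative (S.phi (X 2)) = S.phi (S.A 0)
        rw [phi_X2, A_zero]
        exact (good_der_q1 S).symm
      · show Polynomial.derivative (S.phi (X 3)) = S.phi (S.A 1)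
        rw [phi_X3, A_one]
        exact (good_der_q2 S).symm
      · show Polynomial.derivative (S.phi (X 4)) = S.phi (S.A 2)
        rw [phi_X4, A_two]
        exact (good_der_q3 S).symm
    rw [map_mul, Polynomial.derivative_mul, hp, hX, Derivation.leibniz, smul_eq_mul, smul_eq_mul,
      map_add, map_mul, map_mul]
    ring

end FS

theorem t_FS : S_FS := by
  intro F _ _ S
  refine ⟨⟨FS.A0_mem S, FS.A1_mem S, FS.A2_mem S⟩, fun g => ?_, FS.flow_eq S⟩
  rw [← FS.ep_apply, FS.ep_phi]

end Pool.Agent.N446.E8
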