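import Pool.Agent.N446.E8.Stm

set_option autoImplicit false

/-!
# Loops in the neighbourhood of a flag of the second type (`S_GB`)
-/

namespace Pool.Agent.N446.E8

open MvPolynomial

namespace GB

section first
variable {F : Type} [Field F] [CharZero F] {A : Fin 3 → R F} {Φ : R F →ₐ[F] Polynomial (R F)}

theorem phi_X0 (hΦ : Flow (Vd A) Φ) : Φ (X 0) = Polynomial.C (X 0) + Polynomial.X := by
  have h1 : Polynomial.derivative (Φ (X 0)) = 1 := by
    rw [hΦ.2]
    have : Vd A (X 0) = 1 := by simp [Vd, mkDerivation_X]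
    rw [this, map_one]
  have h2 : Polynomial.derivative (Φ (X 0) - Polynomial.X) = 0 := by
    rw [Polynomial.derivative_sub, h1, Polynomial.derivative_X, sub_self]
  have h3 := Polynomial.eq_C_of_natDegree_eq_zero
    (Polynomial.derivative_eq_zero.1 h2)
  rw [Polynomial.coeff_sub, hΦ.1, Polynomial.coeff_X_zero, sub_zero] at h3
  rw [← h3]; ring

theorem phi_X1 (hΦ : Flow (Vd A) Φ) : Φ (X 1) = Polynomial.C (X 1) := by
  have h2 : Polynomial.derivative (Φ (X 1)) = 0 := by
    rw [hΦ.2]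
    have : Vd A (X 1) = 0 := by simp [Vd, mkDerivation_X]
    rw [this, map_zero]
  have h3 := Polynomial.eq_C_of_natDegree_eq_zero
    (Polynomial.derivative_eq_zero.1 h2)
  rw [hΦ.1] at h3
  exact h3

variable {B : Type} [CommRing B] [Algebra F B]

omit [CharZero F] in
theorem mv_apply (Φ : R F →ₐ[F] Polynomial (R F)) (z : R F →ₐ[F] B) (s : B) (g : R F) :
    mv Φ z s g = Polynomial.eval₂ (z : R F →+* B) s (Φ g) := rfl

theorem st_X (hΦ : Flow (Vd A) Φ) (z : R F →ₐ[F] B) (x y : ℕ → B) (hx : x 0 = z (X 0))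
    (hy : y 0 = z (X 1)) (n : ℕ) : st Φ z x y n (X 0) = x n ∧ st Φ z x y n (X 1) = y n := by
  induction n with
  | zero => exact ⟨hx.symm, hy.symm⟩
  | succ n ih =>
    have e0 : Psi F (X 0) = Polynomial.C (X 0) := by simp [Psi]
    have e1 : Psi F (X 1) = Polynomial.C (X 1) + Polynomial.X := by simp [Psi]
    constructor
    · show mv (Psi F) (mv Φ (st Φ z x y n) (x (n + 1) - x n)) (y (n + 1) - y n) (X 0) = _
      rw [mv_apply, e0, Polynomial.eval₂_C]
      show mv Φ (st Φ z x y n) (x (n + 1) - x n) (X 0) = _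
      rw [mv_apply, phi_X0 hΦ, Polynomial.eval₂_add, Polynomial.eval₂_C, Polynomial.eval₂_X]
      show st Φ z x y n (X 0) + _ = _
      rw [ih.1]; ring
    · show mv (Psi F) (mv Φ (st Φ z x y n) (x (n + 1) - x n)) (y (n + 1) - y n) (X 1) = _
      rw [mv_apply, e1, Polynomial.eval₂_add, Polynomial.eval₂_C, Polynomial.eval₂_X]
      show mv Φ (st Φ z x y n) (x (n + 1) - x n) (X 1) + _ = _
      rw [mv_apply, phi_X1 hΦ, Polynomial.eval₂_C]
      show st Φ z x y n (X 1) + _ = _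
      rw [ih.2]; ring

end first

section main

variable {F : Type} [Field F]

/-- the inclusion of the polynomials with constant coefficients -/
noncomputable def iota (F : Type) [Field F] :
    MvPolynomial (Fin 3) F →ₐ[F] MvPolynomial (Fin 3) (Polynomial F) :=
  MvPolynomial.mapAlgHom (Algebra.ofId F (Polynomial F))

theorem iota_apply (p : MvPolynomial (Fin 3) F) :
    iota F p = MvPolynomial.map (algebraMap F (Polynomial F)) p := rfl

/-- the value at `t = 0` -/
noncomputable def ev0 (F : Type) [Field F] :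
    MvPolynomial (Fin 3) (Polynomial F) →+* MvPolynomial (Fin 3) F :=
  MvPolynomial.map (Polynomial.evalRingHom (0 : F))

theorem ev0_iota (p : MvPolynomial (Fin 3) F) : ev0 F (iota F p) = p := by
  rw [iota_apply, ev0, MvPolynomial.map_map]
  have : (Polynomial.evalRingHom (0 : F)).comp (algebraMap F (Polynomial F)) = RingHom.id F := by
    ext x; simp
  rw [this, MvPolynomial.map_id]

theorem ev0_t : ev0 F (C Polynomial.X) = 0 := by
  simp [ev0]

theorem SS_map {B B' : Type} [CommRing B] [CommRing B'] (φ : B →+* B') (α β : ℕ → B) (m n : ℕ) :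
    SS (fun i => φ (α i)) (fun i => φ (β i)) m n = φ (SS α β m n) := by
  simp only [SS, map_sum, map_mul, map_sub, map_pow]

/-- the leading coefficients of the three equations -/
noncomputable def QQ (a b c : F) (α β : ℕ → MvPolynomial (Fin 3) F) :
    Fin 3 → MvPolynomial (Fin 3) F :=
  ![-SS α β 1 1, -(C (1 / 2) * (C b * SS α β 2 1 - C a * SS α β 1 2)),
    -(C (1 / 6) * (SS α β 3 1 * C (b ^ 2)) + C (1 / 4) * (SS α β 2 2 * C (-(a * b))) +
      C (1 / 6) * (SS α β 1 3 * C (a ^ 2)) - C (1 / 2) * (SS α β 1 1 ^ 2 * C c))]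

/-- the last three coordinates -/
noncomputable def gg (F : Type) [Field F] : Fin 3 → R F := ![X 2, X 3, X 4]

theorem vec_eq (D : Derivation F (R F) (R F)) (z : R F →ₐ[F] F) (i : Fin 3) :
    vec D z i = z (D (gg F i)) := by
  fin_cases i <;> rfl

theorem algebraic_aeval [CharZero F] (w : Fin 3 → PowerSeries F)
    (hw : ∀ i, IsAlgebraic (Polynomial F) (w i)) (p : MvPolynomial (Fin 3) F) :
    IsAlgebraic (Polynomial F) (aeval w p) := by
  have h1 : aeval w p = aeval w (iota F p) := by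
    rw [iota_apply, aeval_map_algebraMap]
  rw [h1]
  have h2 : ∀ q : MvPolynomial (Fin 3) (Polynomial F),
      IsAlgebraic (Polynomial F) (aeval w q : PowerSeries F) := by
    intro q
    induction q using MvPolynomial.induction_on with
    | C a =>
      rw [aeval_C]
      exact isAlgebraic_algebraMap a
    | add p q hp hq =>
      rw [map_add]
      exact hp.add hq
    | mul_X p i hp =>
      rw [map_mul, aeval_X]
      exact hp.mul (hw i)
  exact h2 _

theorem func [CharZero F] (hEX : S_EX) {A : Fin 3 → R F} {Φ : R F →ₐ[F] Polynomial (R F)}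
    (hΦ : Flow (Vd A) Φ) {B : Type} [CommRing B] [Algebra F B] (z : R F →ₐ[F] F) (t : B)
    (α β : ℕ → B) (hα0 : α 0 = 0) (hα4 : α 4 = 0) (hβ0 : β 0 = 0) (hβ4 : β 4 = 0)
    (z' : R F →ₐ[F] B) (hz' : z' = (Algebra.ofId F B).comp z) (n : Fin 3 → F) :
    ∃ ρ : B, ∑ i, algebraMap F B (n i) * (st Φ z' (fun k => z' (X 0) + t * α k)
      (fun k => z' (X 1) + t * β k) 4 (gg F i) - z' (gg F i)) =
    - (t ^ 2 * (SS α β 1 1 * algebraMap F B (n ⬝ᵥ vec (bZ A) z))) -
    t ^ 3 * (algebraMap F B (1 / 2) * (SS α β 2 1 * algebraMap F B (n ⬝ᵥ vec (bX10 A) z) +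
      SS α β 1 2 * algebraMap F B (n ⬝ᵥ vec (bX01 A) z))) -
    t ^ 4 * (algebraMap F B (1 / 6) * (SS α β 3 1 * algebraMap F B (n ⬝ᵥ vec (bX20 A) z)) +
      algebraMap F B (1 / 4) * (SS α β 2 2 * algebraMap F B (n ⬝ᵥ vec (bX11 A) z)) +
      algebraMap F B (1 / 6) * (SS α β 1 3 * algebraMap F B (n ⬝ᵥ vec (bX02 A) z)) -
      algebraMap F B (1 / 2) * (SS α β 1 1 ^ 2 *
        algebraMap F B (n ⬝ᵥ fun i => z (bZ A (bZ A (gg F i)))))) + t ^ 5 * ρ := by
  have hv : ∀ (D : Derivation F (R F) (R F)) (i : Fin 3), z' (D (gg F i)) =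
      algebraMap F B (vec D z i) := by
    intro D i
    rw [vec_eq, hz']
    rfl
  have hv2 : ∀ (i : Fin 3), z' (bZ A (bZ A (gg F i))) =
      algebraMap F B (z (bZ A (bZ A (gg F i)))) := by
    intro i
    rw [hz']
    rfl
  choose r hr using fun i => hEX F A Φ hΦ B z' t α β hα0 hα4 hβ0 hβ4 (gg F i)
  refine ⟨∑ i, algebraMap F B (n i) * r i, ?_⟩
  simp only [hr, hv, hv2, dotProduct, Fin.sum_univ_three, map_add, map_mul]
  ring

theorem split_t (t s x2 x3 x4 ρ : MvPolynomial (Fin 3) (Polynomial F)) (ht : ev0 F t = 0)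
    (h : s = -(t ^ 2 * x2) - t ^ 3 * x3 - t ^ 4 * x4 + t ^ 5 * ρ) :
    (∃ G, ev0 F G = -ev0 F x2 ∧ s = t ^ 2 * G) ∧
    (x2 = 0 → ∃ G, ev0 F G = -ev0 F x3 ∧ s = t ^ 3 * G) ∧
    (x2 = 0 → x3 = 0 → ∃ G, ev0 F G = -ev0 F x4 ∧ s = t ^ 4 * G) := by
  refine ⟨⟨-x2 - t * x3 - t ^ 2 * x4 + t ^ 3 * ρ, ?_, ?_⟩,
    fun h2 => ⟨-x3 - t * x4 + t ^ 2 * ρ, ?_, ?_⟩, fun h2 h3 => ⟨-x4 + t * ρ, ?_, ?_⟩⟩
  · simp [ht]
  · rw [h]; ring
  · simp [ht]
  · rw [h, h2]; ring
  · simp [ht]
  · rw [h, h2, h3]; ring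

/-- the general lemma -/
theorem loop [CharZero F] (hEX : S_EX) (hHE : S_HE) (hFN : S_FN) {A : Fin 3 → R F}
    {Φ : R F →ₐ[F] Polynomial (R F)} (hΦ : Flow (Vd A) Φ) (z : R F →ₐ[F] F) (a b : F)
    (n₁ n₂ n₃ : Fin 3 → F) (c₁₀ c₀₁ : F) (hn : (Matrix.of ![n₁, n₂, n₃]).det ≠ 0)
    (h11 : n₁ ⬝ᵥ vec (bZ A) z = 1) (h12 : n₁ ⬝ᵥ vec (bX10 A) z = c₁₀)
    (h13 : n₁ ⬝ᵥ vec (bX01 A) z = c₀₁)
    (h21 : n₂ ⬝ᵥ vec (bZ A) z = 0) (h22 : n₂ ⬝ᵥ vec (bX10 A) z = b)
    (h23 : n₂ ⬝ᵥ vec (bX01 A) z = -a)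
    (h31 : n₃ ⬝ᵥ vec (bZ A) z = 0) (h32 : n₃ ⬝ᵥ vec (bX10 A) z = 0)
    (h33 : n₃ ⬝ᵥ vec (bX01 A) z = 0)
    (h34 : n₃ ⬝ᵥ vec (bX20 A) z = b ^ 2) (h35 : n₃ ⬝ᵥ vec (bX11 A) z = -(a * b))
    (h36 : n₃ ⬝ᵥ vec (bX02 A) z = a ^ 2)
    (α β : ℕ → MvPolynomial (Fin 3) F) (hα0 : α 0 = 0) (hα4 : α 4 = 0) (hβ0 : β 0 = 0)
    (hβ4 : β 4 = 0) (hQ : ∀ c i, eval 0 (QQ a b c α β i) = 0)
    (hJ : ∀ c, (Matrix.of fun i j => eval 0 (pderiv j (QQ a b c α β i))).det ≠ 0) :
    ∃ w : Fin 3 → PowerSeries F, (∀ i, PowerSeries.constantCoeff (w i) = 0) ∧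
      IsLoop Φ z (fun n => aeval w (α n)) (fun n => aeval w (β n)) := by
  classical
  let B := MvPolynomial (Fin 3) (Polynomial F)
  let t : B := C Polynomial.X
  let z' : R F →ₐ[F] B := (Algebra.ofId F B).comp z
  let α' : ℕ → B := fun n => iota F (α n)
  let β' : ℕ → B := fun n => iota F (β n)
  have kα : ∀ m n, SS α' β' m n = iota F (SS α β m n) := fun m n =>
    SS_map (iota F : MvPolynomial (Fin 3) F →+* B) α β m n
  have ki : ∀ c : F, algebraMap F B c = iota F (C c) := fun c => by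
    rw [iota_apply, map_C]; rfl
  have hf := fun n => func hEX hΦ z t α' β' (by simp [α', hα0]) (by simp [α', hα4])
    (by simp [β', hβ0]) (by simp [β', hβ4]) z' rfl n
  obtain ⟨ρ₁, f1⟩ := hf n₁
  obtain ⟨ρ₂, f2⟩ := hf n₂
  obtain ⟨ρ₃, f3⟩ := hf n₃
  rw [h11, h12, h13] at f1
  rw [h21, h22, h23] at f2
  rw [h31, h32, h33, h34, h35, h36] at f3
  simp only [kα, ki] at f1 f2 f3
  -- the constant
  set cc : F := n₃ ⬝ᵥ fun i => z (bZ A (bZ A (gg F i))) with hcc
  obtain ⟨G0, g0, e0⟩ := (split_t t _ _ _ _ _ ev0_t f1).1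
  obtain ⟨G1, g1, e1⟩ := (split_t t _ _ _ _ _ ev0_t f2).2.1 (by simp)
  obtain ⟨G2, g2, e2⟩ := (split_t t _ _ _ _ _ ev0_t f3).2.2 (by simp) (by simp)
  let G : Fin 3 → B := ![G0, G1, G2]
  have hG : ∀ i, ev0 F (G i) = QQ a b cc α β i := by
    intro i
    fin_cases i
    · show ev0 F G0 = -SS α β 1 1
      rw [g0, map_mul, ev0_iota, ev0_iota, C_1, mul_one]
    · show ev0 F G1 = -(C (1 / 2) * (C b * SS α β 2 1 - C a * SS α β 1 2))
      rw [g1]
      simp only [map_mul, map_add, ev0_iota, map_neg]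
      ring
    · show ev0 F G2 = -(C (1 / 6) * (SS α β 3 1 * C (b ^ 2)) +
        C (1 / 4) * (SS α β 2 2 * C (-(a * b))) +
        C (1 / 6) * (SS α β 1 3 * C (a ^ 2)) - C (1 / 2) * (SS α β 1 1 ^ 2 * C cc))
      rw [g2]
      simp only [map_mul, map_add, ev0_iota, map_sub, map_pow]
  obtain ⟨w, hw0, hwa, hwG⟩ := hHE F G (fun i => by
      show eval 0 (ev0 F (G i)) = 0
      rw [hG, hQ]) (by
      have : (Matrix.of fun i j => eval 0 (map (Polynomial.evalRingHom (0 : F)) (pderiv j (G i))))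
          = Matrix.of fun i j => eval 0 (pderiv j (QQ a b cc α β i)) := by
        ext i j
        simp only [Matrix.of_apply]
        rw [← pderiv_map]
        show eval 0 (pderiv j (ev0 F (G i))) = _
        rw [hG]
      rw [this]
      exact hJ cc)
  refine ⟨w, hw0, ?_⟩
  let φ : B →ₐ[F] PowerSeries F := (aeval w : B →ₐ[Polynomial F] PowerSeries F).restrictScalars F
  have φi : ∀ p : MvPolynomial (Fin 3) F, φ (iota F p) = aeval w p := fun p => by
    show aeval w (iota F p) = aeval w p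
    rw [iota_apply, aeval_map_algebraMap]
  have φt : φ t = PowerSeries.X := by
    show aeval w (C Polynomial.X) = _
    rw [aeval_C]
    exact Polynomial.coe_X
  have φG : ∀ i, φ (G i) = 0 := hwG
  have φz : φ.comp z' = cst z := by
    refine MvPolynomial.algHom_ext fun i => ?_
    show φ (algebraMap F B (z (X i))) = algebraMap F (PowerSeries F) (z (X i))
    rw [AlgHom.commutes]
  have hst := hFN F Φ B (PowerSeries F) φ z' (fun k => z' (X 0) + t * α' k)
    (fun k => z' (X 1) + t * β' k) 4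
  have hx : (φ ∘ fun k => z' (X 0) + t * α' k) =
      fun n => PowerSeries.C (z (X 0)) + PowerSeries.X * aeval w (α n) := by
    funext k
    have h0 : φ (z' (X 0)) = PowerSeries.C (z (X 0)) := by
      have := congrArg (fun f : R F →ₐ[F] PowerSeries F => f (X 0)) φz
      exact this
    simp only [Function.comp_apply, map_add, map_mul, φt, α', φi, h0]
  have hy : (φ ∘ fun k => z' (X 1) + t * β' k) =
      fun n => PowerSeries.C (z (X 1)) + PowerSeries.X * aeval w (β n) := by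
    funext k
    have h0 : φ (z' (X 1)) = PowerSeries.C (z (X 1)) := by
      have := congrArg (fun f : R F →ₐ[F] PowerSeries F => f (X 1)) φz
      exact this
    simp only [Function.comp_apply, map_add, map_mul, φt, β', φi, h0]
  rw [φz, hx, hy] at hst
  refine ⟨by simp [hα0], by simp [hα4], by simp [hβ0], by simp [hβ4],
    fun n => algebraic_aeval w hwa _, fun n => algebraic_aeval w hwa _, ?_⟩
  -- the last three coordinates
  have hE : ∀ i : Fin 3, st Φ (cst z)
      (fun n => PowerSeries.C (z (X 0)) + PowerSeries.X * aeval w (α n))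
      (fun n => PowerSeries.C (z (X 1)) + PowerSeries.X * aeval w (β n)) 4 (gg F i) =
      cst z (gg F i) := by
    let E : Fin 3 → PowerSeries F := fun i => st Φ (cst z)
      (fun n => PowerSeries.C (z (X 0)) + PowerSeries.X * aeval w (α n))
      (fun n => PowerSeries.C (z (X 1)) + PowerSeries.X * aeval w (β n)) 4 (gg F i) -
      cst z (gg F i)
    have hEφ : ∀ i, E i = φ (st Φ z' (fun k => z' (X 0) + t * α' k)
      (fun k => z' (X 1) + t * β' k) 4 (gg F i) - z' (gg F i)) := by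
      intro i
      rw [map_sub]
      show _ - _ = _
      rw [← hst, ← φz]
      rfl
    have hlin : ∀ n : Fin 3 → F, φ (∑ i, algebraMap F B (n i) * (st Φ z'
        (fun k => z' (X 0) + t * α' k) (fun k => z' (X 1) + t * β' k) 4 (gg F i) -
        z' (gg F i))) = ∑ i, algebraMap F (PowerSeries F) (n i) * E i := by
      intro n
      rw [map_sum]
      refine Finset.sum_congr rfl fun i _ => ?_
      rw [map_mul, AlgHom.commutes, hEφ]
    have l1 : ∑ i, algebraMap F (PowerSeries F) (n₁ i) * E i = 0 := by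
      rw [← hlin]
      have := congrArg φ e0
      simp only [ki]
      rw [this, map_mul, show φ G0 = 0 from φG 0, mul_zero]
    have l2 : ∑ i, algebraMap F (PowerSeries F) (n₂ i) * E i = 0 := by
      rw [← hlin]
      have := congrArg φ e1
      simp only [ki]
      rw [this, map_mul, show φ G1 = 0 from φG 1, mul_zero]
    have l3 : ∑ i, algebraMap F (PowerSeries F) (n₃ i) * E i = 0 := by
      rw [← hlin]
      have := congrArg φ e2
      simp only [ki]
      rw [this, map_mul, show φ G2 = 0 from φG 2, mul_zero]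
    have hE0 : E = 0 := by
      refine Matrix.eq_zero_of_mulVec_eq_zero (M := (Matrix.of ![n₁, n₂, n₃]).map
        (algebraMap F (PowerSeries F))) ?_ ?_
      · rw [← RingHom.mapMatrix_apply, ← RingHom.map_det]
        exact (map_ne_zero_iff _ (algebraMap F (PowerSeries F)).injective).2 hn
      · funext i
        fin_cases i
        · exact l1
        · exact l2
        · exact l3
    intro i
    have := congrFun hE0 i
    exact sub_eq_zero.1 this
  have hX := st_X hΦ (cst z)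
      (fun n => PowerSeries.C (z (X 0)) + PowerSeries.X * aeval w (α n))
      (fun n => PowerSeries.C (z (X 1)) + PowerSeries.X * aeval w (β n))
      (by simp [hα0]; rfl) (by simp [hβ0]; rfl) 4
  refine MvPolynomial.algHom_ext fun i => ?_
  fin_cases i
  · refine hX.1.trans ?_
    simp [hα4]; rfl
  · refine hX.2.trans ?_
    simp [hβ4]; rfl
  · exact hE 0
  · exact hE 1
  · exact hE 2

/-- the derivatives of the power sums -/
theorem DD (α β : ℕ → MvPolynomial (Fin 3) F) (i : Fin 3) (m n : ℕ) :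
    eval 0 (pderiv i (SS α β m n)) = ∑ j ∈ Finset.range 4,
      ((m * (eval 0 (α j)) ^ (m - 1) * eval 0 (pderiv i (α j)) -
        m * (eval 0 (α (j + 1))) ^ (m - 1) * eval 0 (pderiv i (α (j + 1)))) * (eval 0 (β j)) ^ n +
      ((eval 0 (α j)) ^ m - (eval 0 (α (j + 1))) ^ m) *
        (n * (eval 0 (β j)) ^ (n - 1) * eval 0 (pderiv i (β j)))) := by
  rw [SS, map_sum, map_sum]
  refine Finset.sum_congr rfl fun j _ => ?_
  simp only [Derivation.leibniz, Derivation.leibniz_pow, map_sub, map_add, map_mul, smul_eq_mul,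
    nsmul_eq_mul, map_pow, map_natCast]
  ring

/-- the determinant of the three equations -/
theorem crit [CharZero F] (a b : F) (α β : ℕ → MvPolynomial (Fin 3) F)
    (q0 : eval 0 (SS α β 1 1) = 0)
    (q1 : b * eval 0 (SS α β 2 1) - a * eval 0 (SS α β 1 2) = 0)
    (q2 : 2 * b ^ 2 * eval 0 (SS α β 3 1) - 3 * a * b * eval 0 (SS α β 2 2) +
      2 * a ^ 2 * eval 0 (SS α β 1 3) = 0)
    (hdet : (Matrix.of ![fun j => eval 0 (pderiv j (SS α β 1 1)),
      fun j => b * eval 0 (pderiv j (SS α β 2 1)) - a * eval 0 (pderiv j (SS α β 1 2)),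
      fun j => 2 * b ^ 2 * eval 0 (pderiv j (SS α β 3 1)) -
        3 * a * b * eval 0 (pderiv j (SS α β 2 2)) +
        2 * a ^ 2 * eval 0 (pderiv j (SS α β 1 3))]).det ≠ 0) :
    (∀ c i, eval 0 (QQ a b c α β i) = 0) ∧
    ∀ c, (Matrix.of fun i j => eval 0 (pderiv j (QQ a b c α β i))).det ≠ 0 := by
  constructor
  · intro c i
    fin_cases i
    · show eval 0 (-SS α β 1 1) = 0
      rw [map_neg, q0, neg_zero]
    · show eval 0 (-(C (1 / 2) * (C b * SS α β 2 1 - C a * SS α β 1 2))) = 0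
      simp only [map_neg, map_mul, map_sub, eval_C]
      rw [q1]; ring
    · show eval 0 (-(C (1 / 6) * (SS α β 3 1 * C (b ^ 2)) +
        C (1 / 4) * (SS α β 2 2 * C (-(a * b))) +
        C (1 / 6) * (SS α β 1 3 * C (a ^ 2)) - C (1 / 2) * (SS α β 1 1 ^ 2 * C c))) = 0
      simp only [map_neg, map_mul, map_sub, map_add, map_pow, eval_C, q0]
      linear_combination (-(1 / 12 : F)) * q2
  · intro c h
    apply hdet
    rw [Matrix.det_fin_three] at h ⊢
    have e0 : ∀ j, eval 0 (pderiv j (QQ a b c α β 0)) = - eval 0 (pderiv j (SS α β 1 1)) := by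
      intro j
      show eval 0 (pderiv j (-SS α β 1 1)) = _
      simp only [map_neg]
    have e1 : ∀ j, eval 0 (pderiv j (QQ a b c α β 1)) = -(1 / 2) *
        (b * eval 0 (pderiv j (SS α β 2 1)) - a * eval 0 (pderiv j (SS α β 1 2))) := by
      intro j
      show eval 0 (pderiv j (-(C (1 / 2) * (C b * SS α β 2 1 - C a * SS α β 1 2)))) = _
      simp only [map_neg, map_mul, map_sub, eval_C, Derivation.leibniz, smul_eq_mul,
        pderiv_C, mul_zero, add_zero]
      ring
    have e2 : ∀ j, eval 0 (pderiv j (QQ a b c α β 2)) = -(1 / 12) *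
        (2 * b ^ 2 * eval 0 (pderiv j (SS α β 3 1)) -
        3 * a * b * eval 0 (pderiv j (SS α β 2 2)) +
        2 * a ^ 2 * eval 0 (pderiv j (SS α β 1 3))) := by
      intro j
      show eval 0 (pderiv j (-(C (1 / 6) * (SS α β 3 1 * C (b ^ 2)) +
        C (1 / 4) * (SS α β 2 2 * C (-(a * b))) +
        C (1 / 6) * (SS α β 1 3 * C (a ^ 2)) - C (1 / 2) * (SS α β 1 1 ^ 2 * C c)))) = _
      simp only [map_neg, map_mul, map_sub, map_add, map_pow, eval_C, Derivation.leibniz,
        Derivation.leibniz_pow, smul_eq_mul, pderiv_C, mul_zero, add_zero, zero_add, map_zero, q0,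
        nsmul_eq_mul]
      ring
    simp only [Matrix.of_apply, e0, e1, e2] at h
    simp only [Matrix.of_apply, Matrix.cons_val_zero, Matrix.cons_val_one, Matrix.cons_val]
    have h24 : (-(1 : F)) * (-(1 / 2)) * (-(1 / 12)) ≠ 0 := by norm_num
    refine (mul_eq_zero.1 (Eq.trans ?_ h)).resolve_left h24
    ring

theorem constantCoeff_aeval (w : Fin 3 → PowerSeries F)
    (hw : ∀ i, PowerSeries.constantCoeff (w i) = 0) (p : MvPolynomial (Fin 3) F) :
    PowerSeries.constantCoeff (aeval w p) = eval 0 p := by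
  induction p using MvPolynomial.induction_on with
  | C a =>
    rw [aeval_C, eval_C]
    exact PowerSeries.constantCoeff_C a
  | add p q hp hq => rw [map_add, map_add, map_add, hp, hq]
  | mul_X p i hp => rw [map_mul, map_mul, map_mul, hp, aeval_X, eval_X, hw]; rfl

/-- a sequence with three given terms -/
noncomputable def seq (p₁ p₂ p₃ : MvPolynomial (Fin 3) F) : ℕ → MvPolynomial (Fin 3) F
  | 1 => p₁
  | 2 => p₂
  | 3 => p₃
  | _ => 0

theorem seq_0 (p₁ p₂ p₃ : MvPolynomial (Fin 3) F) : seq p₁ p₂ p₃ 0 = 0 := rfl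
theorem seq_1 (p₁ p₂ p₃ : MvPolynomial (Fin 3) F) : seq p₁ p₂ p₃ 1 = p₁ := rfl
theorem seq_2 (p₁ p₂ p₃ : MvPolynomial (Fin 3) F) : seq p₁ p₂ p₃ 2 = p₂ := rfl
theorem seq_3 (p₁ p₂ p₃ : MvPolynomial (Fin 3) F) : seq p₁ p₂ p₃ 3 = p₃ := rfl
theorem seq_4 (p₁ p₂ p₃ : MvPolynomial (Fin 3) F) : seq p₁ p₂ p₃ 4 = 0 := rfl

/-- the conclusion about the leading terms -/
def Good (a b : F) : Prop :=
  ∃ α β : ℕ → MvPolynomial (Fin 3) F, α 0 = 0 ∧ α 4 = 0 ∧ β 0 = 0 ∧ β 4 = 0 ∧
    (∀ c i, eval 0 (QQ a b c α β i) = 0) ∧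
    (∀ c, (Matrix.of fun i j => eval 0 (pderiv j (QQ a b c α β i))).det ≠ 0) ∧
    ∀ i : ℕ, i < 4 → eval 0 (α i) ≠ eval 0 (α (i + 1)) ∧ eval 0 (β i) ≠ eval 0 (β (i + 1))

theorem good1 [CharZero F] (a b : F) (ha : a ≠ 0) (hb : b ≠ 0) : Good a b := by
  obtain ⟨h1, h2⟩ := crit a b
    (seq (C (5 * a) + C a * X 0) (C (-a) + C a * X 1) (C (3 * a)))
    (seq (C (-b) + C (-b) * X 2) (C (-(3 * b))) (C (-(2 * b))))
    (by simp [SS, Finset.sum_range_succ, seq_0, seq_1, seq_2, seq_3, seq_4]; ring)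
    (by simp [SS, Finset.sum_range_succ, seq_0, seq_1, seq_2, seq_3, seq_4]; ring)
    (by simp [SS, Finset.sum_range_succ, seq_0, seq_1, seq_2, seq_3, seq_4]; ring)
    (by
      rw [Matrix.det_fin_three]
      simp only [Matrix.of_apply, Matrix.cons_val_zero, Matrix.cons_val_one, Matrix.cons_val, DD,
        Finset.sum_range_succ, Finset.sum_range_zero, zero_add, Nat.reduceAdd, seq_0, seq_1, seq_2,
        seq_3, seq_4]
      simp [pderiv_X]
      intro h
      have h3 : (1440 : F) * (a ^ 6 * b ^ 6) = 0 := by linear_combination -h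
      have h4 : (1440 : F) * (a ^ 6 * b ^ 6) ≠ 0 :=
        mul_ne_zero (by norm_num) (mul_ne_zero (pow_ne_zero _ ha) (pow_ne_zero _ hb))
      exact h4 h3)
  refine ⟨_, _, seq_0 _ _ _, seq_4 _ _ _, seq_0 _ _ _, seq_4 _ _ _, h1, h2, fun i hi => ?_⟩
  have h5 : (5 : F) * a ≠ -a := fun h => by
    have : (6 : F) * a = 0 := by linear_combination h
    exact mul_ne_zero (by norm_num) ha this
  have h6 : -a ≠ (3 : F) * a := fun h => by
    have : (4 : F) * a = 0 := by linear_combination -h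
    exact mul_ne_zero (by norm_num) ha this
  have h7 : -b ≠ -((3 : F) * b) := fun h => by
    have : (2 : F) * b = 0 := by linear_combination h
    exact mul_ne_zero (by norm_num) hb this
  have h8 : -((3 : F) * b) ≠ -((2 : F) * b) := fun h => by
    have : (1 : F) * b = 0 := by linear_combination -h
    exact mul_ne_zero (by norm_num) hb this
  interval_cases i
  · simp [seq_0, seq_1, ha, hb]
  · simp only [seq_1, seq_2, Nat.reduceAdd]
    simp [h5, h7]
  · simp only [seq_2, seq_3, Nat.reduceAdd]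
    simp [h6, h8]
  · simp [seq_3, seq_4, ha, hb]

theorem good2 [CharZero F] (b : F) (hb : b ≠ 0) : Good 0 b := by
  obtain ⟨h1, h2⟩ := crit 0 b
    (seq (C 1 + X 0) (X 1) (C 1))
    (seq (C 1 + X 2) (C 3) (C 2))
    (by simp [SS, Finset.sum_range_succ, seq_0, seq_1, seq_2, seq_3, seq_4]; norm_num)
    (by simp [SS, Finset.sum_range_succ, seq_0, seq_1, seq_2, seq_3, seq_4]; exact Or.inr (by ring))
    (by simp [SS, Finset.sum_range_succ, seq_0, seq_1, seq_2, seq_3, seq_4]; exact Or.inr (by ring))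
    (by
      rw [Matrix.det_fin_three]
      simp only [Matrix.of_apply, Matrix.cons_val_zero, Matrix.cons_val_one, Matrix.cons_val, DD,
        Finset.sum_range_succ, Finset.sum_range_zero, zero_add, Nat.reduceAdd, seq_0, seq_1, seq_2,
        seq_3, seq_4]
      simp [pderiv_X]
      intro h
      have h3 : (4 : F) * b ^ 3 = 0 := by linear_combination h
      exact mul_ne_zero (by norm_num) (pow_ne_zero _ hb) h3)
  refine ⟨_, _, seq_0 _ _ _, seq_4 _ _ _, seq_0 _ _ _, seq_4 _ _ _, h1, h2, fun i hi => ?_⟩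
  interval_cases i
  · simp [seq_0, seq_1]
  · simp [seq_1, seq_2]
  · simp [seq_2, seq_3]
  · simp [seq_3, seq_4]

theorem good3 [CharZero F] (a : F) (ha : a ≠ 0) : Good a 0 := by
  obtain ⟨h1, h2⟩ := crit a 0
    (seq (C 1 + X 0) (C 3) (C 2))
    (seq (C 1 + X 1) (X 2) (C 1))
    (by simp [SS, Finset.sum_range_succ, seq_0, seq_1, seq_2, seq_3, seq_4]; norm_num)
    (by simp [SS, Finset.sum_range_succ, seq_0, seq_1, seq_2, seq_3, seq_4]; exact Or.inr (by ring))
    (by simp [SS, Finset.sum_range_succ, seq_0, seq_1, seq_2, seq_3, seq_4]; exact Or.inr (by ring))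
    (by
      rw [Matrix.det_fin_three]
      simp only [Matrix.of_apply, Matrix.cons_val_zero, Matrix.cons_val_one, Matrix.cons_val, DD,
        Finset.sum_range_succ, Finset.sum_range_zero, zero_add, Nat.reduceAdd, seq_0, seq_1, seq_2,
        seq_3, seq_4]
      simp [pderiv_X]
      intro h
      have h3 : (4 : F) * a ^ 3 = 0 := by linear_combination h
      exact mul_ne_zero (by norm_num) (pow_ne_zero _ ha) h3)
  refine ⟨_, _, seq_0 _ _ _, seq_4 _ _ _, seq_0 _ _ _, seq_4 _ _ _, h1, h2, fun i hi => ?_⟩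
  interval_cases i
  · simp [seq_0, seq_1]
  · simp [seq_1, seq_2]
  · simp [seq_2, seq_3]
  · simp [seq_3, seq_4]

end main

end GB

/-- **GB**: loops in the neighbourhood of a flag of the second type. -/
theorem t_GB (hEX : S_EX) (hHE : S_HE) (hFN : S_FN) : S_GB := by
  intro F _ _ A Φ hΦ z hz
  obtain ⟨a, b, n₁, n₂, n₃, c₁₀, c₀₁, hab, hn, h11, h12, h13, h21, h22, h23, h31, h32, h33, h34,
    h35, h36⟩ := hz
  have hgood : GB.Good a b := by
    by_cases ha : a = 0
    · have hb : b ≠ 0 := hab.resolve_left (fun h => h ha)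
      subst ha
      exact GB.good2 b hb
    · by_cases hb : b = 0
      · subst hb
        exact GB.good3 a ha
      · exact GB.good1 a b ha hb
  obtain ⟨α, β, hα0, hα4, hβ0, hβ4, hQ, hJ, hd⟩ := hgood
  obtain ⟨w, hw0, hloop⟩ := GB.loop hEX hHE hFN hΦ z a b n₁ n₂ n₃ c₁₀ c₀₁ hn h11 h12 h13 h21 h22
    h23 h31 h32 h33 h34 h35 h36 α β hα0 hα4 hβ0 hβ4 hQ hJ
  refine ⟨_, _, hloop, fun i hi => ?_⟩
  simp only [GB.constantCoeff_aeval w hw0]
  exact hd i hi

end Pool.Agent.N446.E8
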