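import Pool.Agent.N446.E8.Stm

/-!
# Task HE: Hensel's lemma for three equations, with algebraicity
-/

set_option autoImplicit false

namespace Pool.Agent.N446.E8

open MvPolynomial

namespace HE

variable {F : Type} [Field F]

/-- the value at the origin -/
noncomputable def e0 (F : Type) [Field F] : MvPolynomial (Fin 3) (Polynomial F) →+* F :=
  (eval (0 : Fin 3 → F)).comp (map (Polynomial.evalRingHom (0 : F)))

theorem const_aeval (w : Fin 3 → PowerSeries F) (hw : ∀ i, PowerSeries.constantCoeff (w i) = 0)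
    (p : MvPolynomial (Fin 3) (Polynomial F)) :
    PowerSeries.constantCoeff (aeval w p) = e0 F p := by
  have : (PowerSeries.constantCoeff : PowerSeries F →+* F).comp
      (aeval w : MvPolynomial (Fin 3) (Polynomial F) →ₐ[Polynomial F] PowerSeries F).toRingHom =
      e0 F := by
    apply MvPolynomial.ringHom_ext
    · intro a
      simp only [AlgHom.toRingHom_eq_coe, RingHom.coe_comp, RingHom.coe_coe, Function.comp_apply,
        e0, map_C, eval_C, aeval_C, Polynomial.coe_evalRingHom]
      rw [PowerSeries.algebraMap_apply']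
      simp [Polynomial.coeff_zero_eq_eval_zero]
    · intro i
      simp [e0, hw i]
  exact DFunLike.congr_fun this p

theorem cong (n : ℕ) (w w' : Fin 3 → PowerSeries F)
    (h : ∀ i, (PowerSeries.X : PowerSeries F) ^ n ∣ w i - w' i)
    (p : MvPolynomial (Fin 3) (Polynomial F)) :
    (PowerSeries.X : PowerSeries F) ^ n ∣ aeval w p - aeval w' p := by
  induction p using MvPolynomial.induction_on with
  | C a => rw [aeval_C, aeval_C, sub_self]; exact dvd_zero _
  | add p q hp hq =>
    rw [map_add, map_add, add_sub_add_comm]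
    exact dvd_add hp hq
  | mul_X p j hp =>
    rw [map_mul, map_mul, aeval_X, aeval_X]
    have : aeval w p * w j - aeval w' p * w' j =
        (aeval w p - aeval w' p) * w j + aeval w' p * (w j - w' j) := by ring
    rw [this]
    exact dvd_add (hp.mul_right _) ((h j).mul_left _)

theorem taylor (n : ℕ) (w w' : Fin 3 → PowerSeries F)
    (hw : ∀ i, PowerSeries.constantCoeff (w i) = 0)
    (hw' : ∀ i, PowerSeries.constantCoeff (w' i) = 0)
    (h : ∀ i, (PowerSeries.X : PowerSeries F) ^ n ∣ w i - w' i)
    (p : MvPolynomial (Fin 3) (Polynomial F)) :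
    (PowerSeries.X : PowerSeries F) ^ (n + 1) ∣ aeval w p - aeval w' p -
      ∑ j, PowerSeries.C (e0 F (pderiv j p)) * (w j - w' j) := by
  induction p using MvPolynomial.induction_on with
  | C a => simp
  | add p q hp hq =>
    have : aeval w (p + q) - aeval w' (p + q) -
        ∑ j, PowerSeries.C (e0 F (pderiv j (p + q))) * (w j - w' j) =
        (aeval w p - aeval w' p - ∑ j, PowerSeries.C (e0 F (pderiv j p)) * (w j - w' j)) +
        (aeval w q - aeval w' q - ∑ j, PowerSeries.C (e0 F (pderiv j q)) * (w j - w' j)) := by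
      simp only [map_add, add_mul, Finset.sum_add_distrib]
      ring
    rw [this]
    exact dvd_add hp hq
  | mul_X p k hp =>
    have e1 : ∑ j, PowerSeries.C (e0 F (pderiv j (p * X k))) * (w j - w' j) =
        PowerSeries.C (e0 F p) * (w k - w' k) := by
      rw [Finset.sum_eq_single k]
      · congr 2
        rw [Derivation.leibniz, smul_eq_mul, smul_eq_mul, map_add, map_mul, map_mul, pderiv_X_self]
        simp [e0]
      · intro j _ hj
        rw [Derivation.leibniz, smul_eq_mul, smul_eq_mul, pderiv_X_of_ne hj.symm]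
        simp [e0]
      · intro h; exact absurd (Finset.mem_univ k) h
    rw [e1, map_mul, map_mul, aeval_X, aeval_X]
    have e2 : aeval w p * w k - aeval w' p * w' k - PowerSeries.C (e0 F p) * (w k - w' k) =
        (aeval w p - aeval w' p) * w k +
          (aeval w' p - PowerSeries.C (e0 F p)) * (w k - w' k) := by ring
    rw [e2]
    have h1 : (PowerSeries.X : PowerSeries F) ∣ w k := PowerSeries.X_dvd_iff.2 (hw k)
    have h2 : (PowerSeries.X : PowerSeries F) ∣ aeval w' p - PowerSeries.C (e0 F p) := by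
      rw [PowerSeries.X_dvd_iff, map_sub, const_aeval w' hw', PowerSeries.constantCoeff_C, sub_self]
    refine dvd_add ?_ ?_
    · rw [pow_succ]
      exact mul_dvd_mul (cong n w w' h p) h1
    · rw [pow_succ, mul_comm]
      exact mul_dvd_mul h2 (h k)

variable (G : Fin 3 → MvPolynomial (Fin 3) (Polynomial F))

/-- the Jacobian matrix at the origin -/
noncomputable def Jm : Matrix (Fin 3) (Fin 3) F := Matrix.of fun i j => e0 F (pderiv j (G i))

/-- one step of the iteration -/
noncomputable def Ph (w : Fin 3 → PowerSeries F) : Fin 3 → PowerSeries F := fun i =>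
  w i - ∑ j, PowerSeries.C ((Jm G)⁻¹ i j) * aeval w (G j)

theorem Ph_const (h0 : ∀ i, e0 F (G i) = 0) (w : Fin 3 → PowerSeries F)
    (hw : ∀ i, PowerSeries.constantCoeff (w i) = 0) (i : Fin 3) :
    PowerSeries.constantCoeff (Ph G w i) = 0 := by
  simp only [Ph, map_sub, map_sum, map_mul, hw, const_aeval w hw, h0, mul_zero,
    Finset.sum_const_zero, sub_zero]

theorem Ph_contr (hJ : (Jm G).det ≠ 0) (n : ℕ) (w w' : Fin 3 → PowerSeries F)
    (hw : ∀ i, PowerSeries.constantCoeff (w i) = 0)
    (hw' : ∀ i, PowerSeries.constantCoeff (w' i) = 0)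
    (h : ∀ i, (PowerSeries.X : PowerSeries F) ^ n ∣ w i - w' i) (i : Fin 3) :
    (PowerSeries.X : PowerSeries F) ^ (n + 1) ∣ Ph G w i - Ph G w' i := by
  have hinv : ∀ k, ∑ j, (Jm G)⁻¹ i j * Jm G j k = if i = k then 1 else 0 := by
    intro k
    have h1 : (Jm G)⁻¹ * Jm G = 1 := Matrix.nonsing_inv_mul _ (isUnit_iff_ne_zero.2 hJ)
    have h2 := congrFun (congrFun h1 i) k
    rwa [Matrix.mul_apply, Matrix.one_apply] at h2
  have e1 : Ph G w i - Ph G w' i = -∑ j, PowerSeries.C ((Jm G)⁻¹ i j) *
      (aeval w (G j) - aeval w' (G j) -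
        ∑ k, PowerSeries.C (e0 F (pderiv k (G j))) * (w k - w' k)) := by
    have e2 : ∑ j, PowerSeries.C ((Jm G)⁻¹ i j) *
        ∑ k, PowerSeries.C (e0 F (pderiv k (G j))) * (w k - w' k) = w i - w' i := by
      have e3 : ∀ j, PowerSeries.C ((Jm G)⁻¹ i j) *
          ∑ k, PowerSeries.C (e0 F (pderiv k (G j))) * (w k - w' k) =
          ∑ k, PowerSeries.C ((Jm G)⁻¹ i j * Jm G j k) * (w k - w' k) := by
        intro j
        rw [Finset.mul_sum]
        refine Finset.sum_congr rfl fun k _ => ?_
        rw [map_mul, mul_assoc]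
        rfl
      rw [Finset.sum_congr rfl fun j _ => e3 j, Finset.sum_comm]
      have e4 : ∀ k, ∑ j, PowerSeries.C ((Jm G)⁻¹ i j * Jm G j k) * (w k - w' k) =
          if i = k then w k - w' k else 0 := by
        intro k
        rw [← Finset.sum_mul, ← map_sum, hinv]
        split_ifs <;> simp
      rw [Finset.sum_congr rfl fun k _ => e4 k]
      simp
    have e5 : ∑ j, PowerSeries.C ((Jm G)⁻¹ i j) *
      (aeval w (G j) - aeval w' (G j) -
        ∑ k, PowerSeries.C (e0 F (pderiv k (G j))) * (w k - w' k)) =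
        ∑ j, PowerSeries.C ((Jm G)⁻¹ i j) * aeval w (G j) -
        ∑ j, PowerSeries.C ((Jm G)⁻¹ i j) * aeval w' (G j) - (w i - w' i) := by
      rw [← e2]
      simp only [mul_sub, Finset.sum_sub_distrib]
    rw [e5]
    simp only [Ph]
    ring
  rw [e1, dvd_neg]
  exact Finset.dvd_sum fun j _ => (taylor n w w' hw hw' h (G j)).mul_left _

/-- the iteration -/
noncomputable def it : ℕ → Fin 3 → PowerSeries F
  | 0 => 0
  | n + 1 => Ph G (it n)

theorem it_const (h0 : ∀ i, e0 F (G i) = 0) (n : ℕ) :
    ∀ i, PowerSeries.constantCoeff (it G n i) = 0 := by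
  induction n with
  | zero => intro i; simp [it]
  | succ n ih => intro i; exact Ph_const G h0 _ ih i

theorem it_succ (h0 : ∀ i, e0 F (G i) = 0) (hJ : (Jm G).det ≠ 0) (n : ℕ) :
    ∀ i, (PowerSeries.X : PowerSeries F) ^ (n + 1) ∣ it G (n + 1) i - it G n i := by
  induction n with
  | zero =>
    intro i
    rw [zero_add, pow_one, PowerSeries.X_dvd_iff, map_sub, it_const G h0, it_const G h0, sub_self]
  | succ n ih =>
    intro i
    exact Ph_contr G hJ (n + 1) _ _ (it_const G h0 (n + 1)) (it_const G h0 n) ih i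

theorem it_coeff (h0 : ∀ i, e0 F (G i) = 0) (hJ : (Jm G).det ≠ 0) (k n : ℕ) (hkn : k ≤ n)
    (i : Fin 3) : PowerSeries.coeff k (it G n i) = PowerSeries.coeff k (it G k i) := by
  induction n, hkn using Nat.le_induction with
  | base => rfl
  | succ n hn ih =>
    rw [← ih]
    have h := (PowerSeries.X_pow_dvd_iff.1 (it_succ G h0 hJ n i)) k (by omega)
    rw [map_sub, sub_eq_zero] at h
    exact h

/-- the limit -/
noncomputable def lim : Fin 3 → PowerSeries F := fun i =>
  PowerSeries.mk fun k => PowerSeries.coeff k (it G k i)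

theorem lim_sub (h0 : ∀ i, e0 F (G i) = 0) (hJ : (Jm G).det ≠ 0) (n : ℕ) (i : Fin 3) :
    (PowerSeries.X : PowerSeries F) ^ (n + 1) ∣ lim G i - it G n i := by
  rw [PowerSeries.X_pow_dvd_iff]
  intro k hk
  rw [map_sub, lim, PowerSeries.coeff_mk, it_coeff G h0 hJ k n (by omega), sub_self]

theorem lim_const (h0 : ∀ i, e0 F (G i) = 0) (i : Fin 3) :
    PowerSeries.constantCoeff (lim G i) = 0 := by
  rw [← PowerSeries.coeff_zero_eq_constantCoeff_apply, lim, PowerSeries.coeff_mk,
    PowerSeries.coeff_zero_eq_constantCoeff_apply, it_const G h0]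

theorem Ph_lim (h0 : ∀ i, e0 F (G i) = 0) (hJ : (Jm G).det ≠ 0) (i : Fin 3) :
    Ph G (lim G) i = lim G i := by
  rw [← sub_eq_zero]
  ext k
  have h1 : (PowerSeries.X : PowerSeries F) ^ (k + 2) ∣ Ph G (lim G) i - it G (k + 1) i :=
    Ph_contr G hJ (k + 1) _ _ (lim_const G h0) (it_const G h0 k) (lim_sub G h0 hJ k) i
  have h2 : (PowerSeries.X : PowerSeries F) ^ (k + 2) ∣ lim G i - it G (k + 1) i :=
    lim_sub G h0 hJ (k + 1) i
  have h3 := dvd_sub h1 h2
  rw [sub_sub_sub_cancel_right] at h3
  rw [(PowerSeries.X_pow_dvd_iff.1 h3) k (by omega)]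
  simp

theorem aeval_lim (h0 : ∀ i, e0 F (G i) = 0) (hJ : (Jm G).det ≠ 0) (i : Fin 3) :
    aeval (lim G) (G i) = 0 := by
  have h1 : ∀ k, ∑ j, PowerSeries.C ((Jm G)⁻¹ k j) * aeval (lim G) (G j) = 0 := by
    intro k
    have h := Ph_lim G h0 hJ k
    simp only [Ph] at h
    exact sub_eq_self.1 h
  have hinv : ∀ j, ∑ k, Jm G i k * (Jm G)⁻¹ k j = if i = j then 1 else 0 := by
    intro j
    have h2 : Jm G * (Jm G)⁻¹ = 1 := Matrix.mul_nonsing_inv _ (isUnit_iff_ne_zero.2 hJ)
    have h3 := congrFun (congrFun h2 i) j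
    rwa [Matrix.mul_apply, Matrix.one_apply] at h3
  have h4 : ∑ k, PowerSeries.C (Jm G i k) *
      ∑ j, PowerSeries.C ((Jm G)⁻¹ k j) * aeval (lim G) (G j) = 0 := by
    rw [Finset.sum_congr rfl fun k _ => by rw [h1 k, mul_zero]]
    simp
  have h5 : ∑ k, PowerSeries.C (Jm G i k) *
      ∑ j, PowerSeries.C ((Jm G)⁻¹ k j) * aeval (lim G) (G j) = aeval (lim G) (G i) := by
    have e3 : ∀ k, PowerSeries.C (Jm G i k) *
        ∑ j, PowerSeries.C ((Jm G)⁻¹ k j) * aeval (lim G) (G j) =
        ∑ j, PowerSeries.C (Jm G i k * (Jm G)⁻¹ k j) * aeval (lim G) (G j) := by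
      intro k
      rw [Finset.mul_sum]
      refine Finset.sum_congr rfl fun j _ => ?_
      rw [map_mul, mul_assoc]
    rw [Finset.sum_congr rfl fun k _ => e3 k, Finset.sum_comm]
    have e4 : ∀ j, ∑ k, PowerSeries.C (Jm G i k * (Jm G)⁻¹ k j) * aeval (lim G) (G j) =
        if i = j then aeval (lim G) (G j) else 0 := by
      intro j
      rw [← Finset.sum_mul, ← map_sum, hinv]
      split_ifs <;> simp
    rw [Finset.sum_congr rfl fun j _ => e4 j]
    simp
  rw [← h5, h4]

theorem chain {R A N ι : Type} [CommRing R] [CommRing A] [Algebra R A] [AddCommGroup N]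
    [Module A N] [Module R N] (D : Derivation R A N) [Fintype ι] (v : ι → A)
    (f : MvPolynomial ι R) : D (aeval v f) = ∑ i, aeval v (pderiv i f) • D (v i) := by
  classical
  induction f using MvPolynomial.induction_on with
  | C a => simp
  | add p q hp hq =>
    rw [map_add, map_add, hp, hq, ← Finset.sum_add_distrib]
    exact Finset.sum_congr rfl fun i _ => by rw [map_add, map_add, add_smul]
  | mul_X p j hp =>
    rw [map_mul, Derivation.leibniz, hp, aeval_X]
    have e1 : ∀ i, aeval v (pderiv i (p * X j)) • D (v i) =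
        (aeval v p * aeval v (pderiv i (X j : MvPolynomial ι R))) • D (v i) +
        v j • aeval v (pderiv i p) • D (v i) := by
      intro i
      rw [Derivation.leibniz, smul_eq_mul, smul_eq_mul, map_add, map_mul, map_mul, aeval_X,
        add_smul, mul_smul (v j)]
    rw [Finset.sum_congr rfl fun i _ => e1 i, Finset.sum_add_distrib, ← Finset.smul_sum]
    congr 1
    rw [Finset.sum_eq_single j]
    · simp
    · intro i _ hij
      rw [pderiv_X_of_ne hij.symm]
      simp
    · intro h; exact absurd (Finset.mem_univ j) h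

theorem ker_of_det {M N : Type} [Field M] [AddCommGroup N] [Module M N]
    (a : Matrix (Fin 3) (Fin 3) M) (hdet : a.det ≠ 0) (x : Fin 3 → N)
    (h : ∀ i, ∑ j, a i j • x j = 0) (k : Fin 3) : x k = 0 := by
  have hinv : ∀ j, ∑ i, a⁻¹ k i * a i j = if k = j then 1 else 0 := by
    intro j
    have h1 : a⁻¹ * a = 1 := Matrix.nonsing_inv_mul _ (isUnit_iff_ne_zero.2 hdet)
    have h2 := congrFun (congrFun h1 k) j
    rwa [Matrix.mul_apply, Matrix.one_apply] at h2
  have h1 : ∑ i, a⁻¹ k i • ∑ j, a i j • x j = 0 := by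
    rw [Finset.sum_congr rfl fun i _ => by rw [h i, smul_zero]]
    simp
  have h2 : ∑ i, a⁻¹ k i • ∑ j, a i j • x j = x k := by
    have e3 : ∀ i, a⁻¹ k i • ∑ j, a i j • x j = ∑ j, (a⁻¹ k i * a i j) • x j := by
      intro i
      rw [Finset.smul_sum]
      exact Finset.sum_congr rfl fun j _ => by rw [mul_smul]
    rw [Finset.sum_congr rfl fun i _ => e3 i, Finset.sum_comm]
    have e4 : ∀ j, ∑ i, (a⁻¹ k i * a i j) • x j = if k = j then x j else 0 := by
      intro j
      rw [← Finset.sum_smul, hinv]
      split_ifs <;> simp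
    rw [Finset.sum_congr rfl fun j _ => e4 j]
    simp
  rw [← h2, h1]

theorem coe_inj : Function.Injective (algebraMap (Polynomial F) (PowerSeries F)) := by
  intro a b h
  rw [PowerSeries.algebraMap_apply', PowerSeries.algebraMap_apply'] at h
  simpa using h

theorem alg [CharZero F] (hJ : (Jm G).det ≠ 0) (w : Fin 3 → PowerSeries F)
    (hw : ∀ i, PowerSeries.constantCoeff (w i) = 0) (hG : ∀ i, aeval w (G i) = 0) (i : Fin 3) :
    IsAlgebraic (Polynomial F) (w i) := by
  classical
  let K := FractionRing (Polynomial F)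
  let L := FractionRing (PowerSeries F)
  have hinj1 : Function.Injective (algebraMap (PowerSeries F) L) :=
    IsFractionRing.injective _ _
  have hf1 : FaithfulSMul (Polynomial F) (PowerSeries F) :=
    (faithfulSMul_iff_algebraMap_injective _ _).2 coe_inj
  have hf2 : FaithfulSMul (Polynomial F) L := inferInstance
  let _ : Algebra K L := FractionRing.liftAlgebra (Polynomial F) L
  have _ : IsScalarTower (Polynomial F) K L :=
    FractionRing.isScalarTower_liftAlgebra (Polynomial F) L
  let M := IntermediateField.adjoin K (Set.range fun j => algebraMap (PowerSeries F) L (w j))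
  let v : Fin 3 → M := fun j =>
    ⟨algebraMap (PowerSeries F) L (w j), IntermediateField.subset_adjoin _ _ ⟨j, rfl⟩⟩
  have hess : Algebra.EssFiniteType K M :=
    IntermediateField.essFiniteType_iff.2 (IntermediateField.fg_adjoin_of_finite
      (Set.finite_range _))
  let G' : Fin 3 → MvPolynomial (Fin 3) K := fun i => map (algebraMap (Polynomial F) K) (G i)
  -- comparison
  have hcmp : ∀ p : MvPolynomial (Fin 3) (Polynomial F),
      algebraMap M L (aeval v (map (algebraMap (Polynomial F) K) p)) =
        algebraMap (PowerSeries F) L (aeval w p) := by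
    intro p
    have e1 : algebraMap M L (aeval v (map (algebraMap (Polynomial F) K) p)) =
        aeval (fun j => algebraMap (PowerSeries F) L (w j))
          (map (algebraMap (Polynomial F) K) p) := by
      exact (aeval_algebraMap_apply (B := L) v (map (algebraMap (Polynomial F) K) p)).symm
    rw [e1, aeval_map_algebraMap]
    exact aeval_algebraMap_apply (B := L) w p
  have hinjM : Function.Injective (algebraMap M L) := (algebraMap M L).injective
  have hG' : ∀ i, aeval v (G' i) = 0 := by
    intro i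
    apply hinjM
    rw [hcmp, hG, map_zero, map_zero]
  -- the Jacobian matrix
  let a : Matrix (Fin 3) (Fin 3) M := Matrix.of fun i j => aeval v (pderiv j (G' i))
  let b : Matrix (Fin 3) (Fin 3) (PowerSeries F) := Matrix.of fun i j => aeval w (pderiv j (G i))
  have hab : (algebraMap M L).mapMatrix a = (algebraMap (PowerSeries F) L).mapMatrix b := by
    ext i j
    show algebraMap M L (aeval v (pderiv j (G' i))) =
      algebraMap (PowerSeries F) L (aeval w (pderiv j (G i)))
    rw [← hcmp, pderiv_map]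
  have hbJ : (PowerSeries.constantCoeff : PowerSeries F →+* F).mapMatrix b = Jm G := by
    ext i j
    exact const_aeval w hw _
  have hb : b.det ≠ 0 := by
    intro h
    apply hJ
    rw [← hbJ, ← RingHom.map_det, h, map_zero]
  have ha : a.det ≠ 0 := by
    intro h
    apply hb
    apply hinj1
    rw [RingHom.map_det, ← hab, ← RingHom.map_det, h, map_zero, map_zero]
  -- the universal derivation
  let D := KaehlerDifferential.D K M
  have hDv : ∀ j, D (v j) = 0 := by
    refine ker_of_det a ha (fun j => D (v j)) fun i => ?_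
    have h1 := chain D v (G' i)
    rw [hG', map_zero] at h1
    exact h1.symm
  have hD : ∀ x : M, D x = 0 := by
    rintro ⟨x, hx⟩
    induction hx using IntermediateField.adjoin_induction with
    | mem x hx =>
      obtain ⟨j, rfl⟩ := hx
      exact hDv j
    | algebraMap x => exact D.map_algebraMap x
    | add x y hx hy h1 h2 =>
      have : (⟨x + y, add_mem hx hy⟩ : M) = ⟨x, hx⟩ + ⟨y, hy⟩ := rfl
      rw [this, map_add, h1, h2, add_zero]
    | inv x hx h1 =>
      have : (⟨x⁻¹, inv_mem hx⟩ : M) = (⟨x, hx⟩ : M)⁻¹ := rfl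
      rw [this, Derivation.leibniz_inv, h1, smul_zero]
    | mul x y hx hy h1 h2 =>
      have : (⟨x * y, mul_mem hx hy⟩ : M) = ⟨x, hx⟩ * ⟨y, hy⟩ := rfl
      rw [this, Derivation.leibniz, h1, h2, smul_zero, smul_zero, add_zero]
  have hunr : Algebra.FormallyUnramified K M := by
    refine ⟨?_⟩
    rw [← Submodule.subsingleton_iff M, ← subsingleton_iff_bot_eq_top,
      ← KaehlerDifferential.span_range_derivation]
    symm
    rw [Submodule.span_eq_bot]
    rintro _ ⟨x, rfl⟩
    exact hD x
  have hsep : Algebra.IsSeparable K M := Algebra.FormallyUnramified.isSeparable K M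
  have h1 : IsAlgebraic K (v i) := (Algebra.IsSeparable.isIntegral K (v i)).isAlgebraic
  have h2 : IsAlgebraic K (algebraMap (PowerSeries F) L (w i)) := by
    exact (isAlgebraic_algebraMap_iff (A := L) hinjM).2 h1
  have h3 : IsAlgebraic (Polynomial F) (algebraMap (PowerSeries F) L (w i)) :=
    (IsFractionRing.isAlgebraic_iff (Polynomial F) K L).2 h2
  exact (isAlgebraic_algebraMap_iff hinj1).1 h3

end HE

theorem t_HE : S_HE := by
  intro F _ _ G h0 hJ
  refine ⟨HE.lim G, HE.lim_const G h0, ?_, HE.aeval_lim G h0 hJ⟩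
  exact HE.alg G hJ _ (HE.lim_const G h0) (HE.aeval_lim G h0 hJ)

end Pool.Agent.N446.E8
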