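import Pool.Agent.N446.E8.Stm

/-!
# The rank of the distribution: level two
-/

set_option autoImplicit false

namespace Pool.Agent.N446.E8

open MvPolynomial

namespace L2

variable {F : Type} [Field F]

/-- derivations are determined by their values on the variables -/
theorem der_apply (D : Derivation F (R F) (R F)) (g : R F) :
    D g = D (X 0) * pderiv 0 g + D (X 1) * pderiv 1 g + D (X 2) * pderiv 2 g +
      D (X 3) * pderiv 3 g + D (X 4) * pderiv 4 g := by
  have h : D = D (X 0) • (pderiv 0 : Derivation F (R F) (R F)) + D (X 1) • pderiv 1 +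
      D (X 2) • pderiv 2 + D (X 3) • pderiv 3 + D (X 4) • pderiv 4 := by
    refine derivation_ext fun j => ?_
    fin_cases j <;> simp [pderiv_X]
  conv_lhs => rw [h]
  simp only [Derivation.coe_add, Derivation.coe_smul, Pi.add_apply, Pi.smul_apply, smul_eq_mul]

theorem Wd_apply (g : R F) : Wd F g = pderiv 1 g := by
  rw [der_apply]
  simp [Wd]

theorem Vd_apply (A : Fin 3 → R F) (g : R F) :
    Vd A g = pderiv 0 g + A 0 * pderiv 2 g + A 1 * pderiv 3 g + A 2 * pderiv 4 g := by
  rw [der_apply]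
  simp [Vd]

theorem pderiv_supp {s : Set (Fin 5)} {g : R F} (hg : g ∈ supported F s) {i : Fin 5}
    (hi : i ∉ s) : pderiv i g = 0 :=
  pderiv_eq_zero_of_notMem_vars fun h => hi ((mem_supported.1 hg) h)

theorem vars_pderiv (i : Fin 5) (g : R F) : (pderiv i g).vars ⊆ g.vars := by
  intro j hj
  rw [mem_vars_iff_mem_support] at hj ⊢
  obtain ⟨m, hm, hjm⟩ := hj
  rw [mem_support_iff, coeff_pderiv] at hm
  refine ⟨m + Finsupp.single i 1, mem_support_iff.2 (left_ne_zero_of_mul hm), ?_⟩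
  rw [Finsupp.mem_support_iff] at hjm ⊢
  rw [Finsupp.add_apply]
  omega

theorem pderiv_mem {s : Set (Fin 5)} {g : R F} (hg : g ∈ supported F s) (i : Fin 5) :
    pderiv i g ∈ supported F s := by
  rw [mem_supported] at hg ⊢
  exact fun j hj => hg (vars_pderiv i g hj)

theorem notMem_of_pderiv [CharZero F] {i : Fin 5} {g : R F} (h : pderiv i g = 0) :
    i ∉ g.vars := by
  intro hi
  rw [mem_vars_iff_mem_support] at hi
  obtain ⟨m, hm, him⟩ := hi
  rw [Finsupp.mem_support_iff] at him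
  have h1 : m - Finsupp.single i 1 + Finsupp.single i 1 = m := by
    ext j
    rw [Finsupp.add_apply, Finsupp.tsub_apply]
    by_cases hj : j = i
    · subst hj
      rw [Finsupp.single_eq_same]
      omega
    · rw [Finsupp.single_eq_of_ne hj]
      omega
  have h2 := coeff_pderiv (i := i) g (m - Finsupp.single i 1)
  rw [h, coeff_zero, h1] at h2
  rcases mul_eq_zero.1 h2.symm with h3 | h3
  · exact (mem_support_iff.1 hm) h3
  · have : ((((m - Finsupp.single i 1 : Fin 5 →₀ ℕ) i + 1 : ℕ)) : F) = 0 := by push_cast; exact h3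
    rw [Nat.cast_eq_zero] at this
    omega

theorem mem_of_pderiv [CharZero F] {s t : Set (Fin 5)} {g : R F} (hg : g ∈ supported F s)
    (h : ∀ i ∈ s, i ∉ t → pderiv i g = 0) : g ∈ supported F t := by
  rw [mem_supported] at hg ⊢
  intro j hj
  by_contra hjt
  exact notMem_of_pderiv (h j (hg hj) hjt) hj

theorem totalDegree_lt {i : Fin 5} {g : R F} (h : pderiv i g ≠ 0) :
    (pderiv i g).totalDegree < g.totalDegree := by
  rw [totalDegree, Finset.sup_lt_iff]
  · intro m hm
    have h1 := hm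
    rw [mem_support_iff, coeff_pderiv] at h1
    have h2 : m + Finsupp.single i 1 ∈ g.support := mem_support_iff.2 (left_ne_zero_of_mul h1)
    have h3 := le_totalDegree h2
    have h4 : ((m + Finsupp.single i 1).sum fun _ e => e) = (m.sum fun _ e => e) + 1 := by
      rw [Finsupp.sum_add_index' (fun _ => rfl) (fun _ _ _ => rfl),
        Finsupp.sum_single_index rfl]
    rw [h4] at h3
    exact h3
  · by_contra h5
    have h6 : g.totalDegree = 0 := Nat.le_zero.1 (not_lt.1 h5)
    rw [totalDegree_eq_zero_iff_eq_C] at h6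
    apply h
    rw [h6, pderiv_C]

theorem pderiv_of_dvd {i : Fin 5} {g : R F} (h : g ∣ pderiv i g) : pderiv i g = 0 := by
  by_contra h1
  exact absurd (totalDegree_le_of_dvd_of_isDomain h h1) (not_le.2 (totalDegree_lt h1))

theorem supp_of_mul {s : Set (Fin 5)} {g a : R F} (hg : g ≠ 0) (h : g * a ∈ supported F s) :
    a ∈ supported F s := by
  by_cases ha : a = 0
  · rw [ha]; exact zero_mem _
  rw [mem_supported] at h ⊢
  intro j hj
  apply h
  have h1 : j ∈ a.vars := hj
  show j ∈ (g * a).vars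
  rw [mem_vars_iff_degreeOf_ne_zero] at h1 ⊢
  rw [degreeOf_mul_eq hg ha]
  omega

theorem supp_mono {s t : Set (Fin 5)} (h : s ⊆ t) {g : R F} (hg : g ∈ supported F s) :
    g ∈ supported F t := supported_mono h hg

end L2

open L2 in
theorem t_L2 (hPO : S_PO) : S_L2 := by
  intro F _ _ A hA hk0 hd10 hd01
  obtain ⟨hA0, hA1, hA2⟩ := hA
  obtain ⟨k0, hk0e⟩ : ∃ k0, k0 = pderiv 1 (A 0) := ⟨_, rfl⟩
  obtain ⟨k1, hk1e⟩ : ∃ k1, k1 = pderiv 1 (A 1) := ⟨_, rfl⟩
  have hk0s : k0 ∈ supported F ({0, 1} : Set (Fin 5)) := by rw [hk0e]; exact pderiv_mem hA0 1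
  have hk1s : k1 ∈ supported F ({0, 1, 2} : Set (Fin 5)) := by rw [hk1e]; exact pderiv_mem hA1 1
  have vX : ∀ i : Fin 5, Vd A (X i) = ![1, 0, A 0, A 1, A 2] i := by
    intro i; simp [Vd]
  have wX : ∀ i : Fin 5, Wd F (X i) = ![0, 1, 0, 0, 0] i := by
    intro i; simp [Wd]
  have bz : ∀ g : R F, bZ A g = pderiv 1 (Vd A g) - Vd A (pderiv 1 g) := by
    intro g
    rw [bZ, Derivation.commutator_apply, Wd_apply, Wd_apply]
  have z0 : bZ A (X 0) = 0 := by
    rw [bz, vX, pderiv_X_of_ne (by decide)]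
    simp
  have z1 : bZ A (X 1) = 0 := by
    rw [bz, vX, pderiv_X_self]
    simp
  have z2 : bZ A (X 2) = k0 := by
    rw [bz, vX, pderiv_X_of_ne (by decide), map_zero, sub_zero, hk0e]
    rfl
  have z3 : bZ A (X 3) = k1 := by
    rw [bz, vX, pderiv_X_of_ne (by decide), map_zero, sub_zero, hk1e]
    rfl
  have c0 : cmp (bZ A) 0 = k0 := z2
  have c1 : cmp (bZ A) 1 = k1 := z3
  have s2 : ∀ i : Fin 5, i ∉ ({0, 1} : Set (Fin 5)) → pderiv i k0 = 0 := fun i hi =>
    pderiv_supp hk0s hi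
  have s3 : ∀ i : Fin 5, i ∉ ({0, 1, 2} : Set (Fin 5)) → pderiv i k1 = 0 := fun i hi =>
    pderiv_supp hk1s hi
  have x01a : cmp (bX01 A) 0 = pderiv 1 k0 := by
    show bX01 A (X 2) = _
    rw [bX01, Derivation.commutator_apply, z2, Wd_apply, wX]
    simp
  have x01b : cmp (bX01 A) 1 = pderiv 1 k1 := by
    show bX01 A (X 3) = _
    rw [bX01, Derivation.commutator_apply, z3, Wd_apply, wX]
    simp
  have e2 : pderiv 2 (A 0) = 0 := pderiv_supp hA0 (by simp)
  have e3 : pderiv 3 (A 0) = 0 := pderiv_supp hA0 (by simp)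
  have e4 : pderiv 4 (A 0) = 0 := pderiv_supp hA0 (by simp)
  have f3 : pderiv 3 (A 1) = 0 := pderiv_supp hA1 (by simp)
  have f4 : pderiv 4 (A 1) = 0 := pderiv_supp hA1 (by simp)
  have x10a : cmp (bX10 A) 0 = pderiv 0 k0 := by
    show bX10 A (X 2) = _
    rw [bX10, Derivation.commutator_apply, z2, Vd_apply, vX, s2 2 (by simp), s2 3 (by simp),
      s2 4 (by simp)]
    show _ - bZ A (A 0) = _
    rw [der_apply (bZ A) (A 0), z0, z1, e2, e3, e4]
    ring
  have x10b : cmp (bX10 A) 1 = pderiv 0 k1 + A 0 * pderiv 2 k1 - k0 * pderiv 2 (A 1) := by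
    show bX10 A (X 3) = _
    rw [bX10, Derivation.commutator_apply, z3, Vd_apply, vX, s3 3 (by simp), s3 4 (by simp)]
    show _ - bZ A (A 1) = _
    rw [der_apply (bZ A) (A 1), z0, z1, z2, f3, f4]
    ring
  rw [d2, c0, c1, x10a, x10b] at hd10
  rw [d2, c0, c1, x01a, x01b] at hd01
  rw [c0] at hk0
  -- reduced factors
  obtain ⟨a, b, g, hab, hga, hgb⟩ := UniqueFactorizationMonoid.exists_reduced_factors k0 hk0 k1
  have hg0 : g ≠ 0 := by
    rintro rfl
    rw [zero_mul] at hga
    exact hk0 hga.symm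
  have ha0 : a ≠ 0 := by
    rintro rfl
    rw [mul_zero] at hga
    exact hk0 hga.symm
  have hg2 : g * g ≠ 0 := mul_ne_zero hg0 hg0
  have H1 : a * pderiv 1 b = b * pderiv 1 a := by
    apply mul_left_cancel₀ hg2
    rw [← hga, ← hgb, pderiv_mul, pderiv_mul] at hd01
    linear_combination hd01
  have ha1 : pderiv 1 a = 0 := by
    apply pderiv_of_dvd
    have h1 : a ∣ b * pderiv 1 a := ⟨_, H1.symm⟩
    exact hab.dvd_of_dvd_mul_left h1
  have hb1 : pderiv 1 b = 0 := by
    rw [ha1, mul_zero] at H1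
    exact (mul_eq_zero.1 H1).resolve_left ha0
  have has : a ∈ supported F ({0, 1} : Set (Fin 5)) := supp_of_mul hg0 (by rw [hga]; exact hk0s)
  have hbs : b ∈ supported F ({0, 1, 2} : Set (Fin 5)) :=
    supp_of_mul hg0 (by rw [hgb]; exact hk1s)
  have ha2 : pderiv 2 a = 0 := pderiv_supp has (by simp)
  have H2 : a * (pderiv 0 b + A 0 * pderiv 2 b) - b * pderiv 0 a = a * a * pderiv 2 (A 1) := by
    apply mul_left_cancel₀ hg2
    have h2 : pderiv 2 k0 = 0 := s2 2 (by simp)
    rw [← hga, pderiv_mul, ha2] at h2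
    rw [← hga, ← hgb, pderiv_mul, pderiv_mul, pderiv_mul] at hd10
    linear_combination hd10 - (g * b * A 0) * h2
  have ha00 : pderiv 0 a = 0 := by
    apply pderiv_of_dvd
    have h1 : a ∣ b * pderiv 0 a :=
      ⟨(pderiv 0 b + A 0 * pderiv 2 b) - a * pderiv 2 (A 1), by linear_combination -H2⟩
    exact hab.dvd_of_dvd_mul_left h1
  obtain ⟨c, hc⟩ : ∃ c : F, a = C c := by
    have h1 : a ∈ supported F (∅ : Set (Fin 5)) := by
      refine mem_of_pderiv has fun i hi _ => ?_
      rcases hi with rfl | hi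
      · exact ha00
      · rw [Set.mem_singleton_iff] at hi
        subst hi
        exact ha1
    rw [supported_empty, Algebra.mem_bot] at h1
    obtain ⟨c, hc⟩ := h1
    exact ⟨c, hc.symm⟩
  have hc0 : c ≠ 0 := by
    rintro rfl
    rw [C_0] at hc
    exact ha0 hc
  obtain ⟨r, hr⟩ : ∃ r : R F, r = C c⁻¹ * b := ⟨_, rfl⟩
  have hcc : (C c⁻¹ : R F) * C c = 1 := by
    rw [← C_mul, inv_mul_cancel₀ hc0, C_1]
  have hk1r : k1 = r * k0 := by
    rw [hr, ← hga, ← hgb, hc]
    linear_combination (-(g * b)) * hcc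
  have hr1 : pderiv 1 r = 0 := by
    rw [hr, pderiv_C_mul, hb1, mul_zero]
  have hrs : r ∈ supported F ({0, 1, 2} : Set (Fin 5)) := by
    rw [hr]
    exact mul_mem ((supported F ({0, 1, 2} : Set (Fin 5))).algebraMap_mem c⁻¹) hbs
  have hrs2 : r ∈ supported F ({0, 2} : Set (Fin 5)) := by
    refine mem_of_pderiv hrs fun i hi hi2 => ?_
    rcases hi with rfl | rfl | hi
    · simp at hi2
    · exact hr1
    · rw [Set.mem_singleton_iff] at hi
      subst hi
      simp at hi2
  have H3 : pderiv 0 r + A 0 * pderiv 2 r = pderiv 2 (A 1) := by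
    rw [hr, pderiv_C_mul, pderiv_C_mul]
    apply mul_left_cancel₀ (mul_ne_zero ha0 ha0)
    rw [← H2, ha00, hc]
    linear_combination (C c * (pderiv 0 b + A 0 * pderiv 2 b)) * hcc
  obtain ⟨s, hs⟩ : ∃ s : R F, s = A 1 - r * A 0 := ⟨_, rfl⟩
  have hs012 : s ∈ supported F ({0, 1, 2} : Set (Fin 5)) := by
    rw [hs]
    refine sub_mem hA1 (mul_mem hrs (supp_mono ?_ hA0))
    intro x hx
    rcases hx with rfl | hx
    · simp
    · rw [Set.mem_singleton_iff] at hx
      subst hx
      simp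
  have hs1 : pderiv 1 s = 0 := by
    rw [hs, map_sub, pderiv_mul, hr1, ← hk0e, ← hk1e, hk1r]
    ring
  have hss : s ∈ supported F ({0, 2} : Set (Fin 5)) := by
    refine mem_of_pderiv hs012 fun i hi hi2 => ?_
    rcases hi with rfl | rfl | hi
    · simp at hi2
    · exact hs1
    · rw [Set.mem_singleton_iff] at hi
      subst hi
      simp at hi2
  have hs2 : pderiv 2 s = pderiv 0 r := by
    rw [hs, map_sub, pderiv_mul, e2, ← H3]
    ring
  obtain ⟨H, hH, hHd⟩ := hPO F ({0, 2} : Set (Fin 5)) ![s, 0, r, 0, 0] (by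
      intro i
      fin_cases i
      · exact hss
      · exact zero_mem _
      · exact hrs2
      · exact zero_mem _
      · exact zero_mem _) (by
      intro i hi
      fin_cases i
      · simp at hi
      · rfl
      · simp at hi
      · rfl
      · rfl) (by
      have k1 : ∀ i : Fin 5, i ∉ ({0, 2} : Set (Fin 5)) → pderiv i s = 0 := fun i hi =>
        pderiv_supp hss hi
      have k2 : ∀ i : Fin 5, i ∉ ({0, 2} : Set (Fin 5)) → pderiv i r = 0 := fun i hi =>
        pderiv_supp hrs2 hi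
      have k3 : (1 : Fin 5) ∉ ({0, 2} : Set (Fin 5)) := by simp
      have k4 : (3 : Fin 5) ∉ ({0, 2} : Set (Fin 5)) := by simp
      have k5 : (4 : Fin 5) ∉ ({0, 2} : Set (Fin 5)) := by simp
      intro i j
      fin_cases i <;> fin_cases j <;> simp [k1 1 k3, k1 3 k4, k1 4 k5, k2 1 k3, k2 3 k4,
        k2 4 k5, hs2])
  refine ⟨H, hH, ?_⟩
  have h0 := hHd 0
  have h2 := hHd 2
  simp only [Matrix.cons_val_zero, Matrix.cons_val] at h0 h2
  rw [h0, h2, hs]
  ring

end Pool.Agent.N446.E8
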