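import Pool.Agent.N446.E8.Stm

/-!
# Algebraically defined graphs and cycles of length eight: the third coordinate
-/

set_option autoImplicit false

namespace Pool.Agent.N446.E8

open MvPolynomial

namespace T_L3

variable {F : Type} [Field F]

/-! ### Derivations -/

theorem der_eq (D : Derivation F (R F) (R F)) (g : R F) :
    D g = D (X 0) * pderiv 0 g + D (X 1) * pderiv 1 g + D (X 2) * pderiv 2 g +
      D (X 3) * pderiv 3 g + D (X 4) * pderiv 4 g := by
  have h : D = D (X 0) • (pderiv 0 : Derivation F (R F) (R F)) + D (X 1) • pderiv 1 +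
      D (X 2) • pderiv 2 + D (X 3) • pderiv 3 + D (X 4) • pderiv 4 := by
    apply derivation_ext
    intro i
    simp only [Derivation.add_apply, Derivation.smul_apply, pderiv_X, smul_eq_mul]
    fin_cases i <;> simp
  conv_lhs => rw [h]
  simp only [Derivation.add_apply, Derivation.smul_apply, smul_eq_mul]

theorem pd_comm (i j : Fin 5) (g : R F) : pderiv i (pderiv j g) = pderiv j (pderiv i g) := by
  have h : ⁅(pderiv i : Derivation F (R F) (R F)), (pderiv j : Derivation F (R F) (R F))⁆ = 0 := by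
    apply derivation_ext
    intro k
    have key : ∀ a b : Fin 5, pderiv a (pderiv b (X k : R F)) = 0 := by
      intro a b
      rw [pderiv_X, Pi.single_apply]
      split_ifs
      · exact Derivation.map_one_eq_zero _
      · exact map_zero _
    rw [Derivation.commutator_apply, key, key, sub_zero, Derivation.zero_apply]
  have h2 := congrArg (fun D => D g) h
  simp only [Derivation.commutator_apply, Derivation.zero_apply] at h2
  exact sub_eq_zero.1 h2

variable (A : Fin 3 → R F)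

theorem V0 : Vd A (X 0) = 1 := by simp [Vd, mkDerivation_X]
theorem V1 : Vd A (X 1) = 0 := by simp [Vd, mkDerivation_X]
theorem V2 : Vd A (X 2) = A 0 := by simp [Vd, mkDerivation_X]
theorem V3 : Vd A (X 3) = A 1 := by simp [Vd, mkDerivation_X]
theorem V4 : Vd A (X 4) = A 2 := by simp [Vd, mkDerivation_X]

theorem V_eq (g : R F) : Vd A g = pderiv 0 g + A 0 * pderiv 2 g + A 1 * pderiv 3 g +
    A 2 * pderiv 4 g := by
  rw [der_eq (Vd A) g, V0, V1, V2, V3, V4]
  ring

theorem W0 : Wd F (X 0) = 0 := by simp [Wd, mkDerivation_X]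
theorem W1 : Wd F (X 1) = 1 := by simp [Wd, mkDerivation_X]
theorem W2 : Wd F (X 2) = 0 := by simp [Wd, mkDerivation_X]
theorem W3 : Wd F (X 3) = 0 := by simp [Wd, mkDerivation_X]
theorem W4 : Wd F (X 4) = 0 := by simp [Wd, mkDerivation_X]

theorem W_eq (g : R F) : Wd F g = pderiv 1 g := by
  rw [der_eq (Wd F) g, W0, W1, W2, W3, W4]
  ring

variable {A}

/-- vertical derivations not involving the last coordinate -/
structure Ver (D : Derivation F (R F) (R F)) : Prop where
  x0 : D (X 0) = 0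
  x1 : D (X 1) = 0
  d4 : ∀ g, pderiv 4 (D g) = D (pderiv 4 g)

theorem W_d4 (g : R F) : pderiv 4 (Wd F g) = Wd F (pderiv 4 g) := by
  rw [W_eq, W_eq, pd_comm]

theorem V_d4 (h4 : ∀ i, pderiv 4 (A i) = 0) (g : R F) :
    pderiv 4 (Vd A g) = Vd A (pderiv 4 g) := by
  rw [V_eq, V_eq]
  simp only [map_add, pderiv_mul, h4]
  rw [pd_comm 4 0, pd_comm 4 2, pd_comm 4 3]
  ring

theorem ver_W {D : Derivation F (R F) (R F)} (h : Ver D) : Ver ⁅Wd F, D⁆ where
  x0 := by rw [Derivation.commutator_apply, h.x0, W0, map_zero, map_zero, sub_zero]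
  x1 := by rw [Derivation.commutator_apply, h.x1, W1, map_zero, Derivation.map_one_eq_zero, sub_zero]
  d4 g := by
    rw [Derivation.commutator_apply, Derivation.commutator_apply, map_sub, W_d4, h.d4, h.d4, W_d4]

theorem ver_V (h4 : ∀ i, pderiv 4 (A i) = 0) {D : Derivation F (R F) (R F)} (h : Ver D) :
    Ver ⁅Vd A, D⁆ where
  x0 := by rw [Derivation.commutator_apply, h.x0, V0, map_zero, Derivation.map_one_eq_zero, sub_zero]
  x1 := by rw [Derivation.commutator_apply, h.x1, V1, map_zero, map_zero, sub_zero]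
  d4 g := by
    rw [Derivation.commutator_apply, Derivation.commutator_apply, map_sub, V_d4 h4, h.d4, h.d4,
      V_d4 h4]

theorem ver_Z (h4 : ∀ i, pderiv 4 (A i) = 0) : Ver (bZ A) where
  x0 := by
    rw [bZ, Derivation.commutator_apply, W0, V0, map_zero, Derivation.map_one_eq_zero, sub_zero]
  x1 := by
    rw [bZ, Derivation.commutator_apply, W1, V1, map_zero, Derivation.map_one_eq_zero, sub_zero]
  d4 g := by
    rw [bZ, Derivation.commutator_apply, Derivation.commutator_apply, map_sub, V_d4 h4, W_d4, W_d4,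
      V_d4 h4]

theorem ver_eq {D : Derivation F (R F) (R F)} (h : Ver D) (g : R F) :
    D g = cmp D 0 * pderiv 2 g + cmp D 1 * pderiv 3 g + cmp D 2 * pderiv 4 g := by
  rw [der_eq D g, h.x0, h.x1]
  simp only [cmp, Matrix.cons_val_zero, Matrix.cons_val_one, Matrix.cons_val]
  ring

theorem ver_cmp4 {D : Derivation F (R F) (R F)} (h : Ver D) (i : Fin 3) :
    pderiv 4 (cmp D i) = 0 := by
  have key : ∀ j : Fin 5, pderiv 4 (D (X j)) = 0 := by
    intro j
    rw [h.d4, pderiv_X]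
    by_cases hj : j = 4
    · subst hj; simp
    · rw [Pi.single_eq_of_ne (by simpa using hj)]; simp
  fin_cases i
  · exact key 2
  · exact key 3
  · exact key 4

theorem cmp_W {D : Derivation F (R F) (R F)} (i : Fin 3) :
    cmp ⁅Wd F, D⁆ i = Wd F (cmp D i) := by
  fin_cases i
  · change (⁅Wd F, D⁆ : Derivation F (R F) (R F)) (X 2) = Wd F (D (X 2))
    rw [Derivation.commutator_apply, W2, map_zero, sub_zero]
  · change (⁅Wd F, D⁆ : Derivation F (R F) (R F)) (X 3) = Wd F (D (X 3))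
    rw [Derivation.commutator_apply, W3, map_zero, sub_zero]
  · change (⁅Wd F, D⁆ : Derivation F (R F) (R F)) (X 4) = Wd F (D (X 4))
    rw [Derivation.commutator_apply, W4, map_zero, sub_zero]

theorem cmp_V {D : Derivation F (R F) (R F)} (i : Fin 3) :
    cmp ⁅Vd A, D⁆ i = Vd A (cmp D i) - D (A i) := by
  fin_cases i
  · change (⁅Vd A, D⁆ : Derivation F (R F) (R F)) (X 2) = Vd A (D (X 2)) - D (A 0)
    rw [Derivation.commutator_apply, V2]
  · change (⁅Vd A, D⁆ : Derivation F (R F) (R F)) (X 3) = Vd A (D (X 3)) - D (A 1)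
    rw [Derivation.commutator_apply, V3]
  · change (⁅Vd A, D⁆ : Derivation F (R F) (R F)) (X 4) = Vd A (D (X 4)) - D (A 2)
    rw [Derivation.commutator_apply, V4]

theorem jac : ⁅Vd A, bX01 A⁆ = bX11 A := by
  ext1 i
  simp only [bX01, bX11, bX10, bZ, Derivation.commutator_apply, map_sub]
  abel

/-! ### Products of vectors -/

/-- the scalar product -/
noncomputable def dt (u v : Fin 3 → R F) : R F := u 0 * v 0 + u 1 * v 1 + u 2 * v 2

theorem der_dt (D : Derivation F (R F) (R F)) (u v : Fin 3 → R F) :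
    D (dt u v) = dt (fun i => D (u i)) v + dt u (fun i => D (v i)) := by
  simp only [dt, map_add, Derivation.leibniz, smul_eq_mul]
  ring

/-- the vectors orthogonal to the three brackets -/
structure Ort (A : Fin 3 → R F) (u : Fin 3 → R F) : Prop where
  z : dt u (cmp (bZ A)) = 0
  p : dt u (cmp (bX10 A)) = 0
  q : dt u (cmp (bX01 A)) = 0

/-- the situation of the lemma -/
structure Sit (A : Fin 3 → R F) (T : Fin 3 → R F) : Prop where
  h4 : ∀ i, pderiv 4 (A i) = 0
  ne : d2 (cmp (bZ A)) T ≠ 0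
  t : T = cmp (bX10 A) ∨ T = cmp (bX01 A)
  y : ∀ Y : Fin 3 → R F, Y = cmp (bX10 A) ∨ Y = cmp (bX01 A) ∨ Y = cmp (bX20 A) ∨
    Y = cmp (bX11 A) ∨ Y = cmp (bX02 A) → d3 (cmp (bZ A)) T Y = 0

variable {T : Fin 3 → R F}

theorem Ort.par (h : Sit A T) {u : Fin 3 → R F} (hu : Ort A u) :
    u 0 * d2 (cmp (bZ A)) T =
      u 2 * (cmp (bZ A) 1 * T 2 - cmp (bZ A) 2 * T 1) ∧
    u 1 * d2 (cmp (bZ A)) T =
      u 2 * (cmp (bZ A) 2 * T 0 - cmp (bZ A) 0 * T 2) := by
  have hT : dt u T = 0 := by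
    rcases h.t with h1 | h1
    · rw [h1]; exact hu.p
    · rw [h1]; exact hu.q
  have hZ := hu.z
  unfold dt at hT hZ
  unfold d2
  constructor
  · linear_combination T 1 * hZ - cmp (bZ A) 1 * hT
  · linear_combination cmp (bZ A) 0 * hT - T 0 * hZ

theorem Ort.zero (h : Sit A T) {u : Fin 3 → R F} (hu : Ort A u) (h2 : u 2 = 0) (i : Fin 3) :
    u i = 0 := by
  obtain ⟨h0, h1⟩ := hu.par h
  rw [h2, zero_mul] at h0 h1
  fin_cases i
  · exact (mul_eq_zero.1 h0).resolve_right h.ne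
  · exact (mul_eq_zero.1 h1).resolve_right h.ne
  · exact h2

theorem Ort.orth (h : Sit A T) {u : Fin 3 → R F} (hu : Ort A u) {Y : Fin 3 → R F}
    (hY : d3 (cmp (bZ A)) T Y = 0) : dt u Y = 0 := by
  obtain ⟨h0, h1⟩ := hu.par h
  have h2 : dt u Y * d2 (cmp (bZ A)) T = u 2 * d3 (cmp (bZ A)) T Y := by
    unfold d3 dt
    rw [Matrix.det_fin_three]
    simp only [Matrix.of_apply, Matrix.cons_val_zero, Matrix.cons_val_one, Matrix.cons_val]
    have h3 : d2 (cmp (bZ A)) T = cmp (bZ A) 0 * T 1 - cmp (bZ A) 1 * T 0 := rfl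
    rw [h3] at h0 h1 ⊢
    linear_combination Y 0 * h0 + Y 1 * h1
  rw [hY, mul_zero] at h2
  exact (mul_eq_zero.1 h2).resolve_right h.ne

theorem Ort.derW (h : Sit A T) {u : Fin 3 → R F} (hu : Ort A u) :
    Ort A (fun i => Wd F (u i)) := by
  have key : ∀ v w : Fin 3 → R F, dt u v = 0 → (∀ i, w i = Wd F (v i)) → dt u w = 0 →
      dt (fun i => Wd F (u i)) v = 0 := by
    intro v w h1 h2 h3
    have h4 := der_dt (Wd F) u v
    rw [h1, map_zero, show (fun i => Wd F (v i)) = w from (funext h2).symm, h3, add_zero] at h4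
    exact h4.symm
  have e1 : ∀ i, cmp (bX01 A) i = Wd F (cmp (bZ A) i) := fun i => cmp_W i
  have e2 : ∀ i, cmp (bX11 A) i = Wd F (cmp (bX10 A) i) := fun i => cmp_W i
  have e3 : ∀ i, cmp (bX02 A) i = Wd F (cmp (bX01 A) i) := fun i => cmp_W i
  have o2 : dt u (cmp (bX11 A)) = 0 :=
    hu.orth h (h.y (cmp (bX11 A)) (Or.inr (Or.inr (Or.inr (Or.inl rfl)))))
  have o3 : dt u (cmp (bX02 A)) = 0 :=
    hu.orth h (h.y (cmp (bX02 A)) (Or.inr (Or.inr (Or.inr (Or.inr rfl)))))
  exact ⟨key (cmp (bZ A)) (cmp (bX01 A)) hu.z e1 hu.q, key (cmp (bX10 A)) (cmp (bX11 A)) hu.p e2 o2,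
    key (cmp (bX01 A)) (cmp (bX02 A)) hu.q e3 o3⟩

theorem Ort.der4 (h : Sit A T) {u : Fin 3 → R F} (hu : Ort A u) :
    Ort A (fun i => pderiv 4 (u i)) := by
  have key : ∀ D : Derivation F (R F) (R F), Ver D → dt u (cmp D) = 0 →
      dt (fun i => pderiv 4 (u i)) (cmp D) = 0 := by
    intro D hD h1
    have h2 := der_dt (pderiv 4) u (cmp D)
    have h3 : (fun i => pderiv 4 (cmp D i)) = 0 := funext fun i => ver_cmp4 hD i
    rw [h1, map_zero, h3] at h2
    simp only [dt, Pi.zero_apply, mul_zero, add_zero] at h2 ⊢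
    exact h2.symm
  exact ⟨key _ (ver_Z h.h4) hu.z, key _ (ver_V h.h4 (ver_Z h.h4)) hu.p,
    key _ (ver_W (ver_Z h.h4)) hu.q⟩

/-- the action of `V` on normal vectors -/
noncomputable def qv (A u : Fin 3 → R F) : Fin 3 → R F :=
  ![Vd A (u 0) + dt u (fun i => pderiv 2 (A i)), Vd A (u 1) + dt u (fun i => pderiv 3 (A i)),
    Vd A (u 2) + dt u (fun i => pderiv 4 (A i))]

theorem dt_qv {D : Derivation F (R F) (R F)} (hD : Ver D) (u : Fin 3 → R F) :
    dt (qv A u) (cmp D) = Vd A (dt u (cmp D)) - dt u (cmp ⁅Vd A, D⁆) := by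
  rw [der_dt]
  simp only [dt, cmp_V, ver_eq hD (A 0), ver_eq hD (A 1), ver_eq hD (A 2)]
  simp only [qv, dt, Matrix.cons_val_zero, Matrix.cons_val_one, Matrix.cons_val]
  ring

theorem Ort.derV (h : Sit A T) {u : Fin 3 → R F} (hu : Ort A u) : Ort A (qv A u) := by
  refine ⟨?_, ?_, ?_⟩
  · rw [dt_qv (ver_Z h.h4), hu.z, map_zero, zero_sub, neg_eq_zero]
    exact hu.p
  · have h1 := dt_qv (A := A) (ver_V h.h4 (ver_Z h.h4)) u
    change dt (qv A u) (cmp (bX10 A)) = Vd A (dt u (cmp (bX10 A))) - dt u (cmp (bX20 A)) at h1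
    rw [h1, hu.p, map_zero, zero_sub, neg_eq_zero]
    exact hu.orth h (h.y (cmp (bX20 A)) (Or.inr (Or.inr (Or.inl rfl))))
  · have h1 := dt_qv (A := A) (ver_W (ver_Z h.h4)) u
    change dt (qv A u) (cmp (bX01 A)) = Vd A (dt u (cmp (bX01 A))) - dt u (cmp ⁅Vd A, bX01 A⁆) at h1
    rw [h1, jac, hu.q, map_zero, zero_sub, neg_eq_zero]
    exact hu.orth h (h.y (cmp (bX11 A)) (Or.inr (Or.inr (Or.inr (Or.inl rfl)))))

theorem qv_two (h : Sit A T) (u : Fin 3 → R F) : qv A u 2 = Vd A (u 2) := by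
  simp only [qv, dt, h.h4, Matrix.cons_val]
  ring

/-! ### Weights -/

/-- the weight of a monomial -/
def wt (w : Fin 5 → ℕ) (m : Fin 5 →₀ ℕ) : ℕ := ∑ i, w i * m i

theorem wt_add (w : Fin 5 → ℕ) (m m' : Fin 5 →₀ ℕ) : wt w (m + m') = wt w m + wt w m' := by
  unfold wt
  rw [← Finset.sum_add_distrib]
  exact Finset.sum_congr rfl fun i _ => by rw [Finsupp.add_apply, mul_add]

theorem wt_single (w : Fin 5 → ℕ) (i : Fin 5) : wt w (Finsupp.single i 1) = w i := by
  unfold wt
  rw [Finset.sum_eq_single i]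
  · rw [Finsupp.single_eq_same, mul_one]
  · intro j _ hj
    rw [Finsupp.single_eq_of_ne hj, mul_zero]
  · intro h
    exact absurd (Finset.mem_univ _) h

/-- all monomials have weight less than `d` -/
def Lo (w : Fin 5 → ℕ) (d : ℕ) (g : R F) : Prop := ∀ m, coeff m g ≠ 0 → wt w m < d

theorem lo_zero {w : Fin 5 → ℕ} {g : R F} (h : Lo w 0 g) : g = 0 := by
  ext m
  by_contra hne
  exact absurd (h m (by simpa using hne)) (Nat.not_lt_zero _)

theorem exists_lo (w : Fin 5 → ℕ) (g : R F) : ∃ d, Lo w d g := by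
  refine ⟨(g.support.sup (wt w)) + 1, fun m hm => Nat.lt_succ_of_le ?_⟩
  exact Finset.le_sup (f := wt w) (mem_support_iff.2 hm)

theorem Lo.add {w : Fin 5 → ℕ} {d : ℕ} {f g : R F} (hf : Lo w d f) (hg : Lo w d g) :
    Lo w d (f + g) := by
  intro m hm
  rw [coeff_add] at hm
  by_cases h1 : coeff m f = 0
  · rw [h1, zero_add] at hm
    exact hg m hm
  · exact hf m h1

theorem Lo.pd {w : Fin 5 → ℕ} {d : ℕ} {g : R F} (hg : Lo w d g) (i : Fin 5) (m : Fin 5 →₀ ℕ)
    (hm : coeff m (pderiv i g) ≠ 0) : wt w m + w i < d := by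
  rw [coeff_pderiv] at hm
  have h1 := hg _ (left_ne_zero_of_mul hm)
  rwa [wt_add, wt_single] at h1

theorem Lo.mul_pd {w : Fin 5 → ℕ} {d : ℕ} {f g : R F} (hg : Lo w d g) (i : Fin 5)
    (hf : Lo w (w i) f) : Lo w (d - 1) (f * pderiv i g) := by
  intro m hm
  rw [coeff_mul] at hm
  obtain ⟨⟨a, b⟩, hab, hne⟩ := Finset.exists_ne_zero_of_sum_ne_zero hm
  rw [Finset.HasAntidiagonal.mem_antidiagonal] at hab
  have h1 := hf a (left_ne_zero_of_mul hne)
  have h2 := hg.pd i b (right_ne_zero_of_mul hne)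
  simp only at hab
  rw [← hab, wt_add]
  omega

theorem Lo.pd1 {w : Fin 5 → ℕ} (hw : ∀ i, 1 ≤ w i) {d : ℕ} {g : R F} (hg : Lo w d g) (i : Fin 5) :
    Lo w (d - 1) (pderiv i g) := by
  intro m hm
  have := hg.pd i m hm
  have := hw i
  omega

theorem Lo.v {w : Fin 5 → ℕ} (hw : ∀ i, 1 ≤ w i) (h0 : Lo w (w 2) (A 0)) (h1 : Lo w (w 3) (A 1))
    (h2 : Lo w (w 4) (A 2)) {d : ℕ} {g : R F} (hg : Lo w d g) : Lo w (d - 1) (Vd A g) := by
  rw [V_eq]
  exact (((hg.pd1 hw 0).add (hg.mul_pd 2 h0)).add (hg.mul_pd 3 h1)).add (hg.mul_pd 4 h2)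

/-- suitable weights -/
theorem exists_weight (hA : Tri A) : ∃ w : Fin 5 → ℕ, (∀ i, 1 ≤ w i) ∧ Lo w (w 2) (A 0) ∧
    Lo w (w 3) (A 1) ∧ Lo w (w 4) (A 2) := by
  have hz : ∀ (s : Set (Fin 5)) (g : R F), g ∈ supported F s → ∀ m, coeff m g ≠ 0 →
      ∀ i, i ∉ s → m i = 0 := by
    intro s g hg m hm i hi
    by_contra hne
    apply hi
    exact (mem_supported.1 hg) (Finset.mem_coe.2 ((mem_vars_iff_mem_support i).2
      ⟨m, mem_support_iff.2 hm, Finsupp.mem_support_iff.2 hne⟩))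
  obtain ⟨a, ha⟩ := exists_lo ![1, 1, 1, 1, 1] (A 0)
  obtain ⟨b, hb⟩ := exists_lo ![1, 1, a + 1, 1, 1] (A 1)
  obtain ⟨c, hc⟩ := exists_lo ![1, 1, a + 1, b + 1, 1] (A 2)
  refine ⟨![1, 1, a + 1, b + 1, c + 1], ?_, ?_, ?_, ?_⟩
  · intro i
    fin_cases i <;> simp
  · intro m hm
    have h1 := ha m hm
    have h2 := hz _ _ hA.1 m hm 2 (by decide)
    have h3 := hz _ _ hA.1 m hm 3 (by decide)
    have h4 := hz _ _ hA.1 m hm 4 (by decide)
    simp only [wt, Fin.sum_univ_five, Matrix.cons_val_zero, Matrix.cons_val_one,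
      Matrix.cons_val, h2, h3, h4] at h1 ⊢
    omega
  · intro m hm
    have h1 := hb m hm
    have h3 := hz _ _ hA.2.1 m hm 3 (by decide)
    have h4 := hz _ _ hA.2.1 m hm 4 (by decide)
    simp only [wt, Fin.sum_univ_five, Matrix.cons_val_zero, Matrix.cons_val_one,
      Matrix.cons_val, h3, h4] at h1 ⊢
    omega
  · intro m hm
    have h1 := hc m hm
    have h4 := hz _ _ hA.2.2 m hm 4 (by decide)
    simp only [wt, Fin.sum_univ_five, Matrix.cons_val_zero, Matrix.cons_val_one,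
      Matrix.cons_val, h4] at h1 ⊢
    omega

theorem descend (h : Sit A T) {w : Fin 5 → ℕ} (hw : ∀ i, 1 ≤ w i) (h0 : Lo w (w 2) (A 0))
    (h1 : Lo w (w 3) (A 1)) (h2 : Lo w (w 4) (A 2)) : ∀ (d : ℕ) (u : Fin 3 → R F), Ort A u →
    u 2 ≠ 0 → Lo w d (u 2) → ∃ v, Ort A v ∧ v 2 ≠ 0 ∧ Wd F (v 2) = 0 ∧ Vd A (v 2) = 0 ∧
      pderiv 4 (v 2) = 0 := by
  intro d
  induction d with
  | zero => intro u _ hne hlo; exact absurd (lo_zero hlo) hne
  | succ d ih =>
    intro u hu hne hlo
    by_cases c1 : Wd F (u 2) = 0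
    · by_cases c2 : Vd A (u 2) = 0
      · by_cases c3 : pderiv 4 (u 2) = 0
        · exact ⟨u, hu, hne, c1, c2, c3⟩
        · exact ih _ (hu.der4 h) c3 (hlo.pd1 hw 4)
      · refine ih _ (hu.derV h) ?_ ?_
        · rw [qv_two h]; exact c2
        · rw [qv_two h]; exact Lo.v (A := A) hw h0 h1 h2 hlo
    · refine ih _ (hu.derW h) c1 ?_
      rw [W_eq]
      exact hlo.pd1 hw 1

/-! ### Characteristic zero -/

theorem notMem_vars [CharZero F] {g : R F} {i : Fin 5} (h : pderiv i g = 0) : i ∉ g.vars := by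
  intro hi
  obtain ⟨d, hd, hid⟩ := (mem_vars_iff_mem_support i).1 hi
  have h1 : coeff (d - Finsupp.single i 1) (pderiv i g) = 0 := by rw [h, coeff_zero]
  have h2 : d - Finsupp.single i 1 + Finsupp.single i 1 = d := by
    apply tsub_add_cancel_of_le
    rw [Finsupp.single_le_iff]
    exact Nat.one_le_iff_ne_zero.2 (Finsupp.mem_support_iff.1 hid)
  rw [coeff_pderiv, h2] at h1
  rcases mul_eq_zero.1 h1 with h3 | h3
  · exact (mem_support_iff.1 hd) h3
  · exact Nat.cast_add_one_ne_zero _ h3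

theorem const_of [CharZero F] {g : R F} (h : ∀ i, pderiv i g = 0) : ∃ c, g = C c := by
  have h1 : g.vars = ∅ := Finset.eq_empty_of_forall_notMem fun i => notMem_vars (h i)
  exact ⟨_, vars_eq_empty_iff_eq_C.1 h1⟩

theorem mem_supp [CharZero F] {g : R F} (h1 : pderiv 1 g = 0) (h4 : pderiv 4 g = 0) :
    g ∈ supported F ({0, 2, 3} : Set (Fin 5)) := by
  rw [mem_supported]
  intro i hi
  have hi' := Finset.mem_coe.1 hi
  have n1 := notMem_vars h1
  have n4 := notMem_vars h4
  fin_cases i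
  · simp
  · exact absurd hi' n1
  · simp
  · simp
  · exact absurd hi' n4

theorem d3_self_right (u v : Fin 3 → R F) : d3 u v v = 0 := by
  unfold d3
  rw [Matrix.det_fin_three]
  simp only [Matrix.of_apply, Matrix.cons_val_zero, Matrix.cons_val_one, Matrix.cons_val]
  ring

theorem d3_swap (u v w : Fin 3 → R F) : d3 u w v = -d3 u v w := by
  unfold d3
  rw [Matrix.det_fin_three, Matrix.det_fin_three]
  simp only [Matrix.of_apply, Matrix.cons_val_zero, Matrix.cons_val_one, Matrix.cons_val]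
  ring

/-- the normal vector -/
noncomputable def nn (u v : Fin 3 → R F) : Fin 3 → R F :=
  ![u 1 * v 2 - u 2 * v 1, u 2 * v 0 - u 0 * v 2, u 0 * v 1 - u 1 * v 0]

theorem dt_nn (u v w : Fin 3 → R F) : dt (nn u v) w = d3 u v w := by
  unfold d3
  rw [Matrix.det_fin_three]
  simp only [dt, nn, Matrix.of_apply, Matrix.cons_val_zero, Matrix.cons_val_one, Matrix.cons_val]
  ring

theorem dt_nn_self (u v : Fin 3 → R F) : dt (nn u v) u = 0 := by
  simp only [dt, nn, Matrix.cons_val_zero, Matrix.cons_val_one, Matrix.cons_val]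
  ring

/-- the normal vector with last coordinate one -/
theorem exists_normal [CharZero F] (h : Sit A T) (hA : Tri A) : ∃ m : Fin 3 → R F, Ort A m ∧
    m 2 = 1 := by
  obtain ⟨w, hw, w0, w1, w2⟩ := exists_weight hA
  have hn : Ort A (nn (cmp (bZ A)) T) :=
    ⟨dt_nn_self _ _, by rw [dt_nn]; exact h.y _ (Or.inl rfl),
      by rw [dt_nn]; exact h.y _ (Or.inr (Or.inl rfl))⟩
  have hn2 : nn (cmp (bZ A)) T 2 ≠ 0 := h.ne
  obtain ⟨d, hd⟩ := exists_lo w (nn (cmp (bZ A)) T 2)
  obtain ⟨v, hv, hv2, vW, vV, v4⟩ := descend h hw w0 w1 w2 d _ hn hn2 hd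
  have vZ : bZ A (v 2) = 0 := by
    rw [bZ, Derivation.commutator_apply, vW, vV, map_zero, map_zero, sub_zero]
  have vP : bX10 A (v 2) = 0 := by
    rw [bX10, Derivation.commutator_apply, vZ, vV, map_zero, map_zero, sub_zero]
  have vQ : bX01 A (v 2) = 0 := by
    rw [bX01, Derivation.commutator_apply, vZ, vW, map_zero, map_zero, sub_zero]
  have eZ := ver_eq (ver_Z h.h4) (v 2)
  rw [vZ, v4, mul_zero, add_zero] at eZ
  have eT : 0 = T 0 * pderiv 2 (v 2) + T 1 * pderiv 3 (v 2) := by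
    rcases h.t with h1 | h1
    · have e := ver_eq (ver_V h.h4 (ver_Z h.h4)) (v 2)
      change bX10 A (v 2) = cmp (bX10 A) 0 * pderiv 2 (v 2) + cmp (bX10 A) 1 * pderiv 3 (v 2) +
        cmp (bX10 A) 2 * pderiv 4 (v 2) at e
      rw [vP, v4, mul_zero, add_zero, ← h1] at e
      exact e
    · have e := ver_eq (ver_W (ver_Z h.h4)) (v 2)
      change bX01 A (v 2) = cmp (bX01 A) 0 * pderiv 2 (v 2) + cmp (bX01 A) 1 * pderiv 3 (v 2) +
        cmp (bX01 A) 2 * pderiv 4 (v 2) at e
      rw [vQ, v4, mul_zero, add_zero, ← h1] at e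
      exact e
  have v2' : pderiv 2 (v 2) = 0 := by
    have e : pderiv 2 (v 2) * d2 (cmp (bZ A)) T = 0 := by
      unfold d2
      linear_combination cmp (bZ A) 1 * eT - T 1 * eZ
    exact (mul_eq_zero.1 e).resolve_right h.ne
  have v3' : pderiv 3 (v 2) = 0 := by
    have e : pderiv 3 (v 2) * d2 (cmp (bZ A)) T = 0 := by
      unfold d2
      linear_combination T 0 * eZ - cmp (bZ A) 0 * eT
    exact (mul_eq_zero.1 e).resolve_right h.ne
  have v1' : pderiv 1 (v 2) = 0 := by rw [← W_eq]; exact vW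
  have v0' : pderiv 0 (v 2) = 0 := by
    have e := vV
    rw [V_eq, v2', v3', v4, mul_zero, mul_zero, mul_zero, add_zero, add_zero, add_zero] at e
    exact e
  obtain ⟨c, hc⟩ := const_of (g := v 2) (fun i => by
    fin_cases i
    · exact v0'
    · exact v1'
    · exact v2'
    · exact v3'
    · exact v4)
  have hc0 : c ≠ 0 := by
    rintro rfl
    exact hv2 (by rw [hc, map_zero])
  have hdt : ∀ Y : Fin 3 → R F, dt v Y = 0 → dt (fun i => C c⁻¹ * v i) Y = 0 := by
    intro Y hY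
    have : dt (fun i => C c⁻¹ * v i) Y = C c⁻¹ * dt v Y := by
      unfold dt
      ring
    rw [this, hY, mul_zero]
  refine ⟨fun i => C c⁻¹ * v i, ⟨hdt _ hv.z, hdt _ hv.p, hdt _ hv.q⟩, ?_⟩
  show C c⁻¹ * v 2 = 1
  rw [hc, ← C_mul, inv_mul_cancel₀ hc0, C_1]

theorem main [CharZero F] (hPO : S_PO) (h : Sit A T) (hA : Tri A) :
    ∃ H ∈ supported F ({0, 2, 3} : Set (Fin 5)),
      A 2 = pderiv 0 H + A 0 * pderiv 2 H + A 1 * pderiv 3 H := by
  obtain ⟨m, hm, hm2⟩ := exists_normal h hA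
  have mW : ∀ i, pderiv 1 (m i) = 0 := by
    intro i
    have e := (hm.derW h).zero h (by
      show Wd F (m 2) = 0
      rw [hm2, Derivation.map_one_eq_zero]) i
    rw [W_eq] at e
    exact e
  have m4 : ∀ i, pderiv 4 (m i) = 0 :=
    (hm.der4 h).zero h (by show pderiv 4 (m 2) = 0; rw [hm2, Derivation.map_one_eq_zero])
  have hq := (hm.derV h).zero h (by rw [qv_two h, hm2, Derivation.map_one_eq_zero])
  have nv : ∀ (s : Set (Fin 5)) (g : R F), g ∈ supported F s → ∀ i, i ∉ s → pderiv i g = 0 :=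
    fun s g hg i hi => pderiv_eq_zero_of_notMem_vars fun hv => hi ((mem_supported.1 hg)
      (Finset.mem_coe.2 hv))
  have a02 : pderiv 2 (A 0) = 0 := nv _ _ hA.1 2 (by decide)
  have a03 : pderiv 3 (A 0) = 0 := nv _ _ hA.1 3 (by decide)
  have a13 : pderiv 3 (A 1) = 0 := nv _ _ hA.2.1 3 (by decide)
  have q0 := hq 0
  have q1 := hq 1
  simp only [qv, dt, Matrix.cons_val_zero, Matrix.cons_val_one, V_eq, m4, hm2, a02, a03, a13] at q0 q1
  have hz := hm.z
  have z0 : cmp (bZ A) 0 = pderiv 1 (A 0) := by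
    show bZ A (X 2) = _
    rw [bZ, Derivation.commutator_apply, V2, W2, map_zero, sub_zero, W_eq]
  have z1 : cmp (bZ A) 1 = pderiv 1 (A 1) := by
    show bZ A (X 3) = _
    rw [bZ, Derivation.commutator_apply, V3, W3, map_zero, sub_zero, W_eq]
  have z2 : cmp (bZ A) 2 = pderiv 1 (A 2) := by
    show bZ A (X 4) = _
    rw [bZ, Derivation.commutator_apply, V4, W4, map_zero, sub_zero, W_eq]
  unfold dt at hz
  rw [z0, z1, z2, hm2] at hz
  obtain ⟨S, hS⟩ : ∃ S, S = m 0 * A 0 + m 1 * A 1 + A 2 := ⟨_, rfl⟩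
  obtain ⟨c, hc⟩ : ∃ c, c = pderiv 2 (m 1) - pderiv 3 (m 0) := ⟨_, rfl⟩
  have s1 : pderiv 1 S = 0 := by
    rw [hS]
    simp only [map_add, pderiv_mul, mW]
    linear_combination hz
  have s4 : pderiv 4 S = 0 := by
    rw [hS]
    simp only [map_add, pderiv_mul, m4, h.h4]
    ring
  have s2 : pderiv 2 S + pderiv 0 (m 0) = A 1 * c := by
    rw [hS, hc]
    simp only [map_add, pderiv_mul, a02]
    linear_combination q0
  have s3 : pderiv 3 S + pderiv 0 (m 1) = -(A 0 * c) := by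
    rw [hS, hc]
    simp only [map_add, pderiv_mul, a03, a13]
    linear_combination q1
  have c1 : pderiv 1 c = 0 := by
    rw [hc, map_sub, pd_comm 1 2, pd_comm 1 3, mW, mW, map_zero, map_zero, sub_zero]
  have k1 : pderiv 1 (A 1) * c = 0 := by
    have e := congrArg (pderiv 1) s2
    rw [map_add, pderiv_mul, pd_comm 1 2, s1, pd_comm 1 0, mW, c1, map_zero, map_zero, mul_zero,
      add_zero, add_zero] at e
    exact e.symm
  have k0 : pderiv 1 (A 0) * c = 0 := by
    have e := congrArg (pderiv 1) s3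
    rw [map_add, map_neg, pderiv_mul, pd_comm 1 3, s1, pd_comm 1 0, mW, c1, map_zero, map_zero,
      mul_zero, add_zero, add_zero] at e
    exact neg_eq_zero.1 e.symm
  have hc0 : c = 0 := by
    by_contra hne
    apply h.ne
    unfold d2
    rw [z0, z1, (mul_eq_zero.1 k0).resolve_right hne, (mul_eq_zero.1 k1).resolve_right hne]
    ring
  rw [hc0, mul_zero] at s2 s3
  rw [neg_zero] at s3
  rw [hc] at hc0
  obtain ⟨H, hH, hω⟩ := hPO F {0, 2, 3} ![S, 0, -m 0, -m 1, 0]
    (by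
      intro i
      fin_cases i
      · exact mem_supp s1 s4
      · exact Subalgebra.zero_mem _
      · exact mem_supp (by show pderiv 1 (-m 0) = 0; rw [map_neg, mW, neg_zero])
          (by show pderiv 4 (-m 0) = 0; rw [map_neg, m4, neg_zero])
      · exact mem_supp (by show pderiv 1 (-m 1) = 0; rw [map_neg, mW, neg_zero])
          (by show pderiv 4 (-m 1) = 0; rw [map_neg, m4, neg_zero])
      · exact Subalgebra.zero_mem _)
    (by
      intro i hi
      fin_cases i
      · exact absurd (by simp) hi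
      · rfl
      · exact absurd (by simp) hi
      · exact absurd (by simp) hi
      · rfl)
    (by
      have e01 : pderiv 0 (0 : R F) = pderiv 1 S := by rw [s1, map_zero]
      have e02 : pderiv 0 (-m 0) = pderiv 2 S := by rw [map_neg]; linear_combination -s2
      have e03 : pderiv 0 (-m 1) = pderiv 3 S := by rw [map_neg]; linear_combination -s3
      have e04 : pderiv 0 (0 : R F) = pderiv 4 S := by rw [s4, map_zero]
      have e12 : pderiv 1 (-m 0) = pderiv 2 (0 : R F) := by rw [map_neg, mW, neg_zero, map_zero]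
      have e13 : pderiv 1 (-m 1) = pderiv 3 (0 : R F) := by rw [map_neg, mW, neg_zero, map_zero]
      have e14 : pderiv 1 (0 : R F) = pderiv 4 (0 : R F) := by rw [map_zero, map_zero]
      have e23 : pderiv 2 (-m 1) = pderiv 3 (-m 0) := by
        rw [map_neg, map_neg]; linear_combination -hc0
      have e24 : pderiv 2 (0 : R F) = pderiv 4 (-m 0) := by rw [map_neg, m4, neg_zero, map_zero]
      have e34 : pderiv 3 (0 : R F) = pderiv 4 (-m 1) := by rw [map_neg, m4, neg_zero, map_zero]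
      intro i j
      fin_cases i <;> fin_cases j
      · rfl
      · exact e01
      · exact e02
      · exact e03
      · exact e04
      · exact e01.symm
      · rfl
      · exact e12
      · exact e13
      · exact e14
      · exact e02.symm
      · exact e12.symm
      · rfl
      · exact e23
      · exact e24
      · exact e03.symm
      · exact e13.symm
      · exact e23.symm
      · rfl
      · exact e34
      · exact e04.symm
      · exact e14.symm
      · exact e24.symm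
      · exact e34.symm
      · rfl)
  refine ⟨H, hH, ?_⟩
  have w0 : pderiv 0 H = S := hω 0
  have w2 : pderiv 2 H = -m 0 := hω 2
  have w3 : pderiv 3 H = -m 1 := hω 3
  rw [w0, w2, w3, hS]
  ring

end T_L3

open T_L3 in
theorem t_L3 (hPO : S_PO) : S_L3 := by
  intro F _ _ A hA hne h3 hY
  have nv : ∀ (s : Set (Fin 5)) (g : R F), g ∈ supported F s → ∀ i, i ∉ s → pderiv i g = 0 :=
    fun s g hg i hi => pderiv_eq_zero_of_notMem_vars fun hv => hi ((mem_supported.1 hg)
      (Finset.mem_coe.2 hv))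
  have h4 : ∀ i, pderiv 4 (A i) = 0 := by
    intro i
    fin_cases i
    · exact nv _ _ hA.1 4 (by decide)
    · exact nv _ _ hA.2.1 4 (by decide)
    · exact nv _ _ hA.2.2 4 (by decide)
  rcases hne with hne | hne
  · refine main (T := cmp (bX10 A)) hPO ⟨h4, hne, Or.inl rfl, ?_⟩ hA
    rintro Y (h | h | h | h | h)
    · rw [h]; exact d3_self_right _ _
    · rw [h]; exact h3
    · exact (hY Y (Or.inl h)).1
    · exact (hY Y (Or.inr (Or.inl h))).1
    · exact (hY Y (Or.inr (Or.inr h))).1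
  · refine main (T := cmp (bX01 A)) hPO ⟨h4, hne, Or.inr rfl, ?_⟩ hA
    rintro Y (h | h | h | h | h)
    · rw [h, d3_swap, h3, neg_zero]
    · rw [h]; exact d3_self_right _ _
    · exact (hY Y (Or.inl h)).2
    · exact (hY Y (Or.inr (Or.inl h))).2
    · exact (hY Y (Or.inr (Or.inr h))).2

end Pool.Agent.N446.E8
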