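import Pool.Agent.N446.E8.Stm

/-!
# The vertices of a loop are distinct (helper99, task E8/ND)
-/

set_option autoImplicit false

namespace Pool.Agent.N446.E8

open MvPolynomial

namespace ND

section
variable {K : Type} [CommRing K] (S : Sys K) {B : Type} [CommRing B] [Algebra K B]

theorem point_line (p : Fin 4 → B) (y : B) : S.pointOf (S.lineOf p y) (p 0) = p := by
  have e1 : aeval ![p 0, y] S.f₂ - (aeval ![p 0, y] S.f₂ - p 1) = p 1 := by ring
  ext i
  fin_cases i <;> simp [Sys.pointOf, Sys.lineOf]

theorem line_zero (p : Fin 4 → B) (y : B) : S.lineOf p y 0 = y := rfl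

theorem point_zero (l : Fin 4 → B) (x : B) : S.pointOf l x 0 = x := rfl

theorem walk_succ (p : Fin 4 → B) (x y : ℕ → B) (n : ℕ) :
    S.walkP p x y (n + 1) = S.pointOf (S.lineOf (S.walkP p x y n) (y n)) (x (n + 1)) := rfl

end

variable {F : Type} [Field F] [CharZero F]

theorem key (hEX : S_EX) (hFS : S_FS) (hFW : S_FW) (S : Sys F) (z : R F →ₐ[F] F)
    (hz : vec (bZ S.A) z ≠ 0) (z' : R F →ₐ[F] PowerSeries F)
    (hz' : ∀ g, PowerSeries.constantCoeff (z' g) = z g) (α β : ℕ → PowerSeries F)
    (h0 : α 0 = 0) (h4 : α 4 = 0) (k0 : β 0 = 0) (k4 : β 4 = 0)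
    (hw : S.walkP ![z' (X 0), z' (X 2), z' (X 3), z' (X 4)]
      (fun n => z' (X 0) + PowerSeries.X * α n) (fun n => z' (X 1) + PowerSeries.X * β n) 4 =
        ![z' (X 0), z' (X 2), z' (X 3), z' (X 4)]) :
    PowerSeries.constantCoeff (SS α β 1 1) = 0 := by
  have hst : st S.phi z' (fun n => z' (X 0) + PowerSeries.X * α n)
      (fun n => z' (X 1) + PowerSeries.X * β n) 4 = z' := by
    obtain ⟨h1, h2, h3⟩ := hFW F S (PowerSeries F) z' (fun n => z' (X 0) + PowerSeries.X * α n)
      (fun n => z' (X 1) + PowerSeries.X * β n) (by simp [h0]) (by simp [k0]) 4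
    rw [hw] at h1
    apply MvPolynomial.algHom_ext
    intro i
    fin_cases i
    · exact (congrFun h1 0).symm
    · simp only [k4, mul_zero, add_zero] at h3
      exact h3
    · exact (congrFun h1 1).symm
    · exact (congrFun h1 2).symm
    · exact (congrFun h1 3).symm
  obtain ⟨g, hg⟩ : ∃ g, z (bZ S.A g) ≠ 0 := by
    by_contra hcon
    push Not at hcon
    apply hz
    ext i
    fin_cases i
    · exact hcon (X 2)
    · exact hcon (X 3)
    · exact hcon (X 4)
  obtain ⟨r, hr⟩ := hEX F S.A S.phi (hFS F S).2 (PowerSeries F) z' PowerSeries.X α β h0 h4 k0 k4 g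
  rw [hst] at hr
  set u := SS α β 1 1 * z' (bZ S.A g) with hu
  set v := algebraMap F (PowerSeries F) (1 / 2) * (SS α β 2 1 * z' (bX10 S.A g) +
    SS α β 1 2 * z' (bX01 S.A g)) with hv
  set w := algebraMap F (PowerSeries F) (1 / 6) * (SS α β 3 1 * z' (bX20 S.A g)) +
      algebraMap F (PowerSeries F) (1 / 4) * (SS α β 2 2 * z' (bX11 S.A g)) +
      algebraMap F (PowerSeries F) (1 / 6) * (SS α β 1 3 * z' (bX02 S.A g)) -
      algebraMap F (PowerSeries F) (1 / 2) * (SS α β 1 1 ^ 2 * z' (bZ S.A (bZ S.A g))) with hw'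
  have e1 : (PowerSeries.X : PowerSeries F) ^ 2 * (u + PowerSeries.X *
      (v + PowerSeries.X * w - PowerSeries.X ^ 2 * r)) = 0 := by
    linear_combination hr
  have e2 : u + PowerSeries.X * (v + PowerSeries.X * w - PowerSeries.X ^ 2 * r) = 0 := by
    rcases mul_eq_zero.1 e1 with h | h
    · exact absurd h (pow_ne_zero 2 PowerSeries.X_ne_zero)
    · exact h
  have e3 : PowerSeries.constantCoeff u = 0 := by
    have h := congrArg PowerSeries.constantCoeff e2
    have h5 : PowerSeries.constantCoeff (PowerSeries.X * (v + PowerSeries.X * w -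
        PowerSeries.X ^ 2 * r)) = 0 := by
      rw [map_mul, PowerSeries.constantCoeff_X, zero_mul]
    rw [map_add, h5, add_zero, map_zero] at h
    exact h
  rw [hu, map_mul, hz'] at e3
  rcases mul_eq_zero.1 e3 with h | h
  · exact h
  · exact absurd h hg

omit [CharZero F] in
theorem cc_mv {Φ : R F →ₐ[F] Polynomial (R F)} (hΦ : ∀ g, (Φ g).coeff 0 = g) (z : R F →ₐ[F] F)
    (z' : R F →ₐ[F] PowerSeries F) (hz' : ∀ g, PowerSeries.constantCoeff (z' g) = z g)
    (s : PowerSeries F) (hs : PowerSeries.constantCoeff s = 0) (g : R F) :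
    PowerSeries.constantCoeff (mv Φ z' s g) = z g := by
  have h1 : mv Φ z' s g = Polynomial.eval₂ (z' : R F →+* PowerSeries F) s (Φ g) := rfl
  rw [h1, Polynomial.hom_eval₂, hs, Polynomial.eval₂_at_zero, hΦ]
  exact hz' g

end ND

open ND in
/-- the vertices of a loop are distinct -/
theorem t_ND (hEX : S_EX) (hFS : S_FS) (hFW : S_FW) (hPS : S_PS) : S_ND := by
  intro F _ _ S z hz α β hL hne
  obtain ⟨a0, a4, b0, b4, -, -, -⟩ := hL
  set p : Fin 4 → PowerSeries F :=
    fun i => PowerSeries.C (![z (X 0), z (X 2), z (X 3), z (X 4)] i) with hp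
  set x : ℕ → PowerSeries F := fun n => PowerSeries.C (z (X 0)) + PowerSeries.X * α n with hx
  set y : ℕ → PowerSeries F := fun n => PowerSeries.C (z (X 1)) + PowerSeries.X * β n with hy
  have hcst : ∀ g, cst z g = PowerSeries.C (z g) := fun g => rfl
  have hpc : p = ![cst z (X 0), cst z (X 2), cst z (X 3), cst z (X 4)] := by
    ext1 i
    fin_cases i <;> rfl
  have hFWn := hFW F S (PowerSeries F) (cst z) x y (by simp [hx, hcst, a0]) (by simp [hy, hcst, b0])
  rw [← hpc] at hFWn
  have hPx : ∀ n, S.walkP p x y n 0 = x n := by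
    intro n
    obtain ⟨h1, h2, h3⟩ := hFWn n
    rw [h1, ← h2]
    rfl
  have hLy : ∀ n, S.walkL p x y n 0 = y n := fun n => rfl
  have hcc' : ∀ i < 2, ∀ g, PowerSeries.constantCoeff (st S.phi (cst z) x y i g) = z g := by
    have hc0 : ∀ g, PowerSeries.constantCoeff (cst z g) = z g := fun g => by
      rw [hcst, PowerSeries.constantCoeff_C]
    intro i hi
    interval_cases i
    · exact hc0
    · refine cc_mv (hPS F).1 z _ (cc_mv (hFS F S).2.1 z _ hc0 _ ?_) _ ?_
      · simp [hx]
      · simp [hy]
  -- the main argument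
  have main : ∀ i : ℕ, i < 2 → (S.walkP p x y i = S.walkP p x y (i + 2) ∨
      S.walkL p x y i = S.walkL p x y (i + 2)) → False := by
    intro i hi hcase
    set z' := st S.phi (cst z) x y i with hz'def
    obtain ⟨h1, h2, h3⟩ := hFWn i
    have hcc : ∀ g, PowerSeries.constantCoeff (z' g) = z g := hcc' i hi
    have hxi : z' (X 0) = x i := h2
    have hyi : z' (X 1) = y i := h3
    set α' : ℕ → PowerSeries F := fun n => match n with
      | 1 => α (i + 1) - α i
      | 2 => α (i + 2) - α i
      | _ => 0 with hα'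
    set β' : ℕ → PowerSeries F := fun n => match n with
      | 1 => β (i + 1) - β i
      | _ => 0 with hβ'
    have hK := key hEX hFS hFW S z hz z' hcc α' β' rfl rfl rfl rfl (by
      rw [← h1, hxi, hyi]
      set x' : ℕ → PowerSeries F := fun n => x i + PowerSeries.X * α' n with hx'
      set y' : ℕ → PowerSeries F := fun n => y i + PowerSeries.X * β' n with hy'
      have x1 : x' 1 = x (i + 1) := by simp only [hx', hα', hx]; ring
      have x2 : x' 2 = x (i + 2) := by simp only [hx', hα', hx]; ring
      have x3 : x' 3 = x i := by simp only [hx', hα', hx]; ring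
      have x4 : x' 4 = x i := by simp only [hx', hα', hx]; ring
      have y0 : y' 0 = y i := by simp only [hy', hβ', hy]; ring
      have y1 : y' 1 = y (i + 1) := by simp only [hy', hβ', hy]; ring
      have y2 : y' 2 = y i := by simp only [hy', hβ', hy]; ring
      have y3 : y' 3 = y i := by simp only [hy', hβ', hy]; ring
      have w0 : S.walkP (S.walkP p x y i) x' y' 0 = S.walkP p x y i := rfl
      have w1 : S.walkP (S.walkP p x y i) x' y' 1 = S.walkP p x y (i + 1) := by
        rw [walk_succ, w0, y0, x1, walk_succ]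
      have w2 : S.walkP (S.walkP p x y i) x' y' 2 = S.walkP p x y (i + 2) := by
        rw [walk_succ, w1, y1, x2]
        rfl
      have w3 : S.walkP (S.walkP p x y i) x' y' 3 = S.walkP p x y i := by
        rw [walk_succ, w2, y2, x3]
        rcases hcase with hc | hc
        · rw [← hc]
          have := point_line S (S.walkP p x y i) (y i)
          rwa [hPx] at this
        · have hyy : y i = y (i + 2) := by
            rw [← hLy, ← hLy, hc]
          have e1 : S.lineOf (S.walkP p x y (i + 2)) (y i) = S.lineOf (S.walkP p x y i) (y i) := by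
            have : S.walkL p x y (i + 2) = S.lineOf (S.walkP p x y (i + 2)) (y i) := by
              rw [hyy]; rfl
            rw [← this, ← hc]
            rfl
          rw [e1]
          have := point_line S (S.walkP p x y i) (y i)
          rwa [hPx] at this
      rw [walk_succ, w3, y3, x4]
      have := point_line S (S.walkP p x y i) (y i)
      rwa [hPx] at this)
    have hSS : SS α' β' 1 1 = (α (i + 1) - α (i + 2)) * (β (i + 1) - β i) := by
      simp only [SS, Finset.sum_range_succ, Finset.sum_range_zero, hα', hβ', pow_one]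
      ring
    rw [hSS, map_mul, map_sub, map_sub] at hK
    rcases mul_eq_zero.1 hK with h | h
    · exact (hne (i + 1) (by omega)).1 (sub_eq_zero.1 h)
    · exact (hne i (by omega)).2 (sub_eq_zero.1 h).symm
  -- different first coordinates
  have hxne : ∀ i j, PowerSeries.constantCoeff (α i) ≠ PowerSeries.constantCoeff (α j) →
      S.walkP p x y i ≠ S.walkP p x y j := by
    intro i j h h1
    apply h
    have h2 : x i = x j := by rw [← hPx, ← hPx, h1]
    have h3 : PowerSeries.X * α i = PowerSeries.X * α j := add_left_cancel h2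
    rw [mul_left_cancel₀ PowerSeries.X_ne_zero h3]
  have hyne : ∀ i j, PowerSeries.constantCoeff (β i) ≠ PowerSeries.constantCoeff (β j) →
      S.walkL p x y i ≠ S.walkL p x y j := by
    intro i j h h1
    apply h
    have h2 : y i = y j := by rw [← hLy, ← hLy, h1]
    have h3 : PowerSeries.X * β i = PowerSeries.X * β j := add_left_cancel h2
    rw [mul_left_cancel₀ PowerSeries.X_ne_zero h3]
  intro i j hij hj
  have hcases : j = i + 1 ∨ (i = 0 ∧ j = 3) ∨ (i < 2 ∧ j = i + 2) := by omega
  rcases hcases with rfl | ⟨rfl, rfl⟩ | ⟨hi, rfl⟩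
  · exact ⟨hxne _ _ (hne i (by omega)).1, hyne _ _ (hne i (by omega)).2⟩
  · have h := hne 3 (by omega)
    refine ⟨hxne _ _ ?_, hyne _ _ ?_⟩
    · rw [a0, ← a4]; exact h.1.symm
    · rw [b0, ← b4]; exact h.2.symm
  · exact ⟨fun h => main i hi (Or.inl h), fun h => main i hi (Or.inr h)⟩

end Pool.Agent.N446.E8
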