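import Pool.Agent.N446.E8.Stm

/-!
# E8/PO: the lemma of Poincaré for polynomials
-/

set_option autoImplicit false

namespace Pool.Agent.N446.E8

open MvPolynomial

section
variable {F : Type} [Field F]

lemma coeff_X_mul_pderiv (i : Fin 5) (f : R F) (m : Fin 5 →₀ ℕ) :
    coeff m (X i * pderiv i f) = (m i : F) * coeff m f := by
  induction f using MvPolynomial.induction_on' with
  | monomial u a =>
    rw [pderiv_monomial, X, monomial_mul, one_mul]
    by_cases hu : u i = 0
    · rw [hu]
      simp only [Nat.cast_zero, mul_zero, coeff_monomial]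
      by_cases h : u = m
      · subst h
        rw [hu]
        simp
      · rw [if_neg h]
        simp
    · have e : Finsupp.single i 1 + (u - Finsupp.single i 1) = u := by
        ext j
        by_cases hj : j = i
        · subst hj
          simp
          omega
        · simp [Finsupp.single_apply, Ne.symm hj]
      rw [e, coeff_monomial, coeff_monomial]
      by_cases h : u = m
      · subst h
        simp [mul_comm]
      · rw [if_neg h, if_neg h, mul_zero]
  | add p q hp hq => rw [map_add, mul_add, coeff_add, hp, hq, coeff_add, mul_add]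

/-- the Euler operator -/
noncomputable def Eul (f : R F) : R F := ∑ i, X i * pderiv i f

lemma coeff_Eul (f : R F) (m : Fin 5 →₀ ℕ) : coeff m (Eul f) = ((∑ i, m i : ℕ) : F) * coeff m f := by
  rw [Eul, coeff_sum]
  simp only [coeff_X_mul_pderiv]
  rw [← Finset.sum_mul]
  push_cast
  rfl

lemma pderiv_swap (i j : Fin 5) (f : R F) : pderiv i (pderiv j f) = pderiv j (pderiv i f) := by
  have h : ⁅(pderiv i : Derivation F (R F) (R F)), (pderiv j : Derivation F (R F) (R F))⁆ = 0 := by
    apply MvPolynomial.derivation_ext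
    intro k
    rw [Derivation.commutator_apply, Derivation.zero_apply]
    have h1 : ∀ a b : Fin 5, (pderiv a : Derivation F (R F) (R F)) (pderiv b (X k : R F)) = 0 := by
      intro a b
      by_cases h : k = b
      · rw [h, pderiv_X_self]
        simp
      · rw [pderiv_X_of_ne h, map_zero]
    rw [h1, h1, sub_zero]
  have h2 : ⁅(pderiv i : Derivation F (R F) (R F)), (pderiv j : Derivation F (R F) (R F))⁆ f = 0 := by
    rw [h, Derivation.zero_apply]
  rw [Derivation.commutator_apply] at h2
  exact sub_eq_zero.1 h2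

lemma pderiv_Eul (j : Fin 5) (f : R F) : pderiv j (Eul f) = pderiv j f + Eul (pderiv j f) := by
  rw [Eul, map_sum]
  have h1 : ∀ i, pderiv j (X i * pderiv i f) =
      (if i = j then pderiv i f else 0) + X i * pderiv i (pderiv j f) := by
    intro i
    rw [pderiv_mul, pderiv_X, pderiv_swap j i]
    by_cases h : i = j
    · subst h; simp
    · simp [Pi.single_apply, h]
  rw [Finset.sum_congr rfl fun i _ => h1 i, Finset.sum_add_distrib, Finset.sum_ite_eq']
  simp [Eul]

end

theorem t_PO : S_PO := by
  intro F _ _ s ω hω h0 hcl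
  classical
  obtain ⟨h, hh⟩ : ∃ h : R F, h = ∑ i, X i * ω i := ⟨_, rfl⟩
  have hc0 : coeff 0 h = 0 := by
    rw [hh, coeff_sum]
    refine Finset.sum_eq_zero fun i _ => ?_
    rw [← constantCoeff_eq, map_mul, constantCoeff_X, zero_mul]
  let H : R F := ∑ m ∈ h.support, monomial m ((((∑ i, m i : ℕ) : F))⁻¹ * coeff m h)
  have hcH : ∀ m, coeff m H = (((∑ i, m i : ℕ) : F))⁻¹ * coeff m h := by
    intro m
    show coeff m (∑ m ∈ h.support, monomial m ((((∑ i, m i : ℕ) : F))⁻¹ * coeff m h)) = _
    rw [coeff_sum]
    simp only [coeff_monomial]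
    rw [Finset.sum_ite_eq']
    split_ifs with h1
    · rfl
    · rw [notMem_support_iff.1 h1, mul_zero]
  have hEH : Eul H = h := by
    ext m
    rw [coeff_Eul, hcH]
    by_cases hm : (∑ i, m i) = 0
    · have : m = 0 := by
        ext i
        exact (Finset.sum_eq_zero_iff.1 hm) i (Finset.mem_univ i)
      rw [this, hc0]
      simp
    · have hm' : (((∑ i, m i : ℕ)) : F) ≠ 0 := by exact_mod_cast hm
      rw [← mul_assoc, mul_inv_cancel₀ hm', one_mul]
  refine ⟨H, ?_, ?_⟩
  · rw [mem_supported]
    have hhs : h ∈ supported F s := by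
      rw [hh]
      refine Subalgebra.sum_mem _ fun i _ => ?_
      by_cases hi : i ∈ s
      · exact Subalgebra.mul_mem _ (X_mem_supported.2 hi) (hω i)
      · rw [h0 i hi, mul_zero]
        exact Subalgebra.zero_mem _
    rw [mem_supported] at hhs
    intro i hi
    apply hhs
    rw [Finset.mem_coe, mem_vars] at hi ⊢
    obtain ⟨d, hd, hid⟩ := hi
    refine ⟨d, ?_, hid⟩
    rw [mem_support_iff] at hd ⊢
    intro h1
    apply hd
    rw [hcH, h1, mul_zero]
  · intro j
    have h1 : pderiv j H + Eul (pderiv j H) = ω j + Eul (ω j) := by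
      rw [← pderiv_Eul, hEH, hh, map_sum]
      have h2 : ∀ i, pderiv j (X i * ω i) = (if i = j then ω i else 0) + X i * pderiv i (ω j) := by
        intro i
        rw [pderiv_mul, pderiv_X, hcl j i]
        by_cases h : i = j
        · subst h; simp
        · simp [Pi.single_apply, h]
      rw [Finset.sum_congr rfl fun i _ => h2 i, Finset.sum_add_distrib, Finset.sum_ite_eq']
      simp [Eul]
    ext m
    have h2 := congrArg (coeff m) h1
    rw [coeff_add, coeff_add, coeff_Eul, coeff_Eul] at h2
    have h3 : (1 + ((∑ i, m i : ℕ) : F)) * coeff m (pderiv j H) =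
        (1 + ((∑ i, m i : ℕ) : F)) * coeff m (ω j) := by
      rw [add_mul, add_mul, one_mul, one_mul]
      exact h2
    have h4 : (1 + ((∑ i, m i : ℕ) : F)) ≠ 0 := by
      have : ((1 + ∑ i, m i : ℕ) : F) ≠ 0 := by
        exact_mod_cast (by omega : 1 + ∑ i, m i ≠ 0)
      rw [Nat.cast_add, Nat.cast_one] at this
      exact this
    exact mul_left_cancel₀ h4 h3

end Pool.Agent.N446.E8
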