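import Pool.Agent.N446.E8.Stm
import Pool.Agent.R410.LW.Fg
import Pool.Agent.R410.LW.Str
import Pool.Agent.R410.LW.Step

/-!
# Specialization of algebraic power series over large finite fields
-/

set_option autoImplicit false
set_option linter.all false

open Polynomial

namespace Pool.Agent.N446.E8.TT1

open Pool.Agent.R410 Pool.Agent.R410.LW

/-- extension of a homomorphism to the subrings of a localization -/
theorem extend {B M R k : Type} [CommRing B] [Field M] [CommRing R] [Field k] (J : B →+* M)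
    (hJ : Function.Injective J) (t : B) (ι : R →+* M)
    (h : ∀ r : R, ∃ (n : ℕ) (c : B), ι r * J t ^ n = J c) (θ : B →+* k) (hθ : θ t ≠ 0) :
    ∃ g : R →+* k, ∀ (r : R) (n : ℕ) (c : B), ι r * J t ^ n = J c → g r * θ t ^ n = θ c := by
  classical
  have uniq : ∀ (r : R) (n m : ℕ) (c d : B), ι r * J t ^ n = J c → ι r * J t ^ m = J d →
      θ c * θ t ^ m = θ d * θ t ^ n := by
    intro r n m c d h1 h2
    have h3 : J (c * t ^ m) = J (d * t ^ n) := by
      rw [map_mul, map_mul, map_pow, map_pow, ← h1, ← h2]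
      ring
    have h4 := congrArg θ (hJ h3)
    rwa [map_mul, map_mul, map_pow, map_pow] at h4
  choose n c hc using h
  set g : R → k := fun r => θ (c r) / θ t ^ n r with hg
  have key : ∀ (r : R) (m : ℕ) (d : B), ι r * J t ^ m = J d → g r = θ d / θ t ^ m := by
    intro r m d h1
    have h2 := uniq r (n r) m (c r) d (hc r) h1
    rw [hg]
    field_simp
    linear_combination h2
  refine ⟨{ toFun := g, map_one' := ?_, map_mul' := ?_, map_zero' := ?_, map_add' := ?_ }, ?_⟩
  · rw [key 1 0 1 (by rw [map_one, map_one, pow_zero, one_mul])]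
    simp
  · intro x y
    rw [key (x * y) (n x + n y) (c x * c y) (by
      rw [map_mul, map_mul, ← hc, ← hc, pow_add]
      ring)]
    rw [hg]
    simp only
    rw [map_mul]
    field_simp
    ring
  · rw [key 0 0 0 (by rw [map_zero, map_zero, zero_mul])]
    simp
  · intro x y
    rw [key (x + y) (n x + n y) (c x * t ^ n y + c y * t ^ n x) (by
      rw [map_add, map_add, map_mul, map_mul, map_pow, map_pow, ← hc, ← hc, pow_add]
      ring)]
    rw [hg]
    simp only
    rw [map_add, map_mul, map_mul, map_pow, map_pow]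
    field_simp
    ring
  · intro r m d h1
    show g r * θ t ^ m = θ d
    rw [key r m d h1]
    field_simp

/-- the points of a curve with values in a large finite field -/
theorem exists_point {A : Type} [CommRing A] [IsDomain A] [CharZero A] {k₀ kb : Type} [Field k₀]
    [Algebra A k₀] [IsFractionRing A k₀] [Field kb] [Algebra k₀ kb] [IsAlgClosed kb] {f : A[X][X]}
    (hf : f.Monic) (hf0 : 0 < f.natDegree)
    (hirr : Irreducible (f.map (mapRingHom ((algebraMap k₀ kb).comp (algebraMap A k₀)))))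
    (T : A[X][X]) (hT : AdjoinRoot.mk f T ≠ 0) :
    ∃ (a : A) (N : ℕ), a ≠ 0 ∧ ∀ (k : Type) [Field k] [Finite k], N ≤ Nat.card k →
      ∀ ψ : A →+* k, ψ a ≠ 0 → ∃ θ : AdjoinRoot f →+* k,
        θ (AdjoinRoot.mk f T) ≠ 0 ∧ ∀ c : A, θ (AdjoinRoot.of f (C c)) = ψ c := by
  classical
  set ι : A →+* kb := (algebraMap k₀ kb).comp (algebraMap A k₀) with hι
  have hιi : Function.Injective ι := (algebraMap k₀ kb).injective.comp (IsFractionRing.injective A k₀)
  have hdom : IsDomain (AdjoinRoot f) := adj_domain hιi hf hirr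
  obtain ⟨D, hD, hDirr⟩ := bn_poly (k := k₀) (kb := kb) f hf hf0 hirr
  obtain ⟨a₁, b₁, D₁, hD₁, hab⟩ := bezout hιi hf hirr
  set l := D₁.leadingCoeff with hl
  have hl0 : l ≠ 0 := leadingCoeff_ne_zero.2 hD₁
  have hint : Algebra.IsIntegral A[X] (AdjoinRoot f) := by
    have := hf.finite_adjoinRoot
    infer_instance
  obtain ⟨a, ha0, c, hac⟩ : ∃ a : A[X], a ≠ 0 ∧ ∃ c : AdjoinRoot f,
      AdjoinRoot.of f a = AdjoinRoot.mk f T * c := by
    have h1 := Ideal.comap_ne_bot_of_integral_mem (I := Ideal.span {AdjoinRoot.mk f T}) hT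
      (Ideal.mem_span_singleton_self _) (Algebra.IsIntegral.isIntegral (R := A[X]) (AdjoinRoot.mk f T))
    obtain ⟨a, ha, ha0⟩ := Submodule.exists_mem_ne_zero_of_ne_bot h1
    rw [Ideal.mem_comap, Ideal.mem_span_singleton] at ha
    obtain ⟨c, hc⟩ := ha
    exact ⟨a, ha0, c, hc⟩
  obtain ⟨dd, hdd⟩ : ∃ dd : ℕ, ∀ i, (f.coeff i).natDegree ≤ dd := by
    refine ⟨f.support.sup fun i => (f.coeff i).natDegree, fun i => ?_⟩
    by_cases hi : i ∈ f.support
    · exact Finset.le_sup (f := fun i => (f.coeff i).natDegree) hi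
    · rw [notMem_support_iff.1 hi, natDegree_zero]
      exact Nat.zero_le _
  set W : ℕ := PW.WC f.natDegree dd D₁.natDegree with hW
  set e : ℕ := a.natDegree * f.natDegree with he
  refine ⟨D * l * a.leadingCoeff, (W + e + 1) ^ 2,
    mul_ne_zero (mul_ne_zero hD hl0) (leadingCoeff_ne_zero.2 ha0), ?_⟩
  intro k _ _ hN ψ hψ
  rw [map_mul, map_mul] at hψ
  have k1 := right_ne_zero_of_mul hψ
  have k3 := right_ne_zero_of_mul (left_ne_zero_of_mul hψ)
  have k4 := left_ne_zero_of_mul (left_ne_zero_of_mul hψ)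
  have hfm : (f.map (mapRingHom ψ)).Monic := hf.map _
  have hfd : (f.map (mapRingHom ψ)).natDegree = f.natDegree := hf.natDegree_map _
  have hirr' : Irreducible ((f.map (mapRingHom ψ)).map
      (mapRingHom (algebraMap k (AlgebraicClosure k)))) := by
    have h := hDirr (AlgebraicClosure k) ((algebraMap k (AlgebraicClosure k)).comp ψ) (by
      rw [RingHom.comp_apply]
      exact (_root_.map_ne_zero _).2 k4)
    rw [Polynomial.map_map]
    have h5 : (mapRingHom (algebraMap k (AlgebraicClosure k))).comp (mapRingHom ψ) =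
        mapRingHom ((algebraMap k (AlgebraicClosure k)).comp ψ) := by
      rw [mapRingHom_comp]
    rw [h5]
    exact h
  have hab' : a₁.map (mapRingHom ψ) * f.map (mapRingHom ψ) +
      b₁.map (mapRingHom ψ) * derivative (f.map (mapRingHom ψ)) = C (D₁.map ψ) := by
    have h := congrArg (Polynomial.map (mapRingHom ψ)) hab
    rw [Polynomial.map_add, Polynomial.map_mul, Polynomial.map_mul, Polynomial.map_C] at h
    rw [derivative_map]
    exact h
  have hD' : D₁.map ψ ≠ 0 := by
    intro h
    apply k3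
    have := congrArg (fun p => p.coeff D₁.natDegree) h
    simp only [coeff_map, coeff_zero] at this
    rw [hl, leadingCoeff]
    exact this
  have hw := PW.weil (F := k) (AlgebraicClosure k) (f := f.map (mapRingHom ψ)) hfm
    (by rw [hfd]; exact hf0) hab' hD' (δ := D₁.natDegree) natDegree_map_le (d := dd)
    (fun i => by
      rw [coeff_map]
      exact natDegree_map_le.trans (hdd i)) hirr'
  rw [hfd] at hw
  have hnc : ({z : k × k | evalEval z.1 z.2 (f.map (mapRingHom ψ)) = 0}.ncard : ℝ) =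
      Nat.card {z : k × k // ev ψ z f = 0} := by
    rw [← Nat.card_coe_set_eq]
    congr 1
    exact Nat.card_congr (Equiv.subtypeEquivRight fun z => by
      rw [Set.mem_ofPred_eq, ev_eq])
  rw [hnc] at hw
  have hb := bad_le hf hac ψ k1
  set q : ℝ := (Nat.card k : ℝ) with hq
  have hN' : ((W : ℝ) + e + 1) ^ 2 ≤ q := by
    rw [hq]
    exact_mod_cast hN
  have hq0 : 0 ≤ q := by rw [hq]; positivity
  have hs1 : (W : ℝ) + e + 1 ≤ √q := Real.le_sqrt_of_sq_le hN'
  have hs2 : √q * √q = q := Real.mul_self_sqrt hq0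
  have hW0 : (0 : ℝ) ≤ W := Nat.cast_nonneg _
  have he0 : (0 : ℝ) ≤ e := Nat.cast_nonneg _
  have hb2 : (Nat.card {z : k × k // ev ψ z f = 0} : ℝ) ≤
      Nat.card {z : k × k // ev ψ z f = 0 ∧ ev ψ z T ≠ 0} + e := by
    rw [he]
    exact_mod_cast hb
  have hpos : 0 < Nat.card {z : k × k // ev ψ z f = 0 ∧ ev ψ z T ≠ 0} := by
    have h1 := (abs_le.1 hw).1
    have h2 : (0 : ℝ) < Nat.card {z : k × k // ev ψ z f = 0 ∧ ev ψ z T ≠ 0} := by
      nlinarith
    exact_mod_cast h2
  obtain ⟨⟨z, hz1, hz2⟩⟩ := (Nat.card_pos_iff.1 hpos).1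
  have hz1' : eval₂ (eval₂RingHom ψ z.1) z.2 f = 0 := hz1
  refine ⟨AdjoinRoot.lift (eval₂RingHom ψ z.1) z.2 hz1', ?_, ?_⟩
  · rw [AdjoinRoot.lift_mk hz1']
    exact hz2
  · intro c
    rw [AdjoinRoot.lift_of hz1', coe_eval₂RingHom, eval₂_C]

/-- the constants of a polynomial -/
noncomputable def cf {F K : Type} [Field F] [Field K] (s : K → F) (p : K[X][X]) : Finset F := by
  classical
  exact (Finset.range (p.natDegree + 1)).biUnion fun i =>
    (Finset.range ((p.coeff i).natDegree + 1)).image fun l => s ((p.coeff i).coeff l)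

theorem lift_poly {F K : Type} [Field F] [Field K] [Algebra F K] (s : K → F)
    (hs : ∀ z, algebraMap F K (s z) = z) (A : Subring F) (p : K[X][X])
    (hp : ∀ c ∈ cf s p, c ∈ A) :
    p ∈ lifts (mapRingHom ((algebraMap F K).comp A.subtype)) := by
  classical
  rw [lifts_iff_coeff_lifts]
  intro i
  show p.coeff i ∈ Set.range (mapRingHom ((algebraMap F K).comp A.subtype))
  have h1 : p.coeff i ∈ lifts ((algebraMap F K).comp A.subtype) := by
    rw [lifts_iff_coeff_lifts]
    intro l
    by_cases hi : i ≤ p.natDegree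
    · by_cases hl : l ≤ (p.coeff i).natDegree
      · refine ⟨⟨s ((p.coeff i).coeff l), hp _ ?_⟩, hs _⟩
        unfold cf
        rw [Finset.mem_biUnion]
        exact ⟨i, Finset.mem_range.2 (by omega), Finset.mem_image.2
          ⟨l, Finset.mem_range.2 (by omega), rfl⟩⟩
      · refine ⟨0, ?_⟩
        rw [map_zero, coeff_eq_zero_of_natDegree_lt (by omega)]
    · refine ⟨0, ?_⟩
      rw [map_zero, coeff_eq_zero_of_natDegree_lt (p := p) (by omega), coeff_zero]
  obtain ⟨q, hq⟩ := (lifts_iff_set_range _).1 h1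
  exact ⟨q, hq⟩

/-- specialization for subrings of a function field -/
theorem core {F M : Type} [Field F] [CharZero F] [Field M] [Algebra F M] (x : M)
    (hx : Transcendental F x) [FiniteDimensional (IntermediateField.adjoin F {x}) M]
    (hcl : ∀ z : M, IsAlgebraic F z → ∃ c : F, algebraMap F M c = z)
    {R : Type} [CommRing R] (ι : R →+* M) (b : R) (hb : ι b ≠ 0) (C₀ : Finset F) (W : Finset M)
    (hW : ∀ r : R, ι r ∈ Subring.closure ((W : Set M) ∪ (algebraMap F M) '' (C₀ : Set F))) :
    ∃ (Sg : Finset F) (_ : C₀ ⊆ Sg) (a : Subring.closure (Sg : Set F)) (N : ℕ), a ≠ 0 ∧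
    ∀ (k : Type) [Field k] [Finite k], N ≤ Nat.card k →
    ∀ φ : Subring.closure (Sg : Set F) →+* k, φ a ≠ 0 →
    ∃ θ : R →+* k, θ b ≠ 0 ∧
      ∀ (r : R) (c : F) (hc : c ∈ Subring.closure (Sg : Set F)), ι r = algebraMap F M c →
        θ r = φ ⟨c, hc⟩ := by
  classical
  obtain ⟨F₁, hF₁, θ, f, Om, iOm, hOm, aOm, hfm, hf0, hfirr, hker, hgen⟩ := structure_one x hx
  have hs : ∀ z : F₁, ∃ c : F, algebraMap F F₁ c = z := by
    intro z
    have h1 : IsAlgebraic F z := Algebra.IsAlgebraic.isAlgebraic (R := F) z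
    obtain ⟨c, hc⟩ := hcl (algebraMap F₁ M z) h1.algebraMap
    exact ⟨c, Subtype.ext hc⟩
  choose s hs using hs
  -- the ring of functions
  have hroot : eval₂ (eval₂RingHom (algebraMap F₁ M) x) θ f = 0 := (hker f).2 dvd_rfl
  let JF : AdjoinRoot f →+* M := AdjoinRoot.lift (eval₂RingHom (algebraMap F₁ M) x) θ hroot
  have hJF : ∀ p, JF (AdjoinRoot.mk f p) = eval₂ (eval₂RingHom (algebraMap F₁ M) x) θ p :=
    fun p => AdjoinRoot.lift_mk hroot p
  have hJFi : Function.Injective JF := by
    rw [injective_iff_map_eq_zero]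
    intro b hb
    obtain ⟨p, rfl⟩ := AdjoinRoot.mk_surjective b
    rw [hJF, hker] at hb
    rwa [AdjoinRoot.mk_eq_zero]
  letI aJ : Algebra (AdjoinRoot f) M := JF.toAlgebra
  have hfrac : IsFractionRing (AdjoinRoot f) M := by
    refine frac_of_closure hJFi ?_
    set Cf := Subfield.closure (Set.range (algebraMap (AdjoinRoot f) M)) with hCf
    have hxC : x ∈ Cf := Subfield.subset_closure ⟨AdjoinRoot.mk f (C X), by
      show JF _ = _
      rw [hJF, eval₂_C, coe_eval₂RingHom, eval₂_X]⟩
    have hθC : θ ∈ Cf := Subfield.subset_closure ⟨AdjoinRoot.mk f X, by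
      show JF _ = _
      rw [hJF, eval₂_X]⟩
    have hF₁C : ∀ z : F₁, (algebraMap F₁ M z) ∈ Cf := fun z =>
      Subfield.subset_closure ⟨AdjoinRoot.mk f (C (C z)), by
        show JF _ = _
        rw [hJF, eval₂_C, coe_eval₂RingHom, eval₂_C]⟩
    rw [eq_top_iff]
    intro z _
    have hz : z ∈ IntermediateField.adjoin F {x, θ} := by
      rw [hgen]
      trivial
    induction hz using IntermediateField.adjoin_induction with
    | mem z hz =>
      rcases hz with rfl | hz
      · exact hxC
      · rw [Set.mem_singleton_iff] at hz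
        rw [hz]
        exact hθC
    | algebraMap q => exact hF₁C (algebraMap F F₁ q)
    | add x y _ _ h1 h2 => exact add_mem (h1 trivial) (h2 trivial)
    | inv x _ h1 => exact inv_mem (h1 trivial)
    | mul x y _ _ h1 h2 => exact mul_mem (h1 trivial) (h2 trivial)
  -- the denominator
  obtain ⟨Q, hQ⟩ := IsLocalization.exist_integer_multiples_of_finset
    (nonZeroDivisors (AdjoinRoot f)) (insert (ι b)⁻¹ W)
  obtain ⟨Qp, hQp⟩ := AdjoinRoot.mk_surjective (Q : AdjoinRoot f)
  have hQ' : ∀ z : M, ∃ p : F₁[X][X], z ∈ insert (ι b)⁻¹ W →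
      JF (AdjoinRoot.mk f p) = JF (AdjoinRoot.mk f Qp) * z := by
    intro z
    by_cases hz : z ∈ insert (ι b)⁻¹ W
    · obtain ⟨y, hy⟩ := hQ z hz
      obtain ⟨p, rfl⟩ := AdjoinRoot.mk_surjective y
      refine ⟨p, fun _ => ?_⟩
      rw [hQp]
      rw [Algebra.smul_def] at hy
      exact hy
    · exact ⟨0, fun h => absurd h hz⟩
  choose P hP using hQ'
  have hdomF : IsDomain (AdjoinRoot f) := hJFi.isDomain JF
  have hQ0 : JF (AdjoinRoot.mk f Qp) ≠ 0 := by
    rw [hQp]
    exact (map_ne_zero_iff _ hJFi).2 (nonZeroDivisors.ne_zero Q.2)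
  -- the ring of constants
  set Sg : Finset F := C₀ ∪ (cf s f ∪ (cf s Qp ∪ (insert (ι b)⁻¹ W).biUnion fun z => cf s (P z)))
    with hSg
  set A := Subring.closure (Sg : Set F) with hA
  have hC₀ : C₀ ⊆ Sg := Finset.subset_union_left
  have hmem : ∀ c ∈ Sg, c ∈ A := fun c hc => Subring.subset_closure hc
  set κ : A →+* F₁ := (algebraMap F F₁).comp A.subtype with hκ
  have hκi : Function.Injective κ := (algebraMap F F₁).injective.comp Subtype.val_injective
  have hfl := lift_poly s hs A f fun c hc => hmem c (by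
    rw [hSg]
    simp only [Finset.mem_union]
    tauto)
  have hQl := lift_poly s hs A Qp fun c hc => hmem c (by
    rw [hSg]
    simp only [Finset.mem_union]
    tauto)
  have hPl : ∀ z ∈ insert (ι b)⁻¹ W, P z ∈ lifts (mapRingHom κ) := fun z hz =>
    lift_poly s hs A (P z) fun c hc => hmem c (by
      rw [hSg]
      simp only [Finset.mem_union]
      right
      right
      right
      rw [Finset.mem_biUnion]
      exact ⟨z, hz, hc⟩)
  obtain ⟨fA, hfA, hfAd, hfAm⟩ := lifts_and_natDegree_eq_and_monic hfl hfm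
  obtain ⟨QA, hQA⟩ := hQl
  have hQA' : QA.map (mapRingHom κ) = Qp := hQA
  have hcA : CharZero A := ⟨fun m n h => by
    have h1 := congrArg (fun z : A => (z : F)) h
    simpa using h1⟩
  -- the field of fractions of the constants
  have hOi : Function.Injective ((algebraMap F₁ Om).comp κ) :=
    (algebraMap F₁ Om).injective.comp hκi
  letI aK : Algebra (FractionRing A) Om :=
    (IsFractionRing.lift (K := FractionRing A) (g := (algebraMap F₁ Om).comp κ) hOi).toAlgebra
  have hcomp : (algebraMap (FractionRing A) Om).comp (algebraMap A (FractionRing A)) =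
      (algebraMap F₁ Om).comp κ := RingHom.ext fun z => IsFractionRing.lift_algebraMap hOi z
  have hirrA : Irreducible (fA.map (mapRingHom
      ((algebraMap (FractionRing A) Om).comp (algebraMap A (FractionRing A))))) := by
    have h1 : fA.map (mapRingHom ((algebraMap F₁ Om).comp κ)) =
        f.map (mapRingHom (algebraMap F₁ Om)) := by
      rw [← hfA, Polynomial.map_map, mapRingHom_comp]
    rw [hcomp, h1]
    exact hfirr
  -- the embedding
  have hmap : ∀ p : A[X][X], eval₂ (eval₂RingHom ((algebraMap F₁ M).comp κ) x) θ p =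
      eval₂ (eval₂RingHom (algebraMap F₁ M) x) θ (p.map (mapRingHom κ)) := by
    intro p
    rw [eval₂_map]
    congr 1
    apply Polynomial.ringHom_ext
    · intro c
      rw [coe_eval₂RingHom, eval₂_C, RingHom.comp_apply, RingHom.comp_apply (eval₂RingHom _ _),
        coe_mapRingHom, Polynomial.map_C, coe_eval₂RingHom, eval₂_C]
    · rw [coe_eval₂RingHom, eval₂_X, RingHom.comp_apply, coe_mapRingHom, Polynomial.map_X,
        coe_eval₂RingHom, eval₂_X]
  have hrootA : eval₂ (eval₂RingHom ((algebraMap F₁ M).comp κ) x) θ fA = 0 := by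
    rw [hmap, hker, hfA]
  let J : AdjoinRoot fA →+* M :=
    AdjoinRoot.lift (eval₂RingHom ((algebraMap F₁ M).comp κ) x) θ hrootA
  have hJ : ∀ p, J (AdjoinRoot.mk fA p) = JF (AdjoinRoot.mk f (p.map (mapRingHom κ))) := by
    intro p
    rw [hJF, ← hmap]
    exact AdjoinRoot.lift_mk hrootA p
  have hJi : Function.Injective J := by
    rw [injective_iff_map_eq_zero]
    intro b hb
    obtain ⟨p, rfl⟩ := AdjoinRoot.mk_surjective b
    rw [hJ, hJF, hker, ← hfA] at hb
    rw [AdjoinRoot.mk_eq_zero]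
    exact (Polynomial.map_dvd_map _ (Polynomial.map_injective _ hκi) hfAm).1 hb
  have hJt : J (AdjoinRoot.mk fA QA) = JF (AdjoinRoot.mk f Qp) := by rw [hJ, hQA']
  have hJc : ∀ (c : F) (hc : c ∈ A), J (AdjoinRoot.of fA (C ⟨c, hc⟩)) = algebraMap F M c := by
    intro c hc
    show J (AdjoinRoot.mk fA (C (C ⟨c, hc⟩))) = _
    rw [hJ, hJF, Polynomial.map_C, eval₂_C, coe_mapRingHom, Polynomial.map_C, coe_eval₂RingHom,
      eval₂_C]
    rfl
  have ht0 : AdjoinRoot.mk fA QA ≠ 0 := by
    intro h
    apply hQ0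
    rw [← hJt, h, map_zero]
  have hgenW : ∀ z ∈ insert (ι b)⁻¹ W, ∃ c : AdjoinRoot fA, z * J (AdjoinRoot.mk fA QA) = J c := by
    intro z hz
    obtain ⟨p, hp⟩ := hPl z hz
    refine ⟨AdjoinRoot.mk fA p, ?_⟩
    have hp' : p.map (mapRingHom κ) = P z := hp
    rw [hJt, hJ p, hp', hP z hz, mul_comm]
  have hall : ∀ r : R, ∃ (n : ℕ) (c : AdjoinRoot fA), ι r * J (AdjoinRoot.mk fA QA) ^ n = J c := by
    intro r
    have h1 : ∀ z ∈ Subring.closure ((W : Set M) ∪ (algebraMap F M) '' (C₀ : Set F)),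
        ∃ (n : ℕ) (c : AdjoinRoot fA), z * J (AdjoinRoot.mk fA QA) ^ n = J c := by
      intro z hz
      induction hz using Subring.closure_induction with
      | mem z hz =>
        rcases hz with hz | ⟨c, hc, rfl⟩
        · obtain ⟨c, hc⟩ := hgenW z (Finset.mem_insert_of_mem hz)
          exact ⟨1, c, by rw [pow_one, hc]⟩
        · exact ⟨0, AdjoinRoot.of fA (C ⟨c, hmem c (hC₀ hc)⟩), by rw [hJc, pow_zero, mul_one]⟩
      | zero => exact ⟨0, 0, by rw [map_zero, zero_mul]⟩
      | one => exact ⟨0, 1, by rw [map_one, pow_zero, one_mul]⟩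
      | add x y _ _ hx hy =>
        obtain ⟨n, c, hc⟩ := hx
        obtain ⟨m, d, hd⟩ := hy
        refine ⟨n + m, c * AdjoinRoot.mk fA QA ^ m + d * AdjoinRoot.mk fA QA ^ n, ?_⟩
        rw [map_add, map_mul, map_mul, map_pow, map_pow, ← hc, ← hd, pow_add]
        ring
      | neg x _ hx =>
        obtain ⟨n, c, hc⟩ := hx
        exact ⟨n, -c, by rw [map_neg, ← hc, neg_mul]⟩
      | mul x y _ _ hx hy =>
        obtain ⟨n, c, hc⟩ := hx
        obtain ⟨m, d, hd⟩ := hy
        refine ⟨n + m, c * d, ?_⟩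
        rw [map_mul, ← hc, ← hd, pow_add]
        ring
    exact h1 _ (hW r)
  obtain ⟨a, N, ha0, hN⟩ := exists_point (k₀ := FractionRing A) (kb := Om) hfAm
    (by rw [hfAd]; exact hf0) hirrA QA ht0
  refine ⟨Sg, hC₀, a, N, ha0, ?_⟩
  intro k _ _ hk φ hφ
  obtain ⟨θ₀, hθ₀, hθc⟩ := hN k hk φ hφ
  obtain ⟨g, hg⟩ := extend J hJi (AdjoinRoot.mk fA QA) ι hall θ₀ hθ₀
  refine ⟨g, ?_, ?_⟩
  · intro h0
    obtain ⟨n, c, hc⟩ := hall b
    obtain ⟨d, hd⟩ := hgenW (ι b)⁻¹ (Finset.mem_insert_self _ _)
    have h1 : J (c * d) = J (AdjoinRoot.mk fA QA ^ (n + 1)) := by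
      rw [map_mul, ← hc, ← hd, map_pow, pow_succ]
      field_simp
    have h2 := congrArg θ₀ (hJi h1)
    rw [map_mul, ← hg b n c hc, h0, zero_mul, zero_mul, map_pow] at h2
    exact pow_ne_zero _ hθ₀ h2.symm
  · intro r c hc hr
    have h1 := hg r 0 (AdjoinRoot.of fA (C ⟨c, hc⟩)) (by rw [pow_zero, mul_one, hJc, hr])
    rwa [pow_zero, mul_one, hθc] at h1

theorem const_of_algebraic {F : Type} [Field F] (y : PowerSeries F) (h : IsAlgebraic F y) :
    ∃ c : F, PowerSeries.C c = y := by
  have h1 := minpoly.irreducible h.isIntegral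
  have h2 : (minpoly F y).IsRoot (PowerSeries.constantCoeff y) := by
    have h3 : PowerSeries.constantCoeff (aeval y (minpoly F y)) = 0 := by
      rw [minpoly.aeval, map_zero]
    rw [aeval_def, Polynomial.hom_eval₂] at h3
    have h4 : (PowerSeries.constantCoeff (R := F)).comp (algebraMap F (PowerSeries F)) =
        RingHom.id F := RingHom.ext fun c => by
      rw [RingHom.comp_apply]
      exact PowerSeries.constantCoeff_C c
    rw [h4, eval₂_id] at h3
    exact h3
  obtain ⟨c, hc⟩ := minpoly.mem_range_of_degree_eq_one F y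
    (Polynomial.degree_eq_one_of_irreducible_of_root h1 h2)
  exact ⟨c, hc⟩

end Pool.Agent.N446.E8.TT1

namespace Pool.Agent.N446.E8

open Pool.Agent.R410 Pool.Agent.R410.LW

/-- **T1** -/
theorem t_T1 : S_T1 := by
  classical
  intro F _ _ C₀ T hT b hb
  let L := FractionRing (PowerSeries F)
  let e : PowerSeries F →+* L := algebraMap (PowerSeries F) L
  have he : Function.Injective e := IsFractionRing.injective (PowerSeries F) L
  have hFe : ∀ c : F, algebraMap F L c = e (PowerSeries.C c) := fun c =>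
    IsScalarTower.algebraMap_apply F (PowerSeries F) L c
  let x : L := e PowerSeries.X
  have hpol : ∀ p : F[X], e (algebraMap F[X] (PowerSeries F) p) = aeval x p := by
    intro p
    have h : e.comp (algebraMap F[X] (PowerSeries F)) = (aeval x : F[X] →ₐ[F] L).toRingHom := by
      apply Polynomial.ringHom_ext
      · intro c
        show e (algebraMap F[X] (PowerSeries F) (C c)) = aeval x (C c)
        rw [aeval_C, hFe]
        congr 1
        exact Polynomial.coe_C c
      · show e (algebraMap F[X] (PowerSeries F) X) = aeval x X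
        rw [aeval_X]
        congr 1
        exact Polynomial.coe_X
    exact congrArg (fun g => g p) h
  have hpi : Function.Injective (algebraMap F[X] (PowerSeries F)) := Polynomial.coe_injective F
  have hx : Transcendental F x := by
    rw [transcendental_iff]
    intro p hp
    rw [← hpol] at hp
    exact hpi (by rw [map_zero]; exact he (by rw [hp, map_zero]))
  let K0 := IntermediateField.adjoin F ({x} : Set L)
  have hxK : x ∈ K0 := IntermediateField.mem_adjoin_simple_self F x
  have hKalg : ∀ z ∈ T, IsAlgebraic K0 (e z) := by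
    intro z hz
    obtain ⟨p, hp0, hp⟩ := hT z hz
    let g : F[X] →+* K0 := (aeval (⟨x, hxK⟩ : K0) : F[X] →ₐ[F] K0).toRingHom
    have hg : ∀ q : F[X], algebraMap K0 L (g q) = e (algebraMap F[X] (PowerSeries F) q) := by
      intro q
      rw [hpol]
      exact (Polynomial.aeval_algebraMap_apply L (⟨x, hxK⟩ : K0) q).symm
    have hgi : Function.Injective g := by
      intro q q' h
      have h1 := congrArg (algebraMap K0 L) h
      rw [hg, hg] at h1
      exact hpi (he h1)
    refine ⟨p.map g, (Polynomial.map_ne_zero_iff hgi).2 hp0, ?_⟩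
    rw [aeval_def, eval₂_map]
    have h2 : (algebraMap K0 L).comp g = e.comp (algebraMap F[X] (PowerSeries F)) :=
      RingHom.ext hg
    rw [h2, ← Polynomial.hom_eval₂, ← aeval_def, hp, map_zero]
  let N : IntermediateField K0 L := IntermediateField.adjoin K0 (e '' (T : Set (PowerSeries F)))
  have hfin : FiniteDimensional K0 N := by
    have : Finite (e '' (T : Set (PowerSeries F))) := (T.finite_toSet.image e).to_subtype
    refine IntermediateField.finiteDimensional_adjoin ?_
    rintro _ ⟨z, hz, rfl⟩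
    exact (hKalg z hz).isIntegral
  let xN : N := algebraMap K0 N ⟨x, hxK⟩
  let K1 : IntermediateField F N := IntermediateField.adjoin F ({xN} : Set N)
  have hmem : ∀ (z : L) (hz' : z ∈ K0) (hz : z ∈ K0), algebraMap K0 N ⟨z, hz⟩ ∈ K1 := by
    intro z hz'
    induction hz' using IntermediateField.adjoin_induction with
    | mem z hz =>
      rw [Set.mem_singleton_iff] at hz
      subst hz
      intro _
      exact IntermediateField.mem_adjoin_simple_self F xN
    | algebraMap q =>
      intro hz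
      exact K1.algebraMap_mem q
    | add x y hx hy h1 h2 =>
      intro _
      exact add_mem (h1 hx) (h2 hy)
    | inv x hx h1 =>
      intro _
      exact inv_mem (h1 hx)
    | mul x y hx hy h1 h2 =>
      intro _
      exact mul_mem (h1 hx) (h2 hy)
  letI aK : Algebra K0 K1 :=
    ((algebraMap K0 N).codRestrict K1.toSubring fun z => hmem z.1 z.2 z.2).toAlgebra
  have tw : IsScalarTower K0 K1 N := IsScalarTower.of_algebraMap_eq fun z => rfl
  have fd : FiniteDimensional K1 N := Module.Finite.of_restrictScalars_finite K0 K1 N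
  have twN : IsScalarTower F N L := IsScalarTower.of_algebraMap_eq fun z => rfl
  have hxN : Transcendental F xN := by
    intro h
    exact hx (h.algebraMap (A := L))
  have hcl : ∀ z : N, IsAlgebraic F z → ∃ c : F, algebraMap F N c = z := by
    intro z hz
    have h1 : IsAlgebraic F (algebraMap N L z) := hz.algebraMap
    have h2 : IsIntegral (PowerSeries F) (algebraMap N L z) := h1.isIntegral.tower_top
    obtain ⟨y, hy⟩ := IsIntegrallyClosed.algebraMap_eq_of_integral h2
    have h3 : IsAlgebraic F y := by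
      rw [← hy] at h1
      exact (isAlgebraic_algebraMap_iff he).1 h1
    obtain ⟨c, rfl⟩ := TT1.const_of_algebraic y h3
    refine ⟨c, ?_⟩
    apply Subtype.ext
    exact (hFe c).trans hy
  have hTN : ∀ z ∈ T, e z ∈ N := fun z hz =>
    IntermediateField.subset_adjoin K0 _ ⟨z, hz, rfl⟩
  have hCN : ∀ c : F, e (PowerSeries.C c) ∈ N := fun c => by
    rw [← hFe]
    exact (algebraMap F N c).2
  have hRN : ∀ z ∈ rgn C₀ T, e z ∈ N := by
    intro z hz
    have h1 : rgn C₀ T ≤ N.toSubring.comap e := by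
      rw [rgn, Subring.closure_le]
      rintro w (hw | ⟨c, hc, rfl⟩)
      · exact hTN w hw
      · exact hCN c
    exact h1 hz
  let ι : rgn C₀ T →+* N := (e.comp (rgn C₀ T).subtype).codRestrict N.toSubring
    fun z => hRN z.1 z.2
  have hι : ∀ z : rgn C₀ T, ((ι z : N) : L) = e z.1 := fun z => rfl
  have hιb : ι b ≠ 0 := by
    intro h
    apply hb
    have h1 := congrArg (fun w : N => (w : L)) h
    apply Subtype.ext
    apply he
    rw [← hι, h]
    exact (map_zero e).symm
  let W : Finset N := Finset.univ.image fun z : {z // z ∈ T} => (⟨e z.1, hTN z.1 z.2⟩ : N)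
  have hW : ∀ r : rgn C₀ T,
      ι r ∈ Subring.closure ((W : Set N) ∪ (algebraMap F N) '' (C₀ : Set F)) := by
    rintro ⟨z, hz⟩
    induction hz using Subring.closure_induction with
    | mem z hz =>
      apply Subring.subset_closure
      rcases hz with hz | ⟨c, hc, rfl⟩
      · left
        show _ ∈ ((W : Finset N) : Set N)
        rw [Finset.mem_coe, Finset.mem_image]
        exact ⟨⟨z, hz⟩, Finset.mem_univ _, rfl⟩
      · right
        exact ⟨c, hc, Subtype.ext (hFe c)⟩
    | zero => exact (map_zero ι) ▸ zero_mem _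
    | one => exact (map_one ι) ▸ one_mem _
    | add x y hx hy h1 h2 =>
      have h3 : ι ⟨x + y, add_mem hx hy⟩ = ι ⟨x, hx⟩ + ι ⟨y, hy⟩ := (map_add ι ⟨x, hx⟩ ⟨y, hy⟩)
      rw [h3]
      exact add_mem h1 h2
    | neg x hx h1 =>
      have h3 : ι ⟨-x, neg_mem hx⟩ = -ι ⟨x, hx⟩ := map_neg ι ⟨x, hx⟩
      rw [h3]
      exact neg_mem h1
    | mul x y hx hy h1 h2 =>
      have h3 : ι ⟨x * y, mul_mem hx hy⟩ = ι ⟨x, hx⟩ * ι ⟨y, hy⟩ := (map_mul ι ⟨x, hx⟩ ⟨y, hy⟩)
      rw [h3]
      exact mul_mem h1 h2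
  obtain ⟨Sg, hSg, a, n, ha, H⟩ := TT1.core xN hxN hcl ι b hιb C₀ W hW
  refine ⟨Sg, hSg, a, n, ha, ?_⟩
  intro k _ _ hk φ hφ
  obtain ⟨θ, hθ, hc⟩ := H k hk φ hφ
  exact ⟨θ, hθ, fun c hc' => hc _ c _ (Subtype.ext (hFe c).symm)⟩

end Pool.Agent.N446.E8
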