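import Pool.Agent.N446.E8.Stm

/-!
# Finitely generated subrings of an ultraproduct map to the factors
-/

set_option autoImplicit false

namespace Pool.Agent.N446.E8

open MvPolynomial

theorem t_T2 : S_T2 := by
  intro Fs _ Sg a ha C hC
  classical
  have hsurj0 : ∀ x : UF Fs, ∃ c : ∀ n, Fs n, um Fs c = x := fun x =>
    Ideal.Quotient.mk_surjective x
  choose G hG using hsurj0
  -- the polynomial ring maps to the closure and to the factors
  let pi' : MvPolynomial Sg ℤ →+* Subring.closure (Sg : Set (UF Fs)) :=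
    MvPolynomial.eval₂Hom (Int.castRingHom _) (fun g => ⟨(g : UF Fs), Subring.subset_closure g.2⟩)
  let rho : ∀ n, MvPolynomial Sg ℤ →+* Fs n := fun n =>
    MvPolynomial.eval₂Hom (Int.castRingHom _) (fun g => G (g : UF Fs) n)
  have key : ∀ Q, ((pi' Q : Subring.closure (Sg : Set (UF Fs))) : UF Fs) =
      um Fs (fun n => rho n Q) := by
    have h : (Subring.subtype _).comp pi' =
        (Ideal.Quotient.mk (UI Fs)).comp (RingHom.pi rho) := by
      refine MvPolynomial.ringHom_ext (fun m => ?_) (fun g => ?_)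
      · simp
      · have h1 : ((Subring.subtype _).comp pi') (X g) = (g : UF Fs) := by
          simp [pi']
        have h2 : (RingHom.pi rho) (X g) = G (g : UF Fs) := by
          funext n
          simp [rho]
        rw [h1, RingHom.comp_apply, h2]
        exact (hG _).symm
    intro Q
    exact RingHom.congr_fun h Q
  have hsurj : Function.Surjective pi' := by
    have hle : Subring.closure (Sg : Set (UF Fs)) ≤ ((Subring.subtype _).comp pi').range := by
      refine Subring.closure_le.2 fun g hg => ?_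
      refine ⟨X ⟨g, hg⟩, ?_⟩
      simp [pi']
    intro x
    obtain ⟨Q, hQ⟩ := hle x.2
    exact ⟨Q, Subtype.ext hQ⟩
  have hz : ∀ Q, pi' Q = 0 → ∀ᶠ n in (Filter.hyperfilter ℕ : Filter ℕ), rho n Q = 0 := by
    intro Q hQ
    have h1 : um Fs (fun n => rho n Q) = 0 := by rw [← key, hQ]; rfl
    exact Ideal.Quotient.eq_zero_iff_mem.1 h1
  have hz' : ∀ Q, (∀ᶠ n in (Filter.hyperfilter ℕ : Filter ℕ), rho n Q = 0) → pi' Q = 0 := by
    intro Q hQ
    have h1 : um Fs (fun n => rho n Q) = 0 := Ideal.Quotient.eq_zero_iff_mem.2 hQ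
    exact Subtype.ext ((key Q).trans h1)
  -- the kernel is finitely generated
  obtain ⟨T, hT⟩ : (RingHom.ker pi').FG := IsNoetherian.noetherian _
  have e1 : ∀ᶠ n in (Filter.hyperfilter ℕ : Filter ℕ), ∀ t ∈ T, rho n t = 0 := by
    refine (Filter.eventually_all_finset T).2 fun t ht => hz t ?_
    have : t ∈ RingHom.ker pi' := hT ▸ Submodule.subset_span ht
    exact this
  obtain ⟨Qa, hQa⟩ := hsurj a
  have e2 : ∀ᶠ n in (Filter.hyperfilter ℕ : Filter ℕ), rho n Qa ≠ 0 := by
    refine Ultrafilter.eventually_not.2 fun h => ha ?_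
    rw [← hQa]
    exact hz' _ h
  have hc0 : ∀ c : ∀ n, Fs n, ∃ Q, ∀ hc : c ∈ C, pi' Q = ⟨um Fs c, hC c hc⟩ := by
    intro c
    by_cases hc : c ∈ C
    · obtain ⟨Q, hQ⟩ := hsurj ⟨um Fs c, hC c hc⟩
      exact ⟨Q, fun _ => hQ⟩
    · exact ⟨0, fun h => absurd h hc⟩
  choose Qc hQc using hc0
  have e3 : ∀ᶠ n in (Filter.hyperfilter ℕ : Filter ℕ), ∀ c ∈ C, rho n (Qc c) = c n := by
    refine (Filter.eventually_all_finset C).2 fun c hc => ?_
    have h1 : um Fs (fun n => rho n (Qc c)) = um Fs c := by rw [← key, hQc c hc]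
    have h2 := Ideal.Quotient.eq.1 h1
    filter_upwards [h2] with n hn
    exact sub_eq_zero.1 hn
  filter_upwards [e1, e2, e3] with n h1 h2 h3
  have hker : RingHom.ker pi' ≤ RingHom.ker (rho n) := by
    rw [← hT]
    exact Ideal.span_le.2 fun t ht => h1 t ht
  let φ := RingHom.liftOfSurjective pi' hsurj ⟨rho n, hker⟩
  have hφ : ∀ Q, φ (pi' Q) = rho n Q := fun Q =>
    RingHom.liftOfRightInverse_comp_apply _ _ _ ⟨rho n, hker⟩ Q
  refine ⟨φ, fun c hc => ?_, ?_⟩
  · rw [← hQc c hc, hφ]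
    exact h3 c hc
  · rw [← hQa, hφ]
    exact h2

end Pool.Agent.N446.E8
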