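import Pool.Agent.N446.E8.Asm0
import Pool.Agent.N446.E8.Asm2
import Pool.Agent.N446.E8.Cnt
import Pool.Agent.N446.E8.T_C8
import Pool.Agent.N446.E8.T_EX
import Pool.Agent.N446.E8.T_FL
import Pool.Agent.N446.E8.T_FN
import Pool.Agent.N446.E8.T_FS
import Pool.Agent.N446.E8.T_GB
import Pool.Agent.N446.E8.T_HE
import Pool.Agent.N446.E8.T_L2
import Pool.Agent.N446.E8.T_L3
import Pool.Agent.N446.E8.T_ND
import Pool.Agent.N446.E8.T_PO
import Pool.Agent.N446.E8.T_RA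
import Pool.Agent.N446.E8.T_T1
import Pool.Agent.N446.E8.T_T2

/-!
# The main theorem from the parts
-/

set_option autoImplicit false

namespace Pool.Agent.N446.E8

theorem m0 (hGA : S_GA) (hTB : S_TB) : S_M0 :=
  have hEX : S_EX := t_EX t_TA t_PS
  t_M0 t_FS (t_RA t_PO (t_L2 t_PO) (t_L3 t_PO) hTB) (t_GB hEX t_HE t_FN) hGA
    (t_ND hEX t_FS t_FW t_PS) t_FL (t_IT t_TA t_PS) t_FW

theorem main_GT (hGA : S_GA) (hTB : S_TB) (D : ℕ) :
    ∃ N : ℕ, ∀ (K : Type) [Field K] [Finite K], N ≤ ringChar K → ∀ S : Sys K,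
      S.f₂.totalDegree ≤ D → S.f₃.totalDegree ≤ D → S.f₄.totalDegree ≤ D →
      ¬ (SimpleGraph.cycleGraph 8).Free S.graph :=
  main (m0 hGA hTB) t_UM t_T1 t_T2 t_C8 D

end Pool.Agent.N446.E8
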