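import Pool.Agent.N446.E8.Stm

/-!
# Project E8 of helper446: formal loops from Hensel's lemma (helper325)
-/

set_option autoImplicit false
set_option linter.unusedSimpArgs false
set_option linter.unusedVariables false
set_option linter.unusedSectionVars false

namespace Pool.Agent.N446.E8

open MvPolynomial

namespace Loop

variable {F : Type} [Field F] [CharZero F]

/-- the ring of the unknowns over `F[t]` -/
abbrev BB (F : Type) [Field F] : Type := MvPolynomial (Fin 3) (Polynomial F)

/-- the variable `t` -/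
noncomputable def tt (F : Type) [Field F] : BB F := MvPolynomial.C Polynomial.X

/-- the flag with constant coordinates -/
noncomputable def zc (z : R F →ₐ[F] F) : R F →ₐ[F] BB F := (Algebra.ofId F (BB F)).comp z

/-- the value at `t = 0`, `w = 0` -/
noncomputable def rho (F : Type) [Field F] : BB F →+* F :=
  (eval (0 : Fin 3 → F)).comp (map (Polynomial.evalRingHom (0 : F)))

lemma rho_tt : rho F (tt F) = 0 := by
  simp [rho, tt]

lemma rho_X (i : Fin 3) : rho F (X i) = 0 := by
  simp [rho]

lemma rho_algebraMap (c : F) : rho F (algebraMap F (BB F) c) = c := by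
  have h : algebraMap F (BB F) c = MvPolynomial.C (Polynomial.C c) := rfl
  rw [h]
  simp [rho]

/-- the flow does not change `y` -/
lemma flow_X1 {A : Fin 3 → R F} {Φ : R F →ₐ[F] Polynomial (R F)} (h : Flow (Vd A) Φ) :
    Φ (X 1) = Polynomial.C (X 1) := by
  have h0 := h.1 (X 1)
  have h1 := h.2 (X 1)
  have h2 : (Vd A) (X 1) = 0 := by
    unfold Vd
    rw [mkDerivation_X]
    rfl
  rw [h2, map_zero] at h1
  have h3 := Polynomial.natDegree_eq_zero_of_derivative_eq_zero h1
  have h4 := Polynomial.eq_C_of_natDegree_eq_zero h3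
  rw [h4, h0]

/-- the flow moves `x` with unit speed -/
lemma flow_X0 {A : Fin 3 → R F} {Φ : R F →ₐ[F] Polynomial (R F)} (h : Flow (Vd A) Φ) :
    Φ (X 0) = Polynomial.C (X 0) + Polynomial.X := by
  have h0 := h.1 (X 0)
  have h1 := h.2 (X 0)
  have h2 : (Vd A) (X 0) = 1 := by
    unfold Vd
    rw [mkDerivation_X]
    rfl
  rw [h2, map_one] at h1
  have h5 : Polynomial.derivative (Φ (X 0) - Polynomial.X) = 0 := by
    rw [Polynomial.derivative_sub, h1, Polynomial.derivative_X, sub_self]
  have h3 := Polynomial.natDegree_eq_zero_of_derivative_eq_zero h5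
  have h4 := Polynomial.eq_C_of_natDegree_eq_zero h3
  rw [Polynomial.coeff_sub, h0, Polynomial.coeff_X_zero, sub_zero] at h4
  rw [← h4]
  ring

variable {B : Type} [CommRing B] [Algebra F B]

lemma mv_apply (Φ : R F →ₐ[F] Polynomial (R F)) (z : R F →ₐ[F] B) (s : B) (g : R F) :
    mv Φ z s g = Polynomial.eval₂ (z : R F →+* B) s (Φ g) := rfl

lemma st_X01 {A : Fin 3 → R F} {Φ : R F →ₐ[F] Polynomial (R F)} (h : Flow (Vd A) Φ)
    (z : R F →ₐ[F] B) (x y : ℕ → B) (hx : x 0 = z (X 0)) (hy : y 0 = z (X 1)) (n : ℕ) :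
    st Φ z x y n (X 0) = x n ∧ st Φ z x y n (X 1) = y n := by
  induction n with
  | zero => exact ⟨hx.symm, hy.symm⟩
  | succ n ih =>
    have p0 : Psi F (X 0) = Polynomial.C (X 0) := by
      unfold Psi
      rw [aeval_X]
      rfl
    have p1 : Psi F (X 1) = Polynomial.C (X 1) + Polynomial.X := by
      unfold Psi
      rw [aeval_X]
      rfl
    constructor
    · rw [st, mv_apply, p0, Polynomial.eval₂_C, RingHom.coe_coe, mv_apply, flow_X0 h,
        Polynomial.eval₂_add, Polynomial.eval₂_C, Polynomial.eval₂_X, RingHom.coe_coe, ih.1]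
      ring
    · rw [st, mv_apply, p1, Polynomial.eval₂_add, Polynomial.eval₂_C, Polynomial.eval₂_X,
        RingHom.coe_coe, mv_apply, flow_X1 h, Polynomial.eval₂_C, RingHom.coe_coe, ih.2]
      ring

/-- the components of a closed walk minus the initial flag -/
noncomputable def dif (Φ : R F →ₐ[F] Polynomial (R F)) (z : R F →ₐ[F] F) (α β : ℕ → BB F)
    (i : Fin 3) : BB F :=
  st Φ (zc z) (fun n => zc z (X 0) + tt F * α n) (fun n => zc z (X 1) + tt F * β n) 4
    (X (i.castSucc.castSucc + 2)) - zc z (X (i.castSucc.castSucc + 2))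

lemma alg_aeval {w : Fin 3 → PowerSeries F} (hw : ∀ i, IsAlgebraic (Polynomial F) (w i))
    (p : BB F) : IsAlgebraic (Polynomial F) (aeval w p) := by
  induction p using MvPolynomial.induction_on with
  | C a =>
    rw [aeval_C]
    exact isAlgebraic_algebraMap a
  | add p q hp hq =>
    rw [map_add]
    exact hp.add hq
  | mul_X p i hp =>
    rw [map_mul, aeval_X]
    exact hp.mul (hw i)

/-- loops from Hensel's lemma -/
theorem mk_loop (hHE : S_HE) (hFN : S_FN) {A : Fin 3 → R F} {Φ : R F →ₐ[F] Polynomial (R F)}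
    (hΦ : Flow (Vd A) Φ) (z : R F →ₐ[F] F) (N : Matrix (Fin 3) (Fin 3) F) (hN : N.det ≠ 0)
    (α β : ℕ → BB F) (hα0 : α 0 = 0) (hα4 : α 4 = 0) (hβ0 : β 0 = 0) (hβ4 : β 4 = 0)
    (k : Fin 3 → ℕ) (G : Fin 3 → BB F)
    (hG : ∀ a, ∑ i, algebraMap F (BB F) (N a i) * dif Φ z α β i = tt F ^ k a * G a)
    (h0 : ∀ a, rho F (G a) = 0)
    (hJ : (Matrix.of fun i j => rho F (pderiv j (G i))).det ≠ 0) :
    ∃ w : Fin 3 → PowerSeries F, (∀ i, PowerSeries.constantCoeff (w i) = 0) ∧
      IsLoop Φ z (fun n => aeval w (α n)) (fun n => aeval w (β n)) := by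
  obtain ⟨w, hw0, hwa, hwG⟩ := hHE F G h0 hJ
  refine ⟨w, hw0, by simp [hα0], by simp [hα4], by simp [hβ0], by simp [hβ4],
    fun n => alg_aeval hwa _, fun n => alg_aeval hwa _, ?_⟩
  let φ : BB F →ₐ[F] PowerSeries F := (aeval w : BB F →ₐ[Polynomial F] PowerSeries F).restrictScalars F
  have hφ : ∀ p, φ p = aeval w p := fun p => rfl
  have hφt : φ (tt F) = PowerSeries.X := by
    rw [hφ, tt, aeval_C]
    exact Polynomial.coe_X
  have hφz : φ.comp (zc z) = cst z := by
    apply AlgHom.ext
    intro g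
    show φ (algebraMap F (BB F) (z g)) = algebraMap F (PowerSeries F) (z g)
    exact AlgHom.commutes φ _
  have hcst : ∀ g, cst z g = PowerSeries.C (z g) := fun g => rfl
  have hFN' := hFN F Φ (BB F) (PowerSeries F) φ (zc z) (fun n => zc z (X 0) + tt F * α n)
    (fun n => zc z (X 1) + tt F * β n) 4
  have hzc : ∀ g, φ (zc z g) = PowerSeries.C (z g) := by
    intro g
    have := congrArg (fun f : R F →ₐ[F] PowerSeries F => f g) hφz
    exact this
  have ex : (φ ∘ fun n => zc z (X 0) + tt F * α n) =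
      fun n => PowerSeries.C (z (X 0)) + PowerSeries.X * aeval w (α n) := by
    funext n
    show φ (zc z (X 0) + tt F * α n) = _
    rw [map_add, map_mul, hzc, hφt]
    rfl
  have ey : (φ ∘ fun n => zc z (X 1) + tt F * β n) =
      fun n => PowerSeries.C (z (X 1)) + PowerSeries.X * aeval w (β n) := by
    funext n
    show φ (zc z (X 1) + tt F * β n) = _
    rw [map_add, map_mul, hzc, hφt]
    rfl
  rw [hφz, ex, ey] at hFN'
  have hX := st_X01 hΦ (cst z) (fun n => PowerSeries.C (z (X 0)) + PowerSeries.X * aeval w (α n))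
    (fun n => PowerSeries.C (z (X 1)) + PowerSeries.X * aeval w (β n))
    (by simp [hα0, hcst]) (by simp [hβ0, hcst]) 4
  -- the last three coordinates
  have hd : ∀ i : Fin 3, φ (dif Φ z α β i) = 0 := by
    have hrow : ∀ a, ∑ i, algebraMap F (PowerSeries F) (N a i) * φ (dif Φ z α β i) = 0 := by
      intro a
      have := congrArg φ (hG a)
      rw [map_sum, map_mul, hφ (G a), hwG a, mul_zero] at this
      rw [← this]
      apply Finset.sum_congr rfl
      intro i _
      rw [map_mul, AlgHom.commutes]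
    intro i
    have hinv : N⁻¹ * N = 1 := Matrix.nonsing_inv_mul N (isUnit_iff_ne_zero.mpr hN)
    have hsum : ∑ a, algebraMap F (PowerSeries F) (N⁻¹ i a) *
        ∑ j, algebraMap F (PowerSeries F) (N a j) * φ (dif Φ z α β j) = φ (dif Φ z α β i) := by
      simp only [Finset.mul_sum]
      rw [Finset.sum_comm]
      have : ∀ j, ∑ a, algebraMap F (PowerSeries F) (N⁻¹ i a) *
          (algebraMap F (PowerSeries F) (N a j) * φ (dif Φ z α β j)) =
          algebraMap F (PowerSeries F) ((1 : Matrix (Fin 3) (Fin 3) F) i j) *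
            φ (dif Φ z α β j) := by
        intro j
        rw [← hinv, Matrix.mul_apply, map_sum, Finset.sum_mul]
        apply Finset.sum_congr rfl
        intro a _
        rw [map_mul, mul_assoc]
      rw [Finset.sum_congr rfl fun j _ => this j]
      simp [Matrix.one_apply]
    rw [← hsum]
    exact Finset.sum_eq_zero fun a _ => by rw [hrow a, mul_zero]
  have hd2 : ∀ i : Fin 3, st Φ (cst z)
      (fun n => PowerSeries.C (z (X 0)) + PowerSeries.X * aeval w (α n))
      (fun n => PowerSeries.C (z (X 1)) + PowerSeries.X * aeval w (β n)) 4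
      (X (i.castSucc.castSucc + 2)) = cst z (X (i.castSucc.castSucc + 2)) := by
    intro i
    have h1 := hd i
    unfold dif at h1
    rw [map_sub, sub_eq_zero, hzc] at h1
    rw [← hFN']
    exact h1
  apply MvPolynomial.algHom_ext
  intro i
  fin_cases i
  · show st Φ (cst z) _ _ 4 (X 0) = cst z (X 0)
    rw [hX.1]
    simp [hα4, hcst]
  · show st Φ (cst z) _ _ 4 (X 1) = cst z (X 1)
    rw [hX.2]
    simp [hβ4, hcst]
  · exact hd2 0
  · exact hd2 1
  · exact hd2 2

end Loop

end Pool.Agent.N446.E8
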