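import Pool.Agent.N446.E8.Defs

/-!
# Algebraically defined graphs and cycles of length eight: statements of the tasks
-/

set_option autoImplicit false

namespace Pool.Agent.N446.E8

open MvPolynomial

/-! ### Flows -/

/-- PS: `Psi` is the flow of `∂_y`. -/
def S_PS : Prop := ∀ (F : Type) [Field F] [CharZero F], Flow (Wd F) (Psi F)

/-- FL: triangular systems have a flow. -/
def S_FL : Prop := ∀ (F : Type) [Field F] [CharZero F] (A : Fin 3 → R F), Tri A →
  ∃ Φ, Flow (Vd A) Φ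

/-- FS: the flow of a system of polynomials. -/
def S_FS : Prop := ∀ (F : Type) [Field F] [CharZero F] (S : Sys F), Tri S.A ∧ Flow (Vd S.A) S.phi

/-- TA: the Taylor formula. -/
def S_TA : Prop := ∀ (F : Type) [Field F] [CharZero F] (D : Derivation F (R F) (R F))
  (Φ : R F →ₐ[F] Polynomial (R F)), Flow D Φ → ∀ (g : R F) (n : ℕ),
  (Φ g).coeff n = ((n.factorial : F)⁻¹) • (D^[n] g)

/-- EX: the expansion of a closed walk of length eight up to the order four. -/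
def S_EX : Prop := ∀ (F : Type) [Field F] [CharZero F] (A : Fin 3 → R F)
  (Φ : R F →ₐ[F] Polynomial (R F)), Flow (Vd A) Φ →
  ∀ (B : Type) [CommRing B] [Algebra F B] (z : R F →ₐ[F] B) (t : B) (α β : ℕ → B),
  α 0 = 0 → α 4 = 0 → β 0 = 0 → β 4 = 0 → ∀ g : R F, ∃ r : B,
  st Φ z (fun n => z (X 0) + t * α n) (fun n => z (X 1) + t * β n) 4 g =
    z g - t ^ 2 * (SS α β 1 1 * z (bZ A g)) -
    t ^ 3 * (algebraMap F B (1 / 2) * (SS α β 2 1 * z (bX10 A g) + SS α β 1 2 * z (bX01 A g))) -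
    t ^ 4 * (algebraMap F B (1 / 6) * (SS α β 3 1 * z (bX20 A g)) +
      algebraMap F B (1 / 4) * (SS α β 2 2 * z (bX11 A g)) +
      algebraMap F B (1 / 6) * (SS α β 1 3 * z (bX02 A g)) -
      algebraMap F B (1 / 2) * (SS α β 1 1 ^ 2 * z (bZ A (bZ A g)))) + t ^ 5 * r

/-- FN: walks and homomorphisms. -/
def S_FN : Prop := ∀ (F : Type) [Field F] (Φ : R F →ₐ[F] Polynomial (R F)) (B B' : Type)
  [CommRing B] [Algebra F B] [CommRing B'] [Algebra F B'] (φ : B →ₐ[F] B') (z : R F →ₐ[F] B)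
  (x y : ℕ → B) (n : ℕ), φ.comp (st Φ z x y n) = st Φ (φ.comp z) (φ ∘ x) (φ ∘ y) n

/-- IT: walks and maps of systems. -/
def S_IT : Prop := ∀ (F : Type) [Field F] [CharZero F] (A A' : Fin 3 → R F)
  (Φ Φ' : R F →ₐ[F] Polynomial (R F)), Flow (Vd A) Φ → Flow (Vd A') Φ' →
  ∀ π : R F →ₐ[F] R F, (∀ g, π (Vd A g) = Vd A' (π g)) → (∀ g, π (Wd F g) = Wd F (π g)) →
  ∀ (B : Type) [CommRing B] [Algebra F B] (z : R F →ₐ[F] B) (x y : ℕ → B) (n : ℕ),
  (st Φ' z x y n).comp π = st Φ (z.comp π) x y n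

/-- FW: the flags of a walk and its points. -/
def S_FW : Prop := ∀ (F : Type) [Field F] (S : Sys F) (B : Type) [CommRing B] [Algebra F B]
  (z : R F →ₐ[F] B) (x y : ℕ → B), x 0 = z (X 0) → y 0 = z (X 1) → ∀ n : ℕ,
  S.walkP ![z (X 0), z (X 2), z (X 3), z (X 4)] x y n =
      ![st S.phi z x y n (X 0), st S.phi z x y n (X 2), st S.phi z x y n (X 3),
        st S.phi z x y n (X 4)] ∧
    st S.phi z x y n (X 0) = x n ∧ st S.phi z x y n (X 1) = y n

/-! ### Hensel's lemma -/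

/-- HE: three equations with three unknown power series. -/
def S_HE : Prop := ∀ (F : Type) [Field F] [CharZero F]
  (G : Fin 3 → MvPolynomial (Fin 3) (Polynomial F)),
  (∀ i, eval 0 (map (Polynomial.evalRingHom (0 : F)) (G i)) = 0) →
  (Matrix.of fun i j => eval 0 (map (Polynomial.evalRingHom (0 : F)) (pderiv j (G i)))).det ≠ 0 →
  ∃ w : Fin 3 → PowerSeries F, (∀ i, PowerSeries.constantCoeff (w i) = 0) ∧
    (∀ i, IsAlgebraic (Polynomial F) (w i)) ∧ ∀ i, aeval w (G i) = 0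

/-! ### Loops in the neighbourhood of a flag -/

/-- GA: growth `(2,3,5)`. -/
def S_GA : Prop := ∀ (F : Type) [Field F] [CharZero F] (A : Fin 3 → R F)
  (Φ : R F →ₐ[F] Polynomial (R F)), Flow (Vd A) Φ → ∀ z : R F →ₐ[F] F, TypeA A z →
  ∃ α β : ℕ → PowerSeries F, IsLoop Φ z α β ∧
    ∀ i j : ℕ, i < j → j < 4 →
      PowerSeries.constantCoeff (α i) ≠ PowerSeries.constantCoeff (α j) ∧
      PowerSeries.constantCoeff (β i) ≠ PowerSeries.constantCoeff (β j)

/-- GB: growth `(2,3,4,5)`. -/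
def S_GB : Prop := ∀ (F : Type) [Field F] [CharZero F] (A : Fin 3 → R F)
  (Φ : R F →ₐ[F] Polynomial (R F)), Flow (Vd A) Φ → ∀ z : R F →ₐ[F] F, TypeB A z →
  ∃ α β : ℕ → PowerSeries F, IsLoop Φ z α β ∧
    ∀ i : ℕ, i < 4 →
      PowerSeries.constantCoeff (α i) ≠ PowerSeries.constantCoeff (α (i + 1)) ∧
      PowerSeries.constantCoeff (β i) ≠ PowerSeries.constantCoeff (β (i + 1))

/-- ND: the vertices of such a loop are distinct. -/
def S_ND : Prop := ∀ (F : Type) [Field F] [CharZero F] (S : Sys F) (z : R F →ₐ[F] F),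
  vec (bZ S.A) z ≠ 0 → ∀ α β : ℕ → PowerSeries F, IsLoop S.phi z α β →
  (∀ i : ℕ, i < 4 →
      PowerSeries.constantCoeff (α i) ≠ PowerSeries.constantCoeff (α (i + 1)) ∧
      PowerSeries.constantCoeff (β i) ≠ PowerSeries.constantCoeff (β (i + 1))) →
  ∀ i j : ℕ, i < j → j < 4 →
    S.walkP (fun i => PowerSeries.C (![z (X 0), z (X 2), z (X 3), z (X 4)] i))
        (fun n => PowerSeries.C (z (X 0)) + PowerSeries.X * α n)
        (fun n => PowerSeries.C (z (X 1)) + PowerSeries.X * β n) i ≠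
      S.walkP (fun i => PowerSeries.C (![z (X 0), z (X 2), z (X 3), z (X 4)] i))
        (fun n => PowerSeries.C (z (X 0)) + PowerSeries.X * α n)
        (fun n => PowerSeries.C (z (X 1)) + PowerSeries.X * β n) j ∧
    S.walkL (fun i => PowerSeries.C (![z (X 0), z (X 2), z (X 3), z (X 4)] i))
        (fun n => PowerSeries.C (z (X 0)) + PowerSeries.X * α n)
        (fun n => PowerSeries.C (z (X 1)) + PowerSeries.X * β n) i ≠
      S.walkL (fun i => PowerSeries.C (![z (X 0), z (X 2), z (X 3), z (X 4)] i))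
        (fun n => PowerSeries.C (z (X 0)) + PowerSeries.X * α n)
        (fun n => PowerSeries.C (z (X 1)) + PowerSeries.X * β n) j

/-! ### The rank of the distribution -/

/-- PO: the lemma of Poincaré for polynomials. -/
def S_PO : Prop := ∀ (F : Type) [Field F] [CharZero F] (s : Set (Fin 5)) (ω : Fin 5 → R F),
  (∀ i, ω i ∈ supported F s) → (∀ i, i ∉ s → ω i = 0) →
  (∀ i j, pderiv i (ω j) = pderiv j (ω i)) → ∃ H ∈ supported F s, ∀ i, pderiv i H = ω i

/-- LN: the eigenvalues of a locally nilpotent derivation vanish. -/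
def S_LN : Prop := ∀ (F : Type) [Field F] [CharZero F] (D : Derivation F (R F) (R F))
  (Φ : R F →ₐ[F] Polynomial (R F)), Flow D Φ → ∀ g lam : R F, g ≠ 0 → D g = lam * g → lam = 0

/-- the two by two determinant of the first two components -/
noncomputable def d2 {F : Type} [Field F] (u v : Fin 3 → R F) : R F := u 0 * v 1 - u 1 * v 0

/-- the three by three determinant -/
noncomputable def d3 {F : Type} [Field F] (u v w : Fin 3 → R F) : R F :=
  (Matrix.of ![u, v, w]).det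

/-- L2: the second coordinate is inessential. -/
def S_L2 : Prop := ∀ (F : Type) [Field F] [CharZero F] (A : Fin 3 → R F), Tri A →
  cmp (bZ A) 0 ≠ 0 → d2 (cmp (bZ A)) (cmp (bX10 A)) = 0 → d2 (cmp (bZ A)) (cmp (bX01 A)) = 0 →
  ∃ H ∈ supported F ({0, 2} : Set (Fin 5)), A 1 = pderiv 0 H + A 0 * pderiv 2 H

/-- L3: the third coordinate is inessential. -/
def S_L3 : Prop := ∀ (F : Type) [Field F] [CharZero F] (A : Fin 3 → R F), Tri A →
  (d2 (cmp (bZ A)) (cmp (bX10 A)) ≠ 0 ∨ d2 (cmp (bZ A)) (cmp (bX01 A)) ≠ 0) →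
  d3 (cmp (bZ A)) (cmp (bX10 A)) (cmp (bX01 A)) = 0 →
  (∀ Y : Fin 3 → R F, Y = cmp (bX20 A) ∨ Y = cmp (bX11 A) ∨ Y = cmp (bX02 A) →
    d3 (cmp (bZ A)) (cmp (bX10 A)) Y = 0 ∧ d3 (cmp (bZ A)) (cmp (bX01 A)) Y = 0) →
  ∃ H ∈ supported F ({0, 2, 3} : Set (Fin 5)),
    A 2 = pderiv 0 H + A 0 * pderiv 2 H + A 1 * pderiv 3 H

/-- TB: flags of the second type. -/
def S_TB : Prop := ∀ (F : Type) [Field F] [CharZero F] (A : Fin 3 → R F), Tri A →
  (d2 (cmp (bZ A)) (cmp (bX10 A)) ≠ 0 ∨ d2 (cmp (bZ A)) (cmp (bX01 A)) ≠ 0) →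
  d3 (cmp (bZ A)) (cmp (bX10 A)) (cmp (bX01 A)) = 0 →
  (∃ Y : Fin 3 → R F, (Y = cmp (bX20 A) ∨ Y = cmp (bX11 A) ∨ Y = cmp (bX02 A)) ∧
    (d3 (cmp (bZ A)) (cmp (bX10 A)) Y ≠ 0 ∨ d3 (cmp (bZ A)) (cmp (bX01 A)) Y ≠ 0)) →
  ∃ z : R F →ₐ[F] F, TypeB A z

/-- RA: every system has a flag of the second type or is an image of a system with a flag of the
first type. -/
def S_RA : Prop := ∀ (F : Type) [Field F] [CharZero F] (A : Fin 3 → R F), Tri A →
  (∃ z : R F →ₐ[F] F, TypeB A z) ∨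
  ∃ (A' : Fin 3 → R F) (π : R F →ₐ[F] R F) (z : R F →ₐ[F] F), Tri A' ∧ π (X 0) = X 0 ∧
    π (X 1) = X 1 ∧ (∀ g, π (Vd A g) = Vd A' (π g)) ∧ (∀ g, π (Wd F g) = Wd F (π g)) ∧
    TypeA A' z

/-! ### Finite fields -/

/-- UM: the ultraproduct is a field of characteristic zero. -/
def S_UM : Prop := ∀ (Fs : ℕ → Type) [∀ n, Field (Fs n)], (UI Fs).IsMaximal ∧
  ((∀ n, n ≤ ringChar (Fs n)) → (∀ n, 0 < ringChar (Fs n)) → CharZero (UF Fs))

/-- T2: finitely generated subrings of an ultraproduct map to the factors. -/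
def S_T2 : Prop := ∀ (Fs : ℕ → Type) [∀ n, Field (Fs n)] (Sg : Finset (UF Fs))
  (a : Subring.closure (Sg : Set (UF Fs))), a ≠ 0 → ∀ C : Finset (∀ n, Fs n),
  ∀ hC : ∀ c ∈ C, um Fs c ∈ Subring.closure (Sg : Set (UF Fs)),
  ∀ᶠ n in (Filter.hyperfilter ℕ : Filter ℕ), ∃ φ : Subring.closure (Sg : Set (UF Fs)) →+* Fs n,
    (∀ c (hc : c ∈ C), φ ⟨um Fs c, hC c hc⟩ = c n) ∧ φ a ≠ 0

/-- the ring generated by the constants `C` and the power series `T` -/
noncomputable abbrev rgn {F : Type} [Field F] (C : Finset F) (T : Finset (PowerSeries F)) :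
    Subring (PowerSeries F) :=
  Subring.closure ((T : Set (PowerSeries F)) ∪ (fun c => PowerSeries.C c) '' (C : Set F))

/-- T1: specialization of algebraic power series over large finite fields. -/
def S_T1 : Prop := ∀ (F : Type) [Field F] [CharZero F] (C : Finset F) (T : Finset (PowerSeries F)),
  (∀ z ∈ T, IsAlgebraic (Polynomial F) z) → ∀ b : rgn C T, b ≠ 0 →
  ∃ (Sg : Finset F) (hSg : C ⊆ Sg) (a : Subring.closure (Sg : Set F)) (N : ℕ), a ≠ 0 ∧
    ∀ (k : Type) [Field k] [Finite k], N ≤ Nat.card k →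
    ∀ φ : Subring.closure (Sg : Set F) →+* k, φ a ≠ 0 →
    ∃ θ : rgn C T →+* k, θ b ≠ 0 ∧
      ∀ c (hc : c ∈ C), θ ⟨PowerSeries.C c, Subring.subset_closure (Or.inr ⟨c, hc, rfl⟩)⟩ =
        φ ⟨c, Subring.subset_closure (hSg hc)⟩

/-- C8: from a walk to a cycle. -/
def S_C8 : Prop := ∀ (K : Type) [Field K] (S : Sys K) (p : Fin 4 → K) (x y : ℕ → K),
  x 0 = p 0 → x 4 = x 0 → y 4 = y 0 → S.walkP p x y 4 = p →
  (∀ i j : ℕ, i < j → j < 4 → S.walkP p x y i ≠ S.walkP p x y j ∧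
    S.walkL p x y i ≠ S.walkL p x y j) → ¬ (SimpleGraph.cycleGraph 8).Free S.graph

end Pool.Agent.N446.E8
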