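import Pool.Agent.N446.E8.Stm

/-!
# Algebraically defined graphs and cycles of length eight: assembly of the rank analysis (RA)
-/

set_option autoImplicit false

namespace Pool.Agent.N446.E8.RAP

open MvPolynomial Pool.Agent.N446.E8

variable {F : Type} [Field F]

/-! ### Supported polynomials -/

theorem pd0 {s : Set (Fin 5)} {g : R F} (hg : g ∈ supported F s) {i : Fin 5} (hi : i ∉ s) :
    pderiv i g = 0 :=
  pderiv_eq_zero_of_notMem_vars fun h => hi ((mem_supported.1 hg) h)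

theorem pds {s : Set (Fin 5)} {g : R F} (hg : g ∈ supported F s) (i : Fin 5) :
    pderiv i g ∈ supported F s := by
  induction hg using Algebra.adjoin_induction with
  | mem x hx =>
    obtain ⟨j, _, rfl⟩ := hx
    rw [pderiv_X]
    by_cases h : j = i
    · subst h; rw [Pi.single_eq_same]; exact one_mem _
    · rw [Pi.single_eq_of_ne h]; exact zero_mem _
  | algebraMap r => rw [Derivation.map_algebraMap]; exact zero_mem _
  | add x y _ _ hx hy => rw [map_add]; exact add_mem hx hy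
  | mul x y hx' hy' hx hy =>
    rw [Derivation.leibniz, smul_eq_mul, smul_eq_mul]
    exact add_mem (mul_mem hx' hy) (mul_mem hy' hx)

theorem ae_id {s : Set (Fin 5)} {g : R F} (hg : g ∈ supported F s) {f : Fin 5 → R F}
    (hf : ∀ i ∈ s, f i = X i) : aeval f g = g := by
  induction hg using Algebra.adjoin_induction with
  | mem x hx =>
    obtain ⟨j, hj, rfl⟩ := hx
    rw [aeval_X, hf j hj]
  | algebraMap r => exact (aeval f).commutes r
  | add x y _ _ hx hy => rw [map_add, hx, hy]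
  | mul x y _ _ hx hy => rw [map_mul, hx, hy]

theorem ae_supp {s t : Set (Fin 5)} {g : R F} (hg : g ∈ supported F s) {f : Fin 5 → R F}
    (hf : ∀ i ∈ s, f i ∈ supported F t) : aeval f g ∈ supported F t := by
  induction hg using Algebra.adjoin_induction with
  | mem x hx =>
    obtain ⟨j, hj, rfl⟩ := hx
    rw [aeval_X]; exact hf j hj
  | algebraMap r => rw [(aeval f).commutes r]; exact Subalgebra.algebraMap_mem _ _
  | add x y _ _ hx hy => rw [map_add]; exact add_mem hx hy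
  | mul x y _ _ hx hy => rw [map_mul]; exact mul_mem hx hy

theorem X_sup {s : Set (Fin 5)} {i : Fin 5} (hi : i ∈ s) : (X i : R F) ∈ supported F s :=
  X_mem_supported.2 hi

/-! ### The derivations -/

theorem vd_eq (A : Fin 3 → R F) :
    Vd A = pderiv 0 + A 0 • pderiv 2 + A 1 • pderiv 3 + A 2 • pderiv 4 := by
  refine derivation_ext fun i => ?_
  rw [Vd, mkDerivation_X]
  fin_cases i <;> simp [pderiv_X]

theorem vd_apply (A : Fin 3 → R F) (g : R F) : Vd A g =
    pderiv 0 g + A 0 * pderiv 2 g + A 1 * pderiv 3 g + A 2 * pderiv 4 g := by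
  rw [vd_eq]; rfl

theorem wd_apply (g : R F) : Wd F g = pderiv 1 g := by
  have : Wd F = pderiv 1 := by
    refine derivation_ext fun i => ?_
    rw [Wd, mkDerivation_X]
    fin_cases i <;> simp [pderiv_X]
  rw [this]

theorem bZ_apply (A : Fin 3 → R F) (g : R F) : bZ A g =
    pderiv 1 (A 0) * pderiv 2 g + pderiv 1 (A 1) * pderiv 3 g + pderiv 1 (A 2) * pderiv 4 g := by
  have : bZ A = pderiv 1 (A 0) • pderiv 2 + pderiv 1 (A 1) • pderiv 3 +
      pderiv 1 (A 2) • pderiv 4 := by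
    refine derivation_ext fun i => ?_
    rw [bZ, Derivation.commutator_apply, wd_apply, wd_apply]
    fin_cases i <;> simp [Vd, mkDerivation_X, pderiv_X]
  rw [this]; rfl

theorem vd_X (A : Fin 3 → R F) (j : Fin 3) : Vd A (X (j.natAdd 2)) = A j := by
  rw [Vd, mkDerivation_X]; fin_cases j <;> rfl

theorem cZ (A : Fin 3 → R F) (j : Fin 3) : cmp (bZ A) j = pderiv 1 (A j) := by
  fin_cases j <;> simp [cmp, bZ_apply, pderiv_X]

theorem cX01 (A : Fin 3 → R F) (j : Fin 3) :
    cmp (bX01 A) j = pderiv 1 (pderiv 1 (A j)) := by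
  fin_cases j <;>
  simp [cmp, bX01, Derivation.commutator_apply, wd_apply, bZ_apply, pderiv_X]

theorem cX10 (A : Fin 3 → R F) (j : Fin 3) :
    cmp (bX10 A) j = Vd A (pderiv 1 (A j)) - bZ A (A j) := by
  fin_cases j <;>
  simp [cmp, bX10, Derivation.commutator_apply, bZ_apply, pderiv_X, Vd, mkDerivation_X]

/-! ### Maps of systems -/

/-- `A'` maps to `A` -/
def Mp (A A' : Fin 3 → R F) : Prop := ∃ π : R F →ₐ[F] R F, π (X 0) = X 0 ∧ π (X 1) = X 1 ∧
  (∀ g, π (Vd A g) = Vd A' (π g)) ∧ ∀ g, π (Wd F g) = Wd F (π g)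

theorem Mp.refl (A : Fin 3 → R F) : Mp A A := ⟨AlgHom.id F _, rfl, rfl, fun _ => rfl, fun _ => rfl⟩

theorem Mp.trans {A A' A'' : Fin 3 → R F} (h : Mp A A') (h' : Mp A' A'') : Mp A A'' := by
  obtain ⟨π, h0, h1, h2, h3⟩ := h
  obtain ⟨π', h0', h1', h2', h3'⟩ := h'
  refine ⟨π'.comp π, ?_, ?_, fun g => ?_, fun g => ?_⟩
  · rw [AlgHom.comp_apply, h0, h0']
  · rw [AlgHom.comp_apply, h1, h1']
  · rw [AlgHom.comp_apply, h2, h2', AlgHom.comp_apply]
  · rw [AlgHom.comp_apply, h3, h3', AlgHom.comp_apply]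

theorem inter (D D' : Derivation F (R F) (R F)) (π : R F →ₐ[F] R F)
    (h : ∀ i, π (D (X i)) = D' (π (X i))) (g : R F) : π (D g) = D' (π g) := by
  induction g using MvPolynomial.induction_on with
  | C a =>
    rw [← algebraMap_eq, Derivation.map_algebraMap, map_zero, AlgHom.commutes,
      Derivation.map_algebraMap]
  | add p q hp hq => rw [map_add, map_add, map_add, map_add, hp, hq]
  | mul_X p i hp =>
    rw [Derivation.leibniz, smul_eq_mul, smul_eq_mul, map_add, map_mul, map_mul, map_mul,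
      Derivation.leibniz, smul_eq_mul, smul_eq_mul, hp, h]

theorem mp_mk (A A' : Fin 3 → R F) (h : Fin 3 → R F) (hW : ∀ i, pderiv 1 (h i) = 0)
    (hV : ∀ i, aeval ![X 0, X 1, h 0, h 1, h 2] (A i) = Vd A' (h i)) : Mp A A' := by
  refine ⟨aeval ![X 0, X 1, h 0, h 1, h 2], by rw [aeval_X]; rfl, by rw [aeval_X]; rfl,
    inter _ _ _ fun i => ?_, inter _ _ _ fun i => ?_⟩
  · rw [aeval_X]
    fin_cases i
    · simp [Vd, mkDerivation_X]
    · simp [Vd, mkDerivation_X]
    · have e : Vd A (X 2) = A 0 := by rw [Vd, mkDerivation_X]; rfl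
      simpa [e] using hV 0
    · have e : Vd A (X 3) = A 1 := by rw [Vd, mkDerivation_X]; rfl
      simpa [e] using hV 1
    · have e : Vd A (X 4) = A 2 := by rw [Vd, mkDerivation_X]; rfl
      simpa [e] using hV 2
  · rw [aeval_X]
    fin_cases i
    · simp [Wd, mkDerivation_X]
    · simp [Wd, mkDerivation_X]
    · have e : Wd F (X 2) = 0 := by rw [Wd, mkDerivation_X]; rfl
      simpa [e, wd_apply] using (hW 0).symm
    · have e : Wd F (X 3) = 0 := by rw [Wd, mkDerivation_X]; rfl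
      simpa [e, wd_apply] using (hW 1).symm
    · have e : Wd F (X 4) = 0 := by rw [Wd, mkDerivation_X]; rfl
      simpa [e, wd_apply] using (hW 2).symm

/-- the good systems -/
def Good (A : Fin 3 → R F) : Prop := ∃ A' : Fin 3 → R F, Mp A A' ∧ Tri A' ∧
  ∃ z : R F →ₐ[F] F, TypeA A' z

theorem Good.of {A A' : Fin 3 → R F} (h : Mp A A') (h' : Good A') : Good A := by
  obtain ⟨B, h1, h2⟩ := h'
  exact ⟨B, h.trans h1, h2⟩

theorem typeA_iff (A : Fin 3 → R F) (z : R F →ₐ[F] F) :
    TypeA A z ↔ z (d3 (cmp (bZ A)) (cmp (bX10 A)) (cmp (bX01 A))) ≠ 0 := by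
  have h1 : z (d3 (cmp (bZ A)) (cmp (bX10 A)) (cmp (bX01 A))) =
      ((z : R F →+* F).mapMatrix
        (Matrix.of ![cmp (bZ A), cmp (bX10 A), cmp (bX01 A)])).det :=
    RingHom.map_det (z : R F →+* F) _
  have h2 : (z : R F →+* F).mapMatrix (Matrix.of ![cmp (bZ A), cmp (bX10 A), cmp (bX01 A)]) =
      Matrix.of ![vec (bZ A) z, vec (bX10 A) z, vec (bX01 A) z] := by
    ext i j
    rw [RingHom.mapMatrix_apply, Matrix.map_apply, Matrix.of_apply, Matrix.of_apply]
    fin_cases i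
    · rfl
    · rfl
    · rfl
  rw [h1, h2, TypeA]

/-- a polynomial which is not zero does not vanish at some point -/
theorem exists_pt [CharZero F] {g : R F} (hg : g ≠ 0) : ∃ z : R F →ₐ[F] F, z g ≠ 0 := by
  by_contra h
  push Not at h
  refine hg (MvPolynomial.funext fun x => ?_)
  have := h (aeval x)
  rw [map_zero, ← this]
  rfl

theorem d3_eq (u v w : Fin 3 → R F) : d3 u v w = u 0 * v 1 * w 2 - u 0 * v 2 * w 1 -
    u 1 * v 0 * w 2 + u 1 * v 2 * w 0 + u 2 * v 0 * w 1 - u 2 * v 1 * w 0 := by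
  rw [d3, Matrix.det_fin_three]
  rfl

theorem half2 [CharZero F] : (C (1 / 2 : F) : R F) * 2 = 1 := by
  have : (2 : R F) = C (2 : F) := (map_ofNat C 2).symm
  rw [this, ← C_mul]; norm_num

/-- the two auxiliary polynomials -/
noncomputable def g1 (z : R F →ₐ[F] F) : R F := (X 0 - C (z (X 0))) * (X 1 - C (z (X 1)))
noncomputable def g2 (z : R F →ₐ[F] F) : R F := C (1 / 2 : F) * (X 1 - C (z (X 1))) ^ 2

theorem g1_s (z : R F →ₐ[F] F) : g1 z ∈ supported F ({0, 1} : Set (Fin 5)) := by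
  refine mul_mem (sub_mem (X_sup (by simp)) ?_) (sub_mem (X_sup (by simp)) ?_) <;>
  exact Subalgebra.algebraMap_mem _ _

theorem g2_s (z : R F →ₐ[F] F) : g2 z ∈ supported F ({0, 1} : Set (Fin 5)) := by
  refine mul_mem (Subalgebra.algebraMap_mem _ _) (pow_mem (sub_mem (X_sup (by simp)) ?_) 2)
  exact Subalgebra.algebraMap_mem _ _

theorem g1_d (z : R F →ₐ[F] F) : pderiv 1 (g1 z) = X 0 - C (z (X 0)) := by
  simp [g1, pderiv_X, Derivation.leibniz]

theorem g2_d [CharZero F] (z : R F →ₐ[F] F) : pderiv 1 (g2 z) = X 1 - C (z (X 1)) := by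
  rw [g2, pderiv_C_mul, pderiv_pow]
  simp only [map_sub, pderiv_X_self, pderiv_C, sub_zero, mul_one]
  have h := half2 (F := F)
  push_cast
  linear_combination (X 1 - C (z (X 1))) * h

theorem zX (z : R F →ₐ[F] F) (i : Fin 5) : z (X i - C (z (X i))) = 0 := by
  have : z (C (z (X i))) = z (X i) := by
    rw [← algebraMap_eq, AlgHom.commutes]; rfl
  rw [map_sub, this, sub_self]

/-- `bZ` and `Vd` on functions of `x`, `y` -/
theorem bZ_s {A : Fin 3 → R F} {g : R F} (hg : g ∈ supported F ({0, 1} : Set (Fin 5))) :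
    bZ A g = 0 := by
  rw [bZ_apply, pd0 hg (i := 2) (by decide), pd0 hg (i := 3) (by decide),
    pd0 hg (i := 4) (by decide)]; ring

theorem vd_s {A : Fin 3 → R F} {g : R F} (hg : g ∈ supported F ({0, 1} : Set (Fin 5))) :
    Vd A g = pderiv 0 g := by
  rw [vd_apply, pd0 hg (i := 2) (by decide), pd0 hg (i := 3) (by decide),
    pd0 hg (i := 4) (by decide)]; ring

theorem cX10_g1 {A : Fin 3 → R F} {j : Fin 3} (z : R F →ₐ[F] F) (h : A j = g1 z) :
    cmp (bX10 A) j = 1 := by
  rw [cX10, h, bZ_s (g1_s z), vd_s (pds (g1_s z) 1), g1_d]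
  simp

theorem cX10_g2 [CharZero F] {A : Fin 3 → R F} {j : Fin 3} (z : R F →ₐ[F] F) (h : A j = g2 z) :
    cmp (bX10 A) j = 0 := by
  rw [cX10, h, bZ_s (g2_s z), vd_s (pds (g2_s z) 1), g2_d]
  simp [pderiv_X]

theorem cX01_g1 {A : Fin 3 → R F} {j : Fin 3} (z : R F →ₐ[F] F) (h : A j = g1 z) :
    cmp (bX01 A) j = 0 := by
  rw [cX01, h, g1_d]
  simp [pderiv_X]

theorem cX01_g2 [CharZero F] {A : Fin 3 → R F} {j : Fin 3} (z : R F →ₐ[F] F) (h : A j = g2 z) :
    cmp (bX01 A) j = 1 := by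
  rw [cX01, h, g2_d]
  simp

/-! ### Systems of size one -/

theorem supp_mono {s t : Set (Fin 5)} (h : s ⊆ t) {g : R F} (hg : g ∈ supported F s) :
    g ∈ supported F t := supported_mono h hg

/-- the integral -/
theorem prim [CharZero F] (hPO : S_PO) {A : Fin 3 → R F} (hA : Tri A) (h : pderiv 1 (A 0) = 0) :
    ∃ H ∈ supported F ({0, 1} : Set (Fin 5)), pderiv 0 H = A 0 ∧ pderiv 1 H = 0 := by
  obtain ⟨H, hH, h1⟩ := hPO F {0, 1} ![A 0, 0, 0, 0, 0] (fun i => by
    fin_cases i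
    · exact hA.1
    all_goals exact zero_mem _) (fun i hi => by
    fin_cases i
    · simp at hi
    all_goals rfl) (fun i j => by
    have h2 := pd0 hA.1 (i := 2) (by decide)
    have h3 := pd0 hA.1 (i := 3) (by decide)
    have h4 := pd0 hA.1 (i := 4) (by decide)
    fin_cases i <;> fin_cases j <;> simp [h, h2, h3, h4])
  exact ⟨H, hH, h1 0, h1 1⟩

theorem size1 [CharZero F] (hPO : S_PO) {A : Fin 3 → R F} (hA : Tri A) (h1 : A 1 = 0)
    (h2 : A 2 = 0) : Good A := by
  by_cases h0 : pderiv 1 (A 0) = 0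
  · obtain ⟨H, hH, hH0, hH1⟩ := prim hPO hA h0
    let z : R F →ₐ[F] F := aeval 0
    refine ⟨![X 1, g1 z, g2 z], mp_mk A _ ![H, 0, 0] ?_ ?_, ⟨?_, ?_, ?_⟩, z, ?_⟩
    · intro i
      fin_cases i
      · exact hH1
      · exact map_zero _
      · exact map_zero _
    · intro i
      fin_cases i
      · change aeval _ (A 0) = Vd _ H
        rw [vd_s hH, hH0]
        refine ae_id hA.1 fun i hi => ?_
        rcases hi with rfl | hi
        · rfl
        · rw [Set.mem_singleton_iff.1 hi]; rfl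
      · change aeval _ (A 1) = Vd _ 0
        rw [h1, map_zero, map_zero]
      · change aeval _ (A 2) = Vd _ 0
        rw [h2, map_zero, map_zero]
    · exact X_sup (by simp)
    · exact supp_mono (by intro i; simp; tauto) (g1_s z)
    · exact supp_mono (by intro i; simp; tauto) (g2_s z)
    · rw [typeA_iff, d3_eq, cZ, cZ, cZ, cX10_g1 (j := 1) z rfl,
        cX10_g2 (j := 2) z rfl, cX01_g1 (j := 1) z rfl, cX01_g2 (j := 2) z rfl]
      have e1 : pderiv 1 ((![X 1, g1 z, g2 z] : Fin 3 → R F) 0) = 1 := pderiv_X_self _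
      have e2 : pderiv 1 ((![X 1, g1 z, g2 z] : Fin 3 → R F) 1) = X 0 - C (z (X 0)) := g1_d z
      have e3 : pderiv 1 ((![X 1, g1 z, g2 z] : Fin 3 → R F) 2) = X 1 - C (z (X 1)) := g2_d z
      rw [e1, e2, e3]
      have e4 := zX z 0
      have e5 := zX z 1

      simp only [map_add, map_sub, map_mul, map_one, map_zero, e4, e5]
      simp
  · obtain ⟨z, hz⟩ := exists_pt h0
    refine ⟨![A 0, g1 z, g2 z], mp_mk A _ ![X 2, 0, 0] ?_ ?_, ⟨?_, ?_, ?_⟩, z, ?_⟩
    · intro i
      fin_cases i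
      · exact pderiv_X_of_ne (by decide)
      · exact map_zero _
      · exact map_zero _
    · intro i
      fin_cases i
      · change aeval _ (A 0) = Vd _ (X 2)
        have e : Vd ![A 0, g1 z, g2 z] (X 2) = A 0 := by rw [Vd, mkDerivation_X]; rfl
        rw [e]
        refine ae_id hA.1 fun i hi => ?_
        rcases hi with rfl | hi
        · rfl
        · rw [Set.mem_singleton_iff.1 hi]; rfl
      · change aeval _ (A 1) = Vd _ 0
        rw [h1, map_zero, map_zero]
      · change aeval _ (A 2) = Vd _ 0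
        rw [h2, map_zero, map_zero]
    · exact hA.1
    · exact supp_mono (by intro i; simp; tauto) (g1_s z)
    · exact supp_mono (by intro i; simp; tauto) (g2_s z)
    · rw [typeA_iff, d3_eq, cZ, cZ, cZ, cX10_g1 (j := 1) z rfl,
        cX10_g2 (j := 2) z rfl, cX01_g1 (j := 1) z rfl, cX01_g2 (j := 2) z rfl]
      have e2 : pderiv 1 ((![A 0, g1 z, g2 z] : Fin 3 → R F) 1) = X 0 - C (z (X 0)) := g1_d z
      have e3 : pderiv 1 ((![A 0, g1 z, g2 z] : Fin 3 → R F) 2) = X 1 - C (z (X 1)) := g2_d z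
      rw [e2, e3]
      have e4 := zX z 0
      have e5 := zX z 1

      simp only [map_add, map_sub, map_mul, map_one, map_zero, e4, e5]
      simpa using hz

/-! ### Full systems of size two -/

theorem mem01 {f : Fin 5 → R F} (h0 : f 0 = X 0) (h1 : f 1 = X 1) :
    ∀ i ∈ ({0, 1} : Set (Fin 5)), f i = X i := by
  intro i hi
  rcases hi with rfl | hi
  · exact h0
  · rw [Set.mem_singleton_iff.1 hi]; exact h1

theorem mem012 {f : Fin 5 → R F} (h0 : f 0 = X 0) (h1 : f 1 = X 1) (h2 : f 2 = X 2) :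
    ∀ i ∈ ({0, 1, 2} : Set (Fin 5)), f i = X i := by
  intro i hi
  rcases hi with rfl | rfl | hi
  · exact h0
  · exact h1
  · rw [Set.mem_singleton_iff.1 hi]; exact h2

theorem mem0123 {f : Fin 5 → R F} (h0 : f 0 = X 0) (h1 : f 1 = X 1) (h2 : f 2 = X 2)
    (h3 : f 3 = X 3) : ∀ i ∈ ({0, 1, 2, 3} : Set (Fin 5)), f i = X i := by
  intro i hi
  rcases hi with rfl | rfl | rfl | hi
  · exact h0
  · exact h1
  · exact h2
  · rw [Set.mem_singleton_iff.1 hi]; exact h3

/-- the first components of the brackets only depend on the first components -/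
theorem same {A : Fin 3 → R F} (hA : Tri A) (g : R F) :
    cmp (bX10 ![A 0, A 1, g]) 0 = cmp (bX10 A) 0 ∧ cmp (bX10 ![A 0, A 1, g]) 1 = cmp (bX10 A) 1 := by
  have a2 := pd0 hA.1 (i := 2) (by decide)
  have a3 := pd0 hA.1 (i := 3) (by decide)
  have a4 := pd0 hA.1 (i := 4) (by decide)
  have b2 := pd0 (pds hA.1 1) (i := 2) (by decide)
  have b3 := pd0 (pds hA.1 1) (i := 3) (by decide)
  have b4 := pd0 (pds hA.1 1) (i := 4) (by decide)
  have c3 := pd0 hA.2.1 (i := 3) (by decide)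
  have c4 := pd0 hA.2.1 (i := 4) (by decide)
  have d3 := pd0 (pds hA.2.1 1) (i := 3) (by decide)
  have d4 := pd0 (pds hA.2.1 1) (i := 4) (by decide)
  constructor
  · rw [cX10, cX10, vd_apply, vd_apply, bZ_apply, bZ_apply]
    simp [a2, a3, a4, b2, b3, b4]
  · rw [cX10, cX10, vd_apply, vd_apply, bZ_apply, bZ_apply]
    simp [c3, c4, d3, d4]

theorem full2 [CharZero F] {A : Fin 3 → R F} (hA : Tri A)
    (hd : d2 (cmp (bZ A)) (cmp (bX10 A)) ≠ 0 ∨ d2 (cmp (bZ A)) (cmp (bX01 A)) ≠ 0)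
    {H : R F} (hH : H ∈ supported F ({0, 2, 3} : Set (Fin 5)))
    (hA2 : A 2 = pderiv 0 H + A 0 * pderiv 2 H + A 1 * pderiv 3 H) : Good A := by
  have key : ∀ g : R F, g ∈ supported F ({0, 1} : Set (Fin 5)) →
      Tri ![A 0, A 1, g] ∧ Mp A ![A 0, A 1, g] := by
    intro g hg
    refine ⟨⟨hA.1, hA.2.1, supp_mono (by intro i; simp; tauto) hg⟩,
      mp_mk A _ ![X 2, X 3, H] ?_ ?_⟩
    · intro i
      fin_cases i
      · exact pderiv_X_of_ne (by decide)
      · exact pderiv_X_of_ne (by decide)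
      · exact pd0 hH (by decide)
    · intro i
      fin_cases i
      · change aeval _ (A 0) = Vd _ (X 2)
        have e : Vd ![A 0, A 1, g] (X 2) = A 0 := by rw [Vd, mkDerivation_X]; rfl
        rw [e]
        exact ae_id hA.1 (mem01 rfl rfl)
      · change aeval _ (A 1) = Vd _ (X 3)
        have e : Vd ![A 0, A 1, g] (X 3) = A 1 := by rw [Vd, mkDerivation_X]; rfl
        rw [e]
        exact ae_id hA.2.1 (mem012 rfl rfl rfl)
      · change aeval _ (A 2) = Vd _ H
        rw [vd_apply, pd0 hH (i := 4) (by decide), mul_zero, add_zero]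
        refine Eq.trans ?_ hA2
        exact ae_id hA.2.2 (mem0123 rfl rfl rfl rfl)
  rcases hd with hd | hd
  · obtain ⟨z, hz⟩ := exists_pt hd
    obtain ⟨h1, h2⟩ := key (g2 z) (g2_s z)
    refine ⟨_, h2, h1, z, ?_⟩
    rw [typeA_iff, d3_eq, (same hA _).1, (same hA _).2, cX10_g2 (j := 2) z rfl,
      cX01_g2 (j := 2) z rfl, cZ, cZ, cZ]
    have e3 : pderiv 1 ((![A 0, A 1, g2 z] : Fin 3 → R F) 2) = X 1 - C (z (X 1)) := g2_d z
    rw [e3]
    rw [d2, cZ, cZ] at hz
    have e5 := zX z 1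

    simp only [map_add, map_sub, map_mul, map_one, map_zero, e5] at hz ⊢
    simpa using hz
  · obtain ⟨z, hz⟩ := exists_pt hd
    obtain ⟨h1, h2⟩ := key (g1 z) (g1_s z)
    refine ⟨_, h2, h1, z, ?_⟩
    rw [typeA_iff, d3_eq, cX10_g1 (j := 2) z rfl,
      cX01_g1 (j := 2) z rfl, cZ, cZ, cZ, cX01, cX01]
    have e3 : pderiv 1 ((![A 0, A 1, g1 z] : Fin 3 → R F) 2) = X 0 - C (z (X 0)) := g1_d z
    rw [e3]
    rw [d2, cZ, cZ, cX01, cX01] at hz
    have e5 := zX z 0

    simp only [map_add, map_sub, map_mul, map_one, map_zero, e5] at hz ⊢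
    have h3 : z (pderiv 1 (A 1)) * z (pderiv 1 (pderiv 1 (A 0))) -
        z (pderiv 1 (A 0)) * z (pderiv 1 (pderiv 1 (A 1))) ≠ 0 := by
      intro h
      apply hz
      linear_combination -h
    simp
    intro h
    apply h3
    linear_combination h

/-! ### Systems of size two -/

theorem size2 [CharZero F] (hPO : S_PO) (hL2 : S_L2) {A : Fin 3 → R F} (hA : Tri A)
    (h2 : A 2 = 0) : Good A := by
  by_cases h0 : pderiv 1 (A 0) = 0
  · obtain ⟨H, hH, hH0, hH1⟩ := prim hPO hA h0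
    have hg : aeval ![X 0, X 1, H, X 2, 0] (A 1) ∈ supported F ({0, 1} : Set (Fin 5)) := by
      refine ae_supp hA.2.1 fun i hi => ?_
      rcases hi with rfl | rfl | hi
      · exact X_sup (by simp)
      · exact X_sup (by simp)
      · rw [Set.mem_singleton_iff.1 hi]; exact hH
    refine Good.of (A' := ![aeval ![X 0, X 1, H, X 2, 0] (A 1), 0, 0])
      (mp_mk A _ ![H, X 2, 0] ?_ ?_)
      (size1 hPO ⟨hg, zero_mem _, zero_mem _⟩ rfl rfl)
    · intro i
      fin_cases i
      · exact hH1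
      · exact pderiv_X_of_ne (by decide)
      · exact map_zero _
    · intro i
      fin_cases i
      · change aeval _ (A 0) = Vd _ H
        rw [vd_s hH, hH0]
        exact ae_id hA.1 (mem01 rfl rfl)
      · change aeval _ (A 1) = Vd _ (X 2)
        rw [Vd, mkDerivation_X]; rfl
      · change aeval _ (A 2) = Vd _ 0
        rw [h2, map_zero, map_zero]
  · by_cases hd : d2 (cmp (bZ A)) (cmp (bX10 A)) ≠ 0 ∨ d2 (cmp (bZ A)) (cmp (bX01 A)) ≠ 0
    · exact full2 hA hd (H := 0) (zero_mem _) (by simp [h2])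
    · push Not at hd
      obtain ⟨H, hH, h3⟩ := hL2 F A hA (by rw [cZ]; exact h0) hd.1 hd.2
      refine Good.of (A' := ![A 0, 0, 0]) (mp_mk A _ ![X 2, H, 0] ?_ ?_)
        (size1 hPO ⟨hA.1, zero_mem _, zero_mem _⟩ rfl rfl)
      · intro i
        fin_cases i
        · exact pderiv_X_of_ne (by decide)
        · exact pd0 hH (by decide)
        · exact map_zero _
      · intro i
        fin_cases i
        · change aeval _ (A 0) = Vd _ (X 2)
          have e : Vd ![A 0, 0, 0] (X 2) = A 0 := by rw [Vd, mkDerivation_X]; rfl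
          rw [e]
          exact ae_id hA.1 (mem01 rfl rfl)
        · change aeval _ (A 1) = Vd _ H
          rw [vd_apply, pd0 hH (i := 3) (by decide), pd0 hH (i := 4) (by decide), mul_zero,
            mul_zero, add_zero, add_zero]
          refine Eq.trans ?_ h3
          exact ae_id hA.2.1 (mem012 rfl rfl rfl)
        · change aeval _ (A 2) = Vd _ 0
          rw [h2, map_zero, map_zero]

end Pool.Agent.N446.E8.RAP

namespace Pool.Agent.N446.E8

open MvPolynomial RAP

theorem t_RA (hPO : S_PO) (hL2 : S_L2) (hL3 : S_L3) (hTB : S_TB) : S_RA := by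
  intro F _ _ A hA
  have fin : Good A → ∃ (A' : Fin 3 → R F) (π : R F →ₐ[F] R F) (z : R F →ₐ[F] F), Tri A' ∧
      π (X 0) = X 0 ∧ π (X 1) = X 1 ∧ (∀ g, π (Vd A g) = Vd A' (π g)) ∧
      (∀ g, π (Wd F g) = Wd F (π g)) ∧ TypeA A' z := by
    rintro ⟨A', ⟨π, h0, h1, h2, h3⟩, h4, z, h5⟩
    exact ⟨A', π, z, h4, h0, h1, h2, h3, h5⟩
  by_cases h0 : pderiv 1 (A 0) = 0
  · right
    apply fin
    obtain ⟨H, hH, hH0, hH1⟩ := prim hPO hA h0
    have hg : aeval ![X 0, X 1, H, X 2, X 3] (A 1) ∈ supported F ({0, 1} : Set (Fin 5)) := by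
      refine ae_supp hA.2.1 fun i hi => ?_
      rcases hi with rfl | rfl | hi
      · exact X_sup (by simp)
      · exact X_sup (by simp)
      · rw [Set.mem_singleton_iff.1 hi]; exact hH
    have hg' : aeval ![X 0, X 1, H, X 2, X 3] (A 2) ∈ supported F ({0, 1, 2} : Set (Fin 5)) := by
      refine ae_supp hA.2.2 fun i hi => ?_
      rcases hi with rfl | rfl | rfl | hi
      · exact X_sup (by simp)
      · exact X_sup (by simp)
      · exact supp_mono (by intro i; simp; tauto) hH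
      · rw [Set.mem_singleton_iff.1 hi]; exact X_sup (by simp)
    refine Good.of (A' := ![aeval ![X 0, X 1, H, X 2, X 3] (A 1),
      aeval ![X 0, X 1, H, X 2, X 3] (A 2), 0]) (mp_mk A _ ![H, X 2, X 3] ?_ ?_)
      (size2 hPO hL2 ⟨hg, hg', zero_mem _⟩ rfl)
    · intro i
      fin_cases i
      · exact hH1
      · exact pderiv_X_of_ne (by decide)
      · exact pderiv_X_of_ne (by decide)
    · intro i
      fin_cases i
      · change aeval _ (A 0) = Vd _ H
        rw [vd_s hH, hH0]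
        exact ae_id hA.1 (mem01 rfl rfl)
      · change aeval _ (A 1) = Vd _ (X 2)
        rw [Vd, mkDerivation_X]; rfl
      · change aeval _ (A 2) = Vd _ (X 3)
        rw [Vd, mkDerivation_X]; rfl
  by_cases hd : d2 (cmp (bZ A)) (cmp (bX10 A)) ≠ 0 ∨ d2 (cmp (bZ A)) (cmp (bX01 A)) ≠ 0
  swap
  · right
    apply fin
    push Not at hd
    obtain ⟨H, hH, h3⟩ := hL2 F A hA (by rw [cZ]; exact h0) hd.1 hd.2
    have hg' : aeval ![X 0, X 1, X 2, H, X 3] (A 2) ∈ supported F ({0, 1, 2} : Set (Fin 5)) := by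
      refine ae_supp hA.2.2 fun i hi => ?_
      rcases hi with rfl | rfl | rfl | hi
      · exact X_sup (by simp)
      · exact X_sup (by simp)
      · exact X_sup (by simp)
      · rw [Set.mem_singleton_iff.1 hi]
        exact supp_mono (by intro i; simp; tauto) hH
    refine Good.of (A' := ![A 0, aeval ![X 0, X 1, X 2, H, X 3] (A 2), 0])
      (mp_mk A _ ![X 2, H, X 3] ?_ ?_)
      (size2 hPO hL2 ⟨hA.1, hg', zero_mem _⟩ rfl)
    · intro i
      fin_cases i
      · exact pderiv_X_of_ne (by decide)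
      · exact pd0 hH (by decide)
      · exact pderiv_X_of_ne (by decide)
    · intro i
      fin_cases i
      · change aeval _ (A 0) = Vd _ (X 2)
        have e : Vd ![A 0, aeval ![X 0, X 1, X 2, H, X 3] (A 2), 0] (X 2) = A 0 := by
          rw [Vd, mkDerivation_X]; rfl
        rw [e]
        exact ae_id hA.1 (mem01 rfl rfl)
      · change aeval _ (A 1) = Vd _ H
        rw [vd_apply, pd0 hH (i := 3) (by decide), pd0 hH (i := 4) (by decide), mul_zero,
          mul_zero, add_zero, add_zero]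
        refine Eq.trans ?_ h3
        exact ae_id hA.2.1 (mem012 rfl rfl rfl)
      · change aeval _ (A 2) = Vd _ (X 3)
        rw [Vd, mkDerivation_X]; rfl
  by_cases h3 : d3 (cmp (bZ A)) (cmp (bX10 A)) (cmp (bX01 A)) = 0
  swap
  · right
    apply fin
    obtain ⟨z, hz⟩ := exists_pt h3
    exact ⟨A, Mp.refl A, hA, z, (typeA_iff A z).2 hz⟩
  by_cases h4 : ∃ Y : Fin 3 → R F, (Y = cmp (bX20 A) ∨ Y = cmp (bX11 A) ∨ Y = cmp (bX02 A)) ∧
    (d3 (cmp (bZ A)) (cmp (bX10 A)) Y ≠ 0 ∨ d3 (cmp (bZ A)) (cmp (bX01 A)) Y ≠ 0)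
  · left
    exact hTB F A hA hd h3 h4
  · right
    apply fin
    push Not at h4
    obtain ⟨H, hH, h5⟩ := hL3 F A hA hd h3 h4
    exact full2 hA hd hH h5

end Pool.Agent.N446.E8
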